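import Pool.Agent.Helper84.CV.ToMal
import Pool.Agent.CVG.Mal

/-!
# CV-Line: formal solutions of the line system converge

Plan. `malgrange` with `Y = vec U`, `d = dpol e`, `H = Hpol B e v` (`dpol_ne`, `pol_ode`, `to_mal`), so all `vec U l` converge,
`U i j = vec U (finProdFinEquiv (i, j))`. For `C`: `chat_eq` gives `det kry • C = chat U e v`, whose entries are polynomials
in the entries of `U` (`aeval` of `Cpol`): `ConvPS.aeval` and `ConvPS.of_mul`.
-/

set_option autoImplicit false

open Matrix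

namespace Pool.Agent.Helper84.CV

private noncomputable def lnφ {n : ℕ} (U : Matrix (Fin n) (Fin n) (PowerSeries ℂ)) :
    MvPolynomial (Fin (n * n)) ℂ →+* PowerSeries ℂ :=
  (MvPolynomial.aeval (vec U)).toRingHom

private theorem lnφ_C {n : ℕ} (U : Matrix (Fin n) (Fin n) (PowerSeries ℂ)) (a : ℂ) :
    lnφ U (MvPolynomial.C a) = PowerSeries.C a := by
  show MvPolynomial.aeval (vec U) (MvPolynomial.C a) = _
  rw [MvPolynomial.aeval_C]
  rfl

private theorem lnφ_Ug {n : ℕ} (U : Matrix (Fin n) (Fin n) (PowerSeries ℂ)) :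
    (Ug n).map (lnφ U) = U := by
  refine Matrix.ext fun i j => ?_
  show MvPolynomial.aeval (vec U) (MvPolynomial.X (finProdFinEquiv (i, j))) = U i j
  rw [MvPolynomial.aeval_X, vec, Equiv.symm_apply_apply]

private theorem lnφ_d {n : ℕ} (U : Matrix (Fin n) (Fin n) (PowerSeries ℂ)) (e : Fin n → ℂ) :
    lnφ U (dpol e) = (kry U (fun i => PowerSeries.C (e i))).det := by
  unfold dpol
  rw [RingHom.map_det, RingHom.mapMatrix_apply, kry_map, lnφ_Ug]
  simp only [lnφ_C]

private theorem lnφ_chat {n : ℕ} (U : Matrix (Fin n) (Fin n) (PowerSeries ℂ)) (e v : Fin n → ℂ)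
    (i j : Fin n) : lnφ U (Cpol e v i j) =
      chat U (fun i => PowerSeries.C (e i)) (fun i => PowerSeries.C (v i)) i j := by
  have h := congrFun (congrFun (chat_map (lnφ U) (Ug n) (fun i => MvPolynomial.C (e i))
    (fun i => MvPolynomial.C (v i))) i) j
  rw [lnφ_Ug] at h
  simp only [lnφ_C] at h
  exact h

theorem line_converges {n : ℕ} (U C : Matrix (Fin n) (Fin n) (PowerSeries ℂ))
    (B : Matrix (Fin n) (Fin n) ℂ) (e v : Fin n → ℂ)
    (hode : ∀ i j, PowerSeries.derivative ℂ (U i j) = (C + (C * B.map PowerSeries.C -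
      B.map PowerSeries.C * C)) i j)
    (hcomm : U * C = C * U)
    (he : C.mulVec (fun i => PowerSeries.C (e i)) = fun i => PowerSeries.C (v i))
    (hkry : (kry U (fun i => PowerSeries.C (e i))).det ≠ 0)
    (hsep : ∃ (d : PowerSeries ℂ) (a b : Polynomial (PowerSeries ℂ)), d ≠ 0 ∧
      a * U.charpoly + b * Polynomial.derivative U.charpoly = Polynomial.C d) :
    (∀ i j, Pool.Agent.CVG.ConvPS (U i j)) ∧ (∀ i j, Pool.Agent.CVG.ConvPS (C i j)) := by
  obtain ⟨P, M, hP, hM⟩ := to_mal U C B e v hode hcomm he hkry hsep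
  have hY : ∀ l, Pool.Agent.CVG.ConvPS (vec U l) :=
    Pool.Agent.CVG.malgrange (vec U) (dpol e) (Hpol B e v)
      (dpol_ne U C B e v hode hcomm he hkry) (pol_ode U C B e v hode hcomm he hkry) P M hP hM
  refine ⟨?_, ?_⟩
  · intro i j
    have h := hY (finProdFinEquiv (i, j))
    unfold vec at h
    rwa [Equiv.symm_apply_apply] at h
  · intro i j
    have h1 : Pool.Agent.CVG.ConvPS (kry U (fun i => PowerSeries.C (e i))).det := by
      rw [← lnφ_d]
      exact Pool.Agent.CVG.ConvPS.aeval hY (dpol e)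
    have h2 : Pool.Agent.CVG.ConvPS
        (chat U (fun i => PowerSeries.C (e i)) (fun i => PowerSeries.C (v i)) i j) := by
      rw [← lnφ_chat]
      exact Pool.Agent.CVG.ConvPS.aeval hY (Cpol e v i j)
    refine Pool.Agent.CVG.ConvPS.of_mul h1 hkry ?_
    have h3 := congrFun (congrFun (chat_eq U C (fun i => PowerSeries.C (e i))
      (fun i => PowerSeries.C (v i)) hcomm he hkry) i) j
    rw [← h3] at h2
    exact h2

end Pool.Agent.Helper84.CV
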