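import Pool.Agent.Helper84.CV.Conn

/-!
# CV-B1: calculus of valuations of Laurent series

Elementary lemmas on `VGE` and the monomials `mo m = π^m`. Everything is checked on coefficients. `coeff_mul_Icc`: `HahnSeries.coeff_mul` is a sum over
`Finset.antidiagonal` of the supports; compare with `Finset.Icc a (m - b)` (`Finset.sum_bij` or
`Finset.sum_subset` after `Finset.sum_image`/`sum_nbij`): terms outside of the supports vanish, a pair in
the supports has `a ≤ i`, `b ≤ m - i`. `VGE.mul`, `coeff_mul_low` follow (empty sum, one term).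
`exists_VGE`: for `z ≠ 0` take `z.order` (`HahnSeries.coeff_eq_zero_of_lt_order`).
`VGE_inv`: `z = ofPowerSeries p` with `p` of invertible constant coefficient (`PowerSeries.isUnit_iff..`),
or: if `z⁻¹` had order `m < 0` then the coefficient of `z z⁻¹ = 1` at `m` is nonzero (`coeff_mul_low`).
-/

set_option autoImplicit false

namespace Pool.Agent.Helper84.CV

variable {K K' : Type} [Field K] [Field K']

theorem VGE.mono {a b : ℤ} {z : LaurentSeries K} (h : VGE b z) (hab : a ≤ b) : VGE a z :=
  fun j hj => h j (hj.trans_le hab)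

theorem VGE_zero (a : ℤ) : VGE a (0 : LaurentSeries K) := fun _ _ => rfl

theorem VGE.add {a : ℤ} {x y : LaurentSeries K} (hx : VGE a x) (hy : VGE a y) : VGE a (x + y) := by
  intro j hj
  rw [HahnSeries.coeff_add, hx j hj, hy j hj, add_zero]

theorem VGE.neg {a : ℤ} {x : LaurentSeries K} (hx : VGE a x) : VGE a (-x) := by
  intro j hj
  rw [HahnSeries.coeff_neg, hx j hj, neg_zero]

theorem VGE.sub {a : ℤ} {x y : LaurentSeries K} (hx : VGE a x) (hy : VGE a y) : VGE a (x - y) := by
  rw [sub_eq_add_neg]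
  exact hx.add hy.neg

theorem VGE.sum {α : Type} {a : ℤ} (s : Finset α) (f : α → LaurentSeries K)
    (h : ∀ i ∈ s, VGE a (f i)) : VGE a (∑ i ∈ s, f i) := by
  classical
  induction s using Finset.induction_on with
  | empty =>
    rw [Finset.sum_empty]
    exact VGE_zero a
  | insert i s hi ih =>
    rw [Finset.sum_insert hi]
    exact (h i (Finset.mem_insert_self i s)).add
      (ih fun j hj => h j (Finset.mem_insert_of_mem hj))

theorem coeff_mul_Icc {a b : ℤ} {x y : LaurentSeries K} (hx : VGE a x) (hy : VGE b y) (m : ℤ) :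
    (x * y).coeff m = ∑ i ∈ Finset.Icc a (m - b), x.coeff i * y.coeff (m - i) := by
  classical
  rw [HahnSeries.coeff_mul]
  have hinj : Set.InjOn Prod.fst
      ((Finset.antidiagonal x.isPWO_support y.isPWO_support m : Finset (ℤ × ℤ)) : Set (ℤ × ℤ)) := by
    intro p hp q hq hpq
    rw [Finset.mem_coe, Finset.mem_antidiagonal] at hp hq
    have h1 := hp.2.2
    have h2 := hq.2.2
    refine Prod.ext hpq ?_
    rw [hpq] at h1
    omega
  have h1 : ∑ i ∈ (Finset.antidiagonal x.isPWO_support y.isPWO_support m).image Prod.fst,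
      x.coeff i * y.coeff (m - i) =
      ∑ ij ∈ Finset.antidiagonal x.isPWO_support y.isPWO_support m,
        x.coeff ij.1 * y.coeff ij.2 := by
    rw [Finset.sum_image hinj]
    refine Finset.sum_congr rfl fun ij hij => ?_
    rw [Finset.mem_antidiagonal] at hij
    have h2 : m - ij.1 = ij.2 := by
      have := hij.2.2
      omega
    rw [h2]
  rw [← h1]
  refine Finset.sum_subset ?_ ?_
  · intro i hi
    rw [Finset.mem_image] at hi
    obtain ⟨ij, hij, rfl⟩ := hi
    rw [Finset.mem_antidiagonal] at hij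
    obtain ⟨h2, h3, h4⟩ := hij
    rw [Finset.mem_Icc]
    constructor
    · by_contra h5
      exact h2 (hx _ (by omega))
    · by_contra h5
      exact h3 (hy _ (by omega))
  · intro i _ hi
    by_contra h5
    apply hi
    rw [Finset.mem_image]
    refine ⟨(i, m - i), ?_, rfl⟩
    rw [Finset.mem_antidiagonal]
    refine ⟨?_, ?_, by simp⟩
    · intro h6
      exact h5 (by rw [h6, zero_mul])
    · intro h6
      exact h5 (by
        have h7 : y.coeff (m - i) = 0 := h6
        rw [h7, mul_zero])

theorem VGE.mul {a b : ℤ} {x y : LaurentSeries K} (hx : VGE a x) (hy : VGE b y) :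
    VGE (a + b) (x * y) := by
  intro j hj
  rw [coeff_mul_Icc hx hy, Finset.Icc_eq_empty (by omega), Finset.sum_empty]

theorem coeff_mul_low {a b : ℤ} {x y : LaurentSeries K} (hx : VGE a x) (hy : VGE b y) :
    (x * y).coeff (a + b) = x.coeff a * y.coeff b := by
  rw [coeff_mul_Icc hx hy, add_sub_cancel_right, Finset.Icc_self, Finset.sum_singleton,
    add_sub_cancel_left]

theorem mo_zero : (mo 0 : LaurentSeries K) = 1 := rfl

theorem mo_coeff (m j : ℤ) : (mo m : LaurentSeries K).coeff j = if j = m then 1 else 0 := by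
  unfold mo
  rw [HahnSeries.coeff_single]
  by_cases h : j = m
  · rw [if_pos h, if_pos h]
  · rw [if_neg h, if_neg h]

theorem VGE_mo (m : ℤ) : VGE m (mo m : LaurentSeries K) := by
  intro j hj
  rw [mo_coeff, if_neg (by omega)]

theorem VGE_one : VGE 0 (1 : LaurentSeries K) := by
  rw [← mo_zero]
  exact VGE_mo 0

theorem VGE.pow {a : ℤ} {x : LaurentSeries K} (hx : VGE a x) (k : ℕ) : VGE (k * a) (x ^ k) := by
  induction k with
  | zero =>
    rw [pow_zero, Nat.cast_zero, zero_mul]
    exact VGE_one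
  | succ k ih =>
    rw [pow_succ, Nat.cast_succ, add_mul, one_mul]
    exact ih.mul hx

theorem exists_VGE (z : LaurentSeries K) : ∃ k : ℤ, VGE k z :=
  ⟨z.order, fun _ hj => HahnSeries.coeff_eq_zero_of_lt_order hj⟩

theorem eq_zero_of_VGE {z : LaurentSeries K} (h : ∀ k : ℤ, VGE k z) : z = 0 := by
  ext j
  exact h (j + 1) j (by omega)

theorem mo_mul (a b : ℤ) : (mo a * mo b : LaurentSeries K) = mo (a + b) := by
  unfold mo
  rw [HahnSeries.single_mul_single, one_mul]

theorem mo_ne_zero (a : ℤ) : (mo a : LaurentSeries K) ≠ 0 := by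
  unfold mo
  exact HahnSeries.single_ne_zero one_ne_zero

theorem mo_pow (a : ℤ) (k : ℕ) : (mo a ^ k : LaurentSeries K) = mo (k * a) := by
  unfold mo
  rw [HahnSeries.single_pow, one_pow, nsmul_eq_mul]

theorem mo_inv (a : ℤ) : (mo a : LaurentSeries K)⁻¹ = mo (-a) := by
  refine inv_eq_of_mul_eq_one_right ?_
  rw [mo_mul, add_neg_cancel, mo_zero]

theorem coeff_mo_mul (m : ℤ) (z : LaurentSeries K) (j : ℤ) :
    (mo m * z).coeff j = z.coeff (j - m) := by
  unfold mo
  rw [HahnSeries.coeff_single_mul, one_mul]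

theorem coeff_C_mul (c : K) (z : LaurentSeries K) (j : ℤ) :
    (HahnSeries.C c * z).coeff j = c * z.coeff j := by
  rw [HahnSeries.C_mul_eq_smul, HahnSeries.coeff_smul, smul_eq_mul]

theorem single_eq (m : ℤ) (c : K) :
    (HahnSeries.single m c : LaurentSeries K) = HahnSeries.C c * mo m := by
  ext j
  rw [coeff_C_mul, mo_coeff, HahnSeries.coeff_single]
  split_ifs
  · rw [mul_one]
  · rw [mul_zero]

theorem VGE_C (c : K) : VGE 0 (HahnSeries.C c : LaurentSeries K) := by
  intro j hj
  rw [HahnSeries.C_apply, HahnSeries.coeff_single, if_neg (by omega)]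

theorem VGE_natCast (m : ℕ) : VGE 0 (m : LaurentSeries K) := by
  have h : ((m : ℕ) : LaurentSeries K) = HahnSeries.C (m : K) := by
    rw [map_natCast]
  rw [h]
  exact VGE_C _

theorem VGE_mo_mul (m a : ℤ) (z : LaurentSeries K) : VGE (m + a) (mo m * z) ↔ VGE a z := by
  constructor
  · intro h j hj
    have h1 := h (m + j) (by omega)
    rw [coeff_mo_mul, add_sub_cancel_left] at h1
    exact h1
  · intro h
    exact (VGE_mo m).mul h

theorem VGE_inv {z : LaurentSeries K} (h : VGE 0 z) (h0 : z.coeff 0 ≠ 0) : VGE 0 z⁻¹ := by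
  have hz : z ≠ 0 := by
    rintro rfl
    exact h0 rfl
  have h1 : VGE (z⁻¹.order) z⁻¹ := fun _ hj => HahnSeries.coeff_eq_zero_of_lt_order hj
  by_cases h2 : 0 ≤ z⁻¹.order
  · exact h1.mono h2
  · exfalso
    have h3 := coeff_mul_low h h1
    rw [mul_inv_cancel₀ hz, zero_add, ← mo_zero, mo_coeff, if_neg (by omega)] at h3
    have h4 : z⁻¹.coeff z⁻¹.order ≠ 0 := by
      rw [ne_eq, HahnSeries.coeff_order_eq_zero]
      exact inv_ne_zero hz
    exact mul_ne_zero h0 h4 h3.symm

/-- approximation by a finite sum of monomials -/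
theorem exists_trunc {a : ℤ} {z : LaurentSeries K} (hz : VGE a z) (M : ℤ) :
    VGE M (z - ∑ j ∈ Finset.Ico a M, HahnSeries.single j (z.coeff j)) := by
  intro j hj
  rw [HahnSeries.coeff_sub, HahnSeries.coeff_sum]
  by_cases hj2 : a ≤ j
  · rw [Finset.sum_eq_single j]
    · rw [HahnSeries.coeff_single_same, sub_self]
    · intro i _ hi
      exact HahnSeries.coeff_single_of_ne hi.symm
    · intro h
      exact absurd (Finset.mem_Ico.2 ⟨hj2, hj⟩) h
  · rw [hz j (by omega), zero_sub, neg_eq_zero]
    refine Finset.sum_eq_zero fun i hi => ?_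
    rw [Finset.mem_Ico] at hi
    exact HahnSeries.coeff_single_of_ne (by omega)

end Pool.Agent.Helper84.CV
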