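import Pool.Agent.Helper84.CV.B1

/-!
# CV-B1m: the derivations `dO`, `dI d` and the maps `tw`, `ram` of Laurent series

Everything is checked on coefficients (`dO_coeff`, `dI_coeff`, `tw_coeff`, `ram_coeff_mul`,
`ram_coeff_of_not_dvd`). `dI_tw`: on coefficients, `d'(φ(g) θ^j) = κ φ(d g) θ^j + j θ^(j-1) d'(θ) φ(g)`
(derivative of a `zpow` of a unit: by induction on the exponent, `Der.map_pow'`, `Der.map_inv'`).
-/

set_option autoImplicit false

namespace Pool.Agent.Helper84.CV

variable {K K' : Type} [Field K] [Field K']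

private theorem C_coeff (c : K) (j : ℤ) :
    (HahnSeries.C c : LaurentSeries K).coeff j = if j = 0 then c else 0 := by
  rw [← mul_one (HahnSeries.C c : LaurentSeries K), coeff_C_mul, ← mo_zero, mo_coeff]
  split_ifs <;> simp

private theorem d_one (d : Der K) : d 1 = 0 := by
  have h := d.leib 1 1
  rw [one_mul, one_mul, mul_one] at h
  have h2 : d 1 + d 1 - d 1 = d 1 - d 1 := by rw [← h]
  simpa using h2

private theorem d_zpow (d : Der K) (θ : Kˣ) (j : ℤ) :
    d ((θ ^ j : Kˣ) : K) = (j : K) * ((θ ^ j : Kˣ) : K) * (((θ⁻¹ : Kˣ) : K) * d (θ : K)) := by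
  have hθ : (θ : K) ≠ 0 := θ.ne_zero
  have hi : (θ : K) * ((θ⁻¹ : Kˣ) : K) = 1 := θ.mul_inv
  set u : K := ((θ⁻¹ : Kˣ) : K) * d (θ : K) with hu
  have hd : d (θ : K) = (θ : K) * u := by
    rw [hu, ← mul_assoc, hi, one_mul]
  induction j using Int.induction_on with
  | zero => simp [d_one]
  | succ i ih =>
    rw [_root_.zpow_add_one, Units.val_mul, d.leib, ih, hd]
    push_cast
    ring
  | pred i ih =>
    have e : ((θ ^ (-(i : ℤ)) : Kˣ) : K) = ((θ ^ (-(i : ℤ) - 1) : Kˣ) : K) * (θ : K) := by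
      rw [← Units.val_mul, ← _root_.zpow_add_one, sub_add_cancel]
    rw [e, d.leib, hd] at ih
    apply mul_right_cancel₀ hθ
    push_cast at ih ⊢
    linear_combination ih

private theorem coeff_int_mul (m : ℤ) (z : LaurentSeries K) (j : ℤ) :
    ((m : LaurentSeries K) * z).coeff j = (m : K) * z.coeff j := by
  rw [← map_intCast (HahnSeries.C : K →+* LaurentSeries K), coeff_C_mul]

private theorem coeff_nat_mul (m : ℕ) (z : LaurentSeries K) (j : ℤ) :
    ((m : LaurentSeries K) * z).coeff j = (m : K) * z.coeff j := by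
  rw [← map_natCast (HahnSeries.C : K →+* LaurentSeries K), coeff_C_mul]

private theorem npos (N : ℕ) [NeZero N] : (0 : ℤ) < (N : ℤ) := by
  exact_mod_cast Nat.pos_of_ne_zero (NeZero.ne N)

theorem VGE.outer {a : ℤ} {z : LaurentSeries K} (h : VGE a z) : VGE a (dO z) := by

  intro j hj
  rw [dO_coeff, h j hj, mul_zero]


theorem VGE.inner {a : ℤ} {z : LaurentSeries K} (d : Der K) (h : VGE a z) : VGE a (dI d z) := by

  intro j hj
  rw [dI_coeff, h j hj, map_zero]


theorem dO_mo (m : ℤ) : dO (mo m : LaurentSeries K) = (m : LaurentSeries K) * mo m := by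

  ext j
  rw [dO_coeff, coeff_int_mul, mo_coeff]
  split_ifs with h
  · rw [h]
  · simp


theorem dI_mo (d : Der K) (m : ℤ) : dI d (mo m : LaurentSeries K) = 0 := by

  ext j
  rw [dI_coeff, mo_coeff, HahnSeries.coeff_zero]
  split_ifs with h
  · exact d_one d
  · exact map_zero d


theorem dO_C (c : K) : dO (HahnSeries.C c : LaurentSeries K) = 0 := by

  ext j
  rw [dO_coeff, C_coeff, HahnSeries.coeff_zero]
  split_ifs with h
  · rw [h]
    simp
  · simp


theorem dI_C (d : Der K) (c : K) :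
    dI d (HahnSeries.C c : LaurentSeries K) = HahnSeries.C (d c) := by

  ext j
  rw [dI_coeff, C_coeff, C_coeff]
  split_ifs with h
  · rfl
  · exact map_zero d


theorem dO_dI (d : Der K) (z : LaurentSeries K) : dO (dI d z) = dI d (dO z) := by

  ext j
  rw [dO_coeff, dI_coeff, dI_coeff, dO_coeff, ← zsmul_eq_mul, ← zsmul_eq_mul, map_zsmul]


theorem VGE.twist {a : ℤ} {z : LaurentSeries K} (φ : K →+* K') (θ : K'ˣ) (h : VGE a z) :
    VGE a (tw φ θ z) := by

  intro j hj
  rw [tw_coeff, h j hj, map_zero, zero_mul]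


theorem tw_mo (φ : K →+* K') (θ : K'ˣ) (m : ℤ) :
    tw φ θ (mo m) = HahnSeries.C ((θ ^ m : K'ˣ) : K') * mo m := by

  ext j
  rw [tw_coeff, coeff_C_mul, mo_coeff, mo_coeff]
  split_ifs with h
  · rw [h, map_one, one_mul, mul_one]
  · rw [map_zero, zero_mul, mul_zero]


theorem tw_C (φ : K →+* K') (θ : K'ˣ) (c : K) :
    tw φ θ (HahnSeries.C c) = HahnSeries.C (φ c) := by

  ext j
  rw [tw_coeff, C_coeff, C_coeff]
  split_ifs with h
  · rw [h, zpow_zero, Units.val_one, mul_one]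
  · rw [map_zero, zero_mul]


theorem VGE.ramif (N : ℕ) [NeZero N] {a : ℤ} {z : LaurentSeries K} (h : VGE a z) :
    VGE (N * a) (ram N z) := by

  intro j hj
  by_cases hd : (N : ℤ) ∣ j
  · obtain ⟨i, rfl⟩ := hd
    rw [ram_coeff_mul]
    apply h
    exact lt_of_mul_lt_mul_left hj (npos N).le
  · exact ram_coeff_of_not_dvd N z j hd


theorem ram_mo (N : ℕ) [NeZero N] (m : ℤ) : ram N (mo m : LaurentSeries K) = mo (N * m) := by

  ext j
  by_cases hd : (N : ℤ) ∣ j
  · obtain ⟨i, rfl⟩ := hd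
    rw [ram_coeff_mul, mo_coeff, mo_coeff]
    have e : ((N : ℤ) * i = N * m) ↔ i = m := mul_right_inj' (npos N).ne'
    simp only [e]
  · rw [ram_coeff_of_not_dvd N _ j hd, mo_coeff, if_neg]
    rintro rfl
    exact hd ⟨m, rfl⟩


theorem ram_C (N : ℕ) [NeZero N] (c : K) :
    ram N (HahnSeries.C c : LaurentSeries K) = HahnSeries.C c := by

  ext j
  by_cases hd : (N : ℤ) ∣ j
  · obtain ⟨i, rfl⟩ := hd
    rw [ram_coeff_mul, C_coeff, C_coeff]
    have e : ((N : ℤ) * i = 0) ↔ i = 0 := by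
      constructor
      · intro h
        rcases mul_eq_zero.mp h with h | h
        · exact absurd h (npos N).ne'
        · exact h
      · rintro rfl
        exact mul_zero _
    simp only [e]
  · rw [ram_coeff_of_not_dvd N _ j hd, C_coeff, if_neg]
    rintro rfl
    exact hd ⟨0, by simp⟩


theorem ram_one (z : LaurentSeries K) : ram 1 z = z := by

  ext j
  have h := ram_coeff_mul 1 z j
  simpa using h


theorem ram_ram (M N : ℕ) [NeZero M] [NeZero N] [NeZero (M * N)] (z : LaurentSeries K) :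
    ram N (ram M z) = ram (M * N) z := by

  ext j
  by_cases hd : (N : ℤ) ∣ j
  · obtain ⟨i, rfl⟩ := hd
    rw [ram_coeff_mul]
    by_cases hd2 : (M : ℤ) ∣ i
    · obtain ⟨k, rfl⟩ := hd2
      rw [ram_coeff_mul]
      have e : (N : ℤ) * (M * k) = ((M * N : ℕ) : ℤ) * k := by
        push_cast
        ring
      rw [e, ram_coeff_mul]
    · rw [ram_coeff_of_not_dvd M _ i hd2, ram_coeff_of_not_dvd (M * N)]
      rintro ⟨k, hk⟩
      apply hd2
      refine ⟨k, ?_⟩
      have e : (N : ℤ) * i = N * (M * k) := by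
        rw [hk]
        push_cast
        ring
      exact mul_left_cancel₀ (npos N).ne' e
  · rw [ram_coeff_of_not_dvd N _ j hd, ram_coeff_of_not_dvd (M * N)]
    rintro ⟨k, hk⟩
    apply hd
    refine ⟨M * k, ?_⟩
    rw [hk]
    push_cast
    ring


theorem dO_ram (N : ℕ) [NeZero N] (z : LaurentSeries K) :
    dO (ram N z) = (N : LaurentSeries K) * ram N (dO z) := by

  ext j
  rw [dO_coeff, coeff_nat_mul]
  by_cases hd : (N : ℤ) ∣ j
  · obtain ⟨i, rfl⟩ := hd
    rw [ram_coeff_mul, ram_coeff_mul, dO_coeff]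
    push_cast
    ring
  · rw [ram_coeff_of_not_dvd N _ j hd, ram_coeff_of_not_dvd N _ j hd, mul_zero, mul_zero]


theorem dI_ram (N : ℕ) [NeZero N] (d : Der K) (z : LaurentSeries K) :
    dI d (ram N z) = ram N (dI d z) := by

  ext j
  rw [dI_coeff]
  by_cases hd : (N : ℤ) ∣ j
  · obtain ⟨i, rfl⟩ := hd
    rw [ram_coeff_mul, ram_coeff_mul, dI_coeff]
  · rw [ram_coeff_of_not_dvd N _ j hd, ram_coeff_of_not_dvd N _ j hd, map_zero]


theorem dO_tw (φ : K →+* K') (θ : K'ˣ) (z : LaurentSeries K) :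
    dO (tw φ θ z) = tw φ θ (dO z) := by

  ext j
  rw [dO_coeff, tw_coeff, tw_coeff, dO_coeff, map_mul, map_intCast]
  ring


theorem dI_tw (φ : K →+* K') (θ : K'ˣ) (d : Der K) (d' : Der K') (κ : K')
    (h : ∀ x, d' (φ x) = κ * φ (d x)) (z : LaurentSeries K) :
    dI d' (tw φ θ z) = HahnSeries.C κ * tw φ θ (dI d z) +
      HahnSeries.C (((θ⁻¹ : K'ˣ) : K') * d' (θ : K')) * tw φ θ (dO z) := by

  ext j
  rw [HahnSeries.coeff_add, coeff_C_mul, coeff_C_mul, dI_coeff, tw_coeff, tw_coeff, tw_coeff,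
    dI_coeff, dO_coeff, d'.leib, h, d_zpow, map_mul, map_intCast]
  ring


end Pool.Agent.Helper84.CV
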