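import Pool.Agent.Helper84.CV.B1m

/-!
# CV-B2: matrices over Laurent series, gauge transformations

`ga d A G = G⁻¹ (dG + A G)` is the matrix of the connection `d + A` in the basis of the columns of `G`.
`dM_inv`: differentiate `G G⁻¹ = 1`. `ga_mul`: expand, using `dM_mul`. `flat_ga`: with
`A_i' = G⁻¹ (d_i G + A_i G)`, `d_1 A_2' - d_2 A_1' + [A_1', A_2'] = G⁻¹ (curvature) G`; uses
`d_1 d_2 G = d_2 d_1 G`. `MVGE` lemmas are entrywise consequences of B1 (`Matrix.mul_apply`,
`VGE.sum`, `VGE.mul`), `co_mul_low` of `coeff_mul_low`.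
-/

set_option autoImplicit false

open Matrix

namespace Pool.Agent.Helper84.CV

section der

variable {A : Type} [CommRing A] {m n o : Type} [Fintype n]

theorem dM_zero (d : Der A) : dM d (0 : Matrix m o A) = 0 := by
  ext i j
  rw [dM_apply, Matrix.zero_apply, map_zero]

theorem dM_add (d : Der A) (M M' : Matrix m o A) : dM d (M + M') = dM d M + dM d M' := by
  ext i j
  rw [dM_apply, Matrix.add_apply, Matrix.add_apply, dM_apply, dM_apply, map_add]

theorem dM_sub (d : Der A) (M M' : Matrix m o A) : dM d (M - M') = dM d M - dM d M' := by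
  ext i j
  rw [dM_apply, Matrix.sub_apply, Matrix.sub_apply, dM_apply, dM_apply, map_sub]

theorem dM_neg (d : Der A) (M : Matrix m o A) : dM d (-M) = -dM d M := by
  ext i j
  rw [dM_apply, Matrix.neg_apply, Matrix.neg_apply, dM_apply, map_neg]

theorem dM_smul (d : Der A) (g : A) (M : Matrix m o A) :
    dM d (g • M) = g • dM d M + d g • M := by
  ext i j
  rw [dM_apply, Matrix.smul_apply, Matrix.add_apply, Matrix.smul_apply, Matrix.smul_apply,
    dM_apply, smul_eq_mul, smul_eq_mul, smul_eq_mul, d.leib]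

theorem dM_sum (d : Der A) {α : Type} (s : Finset α) (M : α → Matrix m o A) :
    dM d (∑ i ∈ s, M i) = ∑ i ∈ s, dM d (M i) := by
  ext i j
  rw [dM_apply, Matrix.sum_apply, map_sum, Matrix.sum_apply]
  rfl

theorem dM_mul (d : Der A) (M : Matrix m n A) (M' : Matrix n o A) :
    dM d (M * M') = M * dM d M' + dM d M * M' := by
  ext i j
  rw [dM_apply, Matrix.mul_apply, map_sum, Matrix.add_apply, Matrix.mul_apply, Matrix.mul_apply,
    ← Finset.sum_add_distrib]
  apply Finset.sum_congr rfl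
  intro k _
  rw [d.leib, dM_apply, dM_apply]

theorem dM_one [DecidableEq n] (d : Der A) : dM d (1 : Matrix n n A) = 0 := by
  have h1 : d 1 = 0 := by
    have h := d.leib 1 1
    rw [one_mul, one_mul, mul_one] at h
    exact left_eq_add.1 h
  ext i j
  rw [dM_apply, Matrix.zero_apply, Matrix.one_apply]
  by_cases hij : i = j
  · rw [if_pos hij, h1]
  · rw [if_neg hij, map_zero]

theorem dM_ad (d e : Der A) (M : Matrix m o A) : dM (Der.ad d e) M = dM d M + dM e M := by
  ext i j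
  rw [dM_apply, Matrix.add_apply, dM_apply, dM_apply, Der.ad_apply]

theorem dM_sm (g : A) (d : Der A) (M : Matrix m o A) : dM (Der.sm g d) M = g • dM d M := by
  ext i j
  rw [dM_apply, Matrix.smul_apply, dM_apply, Der.sm_apply, smul_eq_mul]

end der

section gauge

variable {ι : Type} [Fintype ι] [DecidableEq ι] {L L' : Type} [Field L] [Field L']

private theorem b2_map_inv (φ : L →+* L') (G : Matrix ι ι L) (hG : IsUnit G.det) :
    (G⁻¹).map φ = (G.map φ)⁻¹ := by
  symm
  apply Matrix.inv_eq_right_inv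
  rw [← Matrix.map_mul, Matrix.mul_nonsing_inv G hG]
  exact Matrix.map_one φ (map_zero φ) (map_one φ)

theorem dM_inv (d : Der L) (G : Matrix ι ι L) (hG : IsUnit G.det) :
    dM d G⁻¹ = -(G⁻¹ * dM d G * G⁻¹) := by
  have h1 := dM_mul d G G⁻¹
  rw [Matrix.mul_nonsing_inv G hG, dM_one] at h1
  have h2 : G⁻¹ * (G * dM d G⁻¹ + dM d G * G⁻¹) = 0 := by
    rw [← h1, mul_zero]
  rw [mul_add, ← mul_assoc, Matrix.nonsing_inv_mul G hG, one_mul, ← mul_assoc] at h2
  exact eq_neg_of_add_eq_zero_left h2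

theorem isUnit_det_inv (G : Matrix ι ι L) (hG : IsUnit G.det) : IsUnit G⁻¹.det := by
  exact Matrix.isUnit_nonsing_inv_det G hG

theorem ga_one (d : Der L) (A : Matrix ι ι L) : ga d A 1 = A := by
  unfold ga
  rw [inv_one, dM_one, zero_add, mul_one, one_mul]

theorem ga_mul (d : Der L) (A G H : Matrix ι ι L) (hG : IsUnit G.det) :
    ga d A (G * H) = ga d (ga d A G) H := by
  unfold ga
  have h1 := Matrix.nonsing_inv_mul G hG
  rw [Matrix.mul_inv_rev, dM_mul]
  have h2 : H⁻¹ * G⁻¹ * (G * dM d H + dM d G * H + A * (G * H)) =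
      H⁻¹ * ((G⁻¹ * G) * dM d H + G⁻¹ * (dM d G + A * G) * H) := by noncomm_ring
  rw [h2, h1, one_mul]

theorem ga_ad_sm (d e : Der L) (g : L) (A A' G : Matrix ι ι L) :
    ga (Der.ad d (Der.sm g e)) (A + g • A') G = ga d A G + g • ga e A' G := by
  unfold ga
  rw [dM_ad, dM_sm, Matrix.add_mul, Matrix.smul_mul,
    ← Matrix.mul_smul G⁻¹ g (dM e G + A' * G), ← Matrix.mul_add]
  congr 1
  rw [smul_add]
  abel

theorem ga_map (φ : L →+* L') (d : Der L) (d' : Der L') (h : ∀ x, d' (φ x) = φ (d x))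
    (A G : Matrix ι ι L) (hG : IsUnit G.det) :
    ga d' (A.map φ) (G.map φ) = (ga d A G).map φ := by
  unfold ga
  have h1 : dM d' (G.map φ) = (dM d G).map φ := by
    ext i j
    rw [dM_apply, Matrix.map_apply, Matrix.map_apply, dM_apply, h]
  rw [← b2_map_inv φ G hG, h1, ← Matrix.map_mul, ← Matrix.map_add φ (map_add φ), ← Matrix.map_mul]

/-- if `d' ∘ φ = κ φ ∘ e + φ ∘ d` -/
theorem ga_map_comb (φ : L →+* L') (d e : Der L) (d' : Der L') (κ : L')
    (h : ∀ x, d' (φ x) = κ * φ (e x) + φ (d x))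
    (A A' G : Matrix ι ι L) (hG : IsUnit G.det) :
    ga d' (A.map φ + κ • A'.map φ) (G.map φ) = (ga d A G).map φ + κ • (ga e A' G).map φ := by
  unfold ga
  have h1 : dM d' (G.map φ) = κ • (dM e G).map φ + (dM d G).map φ := by
    ext i j
    rw [dM_apply, Matrix.map_apply, Matrix.add_apply, Matrix.smul_apply, Matrix.map_apply,
      Matrix.map_apply, dM_apply, dM_apply, h, smul_eq_mul]
  rw [← b2_map_inv φ G hG, h1, Matrix.map_mul, Matrix.map_mul, Matrix.map_add φ (map_add φ),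
    Matrix.map_add φ (map_add φ), Matrix.map_mul, Matrix.map_mul, Matrix.add_mul, Matrix.smul_mul,
    ← Matrix.mul_smul (G⁻¹.map φ) κ ((dM e G).map φ + A'.map φ * G.map φ), ← Matrix.mul_add]
  congr 1
  rw [smul_add]
  abel

theorem isUnit_det_map (φ : L →+* L') (G : Matrix ι ι L) (hG : IsUnit G.det) :
    IsUnit (G.map φ).det := by
  have h1 : (G.map φ).det = φ G.det := (RingHom.map_det φ G).symm
  rw [h1]
  exact hG.map φ

theorem map_inv_matrix (φ : L →+* L') (G : Matrix ι ι L) (hG : IsUnit G.det) :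
    (G⁻¹).map φ = (G.map φ)⁻¹ := by
  exact b2_map_inv φ G hG

theorem flat_ga (d₁ d₂ : Der L) (hc : ∀ x, d₁ (d₂ x) = d₂ (d₁ x)) (A₁ A₂ G : Matrix ι ι L)
    (hG : IsUnit G.det) (h : Flat d₁ A₁ d₂ A₂) : Flat d₁ (ga d₁ A₁ G) d₂ (ga d₂ A₂ G) := by
  unfold Flat at h ⊢
  unfold ga
  have hGP := Matrix.mul_nonsing_inv G hG
  have hD : dM d₁ (dM d₂ G) = dM d₂ (dM d₁ G) := by
    ext i j
    rw [dM_apply, dM_apply, dM_apply, dM_apply, hc]
  rw [dM_mul d₁, dM_mul d₂, dM_inv d₁ G hG, dM_inv d₂ G hG, dM_add d₁, dM_add d₂, dM_mul d₁,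
    dM_mul d₂, hD]
  generalize dM d₂ (dM d₁ G) = D21
  generalize dM d₁ G = D1
  generalize dM d₂ G = D2
  generalize dM d₁ A₂ = E2 at h ⊢
  generalize dM d₂ A₁ = E1 at h ⊢
  generalize G⁻¹ = P at hGP ⊢
  have key : P * (D21 + (A₂ * D1 + E2 * G)) + -(P * D1 * P) * (D2 + A₂ * G) -
      (P * (D21 + (A₁ * D2 + E1 * G)) + -(P * D2 * P) * (D1 + A₁ * G)) +
      (P * (D1 + A₁ * G) * (P * (D2 + A₂ * G)) - P * (D2 + A₂ * G) * (P * (D1 + A₁ * G))) =
      P * (E2 - E1 + (A₁ * A₂ - A₂ * A₁)) * G + P * A₁ * (G * P - 1) * (D2 + A₂ * G) -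
        P * A₂ * (G * P - 1) * (D1 + A₁ * G) := by noncomm_ring
  rw [key, h, hGP]
  simp

end gauge

section val

variable {K : Type} [Field K] {m n o : Type} [Fintype n]

theorem MVGE.mono {a b : ℤ} {M : Matrix m o (LaurentSeries K)} (h : MVGE b M) (hab : a ≤ b) :
    MVGE a M := by
  exact fun i j => (h i j).mono hab

theorem MVGE_zero (a : ℤ) : MVGE a (0 : Matrix m o (LaurentSeries K)) := by
  intro i j
  rw [Matrix.zero_apply]
  exact VGE_zero a

theorem MVGE.add {a : ℤ} {M M' : Matrix m o (LaurentSeries K)} (h : MVGE a M) (h' : MVGE a M') :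
    MVGE a (M + M') := by
  intro i j
  rw [Matrix.add_apply]
  exact (h i j).add (h' i j)

theorem MVGE.neg {a : ℤ} {M : Matrix m o (LaurentSeries K)} (h : MVGE a M) : MVGE a (-M) := by
  intro i j
  rw [Matrix.neg_apply]
  exact (h i j).neg

theorem MVGE.sub {a : ℤ} {M M' : Matrix m o (LaurentSeries K)} (h : MVGE a M) (h' : MVGE a M') :
    MVGE a (M - M') := by
  intro i j
  rw [Matrix.sub_apply]
  exact (h i j).sub (h' i j)

theorem MVGE.smul {a b : ℤ} {g : LaurentSeries K} {M : Matrix m o (LaurentSeries K)}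
    (hg : VGE a g) (h : MVGE b M) : MVGE (a + b) (g • M) := by
  intro i j
  rw [Matrix.smul_apply, smul_eq_mul]
  exact hg.mul (h i j)

theorem MVGE.mul {a b : ℤ} {M : Matrix m n (LaurentSeries K)} {M' : Matrix n o (LaurentSeries K)}
    (h : MVGE a M) (h' : MVGE b M') : MVGE (a + b) (M * M') := by
  intro i j
  rw [Matrix.mul_apply]
  exact VGE.sum _ _ fun k _ => (h i k).mul (h' k j)

theorem co_mul_low {a b : ℤ} {M : Matrix m n (LaurentSeries K)}
    {M' : Matrix n o (LaurentSeries K)} (h : MVGE a M) (h' : MVGE b M') :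
    co (a + b) (M * M') = co a M * co b M' := by
  ext i j
  rw [Matrix.mul_apply]
  unfold co
  simp only [Matrix.of_apply]
  rw [Matrix.mul_apply, HahnSeries.coeff_sum]
  exact Finset.sum_congr rfl fun k _ => coeff_mul_low (h i k) (h' k j)

theorem MVGE_one [DecidableEq n] : MVGE 0 (1 : Matrix n n (LaurentSeries K)) := by
  intro i j
  rw [Matrix.one_apply]
  by_cases hij : i = j
  · rw [if_pos hij]
    exact VGE_one
  · rw [if_neg hij]
    exact VGE_zero 0

theorem co_one [DecidableEq n] : co 0 (1 : Matrix n n (LaurentSeries K)) = 1 := by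
  ext i j
  unfold co
  rw [Matrix.of_apply, Matrix.one_apply, Matrix.one_apply]
  by_cases hij : i = j
  · rw [if_pos hij, if_pos hij, HahnSeries.coeff_one, if_pos rfl]
  · rw [if_neg hij, if_neg hij, HahnSeries.coeff_zero]

theorem MVGE.mulVec {a b : ℤ} {M : Matrix m n (LaurentSeries K)} {v : n → LaurentSeries K}
    (h : MVGE a M) (h' : ∀ i, VGE b (v i)) (i : m) : VGE (a + b) ((M.mulVec v) i) := by
  exact VGE.sum _ _ fun k _ => (h i k).mul (h' k)

theorem MVGE.pow [DecidableEq n] {a : ℤ} {M : Matrix n n (LaurentSeries K)} (h : MVGE a M)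
    (k : ℕ) : MVGE (k * a) (M ^ k) := by
  induction k with
  | zero =>
    rw [pow_zero, Nat.cast_zero, zero_mul]
    exact MVGE_one
  | succ k ih =>
    rw [pow_succ]
    have h1 := ih.mul h
    have h2 : ((k + 1 : ℕ) : ℤ) * a = k * a + a := by
      push_cast
      ring
    rw [h2]
    exact h1

theorem co_pow_low [DecidableEq n] {a : ℤ} {M : Matrix n n (LaurentSeries K)} (h : MVGE a M)
    (k : ℕ) : co (k * a) (M ^ k) = co a M ^ k := by
  induction k with
  | zero =>
    rw [pow_zero, pow_zero, Nat.cast_zero, zero_mul]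
    exact co_one
  | succ k ih =>
    have h2 : ((k + 1 : ℕ) : ℤ) * a = k * a + a := by
      push_cast
      ring
    rw [pow_succ, pow_succ, h2, co_mul_low (h.pow k) h, ih]

theorem exists_MVGE [Finite m] [Finite o] (M : Matrix m o (LaurentSeries K)) :
    ∃ k : ℤ, MVGE k M := by
  choose k hk using fun p : m × o => exists_VGE (M p.1 p.2)
  obtain ⟨b, hb⟩ := (Set.finite_range k).bddBelow
  exact ⟨b, fun i j => (hk (i, j)).mono (hb ⟨(i, j), rfl⟩)⟩

/-- a common bound for a matrix and its inverse -/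
theorem exists_bound [DecidableEq n] (G : Matrix n n (LaurentSeries K)) :
    ∃ k : ℕ, MVGE (-(k : ℤ)) G ∧ MVGE (-(k : ℤ)) G⁻¹ := by
  obtain ⟨a, ha⟩ := exists_MVGE G
  obtain ⟨b, hb⟩ := exists_MVGE G⁻¹
  refine ⟨a.natAbs + b.natAbs, ha.mono ?_, hb.mono ?_⟩ <;> omega

end val

end Pool.Agent.Helper84.CV
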