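import Pool.Agent.Helper84.CV.FlatCn

/-!
# CV-Close: the variation of the connection form is closed

Notation: `a_i = d_i λ`, `Q = a_1 - S`, `R = (λ - U)⁻¹`; `A_1 = Q R B`, `A_2 = a_2 R B`;
`η1_j = Q R X_j R B - Y_j R B`, `η2_j = a_2 R X_j R B`.

Plan (direct computation). `S` commutes with `R` (`commute_inv`), so `Q R = R Q`. `d_1 R = -R (Q - [S, B]) R`,
`d_2 R = -a_2 R R`, `d_2 Q = b = d_1 a_2` (`d_2 S = 0`). With `[S, B] = B Q - Q B`:
`d_1 η2_j = b R X R B - a_2 R (Q - [S,B]) R X R B + a_2 R (Y + [Y,B] + ∑ t_lj X_l) R B - a_2 R X R (Q - [S,B]) R B`,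
`d_2 η1_j = b R X R B - a_2 Q R R X R B - a_2 Q R X R R B + a_2 Y R R B`.
In `d_1 η2 - d_2 η1 + [A_1, η2] - [A_2, η1] - ∑ t_lj η2_l` almost all terms cancel and what remains is
`a_2 Z (R B + B R B)` with `Z = R Y - Y R + Q R X R - R X R Q`. And `(λ - U) Z (λ - U) = Y (λ - U) - (λ - U) Y + Q X - X Q =
(U Y - Y U) - (S X - X S) = 0` by `hXY`. So `Z = 0`.
-/

set_option autoImplicit false

open Matrix

namespace Pool.Agent.Helper84.CV

private theorem close_zz {A : Type} [Ring A] (M R Q X Y : A) (h1 : M * R = 1) (h2 : R * M = 1)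
    (hQR : Q * R = R * Q) (h : Y * M - M * Y + Q * X - X * Q = 0) :
    R * Y - Y * R + Q * R * X * R - R * X * R * Q = 0 := by
  have h3 : R * (Y * M - M * Y + Q * X - X * Q) * R =
      R * Y * (M * R) - (R * M) * Y * R + R * Q * X * R - R * X * (Q * R) := by
    noncomm_ring
  rw [h, mul_zero, zero_mul, h1, h2, mul_one, one_mul, hQR, ← mul_assoc, ← hQR] at h3
  exact h3.symm

private theorem close_aux {A : Type} [Ring A] (Q R B X Y T : A) (hQR : Q * R = R * Q)
    (hZ : R * Y - Y * R + Q * R * X * R - R * X * R * Q = 0) :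
    (R * X * (-(R * (Q + (Q * B - B * Q)) * R)) + (R * (Y + (Y * B - B * Y) + T) +
        (-(R * (Q + (Q * B - B * Q)) * R)) * X) * R) * B -
      ((Q * R * X * (-(R * R)) + (Q * (-(R * R))) * X * R) * B - Y * (-(R * R)) * B) +
      (Q * R * B * (R * X * R * B) - R * X * R * B * (Q * R * B)) -
      (R * B * (Q * R * X * R * B - Y * R * B) - (Q * R * X * R * B - Y * R * B) * (R * B)) -
      R * T * R * B = 0 := by
  have h1 : (R * X * (-(R * (Q + (Q * B - B * Q)) * R)) + (R * (Y + (Y * B - B * Y) + T) +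
        (-(R * (Q + (Q * B - B * Q)) * R)) * X) * R) * B -
      ((Q * R * X * (-(R * R)) + (Q * (-(R * R))) * X * R) * B - Y * (-(R * R)) * B) +
      (Q * R * B * (R * X * R * B) - R * X * R * B * (Q * R * B)) -
      (R * B * (Q * R * X * R * B - Y * R * B) - (Q * R * X * R * B - Y * R * B) * (R * B)) -
      R * T * R * B =
      (R * Y - Y * R + Q * R * X * R - R * X * R * Q) * (R * B + B * R * B) +
      (Q * R - R * Q) * (R * X * R * B + B * R * X * R * B) := by
    noncomm_ring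
  rw [h1, hZ, hQR, sub_self, zero_mul, zero_mul, add_zero]

theorem closed_form {ι : Type} [Fintype ι] [DecidableEq ι] {L : Type} [Field L] {r : ℕ}
    (d₁ d₂ : Der L) (hc : ∀ x, d₁ (d₂ x) = d₂ (d₁ x)) (U S B : Matrix ι ι L) (lam : L)
    (hUS : U * S = S * U) (hdet : IsUnit (lam • (1 : Matrix ι ι L) - U).det)
    (hU₁ : dM d₁ U = S + (S * B - B * S)) (hU₂ : dM d₂ U = 0) (hS₂ : dM d₂ S = 0)
    (hB₁ : dM d₁ B = 0) (hB₂ : dM d₂ B = 0)
    (X Y : Fin r → Matrix ι ι L) (t : Fin r → Fin r → L)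
    (hX₂ : ∀ j, dM d₂ (X j) = 0) (hY₂ : ∀ j, dM d₂ (Y j) = 0)
    (hX₁ : ∀ j, dM d₁ (X j) = Y j + (Y j * B - B * Y j) + ∑ l, t l j • X l)
    (hXY : ∀ j, X j * S + U * Y j = Y j * U + S * X j) (j : Fin r) :
    let R := (lam • (1 : Matrix ι ι L) - U)⁻¹
    let Q := d₁ lam • (1 : Matrix ι ι L) - S
    let η1 : Fin r → Matrix ι ι L := fun j => Q * R * X j * R * B - Y j * R * B
    let η2 : Fin r → Matrix ι ι L := fun j => d₂ lam • (R * X j * R * B)
    dM d₁ (η2 j) - dM d₂ (η1 j) + (cn U S B lam (d₁ lam) 1 * η2 j - η2 j * cn U S B lam (d₁ lam) 1)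
      - (cn U S B lam (d₂ lam) 0 * η1 j - η1 j * cn U S B lam (d₂ lam) 0) =
      ∑ l, t l j • η2 l := by
  have key : ∀ (R Q : Matrix ι ι L), R = (lam • (1 : Matrix ι ι L) - U)⁻¹ →
      Q = d₁ lam • (1 : Matrix ι ι L) - S →
      dM d₁ (d₂ lam • (R * X j * R * B)) - dM d₂ (Q * R * X j * R * B - Y j * R * B) +
        (cn U S B lam (d₁ lam) 1 * (d₂ lam • (R * X j * R * B)) -
          (d₂ lam • (R * X j * R * B)) * cn U S B lam (d₁ lam) 1) -
        (cn U S B lam (d₂ lam) 0 * (Q * R * X j * R * B - Y j * R * B) -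
          (Q * R * X j * R * B - Y j * R * B) * cn U S B lam (d₂ lam) 0) =
      ∑ l, t l j • (d₂ lam • (R * X l * R * B)) := by
    intro R Q hR hQ
    obtain ⟨T, hT⟩ : ∃ T : Matrix ι ι L, T = ∑ l, t l j • X l := ⟨_, rfl⟩
    have eA₁ : cn U S B lam (d₁ lam) 1 = Q * R * B := by
      rw [hQ, hR]
      unfold cn
      rw [one_smul]
    have eA₂ : cn U S B lam (d₂ lam) 0 = d₂ lam • (R * B) := by
      rw [hR]
      unfold cn
      rw [zero_smul, sub_zero, Matrix.smul_mul, one_mul, Matrix.smul_mul]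
    have hRS : R * S = S * R := by
      rw [hR]
      exact commute_inv U S lam hUS
    have c1 : Q * R = R * Q := by
      rw [hQ, sub_mul, mul_sub, Matrix.smul_mul, Matrix.mul_smul, one_mul, mul_one, hRS]
    have eQ₂ : dM d₂ Q = d₁ (d₂ lam) • (1 : Matrix ι ι L) := by
      rw [hQ, dM_sub, dM_smul, dM_one, hS₂, smul_zero, zero_add, sub_zero, hc lam]
    have eM₁ : dM d₁ (lam • (1 : Matrix ι ι L) - U) = Q + (Q * B - B * Q) := by
      rw [dM_sub, dM_smul, dM_one, smul_zero, zero_add, hU₁, hQ]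
      simp only [sub_mul, mul_sub, Matrix.smul_mul, Matrix.mul_smul, one_mul, mul_one]
      abel
    have eM₂ : dM d₂ (lam • (1 : Matrix ι ι L) - U) = d₂ lam • (1 : Matrix ι ι L) := by
      rw [dM_sub, dM_smul, dM_one, smul_zero, zero_add, hU₂, sub_zero]
    have eR₁ : dM d₁ R = -(R * (Q + (Q * B - B * Q)) * R) := by
      rw [hR, dM_inv d₁ _ hdet, eM₁]
    have eR₂ : dM d₂ R = d₂ lam • -(R * R) := by
      rw [hR, dM_inv d₂ _ hdet, eM₂, Matrix.mul_smul, mul_one, Matrix.smul_mul, smul_neg]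
    have hMR : (lam • (1 : Matrix ι ι L) - U) * R = 1 := by
      rw [hR]
      exact Matrix.mul_nonsing_inv _ hdet
    have hRM : R * (lam • (1 : Matrix ι ι L) - U) = 1 := by
      rw [hR]
      exact Matrix.nonsing_inv_mul _ hdet
    have hZ := close_zz (lam • (1 : Matrix ι ι L) - U) R Q (X j) (Y j) hMR hRM c1 (by
      have h1 := hXY j
      have h2 : Y j * (lam • (1 : Matrix ι ι L) - U) - (lam • (1 : Matrix ι ι L) - U) * Y j +
          Q * X j - X j * Q = (X j * S + U * Y j) - (Y j * U + S * X j) := by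
        rw [hQ]
        simp only [sub_mul, mul_sub, Matrix.smul_mul, Matrix.mul_smul, one_mul, mul_one]
        abel
      rw [h2, h1, sub_self])
    have hfin := close_aux Q R B (X j) (Y j) T c1 hZ
    have hsum : ∑ l, t l j • (d₂ lam • (R * X l * R * B)) = d₂ lam • (R * T * R * B) := by
      rw [hT, Finset.mul_sum, Finset.sum_mul, Finset.sum_mul, Finset.smul_sum]
      apply Finset.sum_congr rfl
      intro l _
      rw [smul_comm (t l j) (d₂ lam), Matrix.mul_smul, Matrix.smul_mul, Matrix.smul_mul]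
    rw [hsum, eA₁, eA₂, dM_smul, dM_sub]
    simp only [dM_mul, hB₁, hB₂, hX₂, hY₂, hX₁ j, ← hT, eR₁, eR₂, eQ₂]
    simp only [mul_add, add_mul, mul_sub, sub_mul, mul_neg, neg_mul, mul_assoc, one_mul, mul_one,
      Matrix.smul_mul, Matrix.mul_smul, mul_zero, zero_mul] at hfin ⊢
    linear_combination (norm := module) (d₂ lam) • hfin
  exact key _ _ rfl rfl

end Pool.Agent.Helper84.CV
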