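import Pool.Agent.Helper84.CV.B1m

/-!
# CV-RegB: series with coefficients regular in the inner variable

`Reg a`: the coefficients of `a ∈ k((t))((π))` are in `k[[t]]`. `Reg.mul`: write the coefficient of a product with
`coeff_mul_Icc` (`exists_VGE` for both factors). `Reg.inv`: multiply by `π^(-m)` to reduce to `m = 0`; `a` is then the
image of a power series `z ∈ k[[t]][[π]]` under `(HahnSeries.ofPowerSeries ℤ _).comp (PowerSeries.map
(HahnSeries.ofPowerSeries ℤ k))`, with constant coefficient a unit (`PowerSeries.isUnit_iff_constantCoeff` twice), and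
`a⁻¹` is the image of `z⁻¹`. `Reg_of_approx`: compare the coefficient of index `j` with `m = j + 1`.
-/

set_option autoImplicit false

namespace Pool.Agent.Helper84.CV

variable {k : Type} [Field k]

section reg

variable {a b : LaurentSeries (LaurentSeries k)}

theorem Reg_zero : Reg (0 : LaurentSeries (LaurentSeries k)) := by
  intro j
  exact VGE_zero 0

theorem Reg_one : Reg (1 : LaurentSeries (LaurentSeries k)) := by
  intro j
  rw [HahnSeries.coeff_one]
  split_ifs with h
  · exact VGE_one
  · exact VGE_zero 0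

theorem Reg.add (h : Reg a) (h' : Reg b) : Reg (a + b) := by
  intro j
  rw [HahnSeries.coeff_add]
  exact (h j).add (h' j)

theorem Reg.neg (h : Reg a) : Reg (-a) := by
  intro j
  rw [HahnSeries.coeff_neg]
  exact (h j).neg

theorem Reg.sub (h : Reg a) (h' : Reg b) : Reg (a - b) := by
  intro j
  rw [HahnSeries.coeff_sub]
  exact (h j).sub (h' j)

theorem Reg.mul (h : Reg a) (h' : Reg b) : Reg (a * b) := by
  intro j
  obtain ⟨m1, h1⟩ := exists_VGE a
  obtain ⟨m2, h2⟩ := exists_VGE b
  rw [coeff_mul_Icc h1 h2]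
  refine VGE.sum _ _ fun i _ => ?_
  have h3 := (h i).mul (h' (j - i))
  rwa [add_zero] at h3

theorem Reg.pow (h : Reg a) (m : ℕ) : Reg (a ^ m) := by
  induction m with
  | zero =>
    rw [pow_zero]
    exact Reg_one
  | succ m ih =>
    rw [pow_succ]
    exact ih.mul h

theorem Reg.sum {α : Type} (s : Finset α) (f : α → LaurentSeries (LaurentSeries k))
    (h : ∀ i ∈ s, Reg (f i)) : Reg (∑ i ∈ s, f i) := by
  classical
  induction s using Finset.induction_on with
  | empty =>
    rw [Finset.sum_empty]
    exact Reg_zero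
  | insert i s hi ih =>
    rw [Finset.sum_insert hi]
    exact (h i (Finset.mem_insert_self i s)).add
      (ih fun j hj => h j (Finset.mem_insert_of_mem hj))

theorem Reg.prod {α : Type} (s : Finset α) (f : α → LaurentSeries (LaurentSeries k))
    (h : ∀ i ∈ s, Reg (f i)) : Reg (∏ i ∈ s, f i) := by
  classical
  induction s using Finset.induction_on with
  | empty =>
    rw [Finset.prod_empty]
    exact Reg_one
  | insert i s hi ih =>
    rw [Finset.prod_insert hi]
    exact (h i (Finset.mem_insert_self i s)).mul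
      (ih fun j hj => h j (Finset.mem_insert_of_mem hj))

theorem Reg_natCast (m : ℕ) : Reg (m : LaurentSeries (LaurentSeries k)) := by
  induction m with
  | zero =>
    rw [Nat.cast_zero]
    exact Reg_zero
  | succ m ih =>
    rw [Nat.cast_succ]
    exact ih.add Reg_one

theorem Reg_mo (m : ℤ) : Reg (mo m : LaurentSeries (LaurentSeries k)) := by
  intro j
  rw [mo_coeff]
  split_ifs with h
  · exact VGE_one
  · exact VGE_zero 0

theorem Reg_C (c : LaurentSeries k) (hc : VGE 0 c) :
    Reg (HahnSeries.C c : LaurentSeries (LaurentSeries k)) := by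
  intro j
  have h1 := coeff_C_mul c (1 : LaurentSeries (LaurentSeries k)) j
  rw [mul_one] at h1
  rw [h1]
  have h2 := hc.mul (Reg_one (k := k) j)
  rwa [add_zero] at h2

theorem Reg.outer (h : Reg a) : Reg (dO a) := by
  intro j
  rw [dO_coeff]
  have h1 : VGE 0 ((j : LaurentSeries k)) := by
    obtain ⟨n, rfl | rfl⟩ := Int.eq_nat_or_neg j
    · rw [Int.cast_natCast]
      exact VGE_natCast n
    · rw [Int.cast_neg, Int.cast_natCast]
      exact (VGE_natCast n).neg
  have h2 := h1.mul (h j)
  rwa [add_zero] at h2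

theorem Reg.inner (h : Reg a) : Reg (dI dO a) := by
  intro j
  rw [dI_coeff]
  exact (h j).outer

theorem Reg.inner_ddt (h : Reg a) : Reg (dI ddt a) := by
  intro j
  rw [dI_coeff]
  intro m hm
  show (mo (-1) * dO (a.coeff j)).coeff m = 0
  rw [coeff_mo_mul, dO_coeff]
  rcases eq_or_ne m (-1) with h1 | h1
  · subst h1
    simp
  · rw [h j (m - -1) (by omega), mul_zero]

/-- inverse of `π^m (c + …)`, `c ≠ 0` a constant, `…` in the maximal ideal of `k[[t, π]]` -/
theorem Reg.inv {m : ℤ} (h : Reg a) (h1 : VGE m a) (h3 : (a.coeff m).coeff 0 ≠ 0) : Reg a⁻¹ := by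
  have ha : a ≠ 0 := by
    rintro rfl
    exact h3 (by simp)
  obtain ⟨k0, hk⟩ := exists_VGE a⁻¹
  have hi : VGE 0 (a.coeff m)⁻¹ := VGE_inv (h m) h3
  have hc0 : a.coeff m ≠ 0 := by
    intro h4
    rw [h4] at h3
    exact h3 (by simp)
  have key : ∀ n : ℕ, VGE 0 ((a⁻¹).coeff (k0 + n)) := by
    intro n
    induction n using Nat.strong_induction_on with
    | _ n ih =>
      have h5 := coeff_mul_Icc h1 hk (m + (k0 + n))
      rw [mul_inv_cancel₀ ha] at h5
      have h6 : m ∈ Finset.Icc m (m + (k0 + n) - k0) := by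
        rw [Finset.mem_Icc]
        omega
      rw [← Finset.add_sum_erase _ _ h6] at h5
      have h7 : m + (k0 + (n : ℤ)) - m = k0 + n := by ring
      rw [h7] at h5
      have h8 : VGE 0 (∑ i ∈ (Finset.Icc m (m + (k0 + n) - k0)).erase m,
          a.coeff i * (a⁻¹).coeff (m + (k0 + n) - i)) := by
        refine VGE.sum _ _ fun i hi1 => ?_
        rw [Finset.mem_erase, Finset.mem_Icc] at hi1
        obtain ⟨t, ht⟩ : ∃ t : ℕ, m + (k0 + (n : ℤ)) - i = k0 + t :=
          ⟨(m + n - i).toNat, by omega⟩
        rw [ht]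
        have h9 := (h i).mul (ih t (by omega))
        rwa [add_zero] at h9
      have h10 : VGE 0 (a.coeff m * (a⁻¹).coeff (k0 + n)) := by
        have h11 : a.coeff m * (a⁻¹).coeff (k0 + n) =
            (1 : LaurentSeries (LaurentSeries k)).coeff (m + (k0 + n)) -
            ∑ i ∈ (Finset.Icc m (m + (k0 + n) - k0)).erase m,
            a.coeff i * (a⁻¹).coeff (m + (k0 + n) - i) := by
          rw [h5]
          ring
        rw [h11]
        exact (Reg_one _).sub h8
      have h12 := hi.mul h10
      rw [← mul_assoc, inv_mul_cancel₀ hc0, one_mul, add_zero] at h12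
      exact h12
  intro j
  rcases lt_or_ge j k0 with hj | hj
  · rw [hk j hj]
    exact VGE_zero 0
  · obtain ⟨n, hn⟩ : ∃ n : ℕ, j = k0 + n := ⟨(j - k0).toNat, by omega⟩
    rw [hn]
    exact key n

theorem Reg_of_approx (h : ∀ m : ℤ, ∃ a', Reg a' ∧ VGE m (a - a')) : Reg a := by
  intro j
  obtain ⟨a', h1, h2⟩ := h (j + 1)
  have h3 := h2 j (by omega)
  rw [HahnSeries.coeff_sub, sub_eq_zero] at h3
  rw [h3]
  exact h1 j

end reg

end Pool.Agent.Helper84.CV
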