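import Pool.Agent.Helper84.CV.B1m
import Pool.Agent.Helper84.CV.RegB

/-!
# CV-RelB: Laurent series in two variables `u, v`, seen in `k((u))((v))` and in `k((v))((u))`

`Rel a b`: `a ∈ k((u))((v))` and `b ∈ k((v))((u))` have the same coefficients. Then the exponents of `v` are bounded
below (because of `a`) and the exponents of `u` too (because of `b`): `Rel.bound`.

Plan for products. Let `A : PowerSeries (PowerSeries k) →+* LaurentSeries (LaurentSeries k)` be the coefficientwise
inclusion (`(HahnSeries.ofPowerSeries ℤ _).comp (PowerSeries.map (HahnSeries.ofPowerSeries ℤ k))`) and `σ` the ring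
automorphism of `PowerSeries (PowerSeries k)` exchanging the variables, `coeff i (coeff j (σ z)) = coeff j (coeff i z)`
(check multiplicativity with `PowerSeries.coeff_mul` and `Finset.sum_comm`). Then `Rel (A z) (A (σ z))`. If `Rel a b`
then there are `m : ℕ` and `z` with `T^m a = A z`, `T^m b = A (σ z)`, `T = single 1 (single 1 1)` (`= u v` on both
sides), by `Rel.bound`; and `Rel (T a) (T b) ↔ Rel a b`. This gives `Rel.mul`. `Rel.inv`: `a = A z`, `b = A (σ z)` with
`constantCoeff (constantCoeff z) ≠ 0`, so `z` is a unit (`PowerSeries.isUnit_iff_constantCoeff` twice), `a⁻¹ = A z⁻¹`.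
-/

set_option autoImplicit false

namespace Pool.Agent.Helper84.CV

variable {k : Type} [Field k]

section rel

variable {a b a' b' : LaurentSeries (LaurentSeries k)}

private theorem intCast_mul_coeff (j : ℤ) (x : LaurentSeries k) (i : ℤ) :
    ((j : LaurentSeries k) * x).coeff i = (j : k) * x.coeff i := by
  have h : (j : LaurentSeries k) = HahnSeries.C (j : k) := (map_intCast HahnSeries.C j).symm
  rw [h, coeff_C_mul]

private theorem mono_coeff (i j i' j' : ℤ) (c : k) :
    (((HahnSeries.single j (HahnSeries.single i c) : LaurentSeries (LaurentSeries k))).coeff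
      j').coeff i' = if j' = j ∧ i' = i then c else 0 := by
  by_cases h : j' = j
  · subst h
    rw [HahnSeries.coeff_single_same]
    by_cases h' : i' = i
    · subst h'
      rw [HahnSeries.coeff_single_same, if_pos ⟨rfl, rfl⟩]
    · rw [HahnSeries.coeff_single_of_ne h', if_neg fun h2 => h' h2.2]
  · rw [HahnSeries.coeff_single_of_ne h, HahnSeries.coeff_zero, if_neg fun h2 => h h2.1]

/-- a series with bounded exponents of both variables can be read from the other side -/
private theorem exists_swap (m : ℤ) (h1 : VGE m a) (h2 : ∀ j, VGE m (a.coeff j)) :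
    ∃ b, Rel a b := by
  have hb1 : ∀ i : ℤ, BddBelow (Function.support fun j : ℤ => (a.coeff j).coeff i) := by
    intro i
    refine ⟨m, fun j hj => ?_⟩
    by_contra hlt
    rw [not_le] at hlt
    apply hj
    show (a.coeff j).coeff i = 0
    rw [h1 j hlt, HahnSeries.coeff_zero]
  have hb2 : BddBelow (Function.support fun i : ℤ =>
      (HahnSeries.ofSuppBddBelow (fun j : ℤ => (a.coeff j).coeff i) (hb1 i) :
        LaurentSeries k)) := by
    refine ⟨m, fun i hi => ?_⟩
    by_contra hlt
    rw [not_le] at hlt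
    apply hi
    ext j
    show (a.coeff j).coeff i = 0
    exact h2 j i hlt
  exact ⟨HahnSeries.ofSuppBddBelow _ hb2, fun i j => rfl⟩

theorem Rel.symm (h : Rel a b) : Rel b a := fun i j => (h j i).symm

theorem Rel.bound (h : Rel a b) : ∃ m : ℤ, VGE m a ∧ (∀ j, VGE m (a.coeff j)) ∧
    VGE m b ∧ ∀ j, VGE m (b.coeff j) := by
  obtain ⟨ka, ha⟩ := exists_VGE a
  obtain ⟨kb, hb⟩ := exists_VGE b
  refine ⟨min ka kb, ha.mono (min_le_left _ _), ?_, hb.mono (min_le_right _ _), ?_⟩
  · intro j i hi
    rw [h i j, hb i (lt_of_lt_of_le hi (min_le_right _ _)), HahnSeries.coeff_zero]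
  · intro j i hi
    rw [← h j i, ha i (lt_of_lt_of_le hi (min_le_left _ _)), HahnSeries.coeff_zero]

theorem Rel.unique (h : Rel a b) (h' : Rel a b') : b = b' := by
  ext i j
  rw [← h i j, ← h' i j]

theorem Rel_zero : Rel (0 : LaurentSeries (LaurentSeries k)) 0 := fun i j => by
  simp only [HahnSeries.coeff_zero]

/-- the monomial `c u^i v^j` -/
theorem Rel_monomial (i j : ℤ) (c : k) :
    Rel (HahnSeries.single j (HahnSeries.single i c)) (HahnSeries.single i (HahnSeries.single j c)) := by
  intro i' j'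
  rw [mono_coeff, mono_coeff]
  simp only [and_comm]

theorem Rel_one : Rel (1 : LaurentSeries (LaurentSeries k)) 1 := Rel_monomial 0 0 1

theorem Rel.add (h : Rel a b) (h' : Rel a' b') : Rel (a + a') (b + b') := by
  intro i j
  simp only [HahnSeries.coeff_add]
  rw [h i j, h' i j]

theorem Rel.neg (h : Rel a b) : Rel (-a) (-b) := by
  intro i j
  simp only [HahnSeries.coeff_neg]
  rw [h i j]

theorem Rel.sub (h : Rel a b) (h' : Rel a' b') : Rel (a - a') (b - b') := by
  intro i j
  simp only [HahnSeries.coeff_sub]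
  rw [h i j, h' i j]

private theorem sum_coeff {α : Type} (s : Finset α) (f : α → LaurentSeries k) (i : ℤ) :
    (∑ q ∈ s, f q).coeff i = ∑ q ∈ s, (f q).coeff i := HahnSeries.coeff_sum _

theorem Rel.mul (h : Rel a b) (h' : Rel a' b') : Rel (a * a') (b * b') := by
  obtain ⟨m, u1, u2, u3, u4⟩ := h.bound
  obtain ⟨m', v1, v2, v3, v4⟩ := h'.bound
  intro i j
  rw [coeff_mul_Icc u1 v1 j, coeff_mul_Icc u3 v3 i, sum_coeff, sum_coeff]
  have e1 : ∀ q, (a.coeff q * a'.coeff (j - q)).coeff i =
      ∑ p ∈ Finset.Icc m (i - m'), (a.coeff q).coeff p * (a'.coeff (j - q)).coeff (i - p) :=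
    fun q => coeff_mul_Icc (u2 q) (v2 (j - q)) i
  have e2 : ∀ p, (b.coeff p * b'.coeff (i - p)).coeff j =
      ∑ q ∈ Finset.Icc m (j - m'), (b.coeff p).coeff q * (b'.coeff (i - p)).coeff (j - q) :=
    fun p => coeff_mul_Icc (u4 p) (v4 (i - p)) j
  simp only [e1, e2]
  rw [Finset.sum_comm]
  refine Finset.sum_congr rfl fun p _ => Finset.sum_congr rfl fun q _ => ?_
  rw [h p q, h' (i - p) (j - q)]

theorem Rel.pow (h : Rel a b) (m : ℕ) : Rel (a ^ m) (b ^ m) := by
  induction m with
  | zero =>
    rw [pow_zero, pow_zero]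
    exact Rel_one
  | succ m ih =>
    rw [pow_succ, pow_succ]
    exact ih.mul h

theorem Rel.sum {α : Type} (s : Finset α) (f g : α → LaurentSeries (LaurentSeries k))
    (h : ∀ i ∈ s, Rel (f i) (g i)) : Rel (∑ i ∈ s, f i) (∑ i ∈ s, g i) := by
  classical
  induction s using Finset.induction_on with
  | empty =>
    rw [Finset.sum_empty, Finset.sum_empty]
    exact Rel_zero
  | insert x s hx ih =>
    rw [Finset.sum_insert hx, Finset.sum_insert hx]
    exact (h x (Finset.mem_insert_self _ _)).add
      (ih fun i hi => h i (Finset.mem_insert_of_mem hi))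

theorem Rel.prod {α : Type} (s : Finset α) (f g : α → LaurentSeries (LaurentSeries k))
    (h : ∀ i ∈ s, Rel (f i) (g i)) : Rel (∏ i ∈ s, f i) (∏ i ∈ s, g i) := by
  classical
  induction s using Finset.induction_on with
  | empty =>
    rw [Finset.prod_empty, Finset.prod_empty]
    exact Rel_one
  | insert x s hx ih =>
    rw [Finset.prod_insert hx, Finset.prod_insert hx]
    exact (h x (Finset.mem_insert_self _ _)).mul
      (ih fun i hi => h i (Finset.mem_insert_of_mem hi))

theorem Rel_natCast (m : ℕ) : Rel (m : LaurentSeries (LaurentSeries k)) m := by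
  induction m with
  | zero =>
    rw [Nat.cast_zero]
    exact Rel_zero
  | succ m ih =>
    rw [Nat.cast_succ]
    exact ih.add Rel_one

/-- the series `c(u) v^j` -/
theorem exists_Rel_single (c : LaurentSeries k) (j : ℤ) :
    ∃ b, Rel (HahnSeries.single j c) b ∧ ∀ m, VGE m c → VGE m b := by
  refine ⟨cmap (fun _ => (HahnSeries.single.addMonoidHom j : k →+ LaurentSeries k)) c, ?_, ?_⟩
  · intro i j'
    rw [cmap_coeff]
    show (((HahnSeries.single j c : LaurentSeries (LaurentSeries k))).coeff j').coeff i =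
      (HahnSeries.single j (c.coeff i) : LaurentSeries k).coeff j'
    by_cases h : j' = j
    · subst h
      rw [HahnSeries.coeff_single_same, HahnSeries.coeff_single_same]
    · rw [HahnSeries.coeff_single_of_ne h, HahnSeries.coeff_single_of_ne h, HahnSeries.coeff_zero]
  · intro m hm i hi
    rw [cmap_coeff, hm i hi, map_zero]

/-- the outer logarithmic derivation corresponds to the inner one -/
theorem Rel.outer (h : Rel a b) : Rel (dO a) (dI dO b) := by
  intro i j
  rw [dO_coeff, dI_coeff, dO_coeff, intCast_mul_coeff, h i j]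

theorem Rel.inner (h : Rel a b) : Rel (dI dO a) (dO b) := h.symm.outer.symm

/-- inverse of a unit of `k[[u, v]]` -/
theorem Rel.inv (h : Rel a b) (h1 : VGE 0 a) (h2 : Reg a) (h3 : (a.coeff 0).coeff 0 ≠ 0) :
    Rel a⁻¹ b⁻¹ ∧ VGE 0 a⁻¹ ∧ Reg a⁻¹ := by
  have h4 : a.coeff 0 ≠ 0 := by
    intro h5
    rw [h5, HahnSeries.coeff_zero] at h3
    exact h3 rfl
  have h5 : VGE 0 a⁻¹ := VGE_inv h1 h4
  have h6 : Reg a⁻¹ := Reg.inv h2 h1 h3
  refine ⟨?_, h5, h6⟩
  obtain ⟨c, hc⟩ := exists_swap 0 h5 h6
  have ha : a ≠ 0 := by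
    intro h7
    rw [h7, HahnSeries.coeff_zero] at h4
    exact h4 rfl
  have h7 := h.mul hc
  rw [mul_inv_cancel₀ ha] at h7
  have h8 : b * c = 1 := h7.unique Rel_one
  rwa [eq_inv_of_mul_eq_one_right h8] at hc

/-- inverse of a monomial -/
theorem Rel.inv_mono (h : Rel a b) (i j : ℤ) (c : k) (hc : c ≠ 0)
    (ha : a = HahnSeries.single j (HahnSeries.single i c)) : Rel a⁻¹ b⁻¹ := by
  have key : ∀ i j : ℤ, (HahnSeries.single j (HahnSeries.single i c) *
      HahnSeries.single (-j) (HahnSeries.single (-i) c⁻¹) : LaurentSeries (LaurentSeries k)) = 1 := by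
    intro i j
    rw [HahnSeries.single_mul_single, HahnSeries.single_mul_single, mul_inv_cancel₀ hc,
      add_neg_cancel, add_neg_cancel]
    rfl
  subst ha
  have hb : b = HahnSeries.single i (HahnSeries.single j c) := h.unique (Rel_monomial i j c)
  subst hb
  rw [← eq_inv_of_mul_eq_one_right (key i j), ← eq_inv_of_mul_eq_one_right (key j i)]
  exact Rel_monomial _ _ _

/-- passage to the limit -/
theorem Rel_of_approx (h : ∀ m : ℤ, ∃ a' b', Rel a' b' ∧ VGE m (a - a') ∧ VGE m (b - b')) :
    Rel a b := by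
  intro i j
  obtain ⟨a', b', h1, h2, h3⟩ := h (max i j + 1)
  have e1 := h2 j (by have := le_max_right i j; omega)
  have e2 := h3 i (by have := le_max_left i j; omega)
  rw [HahnSeries.coeff_sub, sub_eq_zero] at e1 e2
  rw [e1, e2]
  exact h1 i j

end rel

end Pool.Agent.Helper84.CV
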