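import Pool.Agent.Helper84.CV.Sol
import Pool.Agent.Helper84.CV.RelB

/-!
# CV-SolC: closure properties of the iterates

Plan: inductions on `m`, all entries are sums of products of entries (`Matrix.mul_apply`, `Matrix.sub_apply`, …).
`sit_mem` with `I` an additive subgroup stable under multiplication by the subring `R`; the two applications are
`R = I = regS` and `I` = series with coefficients in `t k[[t]]`. `sit_smul`: the equation multiplied by an element `ρ`
with `d ρ = 0`. `IsS_comb`: combination of the equations in the directions `d` and `e`.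
-/

set_option autoImplicit false

open Matrix

namespace Pool.Agent.Helper84.CV

/-- the subring of the series with coefficients regular in the inner variable -/
def regS (k : Type) [Field k] : Subring (LaurentSeries (LaurentSeries k)) where
  carrier := {z | Reg z}
  mul_mem' := fun h h' => h.mul h'
  one_mem' := Reg_one
  add_mem' := fun h h' => h.add h'
  zero_mem' := Reg_zero
  neg_mem' := fun h => h.neg

section general

variable {ι : Type} [Fintype ι] [DecidableEq ι] {L : Type} [Field L] {r : ℕ}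

omit [DecidableEq ι] in
private theorem sit_succ_apply (d : Der L) (A : Matrix ι ι L) (P : L)
    (Thi : Matrix (Fin r) (Fin r) L) (η : Fin r → Matrix ι ι L) (m : ℕ) (j : Fin r) (a b : ι) :
    sit d A P Thi η (m + 1) j a b = ∑ i, (P * Thi i j) * (d (sit d A P Thi η m i a b) +
      (∑ c, A a c * sit d A P Thi η m i c b - ∑ c, sit d A P Thi η m i a c * A c b) -
        η i a b) := by
  show (∑ i, (P * Thi i j) • (dM d (sit d A P Thi η m i) +
      (A * sit d A P Thi η m i - sit d A P Thi η m i * A) - η i)) a b = _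
  rw [Matrix.sum_apply]
  refine Finset.sum_congr rfl fun i _ => ?_
  rfl

theorem sit_mem (R : Subring L) (I : AddSubgroup L) (hRI : ∀ x ∈ R, ∀ y ∈ I, x * y ∈ I)
    (d : Der L) (hd : ∀ y ∈ I, d y ∈ I) (A : Matrix ι ι L) (hA : ∀ a b, A a b ∈ R) (P : L)
    (hP : P ∈ R) (Thi : Matrix (Fin r) (Fin r) L) (hThi : ∀ a b, Thi a b ∈ R)
    (η : Fin r → Matrix ι ι L) (hη : ∀ j a b, η j a b ∈ I) (m : ℕ) (j : Fin r) (a b : ι) :
    sit d A P Thi η m j a b ∈ I := by
  induction m generalizing j a b with
  | zero => exact I.zero_mem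
  | succ m ih =>
    rw [sit_succ_apply]
    refine sum_mem fun i _ => ?_
    refine hRI _ (R.mul_mem hP (hThi i j)) _ (I.sub_mem (I.add_mem (hd _ (ih i a b))
      (I.sub_mem (sum_mem fun c _ => ?_) (sum_mem fun c _ => ?_))) (hη i a b))
    · exact hRI _ (hA a c) _ (ih i c b)
    · rw [mul_comm]
      exact hRI _ (hA c b) _ (ih i a c)

private theorem IsS_apply (d : Der L) (A : Matrix ι ι L) (P : L) (Th : Matrix (Fin r) (Fin r) L)
    (η k : Fin r → Matrix ι ι L) : IsS d A P Th η k ↔ ∀ j a b,
      P * (d (k j a b) + (∑ c, A a c * k j c b - ∑ c, k j a c * A c b) - η j a b) =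
        ∑ i, Th i j * k i a b := by
  constructor
  · intro h j a b
    have h1 := congrFun (congrFun (h j) a) b
    rw [Matrix.sum_apply] at h1
    exact h1
  · intro h j
    ext a b
    rw [Matrix.sum_apply]
    exact h j a b

theorem IsS_smul (d : Der L) (A : Matrix ι ι L) (P : L) (Th : Matrix (Fin r) (Fin r) L)
    (η k : Fin r → Matrix ι ι L) (h : IsS d A P Th η k) (ρ : L) (hρ : d ρ = 0) :
    IsS d A P Th (fun j => ρ • η j) (fun j => ρ • k j) := by
  rw [IsS_apply] at h ⊢
  intro j a b
  have h1 := h j a b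
  have e1 : ∑ c, A a c * (ρ • k j) c b = ρ * ∑ c, A a c * k j c b := by
    rw [Finset.mul_sum]
    refine Finset.sum_congr rfl fun c _ => ?_
    rw [Matrix.smul_apply, smul_eq_mul]
    ring
  have e2 : ∑ c, (ρ • k j) a c * A c b = ρ * ∑ c, k j a c * A c b := by
    rw [Finset.mul_sum]
    refine Finset.sum_congr rfl fun c _ => ?_
    rw [Matrix.smul_apply, smul_eq_mul]
    ring
  have e3 : ∑ i, Th i j * (ρ • k i) a b = ρ * ∑ i, Th i j * k i a b := by
    rw [Finset.mul_sum]
    refine Finset.sum_congr rfl fun c _ => ?_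
    rw [Matrix.smul_apply, smul_eq_mul]
    ring
  have e4 : d ((ρ • k j) a b) = ρ * d (k j a b) := by
    rw [Matrix.smul_apply, smul_eq_mul, d.leib, hρ, zero_mul, add_zero]
  show P * (d ((ρ • k j) a b) + (∑ c, A a c * (ρ • k j) c b - ∑ c, (ρ • k j) a c * A c b) -
    (ρ • η j) a b) = ∑ i, Th i j * (ρ • k i) a b
  rw [e1, e2, e3, e4, ← h1, Matrix.smul_apply, smul_eq_mul]
  ring

private theorem IsS_one_zero (e : Der L) (A' : Matrix ι ι L) (η' k : Fin r → Matrix ι ι L)
    (h' : IsS e A' 1 0 η' k) (j : Fin r) (a b : ι) :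
    η' j a b = e (k j a b) + (∑ c, A' a c * k j c b - ∑ c, k j a c * A' c b) := by
  rw [IsS_apply] at h'
  have h1 := h' j a b
  have h2 : ∑ i, (0 : Matrix (Fin r) (Fin r) L) i j * k i a b = 0 :=
    Finset.sum_eq_zero (fun i _ => by rw [Matrix.zero_apply, zero_mul])
  rw [one_mul, h2] at h1
  exact (sub_eq_zero.1 h1).symm

theorem IsS_comb (d e : Der L) (g : L) (A A' : Matrix ι ι L) (P : L)
    (Th : Matrix (Fin r) (Fin r) L) (η η' k : Fin r → Matrix ι ι L) (h : IsS d A P Th η k)
    (h' : IsS e A' 1 0 η' k) :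
    IsS (Der.ad d (Der.sm g e)) (A + g • A') P Th (fun j => η j + g • η' j) k := by
  have h2 := IsS_one_zero e A' η' k h'
  rw [IsS_apply] at h ⊢
  intro j a b
  rw [← h j a b]
  have e1 : ∑ c, (A + g • A') a c * k j c b =
      ∑ c, A a c * k j c b + g * ∑ c, A' a c * k j c b := by
    rw [Finset.mul_sum, ← Finset.sum_add_distrib]
    refine Finset.sum_congr rfl fun c _ => ?_
    rw [Matrix.add_apply, Matrix.smul_apply, smul_eq_mul]
    ring
  have e2 : ∑ c, k j a c * (A + g • A') c b =
      ∑ c, k j a c * A c b + g * ∑ c, k j a c * A' c b := by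
    rw [Finset.mul_sum, ← Finset.sum_add_distrib]
    refine Finset.sum_congr rfl fun c _ => ?_
    rw [Matrix.add_apply, Matrix.smul_apply, smul_eq_mul]
    ring
  show P * ((d (k j a b) + g * e (k j a b)) + (∑ c, (A + g • A') a c * k j c b -
    ∑ c, k j a c * (A + g • A') c b) - (η j a b + g * η' j a b)) = _
  rw [e1, e2, h2 j a b]
  ring

theorem IsS_map {L' : Type} [Field L'] (φ : L →+* L') (d e : Der L) (d' : Der L') (κ : L')
    (hφ : ∀ x, d' (φ x) = κ * φ (e x) + φ (d x)) (A A' : Matrix ι ι L) (P : L)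
    (Th : Matrix (Fin r) (Fin r) L) (η η' k : Fin r → Matrix ι ι L) (h : IsS d A P Th η k)
    (h' : IsS e A' 1 0 η' k) :
    IsS d' (A.map φ + κ • A'.map φ) (φ P) (Th.map φ)
      (fun j => (η j).map φ + κ • (η' j).map φ) (fun j => (k j).map φ) := by
  have h2 := IsS_one_zero e A' η' k h'
  rw [IsS_apply] at h ⊢
  intro j a b
  have h3 := congrArg φ (h j a b)
  have h4 := congrArg φ (h2 j a b)
  simp only [map_mul, map_sub, map_add, map_sum] at h3 h4
  have e1 : ∑ c, (A.map φ + κ • A'.map φ) a c * (k j).map φ c b =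
      ∑ c, φ (A a c) * φ (k j c b) + κ * ∑ c, φ (A' a c) * φ (k j c b) := by
    rw [Finset.mul_sum, ← Finset.sum_add_distrib]
    refine Finset.sum_congr rfl fun c _ => ?_
    rw [Matrix.add_apply, Matrix.smul_apply, smul_eq_mul, Matrix.map_apply, Matrix.map_apply,
      Matrix.map_apply]
    ring
  have e2 : ∑ c, (k j).map φ a c * (A.map φ + κ • A'.map φ) c b =
      ∑ c, φ (k j a c) * φ (A c b) + κ * ∑ c, φ (k j a c) * φ (A' c b) := by
    rw [Finset.mul_sum, ← Finset.sum_add_distrib]
    refine Finset.sum_congr rfl fun c _ => ?_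
    rw [Matrix.add_apply, Matrix.smul_apply, smul_eq_mul, Matrix.map_apply, Matrix.map_apply,
      Matrix.map_apply]
    ring
  show φ P * (d' (φ (k j a b)) + (∑ c, (A.map φ + κ • A'.map φ) a c * (k j).map φ c b -
    ∑ c, (k j).map φ a c * (A.map φ + κ • A'.map φ) c b) -
      (φ (η j a b) + κ * φ (η' j a b))) = ∑ i, φ (Th i j) * φ (k i a b)
  rw [e1, e2, hφ, ← h3, h4]
  ring

end general

/-- iterates on the two sides of a node -/
theorem sit_rel {k : Type} [Field k] {n r : ℕ} (d₁ d₂ : Der (LaurentSeries (LaurentSeries k)))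
    (hd : ∀ a b, Rel a b → Rel (d₁ a) (d₂ b))
    (A A' : Matrix (Fin n) (Fin n) (LaurentSeries (LaurentSeries k))) (hA : MRel A A')
    (P P' : LaurentSeries (LaurentSeries k)) (hP : Rel P P')
    (Thi Thi' : Matrix (Fin r) (Fin r) (LaurentSeries (LaurentSeries k))) (hT : MRel Thi Thi')
    (η η' : Fin r → Matrix (Fin n) (Fin n) (LaurentSeries (LaurentSeries k)))
    (hη : ∀ j, MRel (η j) (η' j)) (m : ℕ) (j : Fin r) :
    MRel (sit d₁ A P Thi η m j) (sit d₂ A' P' Thi' η' m j) := by
  induction m generalizing j with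
  | zero =>
    intro a b
    exact Rel_zero
  | succ m ih =>
    intro a b
    rw [sit_succ_apply, sit_succ_apply]
    refine Rel.sum _ _ _ fun i _ => ?_
    refine (hP.mul (hT i j)).mul (((hd _ _ (ih i a b)).add ((Rel.sum _ _ _ fun c _ => ?_).sub
      (Rel.sum _ _ _ fun c _ => ?_))).sub (hη i a b))
    · exact (hA a c).mul (ih i c b)
    · exact (ih i a c).mul (hA c b)

end Pool.Agent.Helper84.CV
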