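import Pool.Agent.Helper84.CV.UpB
import Pool.Agent.Helper84.CV.SolC
import Pool.Agent.Helper84.CV.Close

/-!
# CV-Ball: solutions on a disc

Plan. `G` the lattice of `Adm N l 0`. `sol_exists` for `d = dO` (`VGE.outer`), `A = A1 N l`, `P = mo p` (`VGE 1`: `p ≥ 1`),
`Th.map up`, `Thi.map up` (`VGE_up`), `η = eta1`: `k` with the first equation. Second equation: put
`e_j = ∇₂ k_j - η2_j`, `∇₂ X = dM (dI rD) X + [A2, X]`; it satisfies the homogeneous first equation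
`IsS dO A1 (mo p) (Th.map up) 0 e`: with `t_lj = mo (-p) up (Th_lj)` (`dI rD t = 0`: `dI_up`, `dI_mo`), the first equation is
`∇₁ k_j = η1_j + ∑ t_lj k_l`, `∇₁ ∇₂ = ∇₂ ∇₁` on matrices (flatness `LD.flat` and the Jacobi identity, `dO_dI`), so
`∇₁ e_j = ∇₂ η1_j + ∑ t_lj ∇₂ k_l - ∇₁ η2_j = ∑ t_lj (∇₂ k_l - η2_l) = ∑ t_lj e_l` by `closed_form` (`d₁ = dO`, `d₂ = dI rD`,
`LD.comm_K`, `LD.det_ne`, `LD.dO_UK`, `LD.dI_UK`, …, and `M.ode`, `M.comm` mapped by `up`: `LD.UK_up`, `LD.SK_up`, `LD.BK_up`,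
`dO_up`). So `e = 0` by `sol_unique`. `ball_unique`: `sol_unique` with the first equations.
-/

set_option autoImplicit false

open Matrix

namespace Pool.Agent.Helper84.CV

section gen

variable {ι : Type} [Fintype ι] [DecidableEq ι] {L L' : Type} [Field L] [Field L'] {r : ℕ}

private def ballnb (d : Der L) (A X : Matrix ι ι L) : Matrix ι ι L := dM d X + (A * X - X * A)

omit [DecidableEq ι] in
private theorem ballnb_add (d : Der L) (A X Y : Matrix ι ι L) :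
    ballnb d A (X + Y) = ballnb d A X + ballnb d A Y := by
  rw [ballnb, ballnb, ballnb, dM_add, mul_add, add_mul]
  abel

omit [DecidableEq ι] in
private theorem ballnb_sub (d : Der L) (A X Y : Matrix ι ι L) :
    ballnb d A (X - Y) = ballnb d A X - ballnb d A Y := by
  rw [ballnb, ballnb, ballnb, dM_sub, mul_sub, sub_mul]
  abel

omit [DecidableEq ι] in
private theorem ballnb_smul (d : Der L) (A X : Matrix ι ι L) (g : L) (hg : d g = 0) :
    ballnb d A (g • X) = g • ballnb d A X := by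
  rw [ballnb, ballnb, dM_smul, hg, zero_smul, add_zero, Matrix.mul_smul, Matrix.smul_mul, smul_add,
    smul_sub]

omit [DecidableEq ι] in
private theorem ballnb_sum (d : Der L) (A : Matrix ι ι L) (s : Finset (Fin r))
    (t : Fin r → L) (ht : ∀ i, d (t i) = 0) (X : Fin r → Matrix ι ι L) :
    ballnb d A (∑ i ∈ s, t i • X i) = ∑ i ∈ s, t i • ballnb d A (X i) := by
  classical
  induction s using Finset.induction_on with
  | empty =>
    rw [Finset.sum_empty, Finset.sum_empty, ballnb, mul_zero, zero_mul, sub_zero, add_zero]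
    ext i j
    rw [dM_apply, Matrix.zero_apply, map_zero]
  | insert a s ha ih =>
    rw [Finset.sum_insert ha, Finset.sum_insert ha, ballnb_add, ballnb_smul d A _ _ (ht a), ih]

omit [DecidableEq ι] in
private theorem ballnb_comm (d₁ d₂ : Der L) (hc : ∀ x, d₁ (d₂ x) = d₂ (d₁ x))
    (A₁ A₂ X : Matrix ι ι L) (h : dM d₁ A₂ - dM d₂ A₁ + (A₁ * A₂ - A₂ * A₁) = 0) :
    ballnb d₁ A₁ (ballnb d₂ A₂ X) = ballnb d₂ A₂ (ballnb d₁ A₁ X) := by
  have hD : dM d₁ (dM d₂ X) = dM d₂ (dM d₁ X) := by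
    ext i j
    rw [dM_apply, dM_apply, dM_apply, dM_apply, hc]
  unfold ballnb
  rw [dM_add d₁, dM_add d₂, dM_sub d₁, dM_sub d₂, dM_mul d₁, dM_mul d₁, dM_mul d₂, dM_mul d₂, hD]
  generalize dM d₂ (dM d₁ X) = X12
  generalize dM d₁ X = X1
  generalize dM d₂ X = X2
  generalize dM d₁ A₂ = E2 at h ⊢
  generalize dM d₂ A₁ = E1 at h ⊢
  rw [← sub_eq_zero]
  have key : X12 + (A₂ * X1 + E2 * X - (X * E2 + X1 * A₂)) +
      (A₁ * (X2 + (A₂ * X - X * A₂)) - (X2 + (A₂ * X - X * A₂)) * A₁) -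
      (X12 + (A₁ * X2 + E1 * X - (X * E1 + X2 * A₁)) +
      (A₂ * (X1 + (A₁ * X - X * A₁)) - (X1 + (A₁ * X - X * A₁)) * A₂)) =
      (E2 - E1 + (A₁ * A₂ - A₂ * A₁)) * X - X * (E2 - E1 + (A₁ * A₂ - A₂ * A₁)) := by
    noncomm_ring
  rw [key, h, zero_mul, mul_zero, sub_zero]

private theorem ball_core (d₁ d₂ : Der L) (hc : ∀ x, d₁ (d₂ x) = d₂ (d₁ x))
    (A₁ A₂ : Matrix ι ι L) (hF : Flat d₁ A₁ d₂ A₂) (P Pi : L) (hP : P * Pi = 1)
    (hP2 : d₂ Pi = 0) (Th : Matrix (Fin r) (Fin r) L) (hTh : ∀ i j, d₂ (Th i j) = 0)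
    (η1 η2 k : Fin r → Matrix ι ι L) (hk : IsS d₁ A₁ P Th η1 k)
    (hcl : ∀ j, dM d₁ (η2 j) - dM d₂ (η1 j) + (A₁ * η2 j - η2 j * A₁) -
      (A₂ * η1 j - η1 j * A₂) = ∑ i, (Pi * Th i j) • η2 i) :
    IsS d₁ A₁ P Th (fun _ => 0) (fun j => dM d₂ (k j) + (A₂ * k j - k j * A₂) - η2 j) := by
  have ht : ∀ i j, d₂ (Pi * Th i j) = 0 := fun i j => by
    rw [d₂.leib, hTh, hP2, mul_zero, zero_mul, add_zero]
  have h1 : ∀ j, ballnb d₁ A₁ (k j) = η1 j + ∑ i, (Pi * Th i j) • k i := by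
    intro j
    have h2 := congrArg (fun Z : Matrix ι ι L => Pi • Z) (hk j)
    simp only [smul_smul, Finset.smul_sum] at h2
    rw [mul_comm Pi P, hP, one_smul] at h2
    have h3 : ballnb d₁ A₁ (k j) = η1 j + (dM d₁ (k j) + (A₁ * k j - k j * A₁) - η1 j) := by
      unfold ballnb
      abel
    rw [h3, h2]
  have h4 : ∀ j, ballnb d₁ A₁ (ballnb d₂ A₂ (k j) - η2 j) =
      ∑ i, (Pi * Th i j) • (ballnb d₂ A₂ (k i) - η2 i) := by
    intro j
    have h5 : ballnb d₁ A₁ (η2 j) = ballnb d₂ A₂ (η1 j) + ∑ i, (Pi * Th i j) • η2 i := by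
      rw [← hcl j]
      unfold ballnb
      abel
    rw [ballnb_sub, ballnb_comm d₁ d₂ hc A₁ A₂ (k j) hF, h1, ballnb_add, ballnb_sum d₂ A₂ _ _
      (fun i => ht i j), h5]
    simp only [smul_sub, Finset.sum_sub_distrib]
    abel
  intro j
  have h6 := h4 j
  unfold ballnb at h6
  show P • (dM d₁ (dM d₂ (k j) + (A₂ * k j - k j * A₂) - η2 j) +
    (A₁ * (dM d₂ (k j) + (A₂ * k j - k j * A₂) - η2 j) -
      (dM d₂ (k j) + (A₂ * k j - k j * A₂) - η2 j) * A₁) - 0) = _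
  rw [sub_zero, h6, Finset.smul_sum]
  refine Finset.sum_congr rfl fun i _ => ?_
  rw [smul_smul, ← mul_assoc, hP, one_mul]

private theorem IsS_zero (d : Der L) (A : Matrix ι ι L) (P : L)
    (Th : Matrix (Fin r) (Fin r) L) :
    IsS d A P Th (fun _ => 0) (fun _ => (0 : Matrix ι ι L)) := by
  intro j
  have h1 : dM d (0 : Matrix ι ι L) = 0 := by
    ext a b
    rw [dM_apply, Matrix.zero_apply, map_zero]
  show P • (dM d (0 : Matrix ι ι L) + (A * 0 - 0 * A) - 0) = ∑ i, Th i j • (0 : Matrix ι ι L)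
  rw [h1, mul_zero, zero_mul, sub_zero, sub_zero, add_zero, smul_zero]
  exact (Finset.sum_eq_zero fun i _ => smul_zero _).symm

private theorem IsS_of_zero (d : Der L) (A : Matrix ι ι L) (η k : Fin r → Matrix ι ι L)
    (h : ∀ j, dM d (k j) + (A * k j - k j * A) - η j = 0) :
    IsS d A 1 (0 : Matrix (Fin r) (Fin r) L) η k := by
  intro j
  rw [h j, smul_zero]
  exact (Finset.sum_eq_zero fun i _ => by rw [Matrix.zero_apply, zero_smul]).symm

omit [DecidableEq ι] in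
private theorem ball_ode (φ : L →+* L') (d : Der L) (d' : Der L') (h : ∀ x, d' (φ x) = φ (d x))
    (X Y B : Matrix ι ι L) (Z : Fin r → Matrix ι ι L) (P : L) (Th : Fin r → L)
    (hX : dM d X = Y + (Y * B - B * Y) + ∑ i, (P * Th i) • Z i) :
    dM d' (X.map φ) = Y.map φ + (Y.map φ * B.map φ - B.map φ * Y.map φ) +
      ∑ i, (φ P * φ (Th i)) • (Z i).map φ := by
  have h1 : dM d' (X.map φ) = (dM d X).map φ := by
    ext i j
    rw [dM_apply, Matrix.map_apply, Matrix.map_apply, dM_apply, h]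
  have h2 : (∑ i, (P * Th i) • Z i).map φ = ∑ i, (φ P * φ (Th i)) • (Z i).map φ := by
    ext a b
    rw [Matrix.map_apply, Matrix.sum_apply, Matrix.sum_apply, map_sum]
    refine Finset.sum_congr rfl fun i _ => ?_
    rw [Matrix.smul_apply, Matrix.smul_apply, smul_eq_mul, smul_eq_mul, map_mul, map_mul,
      Matrix.map_apply]
  rw [h1, hX, Matrix.map_add _ (map_add φ), Matrix.map_add _ (map_add φ),
    Matrix.map_sub _ (map_sub φ), Matrix.map_mul, Matrix.map_mul, h2]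

omit [DecidableEq ι] in
private theorem ball_comm (φ : L →+* L') (X Y U S : Matrix ι ι L)
    (h : X * S + U * Y = Y * U + S * X) :
    X.map φ * S.map φ + U.map φ * Y.map φ = Y.map φ * U.map φ + S.map φ * X.map φ := by
  rw [← Matrix.map_mul, ← Matrix.map_mul, ← Matrix.map_mul, ← Matrix.map_mul,
    ← Matrix.map_add _ (map_add φ), ← Matrix.map_add _ (map_add φ), h]

end gen

end Pool.Agent.Helper84.CV

namespace Pool.Agent.Helper84.CV.MD

variable {n : ℕ} {D : LD n} {N : ℕ} [NeZero N] {e : Fin n → ℂ} (M : MD D N e) (l : List ℂ)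

private theorem ball_dI_X (X : Matrix (Fin n) (Fin n) LC) : dM (dI rD) (X.map up) = 0 := by
  ext i j
  rw [dM_apply, Matrix.map_apply, dI_up, Matrix.zero_apply]

private theorem ball_closed (j : Fin M.r) :
    dM dO (M.eta2 l j) - dM (dI rD) (M.eta1 l j) +
      (D.A1 N l * M.eta2 l j - M.eta2 l j * D.A1 N l) -
      (D.A2 N l * M.eta1 l j - M.eta1 l j * D.A2 N l) =
      ∑ i, ((mo (-(M.p : ℤ)) : FF) * M.Th.map up i j) • M.eta2 l i := by
  have hX₁ : ∀ j, dM dO ((M.X j).map up) = (M.Y j).map up +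
      ((M.Y j).map up * D.BK (RatFunc ℂ) - D.BK (RatFunc ℂ) * (M.Y j).map up) +
      ∑ i, ((mo (-(M.p : ℤ)) : FF) * M.Th.map up i j) • (M.X i).map up := by
    intro j
    have h1 := ball_ode (L := LC) (L' := FF) up dO dO dO_up (M.X j) (M.Y j) (D.BK ℂ) M.X (mo (-(M.p : ℤ)))
      (fun i => M.Th i j) (M.ode j)
    rw [LD.BK_up, up_mo] at h1
    exact h1
  have hXY : ∀ j, (M.X j).map up * D.SK N (RatFunc ℂ) + D.UK N (RatFunc ℂ) * (M.Y j).map up =
      (M.Y j).map up * D.UK N (RatFunc ℂ) + D.SK N (RatFunc ℂ) * (M.X j).map up := by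
    intro j
    have h1 := ball_comm (L := LC) (L' := FF) up (M.X j) (M.Y j) (D.UK N ℂ) (D.SK N ℂ) (M.comm j)
    rw [LD.UK_up, LD.SK_up] at h1
    exact h1
  exact closed_form (dO : Der FF) (dI rD) (fun x => dO_dI rD x) (D.UK N (RatFunc ℂ))
    (D.SK N (RatFunc ℂ)) (D.BK (RatFunc ℂ)) (LD.lamN N l) (D.comm_K N (RatFunc ℂ))
    (D.det_ne N l) (D.dO_UK N (RatFunc ℂ)) (D.dI_UK N (RatFunc ℂ) rD rD_const)
    (D.dI_SK N (RatFunc ℂ) rD rD_const) (D.dO_BK (RatFunc ℂ)) (D.dI_BK (RatFunc ℂ) rD rD_const)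
    (fun j => (M.X j).map up) (fun j => (M.Y j).map up)
    (fun i j => (mo (-(M.p : ℤ)) : FF) * M.Th.map up i j) (fun j => ball_dI_X (M.X j))
    (fun j => ball_dI_X (M.Y j)) hX₁ hXY j

private theorem ball_Thi : MVGE 0 (M.Thi.map up) := by
  intro i j
  rw [Matrix.map_apply, VGE_up]
  exact M.hThi i j

private theorem ball_inv : M.Th.map up * M.Thi.map up = 1 := by
  rw [← Matrix.map_mul, M.inv]
  exact Matrix.map_one up (map_zero up) (map_one up)

private theorem ball_P : VGE 1 (mo (M.p : ℤ) : FF) :=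
  (VGE_mo _).mono (by exact_mod_cast M.hp)

theorem ball_solution (hadm : D.Adm N l 0) : ∃ k, M.IsSol l k := by
  obtain ⟨G, hG, h1, h2⟩ := hadm
  rw [Nat.cast_zero, neg_zero] at h1 h2
  obtain ⟨k, hk⟩ := sol_exists (dO : Der FF) (fun a z h => h.outer) (D.A1 N l) G hG h1
    (mo (M.p : ℤ)) M.ball_P (M.Th.map up) (M.Thi.map up) M.ball_Thi M.ball_inv (M.eta1 l)
  refine ⟨k, hk, ?_⟩
  have hPP : (mo (M.p : ℤ) : FF) * mo (-(M.p : ℤ)) = 1 := by
    rw [mo_mul, add_neg_cancel, mo_zero]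
  have h3 := ball_core (dO : Der FF) (dI rD) (fun x => dO_dI rD x) (D.A1 N l) (D.A2 N l)
    (D.flat N l) (mo (M.p : ℤ)) (mo (-(M.p : ℤ))) hPP (dI_mo rD _) (M.Th.map up)
    (fun i j => by rw [Matrix.map_apply, dI_up]) (M.eta1 l) (M.eta2 l) k hk (M.ball_closed l)
  have h4 := sol_unique (dO : Der FF) (fun a z h => h.outer) (D.A1 N l) G hG h1
    (mo (M.p : ℤ)) M.ball_P (M.Th.map up) (M.Thi.map up) M.ball_Thi M.ball_inv (fun _ => 0) _ _
    h3 (IsS_zero (dO : Der FF) (D.A1 N l) (mo (M.p : ℤ)) (M.Th.map up))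
  exact IsS_of_zero (dI rD) (D.A2 N l) (M.eta2 l) k fun j => congrFun h4 j

theorem ball_unique (hadm : D.Adm N l 0) (k k' : Fin M.r → Matrix (Fin n) (Fin n) FF)
    (hk : M.IsSol l k) (hk' : M.IsSol l k') : k = k' := by
  obtain ⟨G, hG, h1, h2⟩ := hadm
  rw [Nat.cast_zero, neg_zero] at h1 h2
  exact sol_unique (dO : Der FF) (fun a z h => h.outer) (D.A1 N l) G hG h1
    (mo (M.p : ℤ)) M.ball_P (M.Th.map up) (M.Thi.map up) M.ball_Thi M.ball_inv (M.eta1 l) k k'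
    hk.1 hk'.1

end Pool.Agent.Helper84.CV.MD
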