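import Pool.Agent.Helper84.CV.Lat

/-!
# CV-Common: a common stable lattice for two commuting connections

Plan. `∇₁ = dO + A₁`, `∇₂ = dI d + A₂` commute (`Flat`, `dO_dI`). `T = π^q₁ ∇₁`, `S = π^q₂ ∇₂` on `L^n`.
`Λ₁ = G₁ O^n` is `T`-stable, `Λ₂ = G₂ O^n` is `S`-stable: for `v = G₁ x`, `∇₁ v = G₁ (dO x + ga dO A₁ G₁ x)`, so
`T v = G₁ (π^q₁ (dO x + ga x))`. Also `S (f v) = π^q₂ (dI d f) v + f S v`, same for `T`, and
`S (π^c v) = π^c S v`, `T S v - S T v = q₂ π^q₁ S v` (because `dO π^q₂ = q₂ π^q₂`, `dI d π^q₁ = 0`).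
Let `c` with `Λ₁ ⊆ π^(-c) Λ₂` (`exists_bound`), and let `Λ` be the `O`-submodule generated by the `S^j v`, `j ≥ 0`,
`v ∈ Λ₁` (or `Submodule.span` of this set). All of these are in `π^(-c) Λ₂`. `Λ` is `S`-stable (`S (f w) = f S w +
π^q₂ (dI d f) w`, `q₂ ≥ 0`, `dI d f ∈ O` for `f ∈ O`) and `T`-stable: `T S^j v = S^j T v + j q₂ π^q₁ S^j v` by induction on
`j`. `lattice_basis` gives `G` with `Λ = G O^n`. Stability of `Λ` under `T` says: for the basis vectors `G e_j` of `Λ`,
`T (G e_j) = π^q₁ (dM dO G + A₁ G) e_j ∈ Λ`, i.e. `π^q₁ ga dO A₁ G` is integral. Same for `S`.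
-/

set_option autoImplicit false

open Matrix

namespace Pool.Agent.Helper84.CV

section aux

variable {K : Type} [Field K] {n : ℕ}

/-- the connection on vectors -/
private noncomputable def nb (d : Der (LaurentSeries K))
    (A : Matrix (Fin n) (Fin n) (LaurentSeries K)) (v : Fin n → LaurentSeries K) :
    Fin n → LaurentSeries K := fun i => d (v i) + (A.mulVec v) i

/-- the derivative of a vector -/
private noncomputable def dV (d : Der (LaurentSeries K)) (v : Fin n → LaurentSeries K) :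
    Fin n → LaurentSeries K := fun i => d (v i)

private theorem nb_eq (d : Der (LaurentSeries K)) (A : Matrix (Fin n) (Fin n) (LaurentSeries K))
    (v : Fin n → LaurentSeries K) : nb d A v = dV d v + A.mulVec v := rfl

private theorem dV_add (d : Der (LaurentSeries K)) (v w : Fin n → LaurentSeries K) :
    dV d (v + w) = dV d v + dV d w := by
  funext i
  exact map_add d (v i) (w i)

private theorem dV_smul (d : Der (LaurentSeries K)) (f : LaurentSeries K)
    (v : Fin n → LaurentSeries K) : dV d (f • v) = d f • v + f • dV d v := by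
  funext i
  show d (f * v i) = d f * v i + f * d (v i)
  rw [d.leib]
  ring

private theorem dV_mulVec (d : Der (LaurentSeries K))
    (M : Matrix (Fin n) (Fin n) (LaurentSeries K)) (v : Fin n → LaurentSeries K) :
    dV d (M.mulVec v) = (dM d M).mulVec v + M.mulVec (dV d v) := by
  funext i
  show d (∑ j, M i j * v j) = (∑ j, d (M i j) * v j) + ∑ j, M i j * d (v j)
  rw [map_sum, ← Finset.sum_add_distrib]
  apply Finset.sum_congr rfl
  intro j _
  rw [d.leib]
  ring

private theorem nb_add (d : Der (LaurentSeries K)) (A : Matrix (Fin n) (Fin n) (LaurentSeries K))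
    (v w : Fin n → LaurentSeries K) : nb d A (v + w) = nb d A v + nb d A w := by
  rw [nb_eq, nb_eq, nb_eq, dV_add, Matrix.mulVec_add]
  abel

private theorem nb_zero (d : Der (LaurentSeries K))
    (A : Matrix (Fin n) (Fin n) (LaurentSeries K)) : nb d A 0 = 0 := by
  have h := nb_add d A 0 0
  rw [add_zero] at h
  exact left_eq_add.1 h

private theorem nb_smul (d : Der (LaurentSeries K)) (A : Matrix (Fin n) (Fin n) (LaurentSeries K))
    (f : LaurentSeries K) (v : Fin n → LaurentSeries K) :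
    nb d A (f • v) = d f • v + f • nb d A v := by
  rw [nb_eq, nb_eq, dV_smul, Matrix.mulVec_smul, smul_add]
  abel

private theorem nb_gauge (d : Der (LaurentSeries K))
    (A G : Matrix (Fin n) (Fin n) (LaurentSeries K)) (hG : IsUnit G.det)
    (x : Fin n → LaurentSeries K) :
    nb d A (G.mulVec x) = G.mulVec (nb d (ga d A G) x) := by
  rw [nb_eq, nb_eq, dV_mulVec, Matrix.mulVec_add, Matrix.mulVec_mulVec, Matrix.mulVec_mulVec]
  unfold ga
  rw [Matrix.mul_nonsing_inv_cancel_left _ _ hG, Matrix.add_mulVec]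
  abel

private theorem nb_comm (d : Der K) (A₁ A₂ : Matrix (Fin n) (Fin n) (LaurentSeries K))
    (hflat : Flat dO A₁ (dI d) A₂) (v : Fin n → LaurentSeries K) :
    nb dO A₁ (nb (dI d) A₂ v) = nb (dI d) A₂ (nb dO A₁ v) := by
  have h1 : dV dO (dV (dI d) v) = dV (dI d) (dV dO v) := by
    funext i
    exact dO_dI d (v i)
  have h2 : (dM dO A₂).mulVec v - (dM (dI d) A₁).mulVec v +
      ((A₁ * A₂).mulVec v - (A₂ * A₁).mulVec v) = 0 := by
    rw [← Matrix.sub_mulVec, ← Matrix.sub_mulVec, ← Matrix.add_mulVec]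
    rw [show dM dO A₂ - dM (dI d) A₁ + (A₁ * A₂ - A₂ * A₁) = 0 from hflat, Matrix.zero_mulVec]
  rw [nb_eq dO, nb_eq (dI d) A₂ v, nb_eq (dI d), nb_eq dO A₁ v, dV_add, dV_add, dV_mulVec,
    dV_mulVec, Matrix.mulVec_add, Matrix.mulVec_add, Matrix.mulVec_mulVec, Matrix.mulVec_mulVec, h1]
  rw [← sub_eq_zero, ← h2]
  abel

/-- a lattice given by an integral gauge is stable -/
private theorem stab (d : Der (LaurentSeries K)) (hd : ∀ (a : ℤ) (z : LaurentSeries K),
    VGE a z → VGE a (d z)) (A G : Matrix (Fin n) (Fin n) (LaurentSeries K)) (hG : IsUnit G.det)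
    (q : ℕ) (h : MVGE (-(q : ℤ)) (ga d A G)) (a : ℤ) (v : Fin n → LaurentSeries K)
    (hv : ∀ i, VGE a ((G⁻¹.mulVec v) i)) (i : Fin n) :
    VGE a ((G⁻¹.mulVec ((mo (q : ℤ) : LaurentSeries K) • nb d A v)) i) := by
  set x := G⁻¹.mulVec v with hx
  have hvx : v = G.mulVec x := by
    rw [hx, Matrix.mulVec_mulVec, Matrix.mul_nonsing_inv _ hG, Matrix.one_mulVec]
  rw [hvx, nb_gauge d A G hG, Matrix.mulVec_smul, Matrix.mulVec_mulVec,
    Matrix.nonsing_inv_mul _ hG, Matrix.one_mulVec]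
  show VGE a (mo (q : ℤ) * (d (x i) + ((ga d A G).mulVec x) i))
  rw [mul_add]
  apply VGE.add
  · exact ((VGE_mo (q : ℤ)).mul (hd a _ (hv i))).mono (by omega)
  · exact ((VGE_mo (q : ℤ)).mul (h.mulVec hv i)).mono (by omega)

private theorem ps_smul (p : PowerSeries K) (v : Fin n → LaurentSeries K) :
    p • v = ((HahnSeries.ofPowerSeries ℤ K) p) • v := by
  funext i
  rw [Pi.smul_apply, Pi.smul_apply, Algebra.smul_def, LaurentSeries.coe_algebraMap, smul_eq_mul]

private theorem VGE_ps (p : PowerSeries K) : VGE 0 ((HahnSeries.ofPowerSeries ℤ K) p) := by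
  intro j hj
  rw [PowerSeries.coeff_coe, if_pos hj]

private theorem exists_ps {f : LaurentSeries K} (hf : VGE 0 f) :
    ∃ p : PowerSeries K, (HahnSeries.ofPowerSeries ℤ K) p = f := by
  refine ⟨PowerSeries.mk fun k => f.coeff k, ?_⟩
  ext j
  rw [PowerSeries.coeff_coe]
  split_ifs with h
  · exact (hf j h).symm
  · rw [PowerSeries.coeff_mk]
    congr 1
    omega

private theorem smul_mem_of_VGE (Λ : Submodule (PowerSeries K) (Fin n → LaurentSeries K))
    {f : LaurentSeries K} (hf : VGE 0 f) {v : Fin n → LaurentSeries K} (hv : v ∈ Λ) :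
    f • v ∈ Λ := by
  obtain ⟨p, rfl⟩ := exists_ps hf
  rw [← ps_smul]
  exact Λ.smul_mem p hv

/-- stability of a span -/
private theorem span_stab (d : Der (LaurentSeries K)) (hd : ∀ (a : ℤ) (z : LaurentSeries K),
    VGE a z → VGE a (d z)) (A : Matrix (Fin n) (Fin n) (LaurentSeries K)) (q : ℕ)
    (X : Set (Fin n → LaurentSeries K))
    (hX : ∀ v ∈ X, (mo (q : ℤ) : LaurentSeries K) • nb d A v ∈ Submodule.span (PowerSeries K) X)
    {w : Fin n → LaurentSeries K} (hw : w ∈ Submodule.span (PowerSeries K) X) :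
    (mo (q : ℤ) : LaurentSeries K) • nb d A w ∈ Submodule.span (PowerSeries K) X := by
  induction hw using Submodule.span_induction with
  | mem x hx => exact hX x hx
  | zero =>
    rw [nb_zero, smul_zero]
    exact Submodule.zero_mem _
  | add x y _ _ hx hy =>
    rw [nb_add, smul_add]
    exact Submodule.add_mem _ hx hy
  | smul p x hx hx' =>
    rw [ps_smul, nb_smul, smul_add, smul_smul, smul_comm (mo (q : ℤ) : LaurentSeries K)]
    apply Submodule.add_mem
    · refine smul_mem_of_VGE _ ?_ hx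
      exact ((VGE_mo (q : ℤ)).mul (hd 0 _ (VGE_ps p))).mono (by omega)
    · exact smul_mem_of_VGE _ (VGE_ps p) hx'

end aux

theorem common_lattice {K : Type} [Field K] {n : ℕ} (d : Der K)
    (A₁ A₂ : Matrix (Fin n) (Fin n) (LaurentSeries K)) (hflat : Flat dO A₁ (dI d) A₂)
    (q₁ q₂ : ℕ) (G₁ G₂ : Matrix (Fin n) (Fin n) (LaurentSeries K)) (hG₁ : IsUnit G₁.det)
    (hG₂ : IsUnit G₂.det) (h₁ : MVGE (-(q₁ : ℤ)) (ga dO A₁ G₁))
    (h₂ : MVGE (-(q₂ : ℤ)) (ga (dI d) A₂ G₂)) :
    ∃ G : Matrix (Fin n) (Fin n) (LaurentSeries K), IsUnit G.det ∧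
      MVGE (-(q₁ : ℤ)) (ga dO A₁ G) ∧ MVGE (-(q₂ : ℤ)) (ga (dI d) A₂ G) := by
  have hdO : ∀ (a : ℤ) (z : LaurentSeries K), VGE a z → VGE a (dO z) := fun a z h => h.outer
  have hdI : ∀ (a : ℤ) (z : LaurentSeries K), VGE a z → VGE a (dI d z) := fun a z h => h.inner d
  set S : (Fin n → LaurentSeries K) → (Fin n → LaurentSeries K) :=
    fun v => (mo (q₂ : ℤ) : LaurentSeries K) • nb (dI d) A₂ v with hS
  set T : (Fin n → LaurentSeries K) → (Fin n → LaurentSeries K) :=
    fun v => (mo (q₁ : ℤ) : LaurentSeries K) • nb dO A₁ v with hT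
  set X : Set (Fin n → LaurentSeries K) :=
    {w | ∃ (j : ℕ) (v : Fin n → LaurentSeries K), (∀ i, VGE 0 ((G₁⁻¹.mulVec v) i)) ∧
      w = S^[j] v} with hX
  -- stability under `S`
  have hSX : ∀ w ∈ Submodule.span (PowerSeries K) X, S w ∈ Submodule.span (PowerSeries K) X := by
    intro w hw
    refine span_stab (dI d) hdI A₂ q₂ X ?_ hw
    rintro w ⟨j, v, hv, rfl⟩
    apply Submodule.subset_span
    refine ⟨j + 1, v, hv, ?_⟩
    rw [Function.iterate_succ_apply']
  -- the commutator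
  have hTS : ∀ v, T (S v) = S (T v) + ((q₂ : LaurentSeries K) * mo (q₁ : ℤ)) • S v := by
    intro v
    show (mo (q₁ : ℤ) : LaurentSeries K) • nb dO A₁ ((mo (q₂ : ℤ) : LaurentSeries K) •
      nb (dI d) A₂ v) = (mo (q₂ : ℤ) : LaurentSeries K) • nb (dI d) A₂
        ((mo (q₁ : ℤ) : LaurentSeries K) • nb dO A₁ v) +
        ((q₂ : LaurentSeries K) * mo (q₁ : ℤ)) • ((mo (q₂ : ℤ) : LaurentSeries K) •
          nb (dI d) A₂ v)
    rw [nb_smul, nb_smul, dO_mo, dI_mo, nb_comm d A₁ A₂ hflat, zero_smul, zero_add, smul_add,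
      smul_smul, smul_smul, smul_smul, smul_smul, add_comm]
    congr 2
    · ring
    · push_cast
      ring
  have hVq : VGE 0 ((q₂ : LaurentSeries K) * mo (q₁ : ℤ)) :=
    ((VGE_natCast q₂).mul (VGE_mo (q₁ : ℤ))).mono (by omega)
  -- stability under `T`
  have hTgen : ∀ (j : ℕ) (v : Fin n → LaurentSeries K), (∀ i, VGE 0 ((G₁⁻¹.mulVec v) i)) →
      T (S^[j] v) ∈ Submodule.span (PowerSeries K) X := by
    intro j v hv
    induction j with
    | zero =>
      apply Submodule.subset_span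
      exact ⟨0, T v, stab dO hdO A₁ G₁ hG₁ q₁ h₁ 0 v hv, rfl⟩
    | succ j ih =>
      rw [Function.iterate_succ_apply', hTS]
      apply Submodule.add_mem
      · exact hSX _ ih
      · apply smul_mem_of_VGE _ hVq
        apply Submodule.subset_span
        refine ⟨j + 1, v, hv, ?_⟩
        rw [Function.iterate_succ_apply']
  have hTX : ∀ w ∈ Submodule.span (PowerSeries K) X, T w ∈ Submodule.span (PowerSeries K) X := by
    intro w hw
    refine span_stab dO hdO A₁ q₁ X ?_ hw
    rintro w ⟨j, v, hv, rfl⟩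
    exact hTgen j v hv
  -- bounds
  obtain ⟨k₁, hk₁, hk₁'⟩ := exists_bound G₁
  obtain ⟨k₂, hk₂, hk₂'⟩ := exists_bound G₂
  have hgen : ∀ (j : ℕ) (v : Fin n → LaurentSeries K), (∀ i, VGE 0 ((G₁⁻¹.mulVec v) i)) →
      ∀ i, VGE (-(k₂ : ℤ) + (-(k₁ : ℤ) + 0)) ((G₂⁻¹.mulVec (S^[j] v)) i) := by
    intro j v hv
    induction j with
    | zero =>
      intro i
      have e1 : v = G₁.mulVec (G₁⁻¹.mulVec v) := by
        rw [Matrix.mulVec_mulVec, Matrix.mul_nonsing_inv _ hG₁, Matrix.one_mulVec]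
      have h3 : ∀ i, VGE (-(k₁ : ℤ) + 0) (v i) := by
        intro i
        rw [e1]
        exact hk₁.mulVec hv i
      exact hk₂'.mulVec h3 i
    | succ j ih =>
      rw [Function.iterate_succ_apply']
      exact stab (dI d) hdI A₂ G₂ hG₂ q₂ h₂ _ _ ih
  have hlow : ∀ w ∈ Submodule.span (PowerSeries K) X,
      ∀ i, VGE (-(k₂ : ℤ) + (-(k₂ : ℤ) + (-(k₁ : ℤ) + 0))) (w i) := by
    intro w hw
    induction hw using Submodule.span_induction with
    | mem x hx =>
      obtain ⟨j, v, hv, rfl⟩ := hx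
      intro i
      have e1 : S^[j] v = G₂.mulVec (G₂⁻¹.mulVec (S^[j] v)) := by
        rw [Matrix.mulVec_mulVec, Matrix.mul_nonsing_inv _ hG₂, Matrix.one_mulVec]
      rw [e1]
      exact hk₂.mulVec (hgen j v hv) i
    | zero => exact fun i => VGE_zero _
    | add x y _ _ hx hy => exact fun i => (hx i).add (hy i)
    | smul p x _ hx =>
      intro i
      rw [ps_smul]
      exact ((VGE_ps p).mul (hx i)).mono (by omega)
  have hhigh : ∀ v : Fin n → LaurentSeries K, (∀ i, VGE (k₁ : ℤ) (v i)) →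
      v ∈ Submodule.span (PowerSeries K) X := by
    intro v hv
    apply Submodule.subset_span
    refine ⟨0, v, ?_, rfl⟩
    intro i
    exact (hk₁'.mulVec hv i).mono (by omega)
  obtain ⟨G, hG, hGm⟩ := lattice_basis (Submodule.span (PowerSeries K) X) _ _ hhigh hlow
  have hfin : ∀ (δ : Der (LaurentSeries K)) (A : Matrix (Fin n) (Fin n) (LaurentSeries K)) (q : ℕ),
      (∀ w ∈ Submodule.span (PowerSeries K) X,
        (mo (q : ℤ) : LaurentSeries K) • nb δ A w ∈ Submodule.span (PowerSeries K) X) →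
      MVGE (-(q : ℤ)) (ga δ A G) := by
    intro δ A q hst i j
    have h3 : G.mulVec (Pi.single j 1) ∈ Submodule.span (PowerSeries K) X := by
      rw [hGm]
      intro i
      rw [Matrix.mulVec_mulVec, Matrix.nonsing_inv_mul _ hG, Matrix.one_mulVec]
      by_cases hij : i = j
      · rw [hij, Pi.single_eq_same]
        exact VGE_one
      · rw [Pi.single_eq_of_ne hij]
        exact VGE_zero _
    have h4 := (hGm _).1 (hst _ h3) i
    rw [nb_gauge δ A G hG, Matrix.mulVec_smul, Matrix.mulVec_mulVec,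
      Matrix.nonsing_inv_mul _ hG, Matrix.one_mulVec] at h4
    have h5 : nb δ (ga δ A G) (Pi.single j 1) i = ga δ A G i j := by
      show δ ((Pi.single j 1 : Fin n → LaurentSeries K) i) +
        ((ga δ A G).mulVec (Pi.single j 1)) i = ga δ A G i j
      rw [Matrix.mulVec_single_one]
      have h6 : δ ((Pi.single j 1 : Fin n → LaurentSeries K) i) = 0 := by
        by_cases hij : i = j
        · rw [hij, Pi.single_eq_same, δ.map_one']
        · rw [Pi.single_eq_of_ne hij, map_zero]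
      rw [h6, zero_add]
      rfl
    rw [Pi.smul_apply, smul_eq_mul, h5] at h4
    rw [← VGE_mo_mul (q : ℤ), add_neg_cancel]
    exact h4
  exact ⟨G, hG, hfin dO A₁ q₁ hTX, hfin (dI d) A₂ q₂ hSX⟩

end Pool.Agent.Helper84.CV
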