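import Pool.Agent.Helper84.CV.B2

/-!
# CV-Exact: the exact slope after ramification

Plan. The case `n = 0` is trivial (`q = 0`, `G = 1`). Let `W` be the matrix with columns `v_i = ∇^i v`, `i < n`
(`v_i = itc d A v i`), invertible; write `∇^n v = ∑_(i<n) a_i v_i` (`a = W⁻¹ (∇^n v)`). For `a_i ≠ 0` let `o_i` be its
order (`VGE o_i a_i`, `a_i.coeff o_i ≠ 0`). `(n - i) ∣ n! ∣ N`. Let `q` be the maximum of `0` and the numbers
`-N o_i / (n - i)` (integers), `i` with `a_i ≠ 0`. So `q (n - i) + N o_i ≥ 0` for all `i` with `a_i ≠ 0`, and if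
`q > 0` equality holds for some `i`.

`G` = matrix with columns `g_i = τ^(q i) c^i ram(v_i)`, i.e. `ram W` times a diagonal matrix: invertible.
`∇' = d' + c ram(A)` satisfies `∇' (ram x) = c ram (∇ x)` (`hcomp`), `d' (τ^(q i)) = e_i τ^(q i)` with a constant
`e_i ∈ K`. So `τ^q ∇' g_i = τ^q e_i g_i + g_(i+1)` for `i < n - 1` and
`τ^q ∇' g_(n-1) = τ^q e_(n-1) g_(n-1) + ∑_i τ^(q (n-i)) c^(n-i) ram(a_i) g_i`. Thus `τ^q ga d' (..) G` is
`τ^q diag(e_i)` plus the companion matrix with last column `β_i = τ^(q (n-i)) c^(n-i) ram(a_i)`, integral.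
If `q > 0` the coefficient matrix is the companion matrix `M` with last column `β_i(0)`, some `β_i(0) ≠ 0`. If `M`
were nilpotent, then `M^n = 0`; but `M^i e_0 = e_i` for `i < n` and `M^n e_0 = M e_(n-1) = ∑ β_i(0) e_i ≠ 0`.
-/

set_option autoImplicit false

open Matrix

namespace Pool.Agent.Helper84.CV

private theorem exists_ord {K : Type} [Field K] (z : LaurentSeries K) (hz : z ≠ 0) :
    ∃ o : ℤ, VGE o z ∧ z.coeff o ≠ 0 :=
  ⟨z.order, fun _ hj => HahnSeries.coeff_eq_zero_of_lt_order hj,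
    fun h => hz (HahnSeries.coeff_order_eq_zero.mp h)⟩

private theorem comp_not_nilp {K : Type} [Field K] {k : ℕ}
    (M : Matrix (Fin (k + 1)) (Fin (k + 1)) K) (b : Fin (k + 1) → K)
    (hM : ∀ j l : Fin (k + 1), j.val < k → M l j = if l.val = j.val + 1 then 1 else 0)
    (hlast : ∀ l, M l (Fin.last k) = b l) (hb : ∃ l, b l ≠ 0) : ¬ IsNilpotent M := by
  intro hn
  have h1 := Matrix.isNilpotent_charpoly_sub_pow_of_isNilpotent hn
  have h2 : M.charpoly = Polynomial.X ^ (k + 1) := by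
    have h := h1.eq_zero
    rw [Fintype.card_fin] at h
    exact sub_eq_zero.mp h
  have h3 : M ^ (k + 1) = 0 := by
    have h := Matrix.aeval_self_charpoly M
    rw [h2] at h
    simpa using h
  have hst : ∀ i : ℕ, ∀ hi : i < k + 1,
      (M ^ i).mulVec (Pi.single (0 : Fin (k + 1)) 1) = Pi.single (⟨i, hi⟩ : Fin (k + 1)) 1 := by
    intro i
    induction i with
    | zero =>
      intro hi
      rw [pow_zero, Matrix.one_mulVec]
      rfl
    | succ i ih =>
      intro hi
      rw [pow_succ', ← Matrix.mulVec_mulVec, ih (by omega), Matrix.mulVec_single_one]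
      funext l
      rw [Matrix.col_apply, hM _ l (by change i < k; omega)]
      by_cases hl : l.val = i + 1
      · have hl' : l = ⟨i + 1, hi⟩ := Fin.ext hl
        rw [hl', Pi.single_eq_same, if_pos rfl]
      · have hl' : l ≠ ⟨i + 1, hi⟩ := fun h => hl (congrArg Fin.val h)
        rw [Pi.single_eq_of_ne hl', if_neg hl]
  obtain ⟨l, hl⟩ := hb
  apply hl
  have h4 : (M ^ (k + 1)).mulVec (Pi.single (0 : Fin (k + 1)) 1) = fun l => M l (Fin.last k) := by
    rw [pow_succ', ← Matrix.mulVec_mulVec, hst k (by omega), Matrix.mulVec_single_one]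
    rfl
  rw [h3, Matrix.zero_mulVec] at h4
  have h5 := congrFun h4 l
  rw [hlast l] at h5
  exact h5.symm

theorem exact_slope {K : Type} [Field K] {n : ℕ} (N : ℕ) [NeZero N] (hN : n.factorial ∣ N)
    (d d' : Der (LaurentSeries K)) (c : K) (hc : c ≠ 0)
    (hcomp : ∀ z, d' (ram N z) = HahnSeries.C c * ram N (d z))
    (hmo : ∀ m : ℤ, ∃ e : K, d' (mo m) = HahnSeries.C e * mo m)
    (hC : d' (HahnSeries.C c) = 0)
    (A : Matrix (Fin n) (Fin n) (LaurentSeries K)) (v : Fin n → LaurentSeries K)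
    (hv : IsUnit (Matrix.of fun i j : Fin n => itc d A v j i).det) :
    ∃ (q : ℕ) (G : Matrix (Fin n) (Fin n) (LaurentSeries K)), IsUnit G.det ∧
      MVGE (-(q : ℤ)) (ga d' ((HahnSeries.C c : LaurentSeries K) • A.map (ram N)) G) ∧
      (0 < q → ¬ IsNilpotent
        (co (-(q : ℤ)) (ga d' ((HahnSeries.C c : LaurentSeries K) • A.map (ram N)) G))) := by
  cases n with
  | zero =>
    refine ⟨0, 1, ?_, ?_, ?_⟩
    · rw [Matrix.det_one]
      exact isUnit_one
    · intro i
      exact i.elim0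
    · intro h
      exact absurd h (lt_irrefl 0)
  | succ k =>
  have hCc : (HahnSeries.C c : LaurentSeries K) ≠ 0 := by
    intro h
    apply hc
    have h1 := congrArg (fun z : LaurentSeries K => z.coeff 0) h
    simpa using h1
  obtain ⟨W, hW⟩ : ∃ W : Matrix (Fin (k + 1)) (Fin (k + 1)) (LaurentSeries K),
      W = Matrix.of fun i j : Fin (k + 1) => itc d A v j i := ⟨_, rfl⟩
  rw [← hW] at hv
  have hWa : ∀ i l, W i l = itc d A v l i := by
    intro i l
    rw [hW]
    rfl
  -- the coefficients of the relation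
  obtain ⟨a, ha⟩ : ∃ a : Fin (k + 1) → LaurentSeries K,
      ∀ i, ∑ l, W i l * a l = itc d A v (k + 1) i := by
    refine ⟨W⁻¹.mulVec (itc d A v (k + 1)), ?_⟩
    intro i
    have h1 : W.mulVec (W⁻¹.mulVec (itc d A v (k + 1))) = itc d A v (k + 1) := by
      rw [Matrix.mulVec_mulVec, Matrix.mul_nonsing_inv W hv, Matrix.one_mulVec]
    exact congrFun h1 i
  have hdiv : ∀ l : Fin (k + 1), (k + 1 - l.val) * (N / (k + 1 - l.val)) = N := by
    intro l
    refine Nat.mul_div_cancel' ?_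
    have h1 := l.isLt
    exact (Nat.dvd_factorial (by omega) (by omega)).trans hN
  obtain ⟨o, ho⟩ : ∃ o : Fin (k + 1) → ℤ, ∀ l, a l ≠ 0 → VGE (o l) (a l) ∧ (a l).coeff (o l) ≠ 0 := by
    have h1 : ∀ l, ∃ o : ℤ, a l ≠ 0 → VGE o (a l) ∧ (a l).coeff o ≠ 0 := by
      intro l
      by_cases hl : a l = 0
      · exact ⟨0, fun h => absurd hl h⟩
      · obtain ⟨o, ho⟩ := exists_ord (a l) hl
        exact ⟨o, fun _ => ho⟩
    choose o ho using h1
    exact ⟨o, ho⟩
  classical
  obtain ⟨qz, hqz⟩ : ∃ qz : Fin (k + 1) → ℤ, ∀ l, qz l =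
      if a l = 0 then 0 else -(((N / (k + 1 - l.val) : ℕ) : ℤ) * o l) := ⟨_, fun _ => rfl⟩
  obtain ⟨q, hq⟩ : ∃ q : ℕ, q = Finset.univ.sup fun l => (qz l).toNat := ⟨_, rfl⟩
  have hqle : ∀ l, qz l ≤ (q : ℤ) := by
    intro l
    have h1 : (qz l).toNat ≤ q := by
      rw [hq]
      exact Finset.le_sup (f := fun l => (qz l).toNat) (Finset.mem_univ l)
    omega
  have hqex : 0 < q → ∃ l, a l ≠ 0 ∧ (q : ℤ) = -(((N / (k + 1 - l.val) : ℕ) : ℤ) * o l) := by
    intro hq0
    obtain ⟨l, _, hl⟩ := Finset.exists_mem_eq_sup (Finset.univ : Finset (Fin (k + 1)))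
      Finset.univ_nonempty (fun l => (qz l).toNat)
    rw [← hq] at hl
    have h1 : qz l = (q : ℤ) := by omega
    have h2 : a l ≠ 0 := by
      intro h
      rw [hqz, if_pos h] at h1
      omega
    refine ⟨l, h2, ?_⟩
    rw [← h1, hqz, if_neg h2]
  have hNl : ∀ l : Fin (k + 1), (((k + 1 - l.val : ℕ) : ℤ)) * ((N / (k + 1 - l.val) : ℕ) : ℤ) =
      (N : ℤ) := by
    intro l
    exact_mod_cast hdiv l
  have hval : ∀ l, a l ≠ 0 → 0 ≤ (q : ℤ) * ((k + 1 - l.val : ℕ) : ℤ) + (N : ℤ) * o l := by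
    intro l hl
    have h1 := hqle l
    rw [hqz, if_neg hl] at h1
    rw [← hNl l]
    have h2 : (0 : ℤ) ≤ ((k + 1 - l.val : ℕ) : ℤ) := Int.natCast_nonneg _
    nlinarith [mul_le_mul_of_nonneg_right h1 h2]
  -- the basis
  have hCp : ∀ j : ℕ, d' ((HahnSeries.C c : LaurentSeries K) ^ j) = 0 := by
    intro j
    rw [Der.map_pow', hC, mul_zero]
  choose e he using fun j : ℕ => hmo ((q : ℤ) * j)
  obtain ⟨g, hg⟩ : ∃ g : ℕ → Fin (k + 1) → LaurentSeries K, ∀ j i, g j i =
      mo ((q : ℤ) * j) * (HahnSeries.C c : LaurentSeries K) ^ j * ram N (itc d A v j i) :=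
    ⟨_, fun _ _ => rfl⟩
  obtain ⟨A', hA'⟩ : ∃ A' : Matrix (Fin (k + 1)) (Fin (k + 1)) (LaurentSeries K),
      A' = (HahnSeries.C c : LaurentSeries K) • A.map (ram N) := ⟨_, rfl⟩
  rw [← hA']
  have hrv : ∀ j i, d' (ram N (itc d A v j i)) +
      (A'.mulVec fun l => ram N (itc d A v j l)) i =
      HahnSeries.C c * ram N (itc d A v (j + 1) i) := by
    intro j i
    have h1 : (A'.mulVec fun l => ram N (itc d A v j l)) i =
        HahnSeries.C c * ram N ((A.mulVec (itc d A v j)) i) := by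
      rw [hA']
      simp only [Matrix.mulVec, dotProduct, Matrix.smul_apply, Matrix.map_apply, smul_eq_mul]
      rw [map_sum, Finset.mul_sum]
      refine Finset.sum_congr rfl fun l _ => ?_
      rw [map_mul, mul_assoc]
    have h2 : itc d A v (j + 1) i = d (itc d A v j i) + (A.mulVec (itc d A v j)) i := rfl
    rw [h1, hcomp, h2, map_add, mul_add]
  have hgj : ∀ j i, d' (g j i) + (A'.mulVec (g j)) i =
      HahnSeries.C (e j) * g j i + mo (-(q : ℤ)) * g (j + 1) i := by
    intro j i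
    have h1 : (A'.mulVec (g j)) i = mo ((q : ℤ) * j) * (HahnSeries.C c : LaurentSeries K) ^ j *
        (A'.mulVec fun l => ram N (itc d A v j l)) i := by
      simp only [Matrix.mulVec, dotProduct]
      rw [Finset.mul_sum]
      refine Finset.sum_congr rfl fun l _ => ?_
      rw [hg]
      ring
    have h2 : d' (g j i) = mo ((q : ℤ) * j) * (HahnSeries.C c : LaurentSeries K) ^ j *
        d' (ram N (itc d A v j i)) + HahnSeries.C (e j) * g j i := by
      rw [hg, Der.leib, Der.leib d' (mo ((q : ℤ) * j)), hCp, he]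
      ring
    have h3 : (mo (-(q : ℤ)) : LaurentSeries K) * mo ((q : ℤ) * ((j + 1 : ℕ) : ℤ)) =
        mo ((q : ℤ) * j) := by
      rw [mo_mul]
      congr 1
      push_cast
      ring
    have h4 : mo (-(q : ℤ)) * g (j + 1) i = mo ((q : ℤ) * j) *
        (HahnSeries.C c : LaurentSeries K) ^ j *
        (HahnSeries.C c * ram N (itc d A v (j + 1) i)) := by
      rw [hg, ← h3, pow_succ]
      ring
    rw [h4, ← hrv, h1, h2]
    ring
  obtain ⟨G, hG⟩ : ∃ G : Matrix (Fin (k + 1)) (Fin (k + 1)) (LaurentSeries K),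
      ∀ i l, G i l = g l.val i := ⟨Matrix.of fun i l => g l.val i, fun _ _ => rfl⟩
  obtain ⟨β, hβ⟩ : ∃ β : Fin (k + 1) → LaurentSeries K, ∀ l, β l =
      mo ((q : ℤ) * ((k + 1 - l.val : ℕ) : ℤ)) *
        ((HahnSeries.C c : LaurentSeries K) ^ (k + 1 - l.val) * ram N (a l)) :=
    ⟨_, fun _ => rfl⟩
  have hlast : ∀ i, ∑ l, g l.val i * β l = g (k + 1) i := by
    intro i
    rw [hg (k + 1) i, ← ha i, map_sum, Finset.mul_sum]
    refine Finset.sum_congr rfl fun l _ => ?_
    have h1 := l.isLt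
    have h2 : (mo ((q : ℤ) * ((k + 1 : ℕ) : ℤ)) : LaurentSeries K) =
        mo ((q : ℤ) * (l.val : ℤ)) * mo ((q : ℤ) * ((k + 1 - l.val : ℕ) : ℤ)) := by
      rw [mo_mul]
      congr 1
      rw [Nat.cast_sub (by omega)]
      ring
    have h3 : (HahnSeries.C c : LaurentSeries K) ^ (k + 1) =
        (HahnSeries.C c : LaurentSeries K) ^ l.val *
          (HahnSeries.C c : LaurentSeries K) ^ (k + 1 - l.val) := by
      rw [← pow_add]
      congr 1
      omega
    rw [hg, hβ, h2, h3, map_mul, hWa]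
    ring
  obtain ⟨Z, hZ⟩ : ∃ Z : Matrix (Fin (k + 1)) (Fin (k + 1)) (LaurentSeries K), ∀ l j, Z l j =
      if j.val < k then (if l.val = j.val + 1 then 1 else 0) else β l := ⟨_, fun _ _ => rfl⟩
  obtain ⟨X, hX⟩ : ∃ X : Matrix (Fin (k + 1)) (Fin (k + 1)) (LaurentSeries K), ∀ l j, X l j =
      (if l = j then HahnSeries.C (e j.val) else 0) + mo (-(q : ℤ)) * Z l j :=
    ⟨_, fun _ _ => rfl⟩
  have hGX : dM d' G + A' * G = G * X := by
    ext1 i j
    have h1 : (dM d' G + A' * G) i j = d' (g j.val i) + (A'.mulVec (g j.val)) i := by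
      rw [Matrix.add_apply, dM_apply, hG, Matrix.mul_apply]
      congr 1
      simp only [Matrix.mulVec, dotProduct]
      exact Finset.sum_congr rfl fun l _ => by rw [hG]
    rw [h1, hgj, Matrix.mul_apply]
    have h2 : ∑ l, G i l * X l j = ∑ l, (if l = j then g l.val i * HahnSeries.C (e j.val) else 0) +
        mo (-(q : ℤ)) * ∑ l, g l.val i * Z l j := by
      rw [Finset.mul_sum, ← Finset.sum_add_distrib]
      refine Finset.sum_congr rfl fun l _ => ?_
      rw [hG, hX]
      split_ifs <;> ring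
    rw [h2, Finset.sum_ite_eq' Finset.univ j, if_pos (Finset.mem_univ _), mul_comm (g j.val i)]
    congr 2
    by_cases hj : j.val < k
    · rw [Finset.sum_eq_single (⟨j.val + 1, by omega⟩ : Fin (k + 1))]
      · rw [hZ, if_pos hj, if_pos rfl, mul_one]
      · intro l _ hl
        rw [hZ, if_pos hj, if_neg, mul_zero]
        intro h
        exact hl (Fin.ext h)
      · intro h
        exact absurd (Finset.mem_univ _) h
    · have hjk : j.val = k := by
        have := j.isLt
        omega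
      rw [hjk, ← hlast i]
      refine Finset.sum_congr rfl fun l _ => ?_
      rw [hZ, if_neg hj]
  have hGdet : IsUnit G.det := by
    have h1 : G = W.map (ram N) * Matrix.diagonal fun j : Fin (k + 1) =>
        mo ((q : ℤ) * (j.val : ℤ)) * (HahnSeries.C c : LaurentSeries K) ^ j.val := by
      ext1 i j
      rw [Matrix.mul_diagonal, Matrix.map_apply, hG, hg, hWa]
      ring
    rw [h1, Matrix.det_mul, Matrix.det_diagonal]
    refine (isUnit_det_map (ram N) W hv).mul ?_
    rw [isUnit_iff_ne_zero]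
    exact Finset.prod_ne_zero_iff.mpr fun j _ => mul_ne_zero (mo_ne_zero _) (pow_ne_zero _ hCc)
  have hga : ga d' A' G = X := by
    unfold ga
    rw [hGX, ← Matrix.mul_assoc, Matrix.nonsing_inv_mul G hGdet, Matrix.one_mul]
  have hβ0 : ∀ l, VGE 0 (β l) := by
    intro l
    rw [hβ]
    by_cases hl : a l = 0
    · rw [hl, map_zero, mul_zero, mul_zero]
      exact VGE_zero 0
    · have h1 : VGE ((N : ℤ) * o l) ((HahnSeries.C c : LaurentSeries K) ^ (k + 1 - l.val) *
          ram N (a l)) := by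
        have h2 := (VGE_C c).pow (k + 1 - l.val)
        have h3 := h2.mul ((ho l hl).1.ramif N)
        rw [mul_zero, zero_add] at h3
        exact h3
      exact ((VGE_mo_mul _ _ _).mpr h1).mono (hval l hl)
  have hZ0 : ∀ l j, VGE 0 (Z l j) := by
    intro l j
    rw [hZ]
    split_ifs
    · exact VGE_one
    · exact VGE_zero 0
    · exact hβ0 l
  refine ⟨q, G, hGdet, ?_, ?_⟩
  · rw [hga]
    intro l j
    rw [hX]
    refine VGE.add ?_ ?_
    · split_ifs
      · exact (VGE_C _).mono (by omega)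
      · exact VGE_zero _
    · have h1 := (VGE_mo_mul (-(q : ℤ)) 0 (Z l j)).mpr (hZ0 l j)
      rwa [add_zero] at h1
  · intro hq0
    rw [hga]
    have hco : ∀ l j, co (-(q : ℤ)) X l j = (Z l j).coeff 0 := by
      intro l j
      change (X l j).coeff (-(q : ℤ)) = _
      rw [hX, HahnSeries.coeff_add, coeff_mo_mul, sub_self]
      have h1 : (if l = j then (HahnSeries.C (e j.val) : LaurentSeries K) else 0).coeff
          (-(q : ℤ)) = 0 := by
        have h2 : -(q : ℤ) ≠ 0 := by omega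
        split_ifs
        · rw [HahnSeries.C_apply]
          exact HahnSeries.coeff_single_of_ne h2
        · rfl
      rw [h1, zero_add]
    refine comp_not_nilp _ (fun l => (β l).coeff 0) ?_ ?_ ?_
    · intro j l hj
      rw [hco, hZ, if_pos hj]
      split_ifs
      · exact HahnSeries.coeff_one.trans (if_pos rfl)
      · rfl
    · intro l
      rw [hco, hZ, if_neg (by simp)]
    · obtain ⟨l, hl, hql⟩ := hqex hq0
      refine ⟨l, ?_⟩
      have h0 : (0 : ℤ) - (q : ℤ) * ((k + 1 - l.val : ℕ) : ℤ) = (N : ℤ) * o l := by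
        rw [hql, ← hNl l]
        ring
      have h1 : (β l).coeff 0 = c ^ (k + 1 - l.val) * (a l).coeff (o l) := by
        rw [hβ, coeff_mo_mul, h0, ← map_pow, coeff_C_mul, ram_coeff_mul]
      change (β l).coeff 0 ≠ 0
      rw [h1]
      exact mul_ne_zero (pow_ne_zero _ hc) (ho l hl).2

end Pool.Agent.Helper84.CV
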