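import Mathlib
import Pool.Agent.Helper89.Sgn.Idem

/-!
# CV-TrPow: a matrix whose powers have trace zero is nilpotent

Over an algebraic closure the trace of `M^k` is the sum of the `k`-th powers of the eigenvalues
(`Matrix.trace_eq_sum_roots_charpoly`, roots of the characteristic polynomial of a power), and the Newton identities
(`MvPolynomial.psum`), or a Vandermonde argument with multiplicities, give that all eigenvalues vanish, so
`charpoly = X^n`. Alternative: Fitting decomposition; or Newton identities for the coefficients of the characteristic
polynomial. Search Mathlib and `Pool/Agent` for an existing proof first.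
-/

set_option autoImplicit false

open Matrix

namespace Pool.Agent.Helper84.CV

theorem trace_pow_nilpotent {K : Type} [Field K] [CharZero K] {n : ℕ}
    (M : Matrix (Fin n) (Fin n) K) (h : ∀ k : ℕ, 1 ≤ k → (M ^ k).trace = 0) :
    IsNilpotent M := by
  have h1 := Pool.Agent.Helper89.Sgn.isNilpotent_of_trace (F := K) (V := Fin n → K)
    (Matrix.toLin' M) (by
      intro k hk
      rw [← Matrix.toLin'_pow, Matrix.trace_toLin'_eq]
      exact h k hk)
  obtain ⟨m, hm⟩ := h1
  refine ⟨m, ?_⟩
  rw [← Matrix.toLin'_pow] at hm
  exact (LinearEquiv.map_eq_zero_iff _).1 hm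

end Pool.Agent.Helper84.CV
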