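import Pool.Agent.Helper84.CV.B2
import Pool.Agent.Helper84.CV.TrPow

/-!
# CV-InnerNil: the slope in the inner direction is at most the slope in the outer direction

For `k ≥ 1` multiply `dO A₂ - dI A₁ + [A₁, A₂] = 0` by `A₂^(k-1)` and take the trace:
`tr (A₂^(k-1) [A₁, A₂]) = 0`, `k tr (A₂^(k-1) dM dO A₂) = dO (tr A₂^k)`, so
`dO (tr A₂^k) = k tr (A₂^(k-1) dM (dI d) A₁)`, of valuation `≥ -(k-1) q₂ - q₁ > -k q₂`. The coefficient of index
`-k q₂` of the left side is `-k q₂ tr ((co (-q₂) A₂)^k)` (`dO_coeff`, `co_pow_low`), and `q₂ > 0`. So all these traces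
vanish: `trace_pow_nilpotent`.
-/

set_option autoImplicit false

open Matrix

namespace Pool.Agent.Helper84.CV

private theorem tr_dM {A : Type} [CommRing A] {n : ℕ} (d : Der A) (M : Matrix (Fin n) (Fin n) A) :
    (dM d M).trace = d M.trace := by
  rw [Matrix.trace, Matrix.trace, map_sum]
  rfl

private theorem tr_dM_pow {A : Type} [CommRing A] {n : ℕ} (d : Der A)
    (M : Matrix (Fin n) (Fin n) A) (k : ℕ) : ∀ j : ℕ,
    (M ^ j * dM d (M ^ k)).trace = (k : A) * (M ^ (j + k - 1) * dM d M).trace := by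
  induction k with
  | zero =>
    intro j
    rw [pow_zero, dM_one, mul_zero, Matrix.trace_zero]
    simp
  | succ k ih =>
    intro j
    rw [pow_succ M k, dM_mul, mul_add, Matrix.trace_add]
    have e1 : (M ^ j * (dM d (M ^ k) * M)).trace = (M ^ (j + 1) * dM d (M ^ k)).trace := by
      rw [← mul_assoc, Matrix.trace_mul_comm, ← mul_assoc, ← pow_succ' M j]
    have e2 : M ^ j * (M ^ k * dM d M) = M ^ (j + k) * dM d M := by
      rw [← mul_assoc, ← pow_add]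
    rw [e1, e2, ih (j + 1)]
    have e3 : j + 1 + k - 1 = j + k := by omega
    have e4 : j + (k + 1) - 1 = j + k := by omega
    rw [e3, e4]
    push_cast
    ring

private theorem tr_VGE {K : Type} [Field K] {n : ℕ} {a : ℤ}
    {M : Matrix (Fin n) (Fin n) (LaurentSeries K)} (h : MVGE a M) : VGE a M.trace := by
  rw [Matrix.trace]
  exact VGE.sum _ _ fun i _ => h i i

private theorem tr_coeff {K : Type} [Field K] {n : ℕ} (a : ℤ)
    (M : Matrix (Fin n) (Fin n) (LaurentSeries K)) : M.trace.coeff a = (co a M).trace := by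
  rw [Matrix.trace, Matrix.trace, HahnSeries.coeff_sum]
  rfl

theorem inner_nilpotent {K : Type} [Field K] [CharZero K] {n : ℕ} (d : Der K)
    (A₁ A₂ : Matrix (Fin n) (Fin n) (LaurentSeries K)) (hflat : Flat dO A₁ (dI d) A₂)
    (q₁ q₂ : ℕ) (h12 : q₁ < q₂) (h₁ : MVGE (-(q₁ : ℤ)) A₁) (h₂ : MVGE (-(q₂ : ℤ)) A₂) :
    IsNilpotent (co (-(q₂ : ℤ)) A₂) := by
  have hq : 0 < q₂ := by omega
  apply trace_pow_nilpotent
  intro k hk
  have e1 : dM dO A₂ = dM (dI d) A₁ - (A₁ * A₂ - A₂ * A₁) := by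
    have h := hflat
    unfold Flat at h
    have h2 : dM dO A₂ = (dM dO A₂ - dM (dI d) A₁ + (A₁ * A₂ - A₂ * A₁)) +
        (dM (dI d) A₁ - (A₁ * A₂ - A₂ * A₁)) := by abel
    rw [h, zero_add] at h2
    exact h2
  have e2 : dO (A₂ ^ k).trace = (k : LaurentSeries K) * (A₂ ^ (k - 1) * dM dO A₂).trace := by
    rw [← tr_dM]
    have h := tr_dM_pow dO A₂ k 0
    rw [pow_zero, one_mul, zero_add] at h
    exact h
  have e3 : (A₂ ^ (k - 1) * (A₁ * A₂ - A₂ * A₁)).trace = 0 := by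
    rw [mul_sub, Matrix.trace_sub, ← mul_assoc, ← mul_assoc]
    have h1 : (A₂ ^ (k - 1) * A₁ * A₂).trace = (A₂ ^ (k - 1) * A₂ * A₁).trace := by
      rw [Matrix.trace_mul_comm, ← mul_assoc]
      rw [← pow_succ', pow_succ]
    rw [h1, sub_self]
  rw [e1, mul_sub, Matrix.trace_sub, e3, sub_zero] at e2
  have v1 : MVGE (((k - 1 : ℕ) : ℤ) * (-(q₂ : ℤ)) + (-(q₁ : ℤ))) (A₂ ^ (k - 1) * dM (dI d) A₁) :=
    (h₂.pow (k - 1)).mul fun i j => (h₁ i j).inner d
  have v2 := (VGE_natCast (K := K) k).mul (tr_VGE v1)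
  rw [← e2] at v2
  have hlt : ((k : ℤ) * (-(q₂ : ℤ))) < 0 + (((k - 1 : ℕ) : ℤ) * (-(q₂ : ℤ)) + (-(q₁ : ℤ))) := by
    have h1 : ((k - 1 : ℕ) : ℤ) = (k : ℤ) - 1 := by
      rw [Nat.cast_sub hk]
      simp
    rw [h1]
    have h2 : (q₁ : ℤ) < (q₂ : ℤ) := by exact_mod_cast h12
    nlinarith
  have v3 := v2 _ hlt
  rw [dO_coeff, tr_coeff, co_pow_low h₂ k] at v3
  rcases mul_eq_zero.1 v3 with h | h
  · exfalso
    have h1 : ((k : ℤ) * (-(q₂ : ℤ))) ≠ 0 := by
      have hk' : (k : ℤ) ≠ 0 := by exact_mod_cast (by omega : k ≠ 0)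
      have hq' : (-(q₂ : ℤ)) ≠ 0 := by
        have : (q₂ : ℤ) ≠ 0 := by exact_mod_cast (by omega : q₂ ≠ 0)
        exact neg_ne_zero.2 this
      exact mul_ne_zero hk' hq'
    exact h1 (Int.cast_eq_zero.1 h)
  · exact h

end Pool.Agent.Helper84.CV
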