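import Pool.Agent.Helper84.CV.B2

/-!
# CV-NilInd: nilpotence of the leading term does not depend on the lattice

Plan. By `ga_mul` we may replace `A` by `ga d A G` and `G'` by `H = G⁻¹ G'` (so `G = 1`): `A` has valuation `≥ -q`,
`A' = ga d A H` has valuation `≥ -q`. Put `T = π^q (d + A)` on `L^n`. `T` maps `π^k O^n` to itself for every integer `k`
(`d` preserves the valuation, `hd`, and `q ≥ 1`), and for `x ∈ O^n`: `(T x)` has coefficient `0` equal to
`Ā x(0)`, `Ā = co (-q) A` (the term `π^q d x` has valuation `≥ 1`). If `Ā^r = 0` then `T^r` maps `π^k O^n` to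
`π^(k+1) O^n` for `k = 0`, and for all `k`: `T (π^k x) = π^k (T x + π^q e x)`, `d π^k = e π^k` (`hmo`), has coefficient
of index `k` equal to `Ā x(0)`. So `T^(r j)` maps `π^k O^n` into `π^(k+j) O^n`. Let `c` be a bound for `H` and `H⁻¹`
(`exists_bound`). `T' = π^q (d + A')` satisfies `T (H x) = H (T' x)`. Hence `T'^(r j)` maps `O^n` into
`H⁻¹ T^(r j) (H O^n) ⊆ H⁻¹ T^(r j) (π^(-c) O^n) ⊆ π^(j - 2c) O^n`, and `(co (-q) A')^(r j) x(0)` is the coefficient `0` of
`T'^(r j) x`. For `j = 2c + 1` it vanishes for all constant `x`, so `co (-q) A'` is nilpotent.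
-/

set_option autoImplicit false

open Matrix

namespace Pool.Agent.Helper84.CV

/-- the operator `π^q (d + B)` on matrices -/
private noncomputable def niT {K : Type} [Field K] {n : ℕ} (d : Der (LaurentSeries K)) (q : ℕ)
    (B : Matrix (Fin n) (Fin n) (LaurentSeries K)) (X : Matrix (Fin n) (Fin n) (LaurentSeries K)) :
    Matrix (Fin n) (Fin n) (LaurentSeries K) :=
  (mo (q : ℤ) : LaurentSeries K) • (dM d X + B * X)

private theorem niT_coeff {K : Type} [Field K] {n : ℕ} (d : Der (LaurentSeries K)) (q : ℕ)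
    (B X : Matrix (Fin n) (Fin n) (LaurentSeries K)) (i j : Fin n) (k : ℤ) :
    (niT d q B X i j).coeff k = (d (X i j)).coeff (k - q) + ((B * X) i j).coeff (k - q) := by
  unfold niT
  rw [Matrix.smul_apply, smul_eq_mul, coeff_mo_mul, Matrix.add_apply, dM_apply,
    HahnSeries.coeff_add]

private theorem niT_MVGE {K : Type} [Field K] {n : ℕ} (d : Der (LaurentSeries K))
    (hd : ∀ (k : ℤ) (z : LaurentSeries K), VGE k z → VGE k (d z)) (q : ℕ)
    {B X : Matrix (Fin n) (Fin n) (LaurentSeries K)} (hB : MVGE (-(q : ℤ)) B) {k : ℤ}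
    (hX : MVGE k X) : MVGE k (niT d q B X) := by
  intro i j l hl
  rw [niT_coeff, hd k _ (hX i j) (l - q) (by omega),
    (hB.mul hX) i j (l - q) (by omega), add_zero]

private theorem niT_co {K : Type} [Field K] {n : ℕ} (d : Der (LaurentSeries K))
    (hd : ∀ (k : ℤ) (z : LaurentSeries K), VGE k z → VGE k (d z)) (q : ℕ) (hq : 0 < q)
    {B X : Matrix (Fin n) (Fin n) (LaurentSeries K)} (hB : MVGE (-(q : ℤ)) B) {k : ℤ}
    (hX : MVGE k X) : co k (niT d q B X) = co (-(q : ℤ)) B * co k X := by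
  rw [← co_mul_low hB hX]
  ext i j
  show (niT d q B X i j).coeff k = ((B * X) i j).coeff (-(q : ℤ) + k)
  rw [niT_coeff, hd k _ (hX i j) (k - q) (by omega), zero_add]
  congr 1
  ring

private theorem niT_iter_MVGE {K : Type} [Field K] {n : ℕ} (d : Der (LaurentSeries K))
    (hd : ∀ (k : ℤ) (z : LaurentSeries K), VGE k z → VGE k (d z)) (q : ℕ)
    {B X : Matrix (Fin n) (Fin n) (LaurentSeries K)} (hB : MVGE (-(q : ℤ)) B) {k : ℤ}
    (hX : MVGE k X) (m : ℕ) : MVGE k ((niT d q B)^[m] X) := by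
  induction m with
  | zero => exact hX
  | succ m ih =>
    rw [Function.iterate_succ_apply']
    exact niT_MVGE d hd q hB ih

private theorem niT_iter_co {K : Type} [Field K] {n : ℕ} (d : Der (LaurentSeries K))
    (hd : ∀ (k : ℤ) (z : LaurentSeries K), VGE k z → VGE k (d z)) (q : ℕ) (hq : 0 < q)
    {B X : Matrix (Fin n) (Fin n) (LaurentSeries K)} (hB : MVGE (-(q : ℤ)) B) {k : ℤ}
    (hX : MVGE k X) (m : ℕ) : co k ((niT d q B)^[m] X) = co (-(q : ℤ)) B ^ m * co k X := by
  induction m with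
  | zero => rw [Function.iterate_zero_apply, pow_zero, Matrix.one_mul]
  | succ m ih =>
    rw [Function.iterate_succ_apply', niT_co d hd q hq hB (niT_iter_MVGE d hd q hB hX m), ih,
      pow_succ', Matrix.mul_assoc]

private theorem MVGE_succ_of_co {K : Type} [Field K] {n : ℕ}
    {X : Matrix (Fin n) (Fin n) (LaurentSeries K)} {k : ℤ} (hX : MVGE k X) (h0 : co k X = 0) :
    MVGE (k + 1) X := by
  intro i j l hl
  rcases lt_or_eq_of_le (Int.lt_add_one_iff.1 hl) with h | h
  · exact hX i j l h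
  · subst h
    exact congrFun (congrFun h0 i) j

private theorem niT_gain {K : Type} [Field K] {n : ℕ} (d : Der (LaurentSeries K))
    (hd : ∀ (k : ℤ) (z : LaurentSeries K), VGE k z → VGE k (d z)) (q : ℕ) (hq : 0 < q)
    {B X : Matrix (Fin n) (Fin n) (LaurentSeries K)} (hB : MVGE (-(q : ℤ)) B) {r : ℕ}
    (hr : co (-(q : ℤ)) B ^ r = 0) {k : ℤ} (hX : MVGE k X) (j : ℕ) :
    MVGE (k + j) ((niT d q B)^[r * j] X) := by
  induction j with
  | zero =>
    rw [Nat.mul_zero, Function.iterate_zero_apply, Nat.cast_zero, add_zero]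
    exact hX
  | succ j ih =>
    have h1 : r * (j + 1) = r + r * j := by ring
    rw [h1, Function.iterate_add_apply]
    have h2 : MVGE (k + j + 1) ((niT d q B)^[r] ((niT d q B)^[r * j] X)) := by
      apply MVGE_succ_of_co (niT_iter_MVGE d hd q hB ih r)
      rw [niT_iter_co d hd q hq hB ih r, hr, Matrix.zero_mul]
    have h3 : k + ((j + 1 : ℕ) : ℤ) = k + j + 1 := by push_cast; ring
    rw [h3]
    exact h2

private theorem niT_inter {K : Type} [Field K] {n : ℕ} (d : Der (LaurentSeries K)) (q : ℕ)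
    (B H X : Matrix (Fin n) (Fin n) (LaurentSeries K)) (hH : IsUnit H.det) :
    niT d q B (H * X) = H * niT d q (ga d B H) X := by
  have h1 : H * ga d B H = dM d H + B * H := by
    unfold ga
    rw [← Matrix.mul_assoc, Matrix.mul_nonsing_inv _ hH, Matrix.one_mul]
  unfold niT
  rw [Matrix.mul_smul, dM_mul, Matrix.mul_add, ← Matrix.mul_assoc H, h1, Matrix.add_mul,
    ← Matrix.mul_assoc B, add_assoc]

private theorem niT_iter_inter {K : Type} [Field K] {n : ℕ} (d : Der (LaurentSeries K)) (q : ℕ)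
    (B H X : Matrix (Fin n) (Fin n) (LaurentSeries K)) (hH : IsUnit H.det) (m : ℕ) :
    (niT d q B)^[m] (H * X) = H * (niT d q (ga d B H))^[m] X := by
  induction m with
  | zero => rfl
  | succ m ih =>
    rw [Function.iterate_succ_apply', Function.iterate_succ_apply', ih, niT_inter d q B H _ hH]

theorem nilpotent_indep {K : Type} [Field K] {n : ℕ} (d : Der (LaurentSeries K))
    (hd : ∀ (k : ℤ) (z : LaurentSeries K), VGE k z → VGE k (d z))
    (hmo : ∀ m : ℤ, ∃ e : K, d (mo m) = HahnSeries.C e * mo m)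
    (A G G' : Matrix (Fin n) (Fin n) (LaurentSeries K)) (hG : IsUnit G.det) (hG' : IsUnit G'.det)
    (q : ℕ) (hq : 0 < q) (h : MVGE (-(q : ℤ)) (ga d A G)) (h' : MVGE (-(q : ℤ)) (ga d A G'))
    (hn : IsNilpotent (co (-(q : ℤ)) (ga d A G))) :
    IsNilpotent (co (-(q : ℤ)) (ga d A G')) := by
  have _ := hmo
  obtain ⟨r, hr⟩ := hn
  set B := ga d A G with hB
  set H := G⁻¹ * G' with hHd
  have hGH : G * H = G' := by
    rw [hHd, ← Matrix.mul_assoc, Matrix.mul_nonsing_inv _ hG, Matrix.one_mul]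
  have hH : IsUnit H.det := by
    rw [hHd, Matrix.det_mul]
    exact (isUnit_det_inv G hG).mul hG'
  have hga : ga d A G' = ga d B H := by
    rw [hB, ← ga_mul d A G H hG, hGH]
  rw [hga] at h' ⊢
  obtain ⟨c, hc, hc'⟩ := exists_bound H
  have h1 : MVGE (-(c : ℤ) + ((2 * c + 1 : ℕ) : ℤ)) ((niT d q B)^[r * (2 * c + 1)] (H * 1)) := by
    apply niT_gain d hd q hq h hr
    rw [Matrix.mul_one]
    exact hc
  rw [niT_iter_inter d q B H 1 hH] at h1
  have h2 := hc'.mul h1
  rw [← Matrix.mul_assoc, Matrix.nonsing_inv_mul _ hH, Matrix.one_mul] at h2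
  have h3 := niT_iter_co d hd q hq h' (MVGE_one (K := K) (n := Fin n)) (r * (2 * c + 1))
  rw [co_one, Matrix.mul_one] at h3
  refine ⟨r * (2 * c + 1), ?_⟩
  rw [← h3]
  ext i j
  exact h2 i j 0 (by push_cast; omega)

end Pool.Agent.Helper84.CV
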