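import Pool.Agent.Helper84.CV.CVec
import Pool.Agent.Helper84.CV.Exact
import Pool.Agent.Helper84.CV.Common
import Pool.Agent.Helper84.CV.NilInd
import Pool.Agent.Helper84.CV.InnerNil

/-!
# CV-CExact: exact slope with a common lattice, in the field of a disc

Plan. `L = K((s))`, `dO = s d/ds`. (1) `cyclic_vector` for `d = dO`, `t = mo 1` (`dO (mo 1) = mo 1 ≠ 0`) and
`exact_slope` with `d = d' = dO`, `c = N` (`dO_ram`: `dO (ram z) = N ram (dO z)`; `(N : L) = C (N : K)`): `q₁, G₁` for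
`A₁' = N ram(A₁)`. (2) `cyclic_vector` for `dI d`, `t = C w` (`dI_C`) and `exact_slope` with `d = d' = dI d`, `c = 1`
(`dI_ram`): `q₂, G₂` for `A₂' = ram A₂`. `A₁', A₂'` are flat: `dM dO (ram A₂) - dM (dI d) (N ram A₁) + … = N ram (0)`.
(3) `q₂ ≤ q₁`: otherwise `common_lattice` with `(q₁, q₂)` gives `G`; by `flat_ga` and `inner_nilpotent`
`co (-q₂) (ga (dI d) A₂' G)` is nilpotent, so by `nilpotent_indep` (for `dI d`: `VGE.inner`, `dI_mo`; `q₂ > 0`) also
`co (-q₂) (ga (dI d) A₂' G₂)`, contradiction. (4) So `G₂` has `MVGE (-q₁)`; `common_lattice` with `(q₁, q₁)` gives `G`;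
`q = q₁`. If `q₁ > 0` the leading term for `G` is not nilpotent, as it is not for `G₁` (`nilpotent_indep` for `dO`).
-/

set_option autoImplicit false

open Matrix

namespace Pool.Agent.Helper84.CV

section aux

variable {K : Type} [Field K] {n : ℕ}

private lemma cex_hmo_O (m : ℤ) : ∃ e : K, dO (mo m : LaurentSeries K) =
    HahnSeries.C e * mo m := by
  refine ⟨(m : K), ?_⟩
  rw [dO_mo, map_intCast]

private lemma cex_hmo_I (d : Der K) (m : ℤ) : ∃ e : K, dI d (mo m : LaurentSeries K) =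
    HahnSeries.C e * mo m := by
  refine ⟨0, ?_⟩
  rw [dI_mo, map_zero, zero_mul]

private lemma cex_C_one : (HahnSeries.C (1 : K) : LaurentSeries K) = 1 := map_one _

private lemma cex_dI_nat (d : Der K) (N : ℕ) : dI d (N : LaurentSeries K) = 0 := by
  have h : (N : LaurentSeries K) = HahnSeries.C (N : K) := (map_natCast _ _).symm
  have h2 : d (N : K) = 0 := by
    induction N with
    | zero => rw [Nat.cast_zero, map_zero]
    | succ N ih =>
      rw [Nat.cast_succ, map_add, ih (map_natCast _ _).symm, Der.map_one', add_zero]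
  rw [h, dI_C, h2, map_zero]

private lemma cex_map_mul (φ : LaurentSeries K →+* LaurentSeries K)
    (M M' : Matrix (Fin n) (Fin n) (LaurentSeries K)) :
    (M * M').map φ = M.map φ * M'.map φ := Matrix.map_mul

private lemma cex_flat (N : ℕ) [NeZero N] (d : Der K)
    (A₁ A₂ : Matrix (Fin n) (Fin n) (LaurentSeries K)) (hflat : Flat dO A₁ (dI d) A₂) :
    Flat dO ((N : LaurentSeries K) • A₁.map (ram N)) (dI d) (A₂.map (ram N)) := by
  unfold Flat at hflat ⊢
  have h1 : dM dO (A₂.map (ram N)) = (N : LaurentSeries K) • (dM dO A₂).map (ram N) := by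
    ext1 i j
    simp only [dM_apply, Matrix.map_apply, Matrix.smul_apply, smul_eq_mul]
    exact dO_ram N _
  have h2 : dM (dI d) ((N : LaurentSeries K) • A₁.map (ram N)) =
      (N : LaurentSeries K) • (dM (dI d) A₁).map (ram N) := by
    ext1 i j
    simp only [dM_apply, Matrix.map_apply, Matrix.smul_apply, smul_eq_mul]
    rw [Der.leib, cex_dI_nat, zero_mul, add_zero, dI_ram]
  have h3 : ((dM dO A₂ - dM (dI d) A₁ + (A₁ * A₂ - A₂ * A₁))).map (ram N) = 0 := by
    rw [hflat]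
    ext1 i j
    simp
  have h4 : ((dM dO A₂ - dM (dI d) A₁ + (A₁ * A₂ - A₂ * A₁))).map (ram N) =
      (dM dO A₂).map (ram N) - (dM (dI d) A₁).map (ram N) +
        (A₁.map (ram N) * A₂.map (ram N) - A₂.map (ram N) * A₁.map (ram N)) := by
    rw [← cex_map_mul, ← cex_map_mul]
    ext1 i j
    simp only [Matrix.map_apply, Matrix.sub_apply, Matrix.add_apply, map_add, map_sub]
  rw [h4] at h3
  rw [h1, h2, Matrix.smul_mul, Matrix.mul_smul, ← smul_sub, ← smul_sub, ← smul_add, h3,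
    smul_zero]

end aux

theorem common_exact {K : Type} [Field K] [CharZero K] {n : ℕ} (N : ℕ) [NeZero N]
    (hN : n.factorial ∣ N) (d : Der K) (w : K) (hw : d w ≠ 0)
    (A₁ A₂ : Matrix (Fin n) (Fin n) (LaurentSeries K)) (hflat : Flat dO A₁ (dI d) A₂) :
    ∃ (q : ℕ) (G : Matrix (Fin n) (Fin n) (LaurentSeries K)), IsUnit G.det ∧
      MVGE (-(q : ℤ)) (ga dO ((N : LaurentSeries K) • A₁.map (ram N)) G) ∧
      MVGE (-(q : ℤ)) (ga (dI d) (A₂.map (ram N)) G) ∧
      (0 < q → ¬ IsNilpotent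
        (co (-(q : ℤ)) (ga dO ((N : LaurentSeries K) • A₁.map (ram N)) G))) := by
  have hchar : CharZero (LaurentSeries K) :=
    charZero_of_injective_ringHom (HahnSeries.C_injective (Γ := ℤ) (R := K))
  have hN0 : (N : K) ≠ 0 := Nat.cast_ne_zero.2 (NeZero.ne N)
  -- the outer direction
  have ht1 : dO (mo 1 : LaurentSeries K) ≠ 0 := by
    rw [dO_mo, Int.cast_one, one_mul]
    exact mo_ne_zero 1
  obtain ⟨v₁, hv₁⟩ := cyclic_vector dO (mo 1 : LaurentSeries K) ht1 A₁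
  have hNC : (HahnSeries.C (N : K) : LaurentSeries K) = (N : LaurentSeries K) := map_natCast _ _
  obtain ⟨q₁, G₁, hG₁, hm₁, hn₁⟩ := exact_slope N hN dO dO (N : K) hN0
    (fun z => by rw [hNC]; exact dO_ram N z) cex_hmo_O (dO_C _) A₁ v₁ hv₁
  rw [hNC] at hm₁ hn₁
  -- the inner direction
  have ht2 : dI d (HahnSeries.C w : LaurentSeries K) ≠ 0 := by
    rw [dI_C]
    exact fun h => hw (HahnSeries.C_injective (h.trans (map_zero _).symm))
  obtain ⟨v₂, hv₂⟩ := cyclic_vector (dI d) (HahnSeries.C w : LaurentSeries K) ht2 A₂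
  obtain ⟨q₂, G₂, hG₂, hm₂, hn₂⟩ := exact_slope N hN (dI d) (dI d) (1 : K) one_ne_zero
    (fun z => by rw [cex_C_one, one_mul]; exact dI_ram N d z) (cex_hmo_I d)
    (by rw [cex_C_one]; exact Der.map_one' _) A₂ v₂ hv₂
  rw [cex_C_one, one_smul] at hm₂ hn₂
  have hf := cex_flat N d A₁ A₂ hflat
  have hle : q₂ ≤ q₁ := by
    by_contra hlt
    rw [not_le] at hlt
    have hq2 : 0 < q₂ := lt_of_le_of_lt (Nat.zero_le _) hlt
    obtain ⟨G, hG, h1, h2⟩ := common_lattice d _ _ hf q₁ q₂ G₁ G₂ hG₁ hG₂ hm₁ hm₂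
    have hf2 := flat_ga dO (dI d) (dO_dI d) _ _ G hG hf
    have hnil := inner_nilpotent d _ _ hf2 q₁ q₂ hlt h1 h2
    exact hn₂ hq2 (nilpotent_indep (dI d) (fun k z hz => VGE.inner d hz) (cex_hmo_I d) _ G G₂ hG
      hG₂ q₂ hq2 h2 hm₂ hnil)
  have hm₂' : MVGE (-(q₁ : ℤ)) (ga (dI d) (A₂.map (ram N)) G₂) :=
    hm₂.mono (by
      have : (q₂ : ℤ) ≤ q₁ := by exact_mod_cast hle
      omega)
  obtain ⟨G, hG, h1, h2⟩ := common_lattice d _ _ hf q₁ q₁ G₁ G₂ hG₁ hG₂ hm₁ hm₂'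
  refine ⟨q₁, G, hG, h1, h2, fun hq1 hnil => hn₁ hq1 ?_⟩
  exact nilpotent_indep dO (fun k z hz => VGE.outer hz) cex_hmo_O _ G G₁ hG hG₁ q₁ hq1 h1 hm₁ hnil

end Pool.Agent.Helper84.CV
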