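import Pool.Agent.Helper84.CV.Conn

/-!
# CV-CVec: cyclic vectors of differential modules

Statement: a connection `∇ = d + A` on `F^n`, `F` a field of characteristic zero with a derivation `d ≠ 0`
(`d t ≠ 0`), has a cyclic vector `v`: `v, ∇ v, …, ∇^(n-1) v` is a basis.

Plan. (1) Reduction to `d t = 1`. Put `u = d t`, `d' = u⁻¹ d` (`Der.sm`), `A' = u⁻¹ A`, so `d' t = 1` and
`∇ = u ∇'`. By induction on `k`, `∇^k v = u^k ∇'^k v + (combination of the ∇'^j v, j < k)`. So the matrix of the
`∇^k v` is the matrix of the `∇'^k v` times a triangular matrix with diagonal `1, u, …, u^(n-1)`, and its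
determinant is a unit if that of the other is. (Alternatively show that the spans of the first `k` vectors agree,
and use that `n` vectors spanning `F^n` have unit determinant.)

(2) `d t = 1` (Katz). Let `d~` be the derivation of `F[X]` with `d~ X = 1`, extending `d`
(`d~ p = (coefficientwise d) p + derivative p`), `∇~ = d~ + A` on `(F[X])^n`. Define vectors `c_0, c_1, … ∈ F^n`
recursively by `c_i = e_i - ∑_(j<i) binom(i,j) ∇^(i-j) c_j` (`e_i` the `i`-th basis vector, `i < n`) and
`c(X) = ∑_(j<n) (X^j/j!) c_j`. Leibniz: `∇~^i (X^j/j! c) = ∑_a binom(i,a) (X^(j-a)/(j-a)!) ∇^(i-a) c`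
(terms `a ≤ j`), so at `X = 0` one gets `binom(i,j) ∇^(i-j) c` for `j ≤ i` and `0` for `j > i`; hence
`(∇~^i c)(0) = ∑_(j≤i) binom(i,j) ∇^(i-j) c_j = e_i` for `i < n`.
So the determinant `P(X) ∈ F[X]` of the matrix with columns `∇~^i c(X)`, `i < n`, has `P(0) = 1`, `P ≠ 0`.
For an integer `a` the evaluation `ev_a : F[X] → F`, `X ↦ t - a` satisfies `ev_a ∘ d~ = d ∘ ev_a` (as
`d (t - a) = 1`: check on `C b` and `X`, and for products), so `ev_a (∇~^i c) = ∇^i (ev_a c)`. `P` has finitely many
roots, the elements `t - a`, `a ∈ ℤ`, are pairwise distinct (characteristic zero), so `P(t - a) ≠ 0` for some `a`;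
take `v = ev_a c`.
-/

set_option autoImplicit false

open Matrix

namespace Pool.Agent.Helper84.CV

section cyc

variable {F : Type} [Field F] {n : ℕ} (d : Der F) (A : Matrix (Fin n) (Fin n) F)

/-- the connection as an additive map -/
private noncomputable def nabH : (Fin n → F) →+ (Fin n → F) where
  toFun v := fun i => d (v i) + (A.mulVec v) i
  map_zero' := by
    funext i
    simp
  map_add' v w := by
    funext i
    simp only [Matrix.mulVec_add, Pi.add_apply, map_add]
    ring

private lemma itc_succ' (v : Fin n → F) (k : ℕ) : itc d A v (k + 1) = nabH d A (itc d A v k) := rfl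

private lemma nabH_smul (f : F) (v : Fin n → F) :
    nabH d A (f • v) = d f • v + f • nabH d A v := by
  funext i
  show d (f • v i) + (A.mulVec (f • v)) i = d f • v i + f • (d (v i) + (A.mulVec v) i)
  rw [Matrix.mulVec_smul]
  simp only [smul_eq_mul, Pi.smul_apply, d.leib]
  ring

/-- the table going down -/
private noncomputable def tabW (q : F) (c : ℕ → Fin n → F) : ℕ → ℕ → Fin n → F
  | 0, k => c k
  | i + 1, k => nabH d A (tabW q c i k) + q • tabW q c i (k + 1)

/-- the table going up -/
private noncomputable def tabU (q : F) (e : ℕ → Fin n → F) : ℕ → ℕ → Fin n → F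
  | 0, i => e i
  | k + 1, i => q⁻¹ • (tabU q e k (i + 1) - nabH d A (tabU q e k i))

private lemma tabW_zero (q : F) (c : ℕ → Fin n → F) (m : ℕ) (hc : ∀ k, m ≤ k → c k = 0) (i : ℕ) :
    ∀ k, m ≤ k → tabW d A q c i k = 0 := by
  induction i with
  | zero => exact fun k hk => hc k hk
  | succ i ih =>
    intro k hk
    rw [tabW, ih k hk, ih (k + 1) (by omega), map_zero, smul_zero, add_zero]

private lemma tabW_eq (q : F) (hq : q ≠ 0) (e : ℕ → Fin n → F) (m : ℕ) (i : ℕ) :
    ∀ k, i + k < m → tabW d A q (fun k => if k < m then tabU d A q e k 0 else 0) i k =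
      tabU d A q e k i := by
  induction i with
  | zero =>
    intro k hk
    rw [tabW, if_pos (by omega)]
  | succ i ih =>
    intro k hk
    rw [tabW, ih k (by omega), ih (k + 1) (by omega), tabU, smul_inv_smul₀ hq]
    abel

private lemma d_nat (a : ℕ) : d (a : F) = 0 := by
  induction a with
  | zero => simp
  | succ a ih => rw [Nat.cast_succ, map_add, ih, d.map_one', add_zero]

private lemma d_fac [CharZero F] (y : F) (k : ℕ) :
    d (y ^ (k + 1) / ((k + 1).factorial : F)) = d y * (y ^ k / (k.factorial : F)) := by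
  have h1 : d (((k + 1).factorial : F)⁻¹) = 0 := by
    rw [d.map_inv', d_nat, mul_zero, neg_zero]
  have h2 : (((k + 1).factorial : ℕ) : F) ≠ 0 := by
    exact_mod_cast (Nat.factorial_pos _).ne'
  have h3 : ((k.factorial : ℕ) : F) ≠ 0 := by
    exact_mod_cast (Nat.factorial_pos _).ne'
  have h4 : ((k : F) + 1) ≠ 0 := by exact_mod_cast Nat.succ_ne_zero k
  rw [div_eq_mul_inv, d.leib, h1, mul_zero, zero_add, d.map_pow', Nat.factorial_succ,
    Nat.add_sub_cancel]
  push_cast
  field_simp

private lemma itc_sum [CharZero F] (c : ℕ → Fin n → F) (m : ℕ) (hc : ∀ k, m ≤ k → c k = 0)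
    (y : F) (i : ℕ) :
    itc d A (∑ k ∈ Finset.range m, (y ^ k / (k.factorial : F)) • c k) i =
      ∑ k ∈ Finset.range m, (y ^ k / (k.factorial : F)) • tabW d A (d y) c i k := by
  induction i with
  | zero => rfl
  | succ i ih =>
    rw [itc_succ', ih, map_sum]
    simp only [nabH_smul, tabW, smul_add, Finset.sum_add_distrib]
    rw [add_comm]
    congr 1
    rcases m with _ | m
    · simp
    · rw [Finset.sum_range_succ', Finset.sum_range_succ _ m,
        tabW_zero d A (d y) c (m + 1) hc i (m + 1) le_rfl, smul_zero, smul_zero, add_zero]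
      have h0 : d (y ^ 0 / ((Nat.factorial 0 : ℕ) : F)) = 0 := by
        simp [d.map_one']
      rw [h0, zero_smul, add_zero]
      refine Finset.sum_congr rfl fun k _ => ?_
      rw [d_fac, smul_smul, mul_comm]

end cyc

theorem cyclic_vector {F : Type} [Field F] [CharZero F] {n : ℕ} (d : Der F) (t : F)
    (ht : d t ≠ 0) (A : Matrix (Fin n) (Fin n) F) :
    ∃ v : Fin n → F, IsUnit (Matrix.of fun i j : Fin n => itc d A v j i).det := by
  classical
  -- the standard basis, continued by zero
  let e : ℕ → Fin n → F := fun i j => if (j : ℕ) = i then 1 else 0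
  let c : ℕ → Fin n → F := fun k => if k < n then tabU d A (d t) e k 0 else 0
  have hc : ∀ k, n ≤ k → c k = 0 := fun k hk => if_neg (by omega)
  let P : Matrix (Fin n) (Fin n) (Polynomial F) := Matrix.of fun i j : Fin n =>
    ∑ k ∈ Finset.range n,
      Polynomial.C (tabW d A (d t) c j k i / (k.factorial : F)) * Polynomial.X ^ k
  have hev : ∀ y : F, P.det.eval y = (Matrix.of fun i j : Fin n =>
      ∑ k ∈ Finset.range n, y ^ k / (k.factorial : F) * tabW d A (d t) c j k i).det := by
    intro y
    have h1 : P.det.eval y = (Polynomial.evalRingHom y) P.det := rfl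
    rw [h1, RingHom.map_det]
    congr 1
    ext i j
    simp only [P, RingHom.mapMatrix_apply, Matrix.map_apply, Matrix.of_apply,
      Polynomial.coe_evalRingHom, Polynomial.eval_finsetSum, Polynomial.eval_mul,
      Polynomial.eval_C, Polynomial.eval_pow, Polynomial.eval_X]
    refine Finset.sum_congr rfl fun k _ => ?_
    ring
  have hP0 : P.det.eval 0 = 1 := by
    rw [hev]
    have : (Matrix.of fun i j : Fin n =>
        ∑ k ∈ Finset.range n, (0 : F) ^ k / (k.factorial : F) * tabW d A (d t) c j k i) = 1 := by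
      ext i j
      have hn : 0 < n := j.pos
      rw [Matrix.of_apply, Finset.sum_eq_single 0]
      · rw [tabW_eq d A (d t) ht e n j 0 (by simp)]
        simp only [tabU, e, pow_zero, Nat.factorial_zero, Nat.cast_one, div_one, one_mul,
          Matrix.one_apply, Fin.ext_iff]
      · intro k _ hk
        rw [zero_pow hk, zero_div, zero_mul]
      · intro h
        exact absurd (Finset.mem_range.2 hn) h
    rw [this, Matrix.det_one]
  have hPne : P.det ≠ 0 := by
    intro h
    rw [h, Polynomial.eval_zero] at hP0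
    exact zero_ne_one hP0
  obtain ⟨a, ha⟩ : ∃ a : ℕ, P.det.eval (t - a) ≠ 0 := by
    by_contra hcon
    push Not at hcon
    refine hPne (Polynomial.eq_zero_of_infinite_isRoot _ ?_)
    refine Set.Infinite.mono (s := Set.range fun a : ℕ => t - (a : F)) ?_ ?_
    · rintro _ ⟨a, rfl⟩
      exact hcon a
    · refine Set.infinite_range_of_injective ?_
      intro a b hab
      simpa using hab
  refine ⟨∑ k ∈ Finset.range n, ((t - a) ^ k / (k.factorial : F)) • c k, ?_⟩
  have hd : d (t - a) = d t := by rw [map_sub, d_nat, sub_zero]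
  rw [hev] at ha
  have : (Matrix.of fun i j : Fin n => itc d A
      (∑ k ∈ Finset.range n, ((t - a) ^ k / (k.factorial : F)) • c k) j i) =
      Matrix.of fun i j : Fin n => ∑ k ∈ Finset.range n,
        (t - a) ^ k / (k.factorial : F) * tabW d A (d t) c j k i := by
    ext i j
    rw [Matrix.of_apply, itc_sum d A c n hc, hd, Finset.sum_apply]
    rfl
  rw [this]
  exact isUnit_iff_ne_zero.2 ha

end Pool.Agent.Helper84.CV
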