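import Pool.Agent.Helper84.CV.Lat

/-!
# CV-CharInt: characteristic polynomial of a matrix with a stable lattice
-/

set_option autoImplicit false

open Matrix

namespace Pool.Agent.Helper84.CV

private theorem ci_exists {K : Type} [Field K] {z : LaurentSeries K} (h : VGE 0 z) :
    HahnSeries.ofPowerSeries ℤ K (PowerSeries.mk fun m => z.coeff (m : ℤ)) = z := by
  ext j
  have h1 := PowerSeries.coeff_coe (R := K) (f := PowerSeries.mk fun m => z.coeff (m : ℤ)) j
  rw [h1]
  split_ifs with hj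
  · exact (h j hj).symm
  · rw [PowerSeries.coeff_mk]
    congr 1
    omega

private theorem ci_vge {K : Type} [Field K] (p : PowerSeries K) :
    VGE 0 (HahnSeries.ofPowerSeries ℤ K p) := by
  intro j hj
  have h1 := PowerSeries.coeff_coe (R := K) (f := p) j
  rw [h1, if_pos hj]

private theorem ci_coeff {K : Type} [Field K] (p : PowerSeries K) :
    (HahnSeries.ofPowerSeries ℤ K p).coeff 0 = PowerSeries.constantCoeff p := by
  have h1 := PowerSeries.coeff_coe (R := K) (f := p) 0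
  rw [h1, if_neg (by norm_num)]
  simp

private theorem ci_conj {K : Type} [Field K] {n : ℕ}
    (Θ G : Matrix (Fin n) (Fin n) (LaurentSeries K)) (hG : IsUnit G.det) :
    (G⁻¹ * Θ * G).charpoly = Θ.charpoly :=
  Matrix.charpoly_units_conj' (G.nonsingInvUnit hG) Θ

private theorem ci_entry {K : Type} [Field K] {n : ℕ}
    (Θ G : Matrix (Fin n) (Fin n) (LaurentSeries K)) (i j : Fin n) :
    (G⁻¹ * Θ * G) i j = (G⁻¹.mulVec (Θ.mulVec (G.mulVec (Pi.single j 1)))) i := by
  rw [Matrix.mulVec_mulVec, Matrix.mulVec_mulVec, Matrix.mulVec_single_one]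
  rfl

private theorem ci_col {K : Type} [Field K] {n : ℕ}
    (P : Submodule (PowerSeries K) (Fin n → LaurentSeries K))
    (G : Matrix (Fin n) (Fin n) (LaurentSeries K)) (hG : IsUnit G.det)
    (hP : ∀ v, v ∈ P ↔ ∀ i, VGE 0 ((G⁻¹.mulVec v) i)) (j : Fin n) :
    G.mulVec (Pi.single j 1) ∈ P := by
  rw [hP]
  intro i
  rw [Matrix.mulVec_mulVec, Matrix.nonsing_inv_mul _ hG, Matrix.one_mulVec]
  intro l hl
  by_cases h : i = j
  · subst h
    rw [Pi.single_eq_same, HahnSeries.coeff_one, if_neg (by omega)]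
  · rw [Pi.single_eq_of_ne h]
    rfl

theorem charpoly_int {k : Type} [Field k] {n : ℕ} (Θ : Matrix (Fin n) (Fin n) (LaurentSeries k))
    (P : Submodule (PowerSeries k) (Fin n → LaurentSeries k)) (a b : ℤ)
    (h1 : ∀ v : Fin n → LaurentSeries k, (∀ i, VGE a (v i)) → v ∈ P)
    (h2 : ∀ v ∈ P, ∀ i, VGE b (v i)) (hs : ∀ v ∈ P, Θ.mulVec v ∈ P) (i : ℕ) :
    VGE 0 (Θ.charpoly.coeff i) := by
  obtain ⟨G, hG, hP⟩ := lattice_basis P a b h1 h2
  have hM : ∀ i j, VGE 0 ((G⁻¹ * Θ * G) i j) := by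
    intro i j
    rw [ci_entry]
    exact (hP _).1 (hs _ (ci_col P G hG hP j)) i
  set M₀ : Matrix (Fin n) (Fin n) (PowerSeries k) :=
    Matrix.of fun i j => PowerSeries.mk fun m => ((G⁻¹ * Θ * G) i j).coeff (m : ℤ) with hM₀
  have h3 : M₀.map (HahnSeries.ofPowerSeries ℤ k) = G⁻¹ * Θ * G := by
    ext1 i j
    exact ci_exists (hM i j)
  rw [← ci_conj Θ G hG, ← h3, Matrix.charpoly_map, Polynomial.coeff_map]
  exact ci_vge _

theorem charpoly_small {k : Type} [Field k] {n : ℕ} (Θ : Matrix (Fin n) (Fin n) (LaurentSeries k))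
    (P : Submodule (PowerSeries k) (Fin n → LaurentSeries k)) (a b : ℤ)
    (h1 : ∀ v : Fin n → LaurentSeries k, (∀ i, VGE a (v i)) → v ∈ P)
    (h2 : ∀ v ∈ P, ∀ i, VGE b (v i))
    (hs : ∀ v ∈ P, ∃ u ∈ P, Θ.mulVec v = (mo 1 : LaurentSeries k) • u) (i : ℕ) (hi : i < n) :
    VGE 1 (Θ.charpoly.coeff i) := by
  obtain ⟨G, hG, hP⟩ := lattice_basis P a b h1 h2
  have hM : ∀ i j, VGE 1 ((G⁻¹ * Θ * G) i j) := by
    intro i j
    rw [ci_entry]
    obtain ⟨u, hu, h3⟩ := hs _ (ci_col P G hG hP j)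
    rw [h3, Matrix.mulVec_smul, Pi.smul_apply, smul_eq_mul]
    have h4 := (hP u).1 hu i
    intro l hl
    unfold mo
    rw [show l = (l - 1) + 1 by ring, HahnSeries.coeff_single_mul_add, one_mul]
    exact h4 _ (by omega)
  set M₀ : Matrix (Fin n) (Fin n) (PowerSeries k) :=
    Matrix.of fun i j => PowerSeries.mk fun m => ((G⁻¹ * Θ * G) i j).coeff (m : ℤ) with hM₀
  have h3 : M₀.map (HahnSeries.ofPowerSeries ℤ k) = G⁻¹ * Θ * G := by
    ext1 i j
    exact ci_exists fun l hl => hM i j l (by omega)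
  have h5 : M₀.map (PowerSeries.constantCoeff (R := k)) = 0 := by
    ext1 i j
    show PowerSeries.constantCoeff (PowerSeries.mk fun m => ((G⁻¹ * Θ * G) i j).coeff (m : ℤ)) = 0
    rw [← PowerSeries.coeff_zero_eq_constantCoeff_apply, PowerSeries.coeff_mk]
    exact hM i j 0 (by norm_num)
  have h6 : PowerSeries.constantCoeff (M₀.charpoly.coeff i) = 0 := by
    rw [← Polynomial.coeff_map, ← Matrix.charpoly_map, h5, Matrix.charpoly_zero,
      Fintype.card_fin, Polynomial.coeff_X_pow, if_neg hi.ne]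
  rw [← ci_conj Θ G hG, ← h3, Matrix.charpoly_map, Polynomial.coeff_map]
  intro l hl
  rcases lt_or_eq_of_le (show l ≤ 0 by omega) with h7 | h7
  · exact ci_vge _ l h7
  · rw [h7, ci_coeff, h6]

end Pool.Agent.Helper84.CV
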