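import Pool.Agent.Helper84.CV.RF

/-!
# CV: connections, line data, discs, local fields
-/

set_option autoImplicit false

open Matrix

namespace Pool.Agent.Helper84.CV

/-- apply a derivation to the entries of a matrix -/
def dM {A : Type} [CommRing A] {m n : Type} (d : Der A) (M : Matrix m n A) : Matrix m n A :=
  Matrix.of fun i j => d (M i j)

@[simp] theorem dM_apply {A : Type} [CommRing A] {m n : Type} (d : Der A) (M : Matrix m n A)
    (i : m) (j : n) : dM d M i j = d (M i j) := rfl

section generic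

variable {ι : Type} [Fintype ι] [DecidableEq ι] {L : Type} [Field L]

/-- the matrix of the connection `∂ + A` in the basis of the columns of `G` -/
noncomputable def ga (d : Der L) (A G : Matrix ι ι L) : Matrix ι ι L :=
  G⁻¹ * (dM d G + A * G)

/-- the connections `∂₁ + A₁` and `∂₂ + A₂` commute (for commuting derivations) -/
def Flat (d₁ : Der L) (A₁ : Matrix ι ι L) (d₂ : Der L) (A₂ : Matrix ι ι L) : Prop :=
  dM d₁ A₂ - dM d₂ A₁ + (A₁ * A₂ - A₂ * A₁) = 0

/-- the connection matrix `(a - c S) (λ - U)⁻¹ B` in the direction of a derivation `∂` with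
`∂ λ = a` and `∂ s = c s` -/
noncomputable def cn (U S B : Matrix ι ι L) (lam a c : L) : Matrix ι ι L :=
  (a • (1 : Matrix ι ι L) - c • S) * (lam • (1 : Matrix ι ι L) - U)⁻¹ * B

/-- the iterates `v, ∇ v, ∇² v, …` of `∇ = ∂ + A` -/
noncomputable def itc (d : Der L) (A : Matrix ι ι L) (v : ι → L) : ℕ → ι → L
  | 0 => v
  | k + 1 => fun i => d (itc d A v k i) + (A.mulVec (itc d A v k)) i

end generic

/-- power series with complex coefficients as Laurent series over `K` -/
noncomputable def inc {K : Type} [Field K] [Algebra ℂ K] : PowerSeries ℂ →+* LaurentSeries K :=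
  (HahnSeries.ofPowerSeries ℤ K).comp (PowerSeries.map (algebraMap ℂ K))

/-- The data along a formal line: `U(s)`, `S(s) = s C(s)` with `s dU/ds = S + [S, B]`, `[U, S] = 0`,
and the eigenvalues `r_i(s)` of `U(s)`, which are pairwise distinct. -/
structure LD (n : ℕ) where
  U : Matrix (Fin n) (Fin n) (PowerSeries ℂ)
  S : Matrix (Fin n) (Fin n) (PowerSeries ℂ)
  B : Matrix (Fin n) (Fin n) ℂ
  r : Fin n → PowerSeries ℂ
  comm : U * S = S * U
  ode : ∀ i j (k : ℕ), (k : ℂ) * PowerSeries.coeff k (U i j) = PowerSeries.coeff k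
    ((S + (S * B.map (PowerSeries.C : ℂ →+* PowerSeries ℂ) -
      B.map (PowerSeries.C : ℂ →+* PowerSeries ℂ) * S)) i j)
  roots : U.charpoly = ∏ i, (Polynomial.X - Polynomial.C (r i))
  inj : Function.Injective r

/-- the centre of the disc with the digits `l` (last digit first): `∑ w_k s^k` -/
noncomputable def cen : List ℂ → PowerSeries ℂ
  | [] => 0
  | w :: l => cen l + PowerSeries.C w * PowerSeries.X ^ l.length

/-- the field `ℂ(w)((s))` of the generic point of a disc -/
abbrev FF : Type := LaurentSeries (RatFunc ℂ)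

/-- the field `ℂ((t))((π))` of a closed point -/
abbrev GG : Type := LaurentSeries (LaurentSeries ℂ)

/-- the field `ℂ((τ))` -/
abbrev LC : Type := LaurentSeries ℂ

/-- the coordinate `λ = cen l + s^m w` on the disc `l`, `m` the length of `l` -/
noncomputable def lam (l : List ℂ) : FF :=
  inc (cen l) + HahnSeries.single (l.length : ℤ) (RatFunc.X : RatFunc ℂ)

/-- `ℂ((τ)) ⊆ ℂ(w)((τ))` -/
noncomputable def up : LC →+* FF := tw (algebraMap ℂ (RatFunc ℂ)) 1

namespace LD

variable {n : ℕ} (D : LD n) (N : ℕ) [NeZero N] (l : List ℂ)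

/-- the branches which meet the disc `l` -/
noncomputable def br : Finset (Fin n) :=
  letI := Classical.decPred fun i : Fin n => PowerSeries.X ^ l.length ∣ D.r i - cen l
  Finset.univ.filter fun i => PowerSeries.X ^ l.length ∣ D.r i - cen l

theorem mem_br (i : Fin n) : i ∈ D.br l ↔ PowerSeries.X ^ l.length ∣ D.r i - cen l := by
  simp [br]

/-- the position `(r_i - cen l) / s^m` of the branch `i` in the disc `l` -/
noncomputable def pos (i : Fin n) : PowerSeries ℂ :=
  PowerSeries.mk fun k => PowerSeries.coeff (k + l.length) (D.r i - cen l)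

section coeffs

variable (K : Type) [Field K] [Algebra ℂ K]

/-- `U` over `K((τ))`, `s = τ^N` -/
noncomputable def UK : Matrix (Fin n) (Fin n) (LaurentSeries K) := D.U.map fun z => ram N (inc z)

/-- `N S` over `K((τ))`, `s = τ^N` -/
noncomputable def SK : Matrix (Fin n) (Fin n) (LaurentSeries K) :=
  D.S.map fun z => (N : LaurentSeries K) * ram N (inc z)

/-- `B` over `K((τ))` -/
noncomputable def BK : Matrix (Fin n) (Fin n) (LaurentSeries K) :=
  D.B.map fun z => HahnSeries.C (algebraMap ℂ K z)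

end coeffs

/-- `λ` after the ramification `s = τ^N` -/
noncomputable def lamN (N : ℕ) [NeZero N] (l : List ℂ) : FF := ram N (lam l)

/-- `(λ - U)⁻¹` -/
noncomputable def RN : Matrix (Fin n) (Fin n) FF :=
  (lamN N l • (1 : Matrix (Fin n) (Fin n) FF) - D.UK N (RatFunc ℂ))⁻¹

/-- the connection matrix in the direction `τ d/dτ` at fixed `w` -/
noncomputable def A1 : Matrix (Fin n) (Fin n) FF :=
  cn (D.UK N (RatFunc ℂ)) (D.SK N (RatFunc ℂ)) (D.BK (RatFunc ℂ)) (lamN N l) (dO (lamN N l)) 1

/-- the connection matrix in the direction `d/dw` -/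
noncomputable def A2 : Matrix (Fin n) (Fin n) FF :=
  cn (D.UK N (RatFunc ℂ)) (D.SK N (RatFunc ℂ)) (D.BK (RatFunc ℂ)) (lamN N l)
    (dI rD (lamN N l)) 0

/-- There is a lattice on the disc `l` which is stable under `τ^q ∇` in all directions. -/
def Adm (q : ℕ) : Prop :=
  ∃ G : Matrix (Fin n) (Fin n) FF, IsUnit G.det ∧
    MVGE (-(q : ℤ)) (ga dO (D.A1 N l) G) ∧ MVGE (-(q : ℤ)) (ga (dI rD) (D.A2 N l) G)

/-- the polynomial in `w` whose roots are the branches in the disc `l` -/
noncomputable def fl : FF :=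
  ∏ i ∈ D.br l, (HahnSeries.C (RatFunc.X : RatFunc ℂ) - ram N (inc (D.pos l i)))

end LD

/-- the unit `t` of `ℂ((t))` -/
noncomputable def tU {k : Type} [Field k] : (LaurentSeries k)ˣ where
  val := mo 1
  inv := mo (-1)
  val_inv := by
    rw [mo, mo, HahnSeries.single_mul_single]
    simp
  inv_val := by
    rw [mo, mo, HahnSeries.single_mul_single]
    simp

/-- expansion at the closed point `w = w₀` of a disc: `w = w₀ + t`, `τ = π` -/
noncomputable def psi0 (w₀ : ℂ) : FF →+* GG := tw (jat w₀ 1) 1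

/-- expansion at the node `w = w₀` of a disc: `w = w₀ + t^N`, `τ = t π` -/
noncomputable def psiX (w₀ : ℂ) (N : ℕ) [NeZero N] : FF →+* GG := tw (jat w₀ N) tU

/-- expansion at the node `w = ∞` of a disc: `w = t^(-N)`, `τ = t π` -/
noncomputable def psiY (N : ℕ) [NeZero N] : FF →+* GG := tw (jinf N) tU

/-- expansion at `w = ∞` of the root disc: `w = 1/t`, `τ = π` -/
noncomputable def psiInf : FF →+* GG := tw (jinf 1) 1

/-- the coefficients are power series in the inner variable `t` -/
def Reg {k : Type} [Field k] (z : LaurentSeries (LaurentSeries k)) : Prop := ∀ j, VGE 0 (z.coeff j)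

/-- the entries are regular in the inner variable -/
def MReg {k : Type} [Field k] {m n : Type} (M : Matrix m n (LaurentSeries (LaurentSeries k))) :
    Prop := ∀ i j, Reg (M i j)

/-- `a ∈ k((u))((v))` and `b ∈ k((v))((u))` are the same series in `u, v` -/
def Rel {k : Type} [Field k] (a b : LaurentSeries (LaurentSeries k)) : Prop :=
  ∀ i j : ℤ, (a.coeff j).coeff i = (b.coeff i).coeff j

/-- entrywise `Rel` -/
def MRel {k : Type} [Field k] {m n : Type} (M M' : Matrix m n (LaurentSeries (LaurentSeries k))) :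
    Prop := ∀ i j, Rel (M i j) (M' i j)

/-- the rational function `g` has no pole at `w₀` -/
def RegAt (w₀ : ℂ) (g : RatFunc ℂ) : Prop := g.denom.eval w₀ ≠ 0

/-- the equation `P (∂ k_j + [A, k_j] - η_j) = ∑_i Θ_ij k_i` -/
def IsS {ι : Type} [Fintype ι] [DecidableEq ι] {L : Type} [Field L] {r : ℕ} (d : Der L)
    (A : Matrix ι ι L) (P : L) (Th : Matrix (Fin r) (Fin r) L)
    (η k : Fin r → Matrix ι ι L) : Prop :=
  ∀ j, P • (dM d (k j) + (A * k j - k j * A) - η j) = ∑ i, Th i j • k i

/-- Solutions of the linearised equations with values in a differential module `M'` over `ℂ((τ))`,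
`s = τ^N`, with basis `b_j`, `∇ b_j = τ^(-p) ∑_i Θ_ij b_i`, `Θ` invertible, `p > 0`:
`τ dX_j/dτ = Y_j + [Y_j, B] + τ^(-p) ∑_i Θ_ij X_i`, `Y_j` the variation of `N S`. -/
structure MD {n : ℕ} (D : LD n) (N : ℕ) [NeZero N] (e : Fin n → ℂ) where
  r : ℕ
  p : ℕ
  hp : 0 < p
  X : Fin r → Matrix (Fin n) (Fin n) LC
  Y : Fin r → Matrix (Fin n) (Fin n) LC
  Th : Matrix (Fin r) (Fin r) LC
  Thi : Matrix (Fin r) (Fin r) LC
  hTh : MVGE 0 Th
  hThi : MVGE 0 Thi
  inv : Th * Thi = 1
  ode : ∀ j, dM dO (X j) = Y j + (Y j * D.BK ℂ - D.BK ℂ * Y j) +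
    ∑ i, (mo (-(p : ℤ)) * Th i j) • X i
  comm : ∀ j, X j * D.SK N ℂ + D.UK N ℂ * Y j = Y j * D.UK N ℂ + D.SK N ℂ * X j
  unit : ∀ j, (Y j).mulVec (fun i => HahnSeries.C (e i)) = 0

/-- the Krylov matrix with the columns `e, U e, …, U^(n-1) e` -/
def kry {n : ℕ} {A : Type} [CommRing A] (U : Matrix (Fin n) (Fin n) A) (e : Fin n → A) :
    Matrix (Fin n) (Fin n) A :=
  Matrix.of fun i j => ((U ^ (j : ℕ)).mulVec e) i

/-- convergence of a Laurent series in one variable -/
def Conv (z : LC) : Prop := ∃ C R : ℝ, 0 < R ∧ ∀ m : ℕ, ‖z.coeff m‖ ≤ C * R ^ m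

end Pool.Agent.Helper84.CV
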