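import Pool.Agent.Helper84.CV.Conn

/-!
# CV-CycA: matrices commuting with a cyclic matrix

`kry U e` has the columns `U^j e`. `chat U e v = ∑_j (adj(kry U e) v)_j U^j` is `det(kry U e)` times the matrix `C` which
commutes with `U` and satisfies `C e = v`.
Plan. `kry_map`, `chat_map`: `Matrix.map_pow`, `RingHom.map_adjugate`, `RingHom.map_mulVec`. `chat_comm`: powers of `U`
commute. `chat_unit`: `∑_j x_j U^j e = kry x` and `kry * adj = det • 1`. `chat_eq`: for all `j`,
`(det • C) U^j e = det • U^j v = U^j (chat e) = chat U^j e`, so `(det • C - chat) * kry = 0`; multiply by the adjugate and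
cancel `det ≠ 0`.
-/

set_option autoImplicit false

open Matrix

namespace Pool.Agent.Helper84.CV

variable {A A' : Type} [CommRing A] [CommRing A'] {n : ℕ}

/-- `det (kry U e)` times the matrix commuting with `U` which maps `e` to `v` -/
def chat (U : Matrix (Fin n) (Fin n) A) (e v : Fin n → A) : Matrix (Fin n) (Fin n) A :=
  ∑ j : Fin n, ((kry U e).adjugate.mulVec v) j • U ^ (j : ℕ)

private theorem map_pow' (φ : A →+* A') (U : Matrix (Fin n) (Fin n) A) (k : ℕ) :
    (U ^ k).map φ = (U.map φ) ^ k := map_pow φ.mapMatrix U k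

theorem kry_map (φ : A →+* A') (U : Matrix (Fin n) (Fin n) A) (e : Fin n → A) :
    (kry U e).map φ = kry (U.map φ) (fun i => φ (e i)) := by
  ext i j
  rw [Matrix.map_apply]
  show φ (((U ^ (j : ℕ)).mulVec e) i) = (((U.map φ) ^ (j : ℕ)).mulVec (fun i => φ (e i))) i
  rw [RingHom.map_mulVec, map_pow' φ]
  rfl

theorem chat_map (φ : A →+* A') (U : Matrix (Fin n) (Fin n) A) (e v : Fin n → A) :
    (chat U e v).map φ = chat (U.map φ) (fun i => φ (e i)) (fun i => φ (v i)) := by
  have h1 : (chat U e v).map φ = φ.mapMatrix (chat U e v) := rfl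
  rw [h1]
  unfold chat
  rw [map_sum]
  refine Finset.sum_congr rfl fun j _ => ?_
  have h2 : φ.mapMatrix (((kry U e).adjugate.mulVec v) j • U ^ (j : ℕ)) =
      φ (((kry U e).adjugate.mulVec v) j) • (U ^ (j : ℕ)).map φ := by
    ext a b
    exact map_mul φ _ _
  have h3 : ((kry U e).adjugate).map φ = ((kry U e).map φ).adjugate := φ.map_adjugate _
  rw [h2, map_pow' φ, RingHom.map_mulVec, h3, kry_map]
  rfl

theorem chat_comm (U : Matrix (Fin n) (Fin n) A) (e v : Fin n → A) :
    U * chat U e v = chat U e v * U := by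
  unfold chat
  rw [Finset.mul_sum, Finset.sum_mul]
  refine Finset.sum_congr rfl fun j _ => ?_
  rw [Matrix.mul_smul, Matrix.smul_mul, (Commute.self_pow U (j : ℕ)).eq]

theorem chat_unit (U : Matrix (Fin n) (Fin n) A) (e v : Fin n → A) :
    (chat U e v).mulVec e = (kry U e).det • v := by
  have h1 : (chat U e v).mulVec e = (kry U e).mulVec ((kry U e).adjugate.mulVec v) := by
    have h2 : (chat U e v).mulVec e =
        ∑ j : Fin n, (((kry U e).adjugate.mulVec v) j • U ^ (j : ℕ)).mulVec e :=
      map_sum (Matrix.mulVec.addMonoidHomLeft e) _ _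
    rw [h2]
    funext i
    rw [Finset.sum_apply]
    show _ = ∑ j, kry U e i j * ((kry U e).adjugate.mulVec v) j
    refine Finset.sum_congr rfl fun j _ => ?_
    rw [Matrix.smul_mulVec, Pi.smul_apply, smul_eq_mul, mul_comm]
    rfl
  rw [h1, Matrix.mulVec_mulVec, Matrix.mul_adjugate, Matrix.smul_mulVec, Matrix.one_mulVec]

theorem chat_eq [IsDomain A] (U C : Matrix (Fin n) (Fin n) A) (e v : Fin n → A)
    (hUC : U * C = C * U) (hC : C.mulVec e = v) (hdet : (kry U e).det ≠ 0) :
    (kry U e).det • C = chat U e v := by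
  set δ := (kry U e).det with hδ
  have hpow : ∀ (M : Matrix (Fin n) (Fin n) A) (k : ℕ), U * M = M * U → U ^ k * M = M * U ^ k :=
    fun M k h => ((show Commute U M from h).pow_left k).eq
  have h1 : (δ • C - chat U e v) * kry U e = 0 := by
    ext i j
    have h2 : (δ • C - chat U e v).mulVec ((U ^ (j : ℕ)).mulVec e) = 0 := by
      rw [Matrix.sub_mulVec, Matrix.smul_mulVec, Matrix.mulVec_mulVec, Matrix.mulVec_mulVec,
        ← hpow C j hUC, ← hpow (chat U e v) j (chat_comm U e v), ← Matrix.mulVec_mulVec,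
        ← Matrix.mulVec_mulVec, hC, chat_unit, Matrix.mulVec_smul, sub_self]
    exact congrFun h2 i
  have h3 : δ • (δ • C - chat U e v) = 0 := by
    have h4 := congrArg (fun M => M * (kry U e).adjugate) h1
    rw [Matrix.mul_assoc, Matrix.mul_adjugate, Matrix.zero_mul, Matrix.mul_smul,
      Matrix.mul_one] at h4
    exact h4
  ext i j
  have h5 : δ * ((δ • C - chat U e v) i j) = 0 := congrFun (congrFun h3 i) j
  have h6 := (mul_eq_zero.1 h5).resolve_left hdet
  rw [Matrix.sub_apply] at h6
  exact sub_eq_zero.1 h6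

end Pool.Agent.Helper84.CV
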