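import Mathlib

/-!
# CV: definitions for the convergence theorem (MP_78bf89_ag)

`LaurentSeries K = K((π))`: the exponent of the variable `π` is the index of `coeff`. Iterated Laurent
series `LaurentSeries (LaurentSeries k) = k((t))((π))`: `t` is the inner, `π` the outer variable.
-/

set_option autoImplicit false

open Matrix HahnSeries

namespace Pool.Agent.Helper84.CV

/-- derivations of a commutative ring -/
structure Der (A : Type) [CommRing A] extends A →+ A where
  leib' : ∀ a b, toFun (a * b) = a * toFun b + toFun a * b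

namespace Der

variable {A : Type} [CommRing A]

instance : FunLike (Der A) A A where
  coe d := d.toFun
  coe_injective := by
    rintro ⟨f, hf⟩ ⟨g, hg⟩ h
    congr
    exact DFunLike.coe_injective h

instance : AddMonoidHomClass (Der A) A A where
  map_add d := d.toAddMonoidHom.map_add
  map_zero d := d.toAddMonoidHom.map_zero

theorem leib (d : Der A) (a b : A) : d (a * b) = a * d b + d a * b := d.leib' a b

/-- `g d` -/
def sm (g : A) (d : Der A) : Der A where
  toFun a := g * d a
  map_zero' := by rw [map_zero, mul_zero]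
  map_add' a b := by rw [map_add, mul_add]
  leib' a b := by rw [d.leib]; ring

/-- `d + e` -/
def ad (d e : Der A) : Der A where
  toFun a := d a + e a
  map_zero' := by rw [map_zero, map_zero, add_zero]
  map_add' a b := by rw [map_add, map_add]; ring
  leib' a b := by rw [d.leib, e.leib]; ring

@[simp] theorem sm_apply (g : A) (d : Der A) (a : A) : sm g d a = g * d a := rfl

@[simp] theorem ad_apply (d e : Der A) (a : A) : ad d e a = d a + e a := rfl

end Der

section series

variable {K K' : Type} [Field K] [Field K']

/-- the monomial `π^m` -/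
noncomputable def mo {K : Type} [Field K] (m : ℤ) : LaurentSeries K := HahnSeries.single m 1

/-- the coefficients of `z` below `k` vanish: the valuation is at least `k` -/
def VGE (k : ℤ) (z : LaurentSeries K) : Prop := ∀ j : ℤ, j < k → z.coeff j = 0

/-- the entries of the matrix have valuation at least `k` -/
def MVGE {m n : Type} (k : ℤ) (M : Matrix m n (LaurentSeries K)) : Prop := ∀ i j, VGE k (M i j)

/-- the matrix of the coefficients of index `k` -/
def co {m n : Type} (k : ℤ) (M : Matrix m n (LaurentSeries K)) : Matrix m n K :=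
  Matrix.of fun i j => (M i j).coeff k

/-- apply additive maps to the coefficients -/
noncomputable def cmap (f : ℤ → K →+ K') : LaurentSeries K →+ LaurentSeries K' where
  toFun z := ⟨fun j => f j (z.coeff j), z.isPWO_support.mono (by
    intro j hj h
    apply hj
    show f j (z.coeff j) = 0
    rw [h, map_zero])⟩
  map_zero' := by
    ext j
    simp
  map_add' x y := by
    ext j
    simp

@[simp] theorem cmap_coeff (f : ℤ → K →+ K') (z : LaurentSeries K) (j : ℤ) :
    (cmap f z).coeff j = f j (z.coeff j) := rfl

theorem cmap_support (f : ℤ → K →+ K') (z : LaurentSeries K) :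
    (cmap f z).support ⊆ z.support := by
  intro j hj h
  apply hj
  show f j (z.coeff j) = 0
  rw [h, map_zero]

/-- the logarithmic derivation `π d/dπ` in the outer variable -/
noncomputable def dO : Der (LaurentSeries K) where
  toAddMonoidHom := cmap fun j => AddMonoidHom.mulLeft (j : K)
  leib' x y := by
    ext a
    show (a : K) * (x * y).coeff a = (x * cmap (fun j => AddMonoidHom.mulLeft (j : K)) y
      + cmap (fun j => AddMonoidHom.mulLeft (j : K)) x * y).coeff a
    rw [HahnSeries.coeff_add,
      coeff_mul_left' x.isPWO_support (cmap_support _ x),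
      coeff_mul_right' y.isPWO_support (cmap_support _ y), coeff_mul, Finset.mul_sum,
      ← Finset.sum_add_distrib]
    refine Finset.sum_congr rfl fun ij hij => ?_
    have h : ij.1 + ij.2 = a := (Finset.mem_antidiagonal.1 hij).2.2
    simp only [cmap_coeff, AddMonoidHom.coe_mulLeft]
    rw [← h]
    push_cast
    ring

theorem dO_coeff (z : LaurentSeries K) (j : ℤ) : (dO z).coeff j = (j : K) * z.coeff j := rfl

/-- the derivation acting on the coefficients by `d` -/
noncomputable def dI (d : Der K) : Der (LaurentSeries K) where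
  toAddMonoidHom := cmap fun _ => d.toAddMonoidHom
  leib' x y := by
    ext a
    show d ((x * y).coeff a) = (x * cmap (fun _ => d.toAddMonoidHom) y
      + cmap (fun _ => d.toAddMonoidHom) x * y).coeff a
    rw [HahnSeries.coeff_add,
      coeff_mul_left' x.isPWO_support (cmap_support _ x),
      coeff_mul_right' y.isPWO_support (cmap_support _ y), coeff_mul, map_sum,
      ← Finset.sum_add_distrib]
    refine Finset.sum_congr rfl fun ij _ => ?_
    simp only [cmap_coeff]
    exact d.leib _ _

theorem dI_coeff (d : Der K) (z : LaurentSeries K) (j : ℤ) :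
    (dI d z).coeff j = d (z.coeff j) := rfl

/-- the ring homomorphism `∑ g_j π^j ↦ ∑ φ(g_j) (θ π)^j` -/
noncomputable def tw (φ : K →+* K') (θ : K'ˣ) : LaurentSeries K →+* LaurentSeries K' where
  toFun := cmap fun j => (AddMonoidHom.mulRight ((θ ^ j : K'ˣ) : K')).comp φ.toAddMonoidHom
  map_zero' := map_zero _
  map_add' := map_add _
  map_one' := by
    ext j
    show φ ((1 : LaurentSeries K).coeff j) * ((θ ^ j : K'ˣ) : K') = (1 : LaurentSeries K').coeff j
    rw [HahnSeries.coeff_one, HahnSeries.coeff_one]
    split_ifs with h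
    · subst h
      simp
    · simp
  map_mul' x y := by
    set f : ℤ → K →+ K' :=
      fun j => (AddMonoidHom.mulRight ((θ ^ j : K'ˣ) : K')).comp φ.toAddMonoidHom with hf
    ext a
    show φ ((x * y).coeff a) * ((θ ^ a : K'ˣ) : K') = (cmap f x * cmap f y).coeff a
    rw [coeff_mul_left' x.isPWO_support (cmap_support _ x)]
    have h2 : (∑ ij ∈ Finset.antidiagonal x.isPWO_support (cmap f y).isPWO_support a,
        (cmap f x).coeff ij.1 * (cmap f y).coeff ij.2) =
        ∑ ij ∈ Finset.antidiagonal x.isPWO_support y.isPWO_support a,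
        (cmap f x).coeff ij.1 * (cmap f y).coeff ij.2 := by
      refine Finset.sum_subset ?_ ?_
      · intro ij hij
        rw [Finset.mem_antidiagonal] at hij ⊢
        exact ⟨hij.1, cmap_support _ y hij.2.1, hij.2.2⟩
      · intro ij hij hn
        rw [Finset.mem_antidiagonal] at hij hn
        have h3 : (cmap f y).coeff ij.2 = 0 := by
          by_contra h4
          exact hn ⟨hij.1, h4, hij.2.2⟩
        rw [h3, mul_zero]
    refine Eq.trans ?_ h2.symm
    rw [coeff_mul, map_sum, Finset.sum_mul]
    refine Finset.sum_congr rfl fun ij hij => ?_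
    have h : ij.1 + ij.2 = a := (Finset.mem_antidiagonal.1 hij).2.2
    show φ (x.coeff ij.1 * y.coeff ij.2) * ((θ ^ a : K'ˣ) : K') =
      (φ (x.coeff ij.1) * ((θ ^ ij.1 : K'ˣ) : K')) * (φ (y.coeff ij.2) * ((θ ^ ij.2 : K'ˣ) : K'))
    rw [← h, _root_.zpow_add, Units.val_mul, map_mul]
    ring

theorem tw_coeff (φ : K →+* K') (θ : K'ˣ) (z : LaurentSeries K) (j : ℤ) :
    (tw φ θ z).coeff j = φ (z.coeff j) * ((θ ^ j : K'ˣ) : K') := rfl

/-- ramification `π ↦ π^N` -/
noncomputable def ram (N : ℕ) [NeZero N] : LaurentSeries K →+* LaurentSeries K :=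
  embDomainRingHom (AddMonoidHom.mulLeft (N : ℤ))
    (fun a b h => mul_left_cancel₀ (Int.natCast_ne_zero.2 (NeZero.ne N)) h)
    (fun a b => by
      have h : (0 : ℤ) < (N : ℤ) := by exact_mod_cast Nat.pos_of_ne_zero (NeZero.ne N)
      exact mul_le_mul_iff_right₀ h)

theorem ram_coeff_mul (N : ℕ) [NeZero N] (z : LaurentSeries K) (j : ℤ) :
    (ram N z).coeff (N * j) = z.coeff j :=
  embDomain_coeff (f := ⟨⟨(AddMonoidHom.mulLeft (N : ℤ) : ℤ →+ ℤ), _⟩, _⟩)

theorem ram_coeff_of_not_dvd (N : ℕ) [NeZero N] (z : LaurentSeries K) (j : ℤ)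
    (h : ¬ (N : ℤ) ∣ j) : (ram N z).coeff j = 0 := by
  refine embDomain_of_notMem_range ?_
  rintro ⟨a, ha⟩
  exact h ⟨a, ha.symm⟩

end series

end Pool.Agent.Helper84.CV
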