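import Pool.Agent.Helper84.CV.Lat

/-!
# CV-Descend: regularity descends from a ramified extension

Notation: `∇ = dO + A` over `L = K((z))`, `∇' = dO + N ram(A)` over `K((τ))`, `z = τ^N`: `∇' (ram v) = N ram (∇ v)`
(`dO_ram`).
Plan. `Λ` = set of the `v ∈ L^n` with `G⁻¹ (ram v)` integral (`VGE 0` entries): a `K[[z]]`-submodule (`VGE 0 (ram p)` for
`p ∈ K[[z]]`). Bounded on both sides: `exists_bound` for `G`, `VGE.ramif`, and conversely `VGE (-k) (ram N x)` implies
`VGE (-k) x` (the coefficient of index `N j` of `ram N x` is `x.coeff j`; for `j < -k ≤ 0` also `N j < -k`).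
`lattice_basis` gives `G'` (columns in `Λ`). For a column `v` of `G'`, `y = G⁻¹ ram v` integral:
`N ram (∇ v) = ∇' (G y) = G (dO y + Γ y)`, `Γ = ga dO (N ram A) G` integral, so `∇ v ∈ Λ` (`N` is invertible in `K`), i.e.
`G'⁻¹ (∇ v)` is integral: the columns of `ga dO A G'`.
-/

set_option autoImplicit false

open Matrix

namespace Pool.Agent.Helper84.CV

private theorem ds_mulVec {K : Type} [Field K] {n : ℕ}
    (H M : Matrix (Fin n) (Fin n) (LaurentSeries K)) (i j : Fin n) :
    (H.mulVec (fun k => M k j)) i = (H * M) i j := by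
  rw [Matrix.mul_apply]
  rfl

/-- the lattice of the vectors which become integral -/
private noncomputable def dsL {K : Type} [Field K] {n : ℕ} (N : ℕ) [NeZero N]
    (H : Matrix (Fin n) (Fin n) (LaurentSeries K)) :
    Submodule (PowerSeries K) (Fin n → LaurentSeries K) where
  carrier := {v | ∀ i, VGE 0 ((H.mulVec (fun j => ram N (v j))) i)}
  add_mem' := by
    intro v w hv hw i
    have e : (fun j => ram N ((v + w) j)) = (fun j => ram N (v j)) + fun j => ram N (w j) := by
      funext j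
      rw [Pi.add_apply, Pi.add_apply, map_add]
    rw [e, Matrix.mulVec_add, Pi.add_apply]
    exact (hv i).add (hw i)
  zero_mem' := by
    intro i
    have e : (fun j => ram N ((0 : Fin n → LaurentSeries K) j)) = 0 := by
      funext j
      rw [Pi.zero_apply, map_zero]
    rw [e, Matrix.mulVec_zero, Pi.zero_apply]
    exact VGE_zero 0
  smul_mem' := by
    intro c v hv i
    have hc : VGE 0 (algebraMap (PowerSeries K) (LaurentSeries K) c) := by
      intro j hj
      rw [LaurentSeries.coe_algebraMap, PowerSeries.coeff_coe, if_pos hj]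
    have hc2 := VGE.ramif N hc
    rw [mul_zero] at hc2
    have e : (fun j => ram N ((c • v) j)) =
        (ram N (algebraMap (PowerSeries K) (LaurentSeries K) c)) • fun j => ram N (v j) := by
      funext j
      rw [Pi.smul_apply, Pi.smul_apply, Algebra.smul_def, map_mul, smul_eq_mul]
    rw [e, Matrix.mulVec_smul, Pi.smul_apply, smul_eq_mul]
    have h2 := hc2.mul (hv i)
    rwa [add_zero] at h2

private theorem mem_dsL {K : Type} [Field K] {n : ℕ} (N : ℕ) [NeZero N]
    (H : Matrix (Fin n) (Fin n) (LaurentSeries K)) (v : Fin n → LaurentSeries K) :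
    v ∈ dsL N H ↔ ∀ i, VGE 0 ((H.mulVec (fun j => ram N (v j))) i) := Iff.rfl

theorem descend {K : Type} [Field K] [CharZero K] {n : ℕ} (N : ℕ) [NeZero N]
    (A : Matrix (Fin n) (Fin n) (LaurentSeries K)) (G : Matrix (Fin n) (Fin n) (LaurentSeries K))
    (hG : IsUnit G.det)
    (h : MVGE 0 (ga dO ((N : LaurentSeries K) • A.map (ram N)) G)) :
    ∃ G' : Matrix (Fin n) (Fin n) (LaurentSeries K), IsUnit G'.det ∧ MVGE 0 (ga dO A G') := by
  have hN : (1 : ℤ) ≤ (N : ℤ) := by
    exact_mod_cast Nat.one_le_iff_ne_zero.2 (NeZero.ne N)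
  obtain ⟨k, hk1, hk2⟩ := exists_bound G
  have hb1 : ∀ v : Fin n → LaurentSeries K, (∀ i, VGE (k : ℤ) (v i)) → v ∈ dsL N G⁻¹ := by
    intro v hv
    rw [mem_dsL]
    intro i
    have h1 := hk2.mulVec (fun j => VGE.ramif N (hv j)) i
    refine h1.mono ?_
    have h2 : (k : ℤ) ≤ N * k := le_mul_of_one_le_left (Nat.cast_nonneg k) hN
    linarith
  have hb2 : ∀ v ∈ dsL N G⁻¹, ∀ i, VGE (-(k : ℤ)) (v i) := by
    intro v hv i
    rw [mem_dsL] at hv
    have h1 := hk1.mulVec hv i
    rw [Matrix.mulVec_mulVec, Matrix.mul_nonsing_inv _ hG, Matrix.one_mulVec, add_zero] at h1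
    intro j hj
    have h2 := h1 (N * j) (by
      have h3 : (N : ℤ) * j ≤ 1 * j :=
        mul_le_mul_of_nonpos_right hN (by
          have := Int.natCast_nonneg k
          linarith)
      linarith)
    rwa [ram_coeff_mul] at h2
  obtain ⟨G', hG', hL⟩ := lattice_basis (dsL N G⁻¹) k (-(k : ℤ)) hb1 hb2
  -- the columns of a matrix are in the lattice
  have hcol : ∀ M : Matrix (Fin n) (Fin n) (LaurentSeries K),
      MVGE 0 (G⁻¹ * M.map (ram N)) ↔ MVGE 0 (G'⁻¹ * M) := by
    intro M
    constructor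
    · intro h1 i j
      have h2 : (fun k => M k j) ∈ dsL N G⁻¹ := by
        rw [mem_dsL]
        intro i'
        have h3 := ds_mulVec G⁻¹ (M.map (ram N)) i' j
        have h4 : (G⁻¹.mulVec (fun k => ram N (M k j))) i' = (G⁻¹ * M.map (ram N)) i' j := h3
        rw [h4]
        exact h1 i' j
      have h5 := (hL _).1 h2 i
      rwa [ds_mulVec] at h5
    · intro h1 i j
      have h2 : (fun k => M k j) ∈ dsL N G⁻¹ := by
        rw [hL]
        intro i'
        rw [ds_mulVec]
        exact h1 i' j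
      rw [mem_dsL] at h2
      have h4 : (G⁻¹.mulVec (fun k => ram N (M k j))) i = (G⁻¹ * M.map (ram N)) i j :=
        ds_mulVec G⁻¹ (M.map (ram N)) i j
      rw [← h4]
      exact h2 i
  have hY : MVGE 0 (G⁻¹ * G'.map (ram N)) := by
    rw [hcol, Matrix.nonsing_inv_mul _ hG']
    exact MVGE_one
  refine ⟨G', hG', ?_⟩
  unfold ga
  rw [← hcol]
  set Y := G⁻¹ * G'.map (ram N) with hYdef
  have hW : G'.map (ram N) = G * Y := by
    rw [hYdef, ← Matrix.mul_assoc, Matrix.mul_nonsing_inv _ hG, Matrix.one_mul]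
  have h1 : (N : LaurentSeries K) • (dM dO G' + A * G').map (ram N) =
      dM dO (G'.map (ram N)) + ((N : LaurentSeries K) • A.map (ram N)) * G'.map (ram N) := by
    rw [Matrix.map_add (ram N) (map_add (ram N)), Matrix.map_mul, smul_add, Matrix.smul_mul]
    congr 1
    ext i j
    rw [Matrix.smul_apply, Matrix.map_apply, dM_apply, dM_apply, Matrix.map_apply, dO_ram,
      smul_eq_mul]
  have h2 : G⁻¹ * ((N : LaurentSeries K) • (dM dO G' + A * G').map (ram N)) =
      dM dO Y + ga dO ((N : LaurentSeries K) • A.map (ram N)) G * Y := by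
    rw [h1, hW, dM_mul]
    unfold ga
    have e : G⁻¹ * (G * dM dO Y + dM dO G * Y +
        (N : LaurentSeries K) • A.map (ram N) * (G * Y)) = (G⁻¹ * G) * dM dO Y +
        G⁻¹ * (dM dO G + (N : LaurentSeries K) • A.map (ram N) * G) * Y := by noncomm_ring
    rw [e, Matrix.nonsing_inv_mul _ hG, Matrix.one_mul]
  have h3 : MVGE 0 (G⁻¹ * ((N : LaurentSeries K) • (dM dO G' + A * G').map (ram N))) := by
    rw [h2]
    refine MVGE.add (fun i j => ?_) ?_
    · rw [dM_apply]
      exact (hY i j).outer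
    · have h4 := h.mul hY
      rwa [add_zero] at h4
  have hN0 : (N : K) ≠ 0 := Nat.cast_ne_zero.2 (NeZero.ne N)
  have hNi : (HahnSeries.C ((N : K)⁻¹) : LaurentSeries K) * (N : LaurentSeries K) = 1 := by
    rw [← map_natCast (HahnSeries.C : K →+* LaurentSeries K), ← map_mul, inv_mul_cancel₀ hN0,
      map_one]
  have h5 := MVGE.smul (VGE_C ((N : K)⁻¹)) h3
  rw [Matrix.mul_smul, smul_smul, hNi, one_smul, add_zero] at h5
  exact h5

end Pool.Agent.Helper84.CV
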