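import Pool.Agent.Helper84.CV.LDB

/-!
# CV-E0: the root disc, separation of the branches, induction over the tree

Plan. `adm_root`: `G = 1` (`ga_one`). At the root `λ = w` (`lamN_nil`, `dO_lamN_nil`, `dI_lamN`), `RN = (w - U)⁻¹` is
integral: its determinant `∏ (w - r_i)` (`det_lam`) has `VGE 0` and the coefficient `∏ (X - r_i(0)) ≠ 0` of index `0`,
so the inverse `det⁻¹ • adjugate` has `MVGE 0` (`VGE_inv`; the entries of the adjugate are sums of products:
`Matrix.adjugate_apply`, `Matrix.det_apply`, or `adjugate` of an integral matrix through the subring of integral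
elements). Then `A1 = -(SK * RN * BK)`, `A2 = RN * BK`.
`separated`: if `i ≠ j` are in `br l` then `X^(l.length)` divides `r_i - r_j ≠ 0`, which bounds `l.length`
(`PowerSeries.X_pow_dvd_iff`, some coefficient of `r_i - r_j` is nonzero); take the maximum over the pairs.
`tree_induction`: for `l.length ≥ M` no child has two branches, so `Q l`; then induction on `M - l.length`.
-/

set_option autoImplicit false

open Matrix

namespace Pool.Agent.Helper84.CV.LD

variable {n : ℕ} (D : LD n) (N : ℕ) [NeZero N] (l : List ℂ)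

private theorem VGE_prod {K : Type} [Field K] {α : Type} (s : Finset α) (f : α → LaurentSeries K)
    (h : ∀ i ∈ s, VGE 0 (f i)) : VGE 0 (∏ i ∈ s, f i) := by
  classical
  induction s using Finset.induction_on with
  | empty =>
    rw [Finset.prod_empty]
    exact VGE_one
  | insert a s ha ih =>
    rw [Finset.prod_insert ha]
    have h1 := (h a (Finset.mem_insert_self _ _)).mul
      (ih fun i hi => h i (Finset.mem_insert_of_mem hi))
    rwa [add_zero] at h1

private theorem coeff_prod {K : Type} [Field K] {α : Type} (s : Finset α)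
    (f : α → LaurentSeries K) (h : ∀ i ∈ s, VGE 0 (f i)) :
    (∏ i ∈ s, f i).coeff 0 = ∏ i ∈ s, (f i).coeff 0 := by
  classical
  induction s using Finset.induction_on with
  | empty =>
    rw [Finset.prod_empty, Finset.prod_empty]
    exact HahnSeries.coeff_one.trans (if_pos rfl)
  | insert a s ha ih =>
    rw [Finset.prod_insert ha, Finset.prod_insert ha,
      ← ih fun i hi => h i (Finset.mem_insert_of_mem hi)]
    have h1 := coeff_mul_low (h a (Finset.mem_insert_self _ _))
      (VGE_prod s f fun i hi => h i (Finset.mem_insert_of_mem hi))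
    rwa [add_zero] at h1

private theorem VGE_det {K : Type} [Field K] {m : ℕ} (A : Matrix (Fin m) (Fin m) (LaurentSeries K))
    (h : ∀ i j, VGE 0 (A i j)) : VGE 0 A.det := by
  rw [Matrix.det_apply]
  refine VGE.sum _ _ fun σ _ => ?_
  have h1 : VGE 0 (∏ i, A (σ i) i) := VGE_prod _ _ fun i _ => h _ _
  rcases Int.units_eq_one_or (Equiv.Perm.sign σ) with hs | hs
  · rw [hs, one_smul]
    exact h1
  · rw [hs, Units.neg_smul, one_smul]
    exact h1.neg

private theorem MVGE_inv {K : Type} [Field K] {m : ℕ}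
    (A : Matrix (Fin m) (Fin m) (LaurentSeries K))
    (h : MVGE 0 A) (h0 : A.det.coeff 0 ≠ 0) : MVGE 0 A⁻¹ := by
  have h1 : VGE 0 (A.det)⁻¹ := VGE_inv (VGE_det A h) h0
  have h2 : MVGE 0 A.adjugate := by
    intro i j
    rw [Matrix.adjugate_apply]
    refine VGE_det _ fun a b => ?_
    rw [Matrix.updateRow_apply]
    split_ifs
    · rw [Pi.single_apply]
      split_ifs
      · exact VGE_one
      · exact VGE_zero 0
    · exact h a b
  rw [Matrix.inv_def, Ring.inverse_eq_inv']
  have h3 := MVGE.smul h1 h2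
  rwa [add_zero] at h3

theorem Adm.mono {D : LD n} {N : ℕ} [NeZero N] {l : List ℂ} {q q' : ℕ} (h : D.Adm N l q)
    (hq : q ≤ q') : D.Adm N l q' := by
  obtain ⟨G, hG, h1, h2⟩ := h
  have h3 : (-(q' : ℤ)) ≤ -(q : ℤ) := by omega
  exact ⟨G, hG, h1.mono h3, h2.mono h3⟩

private theorem MVGE_lam_root :
    MVGE 0 (lamN N [] • (1 : Matrix (Fin n) (Fin n) FF) - D.UK N (RatFunc ℂ)) := by
  refine MVGE.sub ?_ (D.MVGE_UK N _)
  rw [lamN_nil]
  have h1 := MVGE.smul (VGE_C (RatFunc.X : RatFunc ℂ))
    (MVGE_one : MVGE 0 (1 : Matrix (Fin n) (Fin n) FF))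
  rwa [add_zero] at h1

theorem MVGE_RN_root : MVGE 0 (D.RN N []) := by
  unfold RN
  refine MVGE_inv _ (D.MVGE_lam_root N) ?_
  rw [D.det_lam N [], coeff_prod]
  · rw [Finset.prod_ne_zero_iff]
    intro i _ h0
    rw [lamN_nil, HahnSeries.coeff_sub] at h0
    have h1 : (ram N (inc (D.r i)) : FF).coeff 0 =
        algebraMap ℂ (RatFunc ℂ) (PowerSeries.coeff 0 (D.r i)) := by
      have h2 := ram_coeff_mul N (inc (D.r i) : FF) 0
      rw [mul_zero] at h2
      rw [h2]
      exact inc_coeff_nat (D.r i) 0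
    have h3 : (HahnSeries.C (RatFunc.X : RatFunc ℂ) : FF).coeff 0 = RatFunc.X := by
      rw [HahnSeries.C_apply]
      exact HahnSeries.coeff_single_same 0 _
    rw [h1, h3] at h0
    have h4 : rD (RatFunc.X - algebraMap ℂ (RatFunc ℂ) (PowerSeries.coeff 0 (D.r i))) = rD 0 :=
      congrArg rD h0
    rw [map_sub, rD_X, rD_const, map_zero, sub_zero] at h4
    exact one_ne_zero h4
  · intro i _
    rw [lamN_nil]
    refine (VGE_C _).sub ?_
    have h1 := VGE.ramif N (VGE_inc (K := RatFunc ℂ) (D.r i))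
    rwa [mul_zero] at h1

theorem adm_root : D.Adm N [] 0 := by
  refine ⟨1, ?_, ?_, ?_⟩
  · rw [Matrix.det_one]
    exact isUnit_one
  · rw [ga_one]
    have h1 : (-((0 : ℕ) : ℤ)) = 0 := by simp
    rw [h1]
    unfold A1 cn
    have h2 : MVGE 0 (dO (lamN N []) • (1 : Matrix (Fin n) (Fin n) FF) -
        (1 : FF) • D.SK N (RatFunc ℂ)) := by
      intro i j
      change VGE 0 (dO (lamN N []) * (1 : Matrix (Fin n) (Fin n) FF) i j -
        1 * D.SK N (RatFunc ℂ) i j)
      rw [dO_lamN_nil, zero_mul, one_mul, zero_sub]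
      exact (D.MVGE_SK N _ i j).neg
    have h3 := (h2.mul (D.MVGE_RN_root N)).mul (D.MVGE_BK (RatFunc ℂ))
    rwa [add_zero, add_zero] at h3
  · rw [ga_one]
    have h1 : (-((0 : ℕ) : ℤ)) = 0 := by simp
    rw [h1]
    unfold A2 cn
    have h2 : MVGE 0 (dI rD (lamN N []) • (1 : Matrix (Fin n) (Fin n) FF) -
        (0 : FF) • D.SK N (RatFunc ℂ)) := by
      intro i j
      change VGE 0 (dI rD (lamN N []) * (1 : Matrix (Fin n) (Fin n) FF) i j -
        0 * D.SK N (RatFunc ℂ) i j)
      have h4 : (((N * ([] : List ℂ).length : ℕ) : ℤ)) = 0 := by simp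
      rw [dI_lamN, zero_mul, sub_zero, h4]
      have h5 := (VGE_mo (K := RatFunc ℂ) 0).mul
        ((MVGE_one : MVGE 0 (1 : Matrix (Fin n) (Fin n) FF)) i j)
      rwa [add_zero] at h5
    have h3 := (h2.mul (D.MVGE_RN_root N)).mul (D.MVGE_BK (RatFunc ℂ))
    rwa [add_zero, add_zero] at h3

theorem br_cons_subset (w₀ : ℂ) : D.br (w₀ :: l) ⊆ D.br l := by
  intro i hi
  rw [mem_br] at hi ⊢
  have h1 : D.r i - cen l = (D.r i - cen (w₀ :: l)) +
      PowerSeries.C w₀ * PowerSeries.X ^ l.length := by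
    change _ = (D.r i - (cen l + PowerSeries.C w₀ * PowerSeries.X ^ l.length)) + _
    ring
  rw [h1]
  refine dvd_add ?_ (Dvd.intro_left _ rfl)
  refine (pow_dvd_pow _ ?_).trans hi
  rw [List.length_cons]
  omega

theorem br_nil : D.br [] = Finset.univ := by
  ext i
  rw [mem_br]
  simp

theorem separated : ∃ M : ℕ, ∀ l : List ℂ, M ≤ l.length → (D.br l).card ≤ 1 := by
  classical
  have h1 : ∀ p : Fin n × Fin n, ∃ k : ℕ, p.1 ≠ p.2 →
      PowerSeries.coeff k (D.r p.1 - D.r p.2) ≠ 0 := by
    intro p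
    by_cases hp : p.1 = p.2
    · exact ⟨0, fun h => absurd hp h⟩
    · have h2 : D.r p.1 - D.r p.2 ≠ 0 := fun h => hp (D.inj (sub_eq_zero.mp h))
      by_contra hcon
      push Not at hcon
      apply h2
      ext k
      rw [(hcon k).2, map_zero]
  choose κ hκ using h1
  refine ⟨(Finset.univ.sup κ) + 1, ?_⟩
  intro l hl
  rw [Finset.card_le_one]
  intro i hi j hj
  by_contra hij
  rw [mem_br] at hi hj
  have h3 : PowerSeries.X ^ l.length ∣ D.r i - D.r j := by
    have h4 : D.r i - D.r j = (D.r i - cen l) - (D.r j - cen l) := by ring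
    rw [h4]
    exact dvd_sub hi hj
  have h5 : κ (i, j) ≤ Finset.univ.sup κ := Finset.le_sup (Finset.mem_univ _)
  have h6 := (PowerSeries.X_pow_dvd_iff.mp h3) (κ (i, j)) (by omega)
  exact hκ (i, j) hij h6

theorem tree_induction (Q : List ℂ → Prop)
    (h : ∀ l, (∀ w₀, 2 ≤ (D.br (w₀ :: l)).card → Q (w₀ :: l)) → Q l) : Q l := by
  obtain ⟨M, hM⟩ := D.separated
  have key : ∀ m (l : List ℂ), M ≤ l.length + m → Q l := by
    intro m
    induction m with
    | zero =>
      intro l hl
      apply h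
      intro w₀ h2
      have h3 := hM (w₀ :: l) (by rw [List.length_cons]; omega)
      omega
    | succ m ih =>
      intro l hl
      apply h
      intro w₀ _
      apply ih
      rw [List.length_cons]
      omega
  exact key M l (by omega)

end Pool.Agent.Helper84.CV.LD
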