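import Pool.Agent.Helper84.CV.B2

/-!
# CV-Spec: spectral projections of a matrix with distinct eigenvalues in the field

Plan. `exists_spec`: for each `i`, `det (r_i - U) = 0` (`charpoly` at `r_i`), so there is `v_i ≠ 0` with `U v_i = r_i v_i`
(`Matrix.exists_mulVec_eq_zero_iff`). The `v_i` are linearly independent
(`Module.End.eigenvectors_linearIndependent'`), so the matrix `V` with columns `v_i` is invertible, `U V = V diag(r)`.
Put `P i = V * Matrix.single i i 1 * V⁻¹` (diagonal matrix unit). All properties follow from those of the matrix units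
`E_i`: `E_i M E_i = M_ii E_i`, and `trace (V E_i V⁻¹ M) = (V⁻¹ M V)_ii`.
`Spec.expand`: `M = ∑ P_i M P_j` and `P_i M P_j = 0` for `i ≠ j` if `M` commutes with `U` (`r_i P_i M P_j = P_i U M P_j =
P_i M U P_j = r_j P_i M P_j`); `P_i M P_i = tr(P_i M) P_i`. `Spec.resolvent`: multiply by `λ - U`. `Spec.det`: `U` has
the characteristic polynomial `∏ (X - r_i)`: not needed, use `hU`. `Spec.adj`: apply `Matrix.adjugate` through `V`:
`r_i - U = V diag(r_i - r_j) V⁻¹`, `adjugate_mul_distrib`, `adjugate (diagonal)` (`Matrix.adjugate_diagonal`?) is the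
diagonal matrix of the products of the other entries; only the `i`-th one is nonzero. Alternatively for `Spec.adj`:
`W = adj(r_i - U)` satisfies `U W = r_i W = W U`, so `W = P_i W P_i = x P_i`; and `x = tr W = f'(r_i)`
(`Matrix.derivative_det_..`/`Polynomial`): the product.
`Spec.deriv`: `S` commutes with `U`, so `S P_i = σ_i P_i = P_i S`. Differentiate `U P_i = r_i P_i` and multiply by `P_i` on
the left: `P_i (dU) P_i = (d r_i) P_i`; `dU = S + S B - B S` gives `P_i (dU) P_i = σ_i P_i`, so `σ_i = d r_i`.
-/

set_option autoImplicit false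

open Matrix Polynomial

namespace Pool.Agent.Helper84.CV

/-- `P i` are the spectral projections of `U` for the eigenvalues `r i` -/
structure Spec {K : Type} [Field K] {n : ℕ} (U : Matrix (Fin n) (Fin n) K) (r : Fin n → K)
    (P : Fin n → Matrix (Fin n) (Fin n) K) : Prop where
  idem : ∀ i, P i * P i = P i
  orth : ∀ i j, i ≠ j → P i * P j = 0
  sum : ∑ i, P i = 1
  trace : ∀ i, (P i).trace = 1
  left : ∀ i, U * P i = r i • P i
  right : ∀ i, P i * U = r i • P i
  rank : ∀ i M, P i * M * P i = (P i * M).trace • P i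

variable {K L : Type} [Field K] [Field L] {n : ℕ} {U : Matrix (Fin n) (Fin n) K} {r : Fin n → K}
  {P : Fin n → Matrix (Fin n) (Fin n) K}

/-- the basis of eigenvectors -/
private theorem spec_exists_V (hU : U.charpoly = ∏ i, (X - C (r i))) (hr : Function.Injective r) :
    ∃ V : Matrix (Fin n) (Fin n) K, IsUnit V ∧ U * V = V * Matrix.diagonal r := by
  have h1 : ∀ i, ∃ v : Fin n → K, v ≠ 0 ∧ U *ᵥ v = r i • v := by
    intro i
    have h2 : (Matrix.scalar (Fin n) (r i) - U).det = 0 := by
      rw [← Matrix.eval_charpoly, hU, Polynomial.eval_prod]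
      apply Finset.prod_eq_zero (Finset.mem_univ i)
      simp
    obtain ⟨v, hv0, hv⟩ := Matrix.exists_mulVec_eq_zero_iff.2 h2
    refine ⟨v, hv0, ?_⟩
    rw [Matrix.sub_mulVec, sub_eq_zero] at hv
    rw [← hv]
    simp
  choose v hv0 hv using h1
  have hlin : LinearIndependent K v := by
    refine Module.End.eigenvectors_linearIndependent' (Matrix.mulVecLin U) r hr v ?_
    intro i
    refine ⟨?_, hv0 i⟩
    rw [Module.End.mem_eigenspace_iff]
    exact hv i
  refine ⟨Matrix.of (fun a i => v i a), ?_, ?_⟩
  · rw [← Matrix.linearIndependent_cols_iff_isUnit]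
    exact hlin
  · ext a i
    rw [Matrix.mul_diagonal]
    have h3 := congrFun (hv i) a
    simp only [Matrix.mulVec, dotProduct, Pi.smul_apply, smul_eq_mul] at h3
    simp only [Matrix.mul_apply, Matrix.of_apply]
    rw [h3, mul_comm]

theorem exists_spec (hU : U.charpoly = ∏ i, (X - C (r i))) (hr : Function.Injective r) :
    ∃ P, Spec U r P := by
  obtain ⟨V, hV, hUV⟩ := spec_exists_V hU hr
  have hV' : IsUnit V.det := (Matrix.isUnit_iff_isUnit_det _).1 hV
  have hVV : V⁻¹ * V = 1 := Matrix.nonsing_inv_mul _ hV'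
  have hVV' : V * V⁻¹ = 1 := Matrix.mul_nonsing_inv _ hV'
  have hVU : V⁻¹ * U = Matrix.diagonal r * V⁻¹ := by
    calc V⁻¹ * U = V⁻¹ * U * (V * V⁻¹) := by rw [hVV', Matrix.mul_one]
      _ = V⁻¹ * (U * V) * V⁻¹ := by simp only [Matrix.mul_assoc]
      _ = (V⁻¹ * V) * Matrix.diagonal r * V⁻¹ := by rw [hUV]; simp only [Matrix.mul_assoc]
      _ = Matrix.diagonal r * V⁻¹ := by rw [hVV, Matrix.one_mul]
  have hcanc : ∀ A B : Matrix (Fin n) (Fin n) K, V * A * V⁻¹ * (V * B * V⁻¹) = V * (A * B) * V⁻¹ := by
    intro A B
    calc V * A * V⁻¹ * (V * B * V⁻¹) = V * A * (V⁻¹ * V) * B * V⁻¹ := by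
          simp only [Matrix.mul_assoc]
      _ = V * (A * B) * V⁻¹ := by rw [hVV, Matrix.mul_one]; simp only [Matrix.mul_assoc]
  have hd1 : ∀ i, Matrix.diagonal r * Matrix.single i i (1 : K) = r i • Matrix.single i i 1 := by
    intro i
    ext a b
    rw [Matrix.diagonal_mul, Matrix.smul_apply, smul_eq_mul]
    by_cases h : i = a
    · rw [h]
    · rw [Matrix.single_apply_of_row_ne h, mul_zero, mul_zero]
  have hd2 : ∀ i, Matrix.single i i (1 : K) * Matrix.diagonal r = r i • Matrix.single i i 1 := by
    intro i
    ext a b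
    rw [Matrix.mul_diagonal, Matrix.smul_apply, smul_eq_mul, mul_comm]
    by_cases h : i = b
    · rw [h]
    · rw [Matrix.single_apply_of_col_ne _ _ h, mul_zero, mul_zero]
  refine ⟨fun i => V * Matrix.single i i 1 * V⁻¹, ?_, ?_, ?_, ?_, ?_, ?_, ?_⟩
  · intro i
    rw [hcanc, Matrix.single_mul_single_same, mul_one]
  · intro i j hij
    rw [hcanc, Matrix.single_mul_single_of_ne _ _ _ _ hij, Matrix.mul_zero, Matrix.zero_mul]
  · rw [← Finset.sum_mul, ← Finset.mul_sum]
    have h1 : ∑ i, Matrix.single i i (1 : K) = (1 : Matrix (Fin n) (Fin n) K) := by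
      ext a b
      rw [Matrix.sum_apply]
      by_cases hab : a = b
      · subst hab
        rw [Finset.sum_eq_single a, Matrix.single_apply_same, Matrix.one_apply_eq]
        · intro c _ hc
          exact Matrix.single_apply_of_row_ne hc _ _ _
        · intro h
          exact absurd (Finset.mem_univ a) h
      · rw [Matrix.one_apply_ne hab]
        refine Finset.sum_eq_zero fun c _ => ?_
        by_cases hc : c = a
        · subst hc
          exact Matrix.single_apply_of_col_ne _ _ hab _
        · exact Matrix.single_apply_of_row_ne hc _ _ _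
    rw [h1, Matrix.mul_one, hVV']
  · intro i
    rw [Matrix.mul_assoc, Matrix.trace_mul_comm, Matrix.mul_assoc, hVV, Matrix.mul_one,
      Matrix.trace_single_eq_same]
  · intro i
    calc U * (V * Matrix.single i i 1 * V⁻¹) = (U * V) * Matrix.single i i 1 * V⁻¹ := by
          simp only [Matrix.mul_assoc]
      _ = V * (Matrix.diagonal r * Matrix.single i i 1) * V⁻¹ := by
          rw [hUV]; simp only [Matrix.mul_assoc]
      _ = r i • (V * Matrix.single i i 1 * V⁻¹) := by
          rw [hd1, Matrix.mul_smul, Matrix.smul_mul]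
  · intro i
    calc V * Matrix.single i i 1 * V⁻¹ * U = V * Matrix.single i i 1 * (V⁻¹ * U) := by
          simp only [Matrix.mul_assoc]
      _ = V * (Matrix.single i i 1 * Matrix.diagonal r) * V⁻¹ := by
          rw [hVU]; simp only [Matrix.mul_assoc]
      _ = r i • (V * Matrix.single i i 1 * V⁻¹) := by
          rw [hd2, Matrix.mul_smul, Matrix.smul_mul]
  · intro i M
    have h1 : V * Matrix.single i i 1 * V⁻¹ * M * (V * Matrix.single i i 1 * V⁻¹) =
        V * (Matrix.single i i 1 * (V⁻¹ * M * V) * Matrix.single i i 1) * V⁻¹ := by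
      simp only [Matrix.mul_assoc]
    have h2 : (V * Matrix.single i i 1 * V⁻¹ * M).trace = (V⁻¹ * M * V) i i := by
      calc (V * Matrix.single i i 1 * V⁻¹ * M).trace
          = (V * (Matrix.single i i 1 * (V⁻¹ * M))).trace := by simp only [Matrix.mul_assoc]
        _ = (Matrix.single i i 1 * (V⁻¹ * M) * V).trace := Matrix.trace_mul_comm _ _
        _ = (Matrix.single i i 1 * (V⁻¹ * M * V)).trace := by simp only [Matrix.mul_assoc]
        _ = (V⁻¹ * M * V) i i := by rw [Matrix.trace_single_mul, one_smul]
    rw [h1, h2, Matrix.single_mul_mul_single, one_mul, mul_one]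
    have h3 : Matrix.single i i ((V⁻¹ * M * V) i i) =
        ((V⁻¹ * M * V) i i) • Matrix.single i i (1 : K) := by
      rw [Matrix.smul_single, smul_eq_mul, mul_one]
    rw [h3, Matrix.mul_smul, Matrix.smul_mul]

/-- the rank one condition for the entries -/
private theorem spec_entries (h : Spec U r P) (i a b c d : Fin n) :
    P i c a * P i b d = P i b a * P i c d := by
  have h1 := congrFun (congrFun (h.rank i (Matrix.single a b 1)) c) d
  rw [Matrix.smul_apply, smul_eq_mul, Matrix.trace_mul_single, MulOpposite.op_one, one_smul,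
    Matrix.mul_apply, Finset.sum_eq_single b] at h1
  · rw [Matrix.mul_single_apply_same, mul_one] at h1
    exact h1
  · intro e _ he
    rw [Matrix.mul_single_apply_of_ne (hbj := he), zero_mul]
  · intro hb
    exact absurd (Finset.mem_univ b) hb

theorem Spec.map (h : Spec U r P) (φ : K →+* L) :
    Spec (U.map φ) (fun i => φ (r i)) (fun i => (P i).map φ) := by
  have hsm : ∀ (x : K) (M : Matrix (Fin n) (Fin n) K), (x • M).map φ = φ x • M.map φ := by
    intro x M
    ext a b
    simp
  refine ⟨?_, ?_, ?_, ?_, ?_, ?_, ?_⟩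
  · intro i
    rw [← Matrix.map_mul, h.idem]
  · intro i j hij
    rw [← Matrix.map_mul, h.orth i j hij]
    ext a b
    simp
  · have h1 : (∑ i, P i).map φ = (1 : Matrix (Fin n) (Fin n) K).map φ := by rw [h.sum]
    rw [Matrix.map_one _ (map_zero φ) (map_one φ)] at h1
    rw [← h1]
    ext a b
    simp [Matrix.sum_apply]
  · intro i
    have h1 := congrArg φ (h.trace i)
    rw [map_one] at h1
    rw [← h1]
    simp [Matrix.trace]
  · intro i
    rw [← Matrix.map_mul, h.left, hsm]
  · intro i
    rw [← Matrix.map_mul, h.right, hsm]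
  · intro i M
    have he : ∀ a b c d : Fin n, φ (P i c a) * φ (P i b d) = φ (P i b a) * φ (P i c d) := by
      intro a b c d
      rw [← map_mul, ← map_mul, spec_entries h i a b c d]
    ext c d
    rw [Matrix.smul_apply, smul_eq_mul, Matrix.mul_apply, Matrix.trace, Finset.sum_mul]
    simp only [Matrix.mul_apply, Matrix.diag_apply, Matrix.map_apply, Finset.sum_mul]
    refine Finset.sum_congr rfl fun b _ => Finset.sum_congr rfl fun a _ => ?_
    calc φ (P i c a) * M a b * φ (P i b d) = (φ (P i c a) * φ (P i b d)) * M a b := by ring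
      _ = φ (P i b a) * M a b * φ (P i c d) := by rw [he]; ring

theorem Spec.ne_zero (h : Spec U r P) (i : Fin n) : P i ≠ 0 := by
  intro h0
  have h1 := h.trace i
  rw [h0, Matrix.trace_zero] at h1
  exact zero_ne_one h1

/-- linear independence of the projections -/
theorem Spec.coeff_eq (h : Spec U r P) (x y : Fin n → K)
    (hxy : ∑ i, x i • P i = ∑ i, y i • P i) : x = y := by
  have key : ∀ (z : Fin n → K) (j : Fin n), ((∑ i, z i • P i) * P j).trace = z j := by
    intro z j
    rw [Finset.sum_mul, Finset.sum_eq_single j]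
    · rw [Matrix.smul_mul, h.idem, Matrix.trace_smul, h.trace, smul_eq_mul, mul_one]
    · intro i _ hij
      rw [Matrix.smul_mul, h.orth i j hij, smul_zero]
    · intro hj
      exact absurd (Finset.mem_univ j) hj
  funext j
  rw [← key x j, ← key y j, hxy]

private theorem spec_off (h : Spec U r P) (hr : Function.Injective r)
    (M : Matrix (Fin n) (Fin n) K) (hM : U * M = M * U) {i j : Fin n} (hij : i ≠ j) :
    P i * M * P j = 0 := by
  have h1 : r i • (P i * M * P j) = r j • (P i * M * P j) := by
    calc r i • (P i * M * P j) = (r i • P i) * M * P j := by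
          rw [Matrix.smul_mul, Matrix.smul_mul]
      _ = P i * U * M * P j := by rw [h.right]
      _ = P i * (U * M) * P j := by simp only [Matrix.mul_assoc]
      _ = P i * M * (U * P j) := by rw [hM]; simp only [Matrix.mul_assoc]
      _ = r j • (P i * M * P j) := by rw [h.left, Matrix.mul_smul]
  have h2 : (r i - r j) • (P i * M * P j) = 0 := by rw [sub_smul, h1, sub_self]
  exact (smul_eq_zero.1 h2).resolve_left (sub_ne_zero.2 fun e => hij (hr e))

theorem Spec.expand (h : Spec U r P) (hr : Function.Injective r) (M : Matrix (Fin n) (Fin n) K)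
    (hM : U * M = M * U) : M = ∑ i, (P i * M).trace • P i := by
  calc M = (∑ i, P i) * M * (∑ j, P j) := by rw [h.sum, Matrix.one_mul, Matrix.mul_one]
    _ = ∑ i, ∑ j, P i * M * P j := by
        rw [Finset.sum_mul, Finset.sum_mul]
        exact Finset.sum_congr rfl fun i _ => Finset.mul_sum _ _ _
    _ = ∑ i, P i * M * P i := by
        refine Finset.sum_congr rfl fun i _ => ?_
        rw [Finset.sum_eq_single i]
        · intro j _ hj
          exact spec_off h hr M hM (Ne.symm hj)
        · intro hi
          exact absurd (Finset.mem_univ i) hi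
    _ = ∑ i, (P i * M).trace • P i := Finset.sum_congr rfl fun i _ => h.rank i M

private theorem spec_expand_left (h : Spec U r P) (x : Fin n → K) (i : Fin n) :
    P i * (∑ j, x j • P j) = x i • P i := by
  rw [Finset.mul_sum, Finset.sum_eq_single i]
  · rw [Matrix.mul_smul, h.idem]
  · intro j _ hj
    rw [Matrix.mul_smul, h.orth i j (Ne.symm hj), smul_zero]
  · intro hi
    exact absurd (Finset.mem_univ i) hi

private theorem spec_expand_right (h : Spec U r P) (x : Fin n → K) (i : Fin n) :
    (∑ j, x j • P j) * P i = x i • P i := by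
  rw [Finset.sum_mul, Finset.sum_eq_single i]
  · rw [Matrix.smul_mul, h.idem]
  · intro j _ hj
    rw [Matrix.smul_mul, h.orth j i hj, smul_zero]
  · intro hi
    exact absurd (Finset.mem_univ i) hi

private theorem spec_comm_left (h : Spec U r P) (hr : Function.Injective r)
    (M : Matrix (Fin n) (Fin n) K) (hM : U * M = M * U) (i : Fin n) :
    P i * M = (P i * M).trace • P i := by
  have h1 := spec_expand_left h (fun j => (P j * M).trace) i
  rw [← h.expand hr M hM] at h1
  exact h1

private theorem spec_comm_right (h : Spec U r P) (hr : Function.Injective r)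
    (M : Matrix (Fin n) (Fin n) K) (hM : U * M = M * U) (i : Fin n) :
    M * P i = (P i * M).trace • P i := by
  have h1 := spec_expand_right h (fun j => (P j * M).trace) i
  rw [← h.expand hr M hM] at h1
  exact h1

theorem Spec.commute (h : Spec U r P) (hr : Function.Injective r) (M : Matrix (Fin n) (Fin n) K)
    (hM : U * M = M * U) (i : Fin n) : P i * M = M * P i := by
  rw [spec_comm_left h hr M hM i, spec_comm_right h hr M hM i]

theorem Spec.resolvent (h : Spec U r P) (lam : K) (hlam : ∀ i, lam - r i ≠ 0) :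
    (lam • (1 : Matrix (Fin n) (Fin n) K) - U)⁻¹ = ∑ i, (lam - r i)⁻¹ • P i := by
  apply Matrix.inv_eq_right_inv
  rw [Finset.mul_sum, ← h.sum]
  refine Finset.sum_congr rfl fun i _ => ?_
  rw [Matrix.mul_smul, Matrix.sub_mul, h.left, h.sum, Matrix.smul_mul, Matrix.one_mul, ← sub_smul,
    smul_smul, inv_mul_cancel₀ (hlam i), one_smul]

theorem Spec.adj (h : Spec U r P) (hU : U.charpoly = ∏ i, (X - C (r i)))
    (hr : Function.Injective r) (i : Fin n) :
    (r i • (1 : Matrix (Fin n) (Fin n) K) - U).adjugate =
      (∏ j ∈ Finset.univ.erase i, (r i - r j)) • P i := by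
  set W := (r i • (1 : Matrix (Fin n) (Fin n) K) - U).adjugate with hW
  -- the identity over the polynomial ring
  set Q : Matrix (Fin n) (Fin n) K[X] := (P i).map C with hQ
  have h1 : charmatrix U * Q = (X - C (r i)) • Q := by
    have h2 : (C : K →+* K[X]).mapMatrix U * Q = C (r i) • Q := by
      rw [hQ, RingHom.mapMatrix_apply, ← Matrix.map_mul, h.left]
      ext a b
      simp
    rw [charmatrix, Matrix.sub_mul, h2, sub_smul]
    congr 1
    ext a b
    simp
  have h3 : (X - C (r i)) • ((charmatrix U).adjugate * Q) =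
      (X - C (r i)) • ((∏ j ∈ Finset.univ.erase i, (X - C (r j))) • Q) := by
    calc (X - C (r i)) • ((charmatrix U).adjugate * Q)
        = (charmatrix U).adjugate * (charmatrix U * Q) := by rw [h1, Matrix.mul_smul]
      _ = ((charmatrix U).adjugate * charmatrix U) * Q := by rw [Matrix.mul_assoc]
      _ = (∏ j, (X - C (r j))) • Q := by
          rw [Matrix.adjugate_mul, ← Matrix.charpoly, hU, Matrix.smul_mul, Matrix.one_mul]
      _ = (X - C (r i)) • ((∏ j ∈ Finset.univ.erase i, (X - C (r j))) • Q) := by
          rw [smul_smul, Finset.mul_prod_erase Finset.univ (fun j => X - C (r j))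
            (Finset.mem_univ i)]
  have h4 : (charmatrix U).adjugate * Q = (∏ j ∈ Finset.univ.erase i, (X - C (r j))) • Q := by
    ext1 a b
    have h5 := congrFun (congrFun h3 a) b
    rw [Matrix.smul_apply, Matrix.smul_apply, smul_eq_mul, smul_eq_mul] at h5
    exact mul_left_cancel₀ (Polynomial.X_sub_C_ne_zero (r i)) h5
  have h6 := congrArg (fun M => (Polynomial.evalRingHom (r i)).mapMatrix M) h4
  simp only [map_mul, RingHom.map_adjugate] at h6
  have h7 : (Polynomial.evalRingHom (r i)).mapMatrix (charmatrix U) =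
      r i • (1 : Matrix (Fin n) (Fin n) K) - U := by
    ext a b
    rw [RingHom.mapMatrix_apply, Matrix.map_apply, charmatrix_apply]
    by_cases hab : a = b
    · subst hab
      simp
    · simp [Matrix.diagonal_apply_ne _ hab, Matrix.one_apply_ne hab]
  have h8 : (Polynomial.evalRingHom (r i)).mapMatrix Q = P i := by
    ext a b
    simp [hQ]
  have h9 : (Polynomial.evalRingHom (r i)).mapMatrix
      ((∏ j ∈ Finset.univ.erase i, (X - C (r j))) • Q) =
      (∏ j ∈ Finset.univ.erase i, (r i - r j)) • P i := by
    ext a b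
    simp [hQ, Polynomial.eval_prod]
  rw [h7, h8, h9, ← hW] at h6
  -- `W = W * P i`
  have hdet : (r i • (1 : Matrix (Fin n) (Fin n) K) - U).det = 0 := by
    have h10 := Matrix.eval_charpoly U (r i)
    rw [hU, Polynomial.eval_prod, Finset.prod_eq_zero (Finset.mem_univ i) (by simp)] at h10
    rw [h10]
    congr 2
    ext a b
    simp [Matrix.one_apply, Matrix.diagonal_apply]
  have hWU : W * U = r i • W := by
    have h11 := Matrix.adjugate_mul (r i • (1 : Matrix (Fin n) (Fin n) K) - U)
    rw [hdet, zero_smul, ← hW, Matrix.mul_sub, Matrix.mul_smul, Matrix.mul_one, sub_eq_zero] at h11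
    exact h11.symm
  have hW0 : ∀ j, j ≠ i → W * P j = 0 := by
    intro j hj
    have h12 : r j • (W * P j) = r i • (W * P j) := by
      calc r j • (W * P j) = W * (U * P j) := by rw [h.left, Matrix.mul_smul]
        _ = (W * U) * P j := by rw [Matrix.mul_assoc]
        _ = r i • (W * P j) := by rw [hWU, Matrix.smul_mul]
    have h13 : (r j - r i) • (W * P j) = 0 := by rw [sub_smul, h12, sub_self]
    exact (smul_eq_zero.1 h13).resolve_left (sub_ne_zero.2 fun e => hj (hr e))
  calc W = W * ∑ j, P j := by rw [h.sum, Matrix.mul_one]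
    _ = W * P i := by
        rw [Finset.mul_sum, Finset.sum_eq_single i]
        · intro j _ hj
          exact hW0 j hj
        · intro hi
          exact absurd (Finset.mem_univ i) hi
    _ = _ := h6

theorem Spec.deriv (h : Spec U r P) (hr : Function.Injective r) (d : Der K)
    (S B : Matrix (Fin n) (Fin n) K) (hUS : U * S = S * U)
    (hd : dM d U = S + (S * B - B * S)) (i : Fin n) :
    S * P i = d (r i) • P i ∧ P i * S = d (r i) • P i := by
  have h1 := spec_comm_left h hr S hUS i
  have h2 := spec_comm_right h hr S hUS i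
  set σ := (P i * S).trace with hσ
  -- differentiate `U P_i = r_i P_i`
  have h3 : U * dM d (P i) + dM d U * P i = r i • dM d (P i) + d (r i) • P i := by
    rw [← dM_mul, ← dM_smul, h.left]
  have h4 : P i * dM d U * P i = d (r i) • P i := by
    have h5 := congrArg (fun M => P i * M) h3
    simp only [Matrix.mul_add, Matrix.mul_smul, h.idem] at h5
    rw [← Matrix.mul_assoc, h.right, Matrix.smul_mul, ← Matrix.mul_assoc] at h5
    exact add_left_cancel h5
  have h6 : P i * dM d U * P i = σ • P i := by
    have e1 : P i * dM d U * P i =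
        (P i * S) * P i + ((P i * S) * B * P i - P i * B * (S * P i)) := by
      rw [hd]
      simp only [Matrix.mul_add, Matrix.add_mul, Matrix.mul_sub, Matrix.sub_mul, Matrix.mul_assoc]
    rw [e1, h1, h2]
    simp only [Matrix.smul_mul, Matrix.mul_smul, h.idem, sub_self, add_zero]
  have h7 : σ • P i = d (r i) • P i := by rw [← h6, h4]
  exact ⟨h2.trans h7, h1.trans h7⟩

end Pool.Agent.Helper84.CV
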