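import Pool.Agent.Helper84.CV.PsiB
import Pool.Agent.Helper84.CV.Spec
import Pool.Agent.Helper84.CV.E0

/-!
# CV-E1: ordinary closed points of a disc

Notation: `m = l.length`, `c_i = D.pos l i` for `i ∈ br l` (so `r_i = cen l + s^m c_i`), `s = τ^N`, at the closed point
`w = w₀ + t` of the disc `l`: `λ = cen l + s^m (w₀ + t)` (`psi0` of `lamN`: `psi0_inc`, `jat_X`). For `i ∉ br (w₀ :: l)`,
`λ - r_i` is `-(r_i - cen (w₀ :: l)) + s^m t`, and its lowest coefficient (index `N j`, `j ≤ m` the order of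
`r_i - cen (w₀ :: l)`) is a nonzero constant, plus `t` if `j = m`: so `(λ - r_i)⁻¹` is regular (`Reg.inv`). The
determinant of `λ - U` is `∏ (λ - r_i)` (`det_lam`), and `R = (λ - U)⁻¹ = det⁻¹ • adj(λ - U)`, `adj(λ - U)` regular
(`Reg` is the carrier of a subring; map the adjugate).

Case `br (w₀ :: l)` empty: `g = 0`, `ρ = 1`, everything is regular, `h = psi0 fl`.

Case `br (w₀ :: l) = {i}`: `c_i(0) = w₀` (`i ∈ br l` by `br_cons_subset`). `g = dO (c_i(s)) = dO (ram N (inc (pos l i)))`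
in `GG` (constant coefficients, so `dI ddt g = 0`, `VGE 1` because `dO` kills the coefficient of index `0` and the others
have index `≥ N`), `ρ = w₀ + t - c_i(s)`: `dO ρ = -g`, `dI ddt ρ = 1`, so `dO ρ + g * dI ddt ρ = 0`; `ρ ≠ 0` (coefficient
`0` is `t`). `λ - r_i = s^m ρ`. `ρ R = (s^m)⁻¹ (∏_(j ≠ i) (λ - r_j))⁻¹ adj(λ - U)` is regular. For the next one:
`∂λ := psi0 (dO lamN) + g psi0 (dI rD lamN) = dO λ + g dI ddt λ` (`dO_psi0`, `dI_psi0`) and `λ = r_i + s^m ρ`, so
`∂λ = dO r_i + N m s^m ρ` (`∂ρ = 0`, `dI ddt r_i = 0`). The second term times `R` is `N m s^m (ρ R)`. For the first: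
`(dO r_i - S) adj(r_i - U) = 0` over `GG`: `exists_spec` (`charpoly_UK` over `K = LC`, `D.inj`), `Spec.adj`, `Spec.deriv` with
`d = dO`, `dO_UK`. Reduction modulo the ideal `(λ - r_i)` of the ring of regular elements (`RingHom.map_adjugate`, quotient
map): `adj(λ - U) = adj(r_i - U) + (λ - r_i) H` with `H` regular. So `(dO r_i - S) R = (dO r_i - S) (λ - r_i) H det⁻¹ =
(dO r_i - S) H (∏_(j ≠ i) (λ - r_j))⁻¹` is regular. Last: `psi0 fl = ∏_(j ∈ br l) (w₀ + t - c_j(s))` contains the factor `ρ`.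
-/

set_option autoImplicit false

open Matrix

namespace Pool.Agent.Helper84.CV.LD

section gen

variable {L L' : Type} [Field L] [Field L'] {n : ℕ}

private theorem e1_map_sub (φ : L →+* L') (x : L) (U : Matrix (Fin n) (Fin n) L) :
    (x • (1 : Matrix (Fin n) (Fin n) L) - U).map φ =
      φ x • (1 : Matrix (Fin n) (Fin n) L') - U.map φ := by
  ext a b
  simp only [Matrix.map_apply, Matrix.sub_apply, Matrix.smul_apply, smul_eq_mul, map_mul,
    map_sub, Matrix.one_apply]
  split_ifs <;> simp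

private theorem e1_map_inv (φ : L →+* L') (x : L) (U : Matrix (Fin n) (Fin n) L)
    (h : IsUnit (x • (1 : Matrix (Fin n) (Fin n) L) - U).det) :
    ((x • (1 : Matrix (Fin n) (Fin n) L) - U)⁻¹).map φ =
      (φ x • (1 : Matrix (Fin n) (Fin n) L') - U.map φ)⁻¹ := by
  rw [map_inv_matrix _ _ h, e1_map_sub]

private theorem e1_map_det (φ : L →+* L') (x : L) (U : Matrix (Fin n) (Fin n) L)
    (e : Fin n → L)
    (h : (x • (1 : Matrix (Fin n) (Fin n) L) - U).det = ∏ i, e i) :
    (φ x • (1 : Matrix (Fin n) (Fin n) L') - U.map φ).det = ∏ i, φ (e i) := by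
  rw [← e1_map_sub, ← map_prod, ← h, RingHom.map_det]
  rfl

private theorem e1_inv (x : L) (U : Matrix (Fin n) (Fin n) L) (e : Fin n → L)
    (h : (x • (1 : Matrix (Fin n) (Fin n) L) - U).det = ∏ i, e i) :
    (x • (1 : Matrix (Fin n) (Fin n) L) - U)⁻¹ =
      (∏ i, e i)⁻¹ • (x • (1 : Matrix (Fin n) (Fin n) L) - U).adjugate := by
  rw [Matrix.inv_def, h, Ring.inverse_eq_inv']

private theorem e1_map_prod {ι : Type} (φ : L →+* L') (s : Finset ι) (f : ι → L) :
    φ (∏ i ∈ s, f i) = ∏ i ∈ s, φ (f i) := map_prod φ f s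

/-- reduction modulo `x` -/
private theorem e1_adj_add {A : Type} [CommRing A] (x : A) (M : Matrix (Fin n) (Fin n) A) :
    ∃ H : Matrix (Fin n) (Fin n) A, (x • (1 : Matrix (Fin n) (Fin n) A) + M).adjugate =
      M.adjugate + x • H := by
  classical
  have key : ∀ i j, ∃ c, (x • (1 : Matrix (Fin n) (Fin n) A) + M).adjugate i j -
      M.adjugate i j = x * c := by
    intro i j
    have h1 := RingHom.map_adjugate (Ideal.Quotient.mk (Ideal.span {x}))
      (x • (1 : Matrix (Fin n) (Fin n) A) + M)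
    have h2 := RingHom.map_adjugate (Ideal.Quotient.mk (Ideal.span {x})) M
    have h3 : (Ideal.Quotient.mk (Ideal.span {x})).mapMatrix
        (x • (1 : Matrix (Fin n) (Fin n) A) + M) =
        (Ideal.Quotient.mk (Ideal.span {x})).mapMatrix M := by
      ext a b
      simp only [RingHom.mapMatrix_apply, Matrix.map_apply, Matrix.add_apply, Matrix.smul_apply,
        smul_eq_mul, map_add, map_mul]
      have h4 : Ideal.Quotient.mk (Ideal.span {x}) x = 0 :=
        Ideal.Quotient.eq_zero_iff_mem.2 (Ideal.mem_span_singleton_self x)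
      rw [h4, zero_mul, zero_add]
    rw [h3, ← h2] at h1
    have h5 := congrFun (congrFun h1 i) j
    simp only [RingHom.mapMatrix_apply, Matrix.map_apply] at h5
    rw [Ideal.Quotient.eq, Ideal.mem_span_singleton] at h5
    exact h5
  choose H hH using key
  refine ⟨Matrix.of H, ?_⟩
  ext i j
  rw [Matrix.add_apply, Matrix.smul_apply, smul_eq_mul, Matrix.of_apply, ← hH i j]
  ring

private theorem e1_adj_reg (R : Subring L) (x : L) (M : Matrix (Fin n) (Fin n) L) (hx : x ∈ R)
    (hM : ∀ i j, M i j ∈ R) :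
    ∃ H : Matrix (Fin n) (Fin n) L, (∀ i j, H i j ∈ R) ∧
      (x • (1 : Matrix (Fin n) (Fin n) L) + M).adjugate = M.adjugate + x • H := by
  obtain ⟨M', rfl⟩ : ∃ M' : Matrix (Fin n) (Fin n) R, M'.map R.subtype = M :=
    ⟨Matrix.of fun i j => ⟨M i j, hM i j⟩, rfl⟩
  obtain ⟨H, hH⟩ := e1_adj_add (⟨x, hx⟩ : R) M'
  refine ⟨H.map R.subtype, fun i j => (H i j).2, ?_⟩
  have h1 := RingHom.map_adjugate R.subtype
    ((⟨x, hx⟩ : R) • (1 : Matrix (Fin n) (Fin n) R) + M')
  have h2 := RingHom.map_adjugate R.subtype M'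
  rw [hH] at h1
  simp only [RingHom.mapMatrix_apply] at h1 h2
  have h3 : ((⟨x, hx⟩ : R) • (1 : Matrix (Fin n) (Fin n) R) + M').map
      R.subtype = x • (1 : Matrix (Fin n) (Fin n) L) + M'.map R.subtype := by
    ext a b
    simp only [Matrix.map_apply, Matrix.add_apply, Matrix.smul_apply, smul_eq_mul, map_add,
      map_mul, Matrix.one_apply]
    split_ifs <;> simp
  rw [h3] at h1
  rw [← h1, ← h2]
  ext a b
  simp only [Matrix.map_apply, Matrix.add_apply, Matrix.smul_apply, smul_eq_mul, map_add,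
    map_mul]
  rfl

private theorem e1_zero (a x : L) (S P W : Matrix (Fin n) (Fin n) L) (h : S * P = a • P)
    (hW : W = x • P) : (a • (1 : Matrix (Fin n) (Fin n) L) - S) * W = 0 := by
  rw [hW, Matrix.mul_smul, Matrix.sub_mul, h, Matrix.smul_mul, Matrix.one_mul, sub_self,
    smul_zero]

private theorem e1_split (a b : L) (S R : Matrix (Fin n) (Fin n) L) :
    ((a + b) • (1 : Matrix (Fin n) (Fin n) L) - S) * R =
      (a • (1 : Matrix (Fin n) (Fin n) L) - S) * R + b • R := by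
  rw [add_smul, add_sub_right_comm, Matrix.add_mul, Matrix.smul_mul, Matrix.one_mul]

private theorem e1_fin (a e r p p' : L) (x : L) (U S H : Matrix (Fin n) (Fin n) L)
    (hx : x = e + r) (h0 : (a • (1 : Matrix (Fin n) (Fin n) L) - S) *
      (r • (1 : Matrix (Fin n) (Fin n) L) - U).adjugate = 0)
    (hH : (e • (1 : Matrix (Fin n) (Fin n) L) +
      (r • (1 : Matrix (Fin n) (Fin n) L) - U)).adjugate =
      (r • (1 : Matrix (Fin n) (Fin n) L) - U).adjugate + e • H) (hp : p * e = p')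
    (hinv : (x • (1 : Matrix (Fin n) (Fin n) L) - U)⁻¹ =
      p • (x • (1 : Matrix (Fin n) (Fin n) L) - U).adjugate) :
    (a • (1 : Matrix (Fin n) (Fin n) L) - S) *
      (x • (1 : Matrix (Fin n) (Fin n) L) - U)⁻¹ =
      p' • ((a • (1 : Matrix (Fin n) (Fin n) L) - S) * H) := by
  have h1 : x • (1 : Matrix (Fin n) (Fin n) L) - U = e • (1 : Matrix (Fin n) (Fin n) L) +
      (r • (1 : Matrix (Fin n) (Fin n) L) - U) := by
    rw [hx, add_smul]
    abel
  rw [hinv, h1, hH, Matrix.mul_smul, Matrix.mul_add, h0, zero_add, Matrix.mul_smul, smul_smul,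
    hp]

private theorem e1_adj_mem (R : Subring L) (M : Matrix (Fin n) (Fin n) L)
    (hM : ∀ i j, M i j ∈ R) (i j : Fin n) : M.adjugate i j ∈ R := by
  obtain ⟨M', rfl⟩ : ∃ M' : Matrix (Fin n) (Fin n) R, M'.map R.subtype = M :=
    ⟨Matrix.of fun i j => ⟨M i j, hM i j⟩, rfl⟩
  have h1 := RingHom.map_adjugate R.subtype M'
  simp only [RingHom.mapMatrix_apply] at h1
  rw [← h1]
  exact (M'.adjugate i j).2

end gen

section reg

variable {k : Type} [Field k] {n : ℕ}

/-- the ring of regular elements -/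
private noncomputable def regRing (k : Type) [Field k] :
    Subring (LaurentSeries (LaurentSeries k)) where
  carrier := {z | Reg z}
  mul_mem' := fun h h' => Reg.mul h h'
  one_mem' := Reg_one
  add_mem' := fun h h' => Reg.add h h'
  zero_mem' := Reg_zero
  neg_mem' := fun h => Reg.neg h

variable {M M' : Matrix (Fin n) (Fin n) (LaurentSeries (LaurentSeries k))}
  {x : LaurentSeries (LaurentSeries k)}

private theorem MReg_mul (h : MReg M) (h' : MReg M') : MReg (M * M') := by
  intro i j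
  rw [Matrix.mul_apply]
  exact Reg.sum _ _ fun a _ => (h i a).mul (h' a j)

private theorem MReg_add (h : MReg M) (h' : MReg M') : MReg (M + M') := by
  intro i j
  rw [Matrix.add_apply]
  exact (h i j).add (h' i j)

private theorem MReg_sub (h : MReg M) (h' : MReg M') : MReg (M - M') := by
  intro i j
  rw [Matrix.sub_apply]
  exact (h i j).sub (h' i j)

private theorem MReg_smul (hx : Reg x) (h : MReg M) : MReg (x • M) := by
  intro i j
  rw [Matrix.smul_apply, smul_eq_mul]
  exact hx.mul (h i j)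

private theorem MReg_smul_mul {y : LaurentSeries (LaurentSeries k)} (hx : Reg x)
    (h : MReg (y • M)) : MReg ((x * y) • M) := by
  intro i j
  rw [Matrix.smul_apply, smul_eq_mul, mul_assoc]
  exact hx.mul (h i j)

private theorem MReg_one :
    MReg (1 : Matrix (Fin n) (Fin n) (LaurentSeries (LaurentSeries k))) := by
  intro i j
  rw [Matrix.one_apply]
  split_ifs
  · exact Reg_one
  · exact Reg_zero

private theorem MReg_adj (h : MReg M) : MReg M.adjugate :=
  fun i j => e1_adj_mem (regRing k) M h i j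

private theorem adj_reg (x : LaurentSeries (LaurentSeries k))
    (M : Matrix (Fin n) (Fin n) (LaurentSeries (LaurentSeries k))) (hx : Reg x) (hM : MReg M) :
    ∃ H : Matrix (Fin n) (Fin n) (LaurentSeries (LaurentSeries k)), MReg H ∧
      (x • (1 : Matrix (Fin n) (Fin n) (LaurentSeries (LaurentSeries k))) + M).adjugate =
        M.adjugate + x • H :=
  e1_adj_reg (regRing k) x M hx hM

end reg

section abs

variable {k : Type} [Field k]

/-- the properties of the inclusion of the power series in `s` which we use -/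
private structure AA (φ : ℂ →+* k) (A : PowerSeries ℂ →+* LaurentSeries (LaurentSeries k))
    (N : ℕ) : Prop where
  pos : (0 : ℤ) < (N : ℤ)
  c0 : ∀ z (j : ℕ), (A z).coeff ((N : ℤ) * j) = HahnSeries.C (φ (PowerSeries.coeff j z))
  neg : ∀ z, VGE 0 (A z)
  nd : ∀ z (j : ℤ), ¬ (N : ℤ) ∣ j → (A z).coeff j = 0
  reg : ∀ z, Reg (A z)
  X : ∀ m : ℕ, A (PowerSeries.X ^ m) = mo ((N : ℤ) * (m : ℤ))
  C : ∀ c : ℂ, A (PowerSeries.C c) = HahnSeries.C (HahnSeries.C (φ c))
  dI : ∀ z, dI ddt (A z) = 0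
  inj : Function.Injective A

/-- `w₀ + t` -/
private noncomputable def wt (w₀ : k) : LaurentSeries (LaurentSeries k) :=
  HahnSeries.C (HahnSeries.C w₀ + mo 1)

private theorem Reg_wt (w₀ : k) : Reg (wt w₀) :=
  Reg_C _ ((VGE_C w₀).add ((VGE_mo 1).mono (by norm_num)))

private theorem pos_spec {n : ℕ} (D : LD n) (l : List ℂ) (i : Fin n) (hi : i ∈ D.br l) :
    D.r i = cen l + PowerSeries.X ^ l.length * D.pos l i := by
  rw [mem_br, PowerSeries.X_pow_dvd_iff] at hi
  ext j
  rw [map_add, PowerSeries.coeff_X_pow_mul', pos]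
  split_ifs with h
  · rw [PowerSeries.coeff_mk, Nat.sub_add_cancel h, map_sub]
    ring
  · have h1 := hi j (by omega)
    rw [map_sub, sub_eq_zero] at h1
    rw [h1, add_zero]

variable {φ : ℂ →+* k} {A : PowerSeries ℂ →+* LaurentSeries (LaurentSeries k)} {N : ℕ}
  (hA : AA φ A N) {n : ℕ} (D : LD n) (l : List ℂ)

include hA

/-- `λ` at the closed point -/
private noncomputable def la (_ : AA φ A N) (l : List ℂ) (w₀ : ℂ) :
    LaurentSeries (LaurentSeries k) :=
  A (cen l) + mo ((N : ℤ) * (l.length : ℤ)) * wt (φ w₀)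

/-- `λ - r_i` at the closed point -/
private noncomputable def ee (w₀ : ℂ) (i : Fin n) : LaurentSeries (LaurentSeries k) :=
  la hA l w₀ - A (D.r i)

private theorem Reg_la (w₀ : ℂ) : Reg (la hA l w₀) :=
  (hA.reg _).add ((Reg_mo _).mul (Reg_wt _))

private theorem Reg_ee (w₀ : ℂ) (i : Fin n) : Reg (ee hA D l w₀ i) :=
  (Reg_la hA l w₀).sub (hA.reg _)

private theorem ee_eq (w₀ : ℂ) (i : Fin n) : ee hA D l w₀ i =
    mo ((N : ℤ) * (l.length : ℤ)) * HahnSeries.C (mo 1) -
      A (D.r i - cen (w₀ :: l)) := by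
  rw [ee, la, wt]
  have h1 : A (D.r i - cen (w₀ :: l)) = A (D.r i) -
      (A (cen l) + HahnSeries.C (HahnSeries.C (φ w₀)) *
        mo ((N : ℤ) * (l.length : ℤ))) := by
    rw [cen, map_sub, map_add, map_mul, hA.C, hA.X]
  rw [h1, map_add]
  ring

private theorem inv_ee (w₀ : ℂ) (i : Fin n) (hi : i ∉ D.br (w₀ :: l)) :
    Reg (ee hA D l w₀ i)⁻¹ := by
  classical
  rw [mem_br] at hi
  have hy : D.r i - cen (w₀ :: l) ≠ 0 := by
    intro h
    rw [h] at hi
    exact hi (dvd_zero _)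
  have hee := ee_eq hA D l w₀ i
  have hR := Reg_ee hA D l w₀ i
  generalize ee hA D l w₀ i = e at hee hR ⊢
  generalize D.r i - cen (w₀ :: l) = y at hy hi hee
  obtain ⟨j, hj, hjm, hlow⟩ : ∃ j : ℕ, PowerSeries.coeff j y ≠ 0 ∧ j ≤ l.length ∧
      ∀ q < j, PowerSeries.coeff q y = 0 := by
    have h1 : ∃ j : ℕ, PowerSeries.coeff j y ≠ 0 := by
      by_contra h2
      push Not at h2
      exact hy (PowerSeries.ext fun q => by rw [h2 q]; simp)
    refine ⟨Nat.find h1, Nat.find_spec h1, ?_, fun q hq => ?_⟩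
    · by_contra h3
      apply hi
      rw [PowerSeries.X_pow_dvd_iff]
      intro q hq
      by_contra h4
      have h5 := Nat.find_min' h1 h4
      rw [List.length_cons] at hq
      omega
    · by_contra h4
      exact Nat.find_min h1 hq h4
  have hV1 : VGE ((N : ℤ) * j) (A y) := by
    intro q hq
    rcases lt_or_ge q 0 with hq0 | hq0
    · exact hA.neg y q hq0
    · by_cases hd : (N : ℤ) ∣ q
      · obtain ⟨p, rfl⟩ := hd
        have hp0 : 0 ≤ p := nonneg_of_mul_nonneg_right hq0 hA.pos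
        obtain ⟨p', rfl⟩ := Int.eq_ofNat_of_zero_le hp0
        have h2 : p' < j := by exact_mod_cast lt_of_mul_lt_mul_left hq hA.pos.le
        have h3 := hA.c0 y p'
        rw [hlow p' h2, map_zero, map_zero] at h3
        exact h3
      · exact hA.nd y q hd
  have hV2 : VGE ((N : ℤ) * j) (mo ((N : ℤ) * (l.length : ℤ)) * HahnSeries.C (mo 1) :
      LaurentSeries (LaurentSeries k)) := by
    have h2 := (VGE_mo (K := LaurentSeries k) ((N : ℤ) * (l.length : ℤ))).mul
      (VGE_C (mo 1 : LaurentSeries k))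
    refine h2.mono ?_
    rw [add_zero]
    exact mul_le_mul_of_nonneg_left (by exact_mod_cast hjm) hA.pos.le
  refine Reg.inv (m := (N : ℤ) * j) hR ?_ ?_
  · rw [hee]
    exact hV2.sub hV1
  · rw [hee, HahnSeries.coeff_sub, coeff_mo_mul, hA.c0, HahnSeries.coeff_sub,
      HahnSeries.C_apply, HahnSeries.C_apply, HahnSeries.coeff_single_same]
    have h3 : ((HahnSeries.single 0 (mo 1 : LaurentSeries k) :
        LaurentSeries (LaurentSeries k)).coeff ((N : ℤ) * j - N * l.length)).coeff 0 = 0 := by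
      by_cases h4 : (N : ℤ) * j - N * l.length = 0
      · rw [h4, HahnSeries.coeff_single_same, mo_coeff, if_neg (by norm_num)]
      · rw [HahnSeries.coeff_single_of_ne h4, HahnSeries.coeff_zero]
    rw [h3, zero_sub, neg_ne_zero, map_ne_zero]
    exact hj

variable (U S B : Matrix (Fin n) (Fin n) (LaurentSeries (LaurentSeries k)))

private theorem deriv_adj
    (hU : U.charpoly = ∏ i, (Polynomial.X - Polynomial.C (A (D.r i))))
    (hUS : U * S = S * U) (hd : dM dO U = S + (S * B - B * S)) (i : Fin n) :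
    (dO (A (D.r i)) • (1 : Matrix (Fin n) (Fin n) (LaurentSeries (LaurentSeries k))) - S) *
      (A (D.r i) • (1 : Matrix (Fin n) (Fin n) (LaurentSeries (LaurentSeries k))) - U).adjugate =
      0 := by
  have hinj : Function.Injective (fun i => A (D.r i)) := by
    intro a b hab
    exact D.inj (hA.inj hab)
  obtain ⟨P, hP⟩ := exists_spec hU hinj
  have h1 := hP.adj hU hinj i
  have h2 := (hP.deriv hinj dO S B hUS hd i).1
  exact e1_zero _ _ _ _ _ h2 h1

private theorem abs_main (w₀ : ℂ) (hbr : (D.br (w₀ :: l)).card ≤ 1)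
    (hU : U.charpoly = ∏ i, (Polynomial.X - Polynomial.C (A (D.r i))))
    (hUS : U * S = S * U) (hd : dM dO U = S + (S * B - B * S))
    (hUR : MReg U) (hSR : MReg S)
    (hdet : (la hA l w₀ • (1 : Matrix (Fin n) (Fin n) (LaurentSeries (LaurentSeries k))) -
      U).det = ∏ i, ee hA D l w₀ i) :
    ∃ g ρ : LaurentSeries (LaurentSeries k), VGE 1 g ∧ Reg g ∧ ρ ≠ 0 ∧ Reg ρ ∧
      dO ρ + g * dI ddt ρ = 0 ∧
      MReg (ρ • (la hA l w₀ •
        (1 : Matrix (Fin n) (Fin n) (LaurentSeries (LaurentSeries k))) - U)⁻¹) ∧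
      MReg (((dO (la hA l w₀) + g * mo ((N * l.length : ℕ) : ℤ)) •
        (1 : Matrix (Fin n) (Fin n) (LaurentSeries (LaurentSeries k))) - S) *
        (la hA l w₀ • (1 : Matrix (Fin n) (Fin n) (LaurentSeries (LaurentSeries k))) - U)⁻¹) ∧
      ∃ h : LaurentSeries (LaurentSeries k), Reg h ∧
        ∏ i ∈ D.br l, (wt (φ w₀) - A (D.pos l i)) = ρ * h := by
  classical
  have hMR : MReg (la hA l w₀ •
      (1 : Matrix (Fin n) (Fin n) (LaurentSeries (LaurentSeries k))) - U) :=
    MReg_sub (MReg_smul (Reg_la hA l w₀) MReg_one) hUR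
  have hinv := e1_inv _ _ _ hdet
  rcases Nat.le_one_iff_eq_zero_or_eq_one.1 hbr with hb | hb
  · rw [Finset.card_eq_zero] at hb
    have hR : MReg (la hA l w₀ •
        (1 : Matrix (Fin n) (Fin n) (LaurentSeries (LaurentSeries k))) - U)⁻¹ := by
      rw [hinv]
      refine MReg_smul ?_ (MReg_adj hMR)
      rw [← Finset.prod_inv_distrib]
      refine Reg.prod _ _ fun i _ => inv_ee hA D l w₀ i ?_
      rw [hb]
      exact Finset.notMem_empty i
    refine ⟨0, 1, VGE_zero 1, Reg_zero, one_ne_zero, Reg_one, ?_, ?_, ?_, ?_⟩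
    · rw [Der.map_one', zero_mul, add_zero]
    · rw [one_smul]
      exact hR
    · rw [zero_mul, add_zero]
      exact MReg_mul (MReg_sub (MReg_smul (Reg_la hA l w₀).outer MReg_one) hSR) hR
    · refine ⟨_, ?_, (one_mul _).symm⟩
      exact Reg.prod _ _ fun i _ => (Reg_wt _).sub (hA.reg _)
  · obtain ⟨i, hi⟩ := Finset.card_eq_one.1 hb
    have hil : i ∈ D.br l := by
      apply D.br_cons_subset l w₀
      rw [hi]
      exact Finset.mem_singleton_self i
    have hpos := pos_spec D l i hil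
    have hda := deriv_adj hA D U S B hU hUS hd i
    have hm0 : (mo ((N : ℤ) * (l.length : ℤ)) : LaurentSeries (LaurentSeries k)) ≠ 0 :=
      mo_ne_zero _
    have hri : A (D.r i) = A (cen l) + mo ((N : ℤ) * (l.length : ℤ)) * A (D.pos l i) := by
      rw [hpos, map_add, map_mul, hA.X]
    obtain ⟨c, hc⟩ : ∃ c, c = A (D.pos l i) := ⟨_, rfl⟩
    obtain ⟨ρ, hρ⟩ : ∃ ρ, ρ = wt (φ w₀) - c := ⟨_, rfl⟩
    rw [← hc] at hri
    have hcReg : Reg c := by
      rw [hc]
      exact hA.reg _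
    have hρReg : Reg ρ := by
      rw [hρ]
      exact (Reg_wt _).sub hcReg
    have hlam : la hA l w₀ =
        A (D.r i) + mo ((N : ℤ) * (l.length : ℤ)) * ρ := by
      rw [la, hri, hρ]
      ring
    have hei : ee hA D l w₀ i = mo ((N : ℤ) * (l.length : ℤ)) * ρ := by
      rw [ee, hlam]
      ring
    have hρ0 : ρ ≠ 0 := by
      intro h0
      have h1 : (ρ.coeff 0).coeff 1 = 0 := by
        rw [h0, HahnSeries.coeff_zero, HahnSeries.coeff_zero]
      have h2 : c.coeff 0 = HahnSeries.C (φ (PowerSeries.coeff 0 (D.pos l i))) := by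
        have h3 := hA.c0 (D.pos l i) 0
        rw [Nat.cast_zero, mul_zero, ← hc] at h3
        exact h3
      rw [hρ, HahnSeries.coeff_sub, h2, wt, HahnSeries.C_apply, HahnSeries.coeff_single_same,
        HahnSeries.coeff_sub, HahnSeries.coeff_add,
        mo_coeff, if_pos rfl, HahnSeries.C_apply, HahnSeries.coeff_single_of_ne one_ne_zero,
        HahnSeries.C_apply, HahnSeries.coeff_single_of_ne one_ne_zero, zero_add, sub_zero] at h1
      exact one_ne_zero h1
    have hdOρ : dO ρ = -dO c := by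
      rw [hρ, map_sub, wt, dO_C, zero_sub]
    have hdIρ : dI ddt ρ = 1 := by
      rw [hρ, map_sub, wt, dI_C, hc, hA.dI, sub_zero]
      have h1 : ddt (HahnSeries.C (φ w₀) + mo 1 : LaurentSeries k) = 1 := by
        rw [ddt, Der.sm_apply, map_add, dO_C, dO_mo, zero_add, Int.cast_one, one_mul, mo_mul]
        rfl
      rw [h1, map_one]
    have hReg' : Reg (∏ j ∈ Finset.univ.erase i, ee hA D l w₀ j)⁻¹ := by
      rw [← Finset.prod_inv_distrib]
      refine Reg.prod _ _ fun j hj => inv_ee hA D l w₀ j ?_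
      rw [hi, Finset.mem_singleton]
      exact Finset.ne_of_mem_erase hj
    have hprod : (∏ j, ee hA D l w₀ j)⁻¹ =
        mo (-((N : ℤ) * (l.length : ℤ))) * ρ⁻¹ *
          (∏ j ∈ Finset.univ.erase i, ee hA D l w₀ j)⁻¹ := by
      rw [← Finset.mul_prod_erase Finset.univ _ (Finset.mem_univ i), hei, mul_inv, mul_inv,
        mo_inv]
    have hρR : MReg (ρ • (la hA l w₀ •
        (1 : Matrix (Fin n) (Fin n) (LaurentSeries (LaurentSeries k))) - U)⁻¹) := by
      rw [hinv, smul_smul, hprod]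
      have h1 : ρ * (mo (-((N : ℤ) * (l.length : ℤ))) * ρ⁻¹ *
          (∏ j ∈ Finset.univ.erase i, ee hA D l w₀ j)⁻¹) = mo (-((N : ℤ) * (l.length : ℤ))) *
          (∏ j ∈ Finset.univ.erase i, ee hA D l w₀ j)⁻¹ := by
        have h2 : ρ * ρ⁻¹ = 1 := mul_inv_cancel₀ hρ0
        linear_combination (mo (-((N : ℤ) * (l.length : ℤ))) *
          (∏ j ∈ Finset.univ.erase i, ee hA D l w₀ j)⁻¹) * h2
      rw [h1]
      exact MReg_smul ((Reg_mo _).mul hReg') (MReg_adj hMR)
    refine ⟨dO c, ρ, ?_, hcReg.outer, hρ0, hρReg, ?_, hρR, ?_, ?_⟩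
    · intro q hq
      rw [dO_coeff]
      rcases eq_or_ne q 0 with rfl | hq0
      · rw [Int.cast_zero, zero_mul]
      · have h1 : VGE 0 c := by
          rw [hc]
          exact hA.neg _
        rw [h1 q (by omega), mul_zero]
    · rw [hdOρ, hdIρ, mul_one, neg_add_cancel]
    · have h1 : dO (la hA l w₀) + dO c * mo ((N * l.length : ℕ) : ℤ) =
          dO (A (D.r i)) + (((N * l.length : ℕ) : LaurentSeries (LaurentSeries k)) *
            mo ((N : ℤ) * (l.length : ℤ))) * ρ := by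
        rw [hlam, map_add, Der.leib, hdOρ, dO_mo]
        push_cast
        ring
      have h4 := e1_split (dO (A (D.r i)))
        ((((N * l.length : ℕ) : LaurentSeries (LaurentSeries k)) *
          mo ((N : ℤ) * (l.length : ℤ))) * ρ) S (la hA l w₀ •
            (1 : Matrix (Fin n) (Fin n) (LaurentSeries (LaurentSeries k))) - U)⁻¹
      rw [← h1] at h4
      have h5 : MReg (((((N * l.length : ℕ) : LaurentSeries (LaurentSeries k)) *
          mo ((N : ℤ) * (l.length : ℤ))) * ρ) • (la hA l w₀ •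
            (1 : Matrix (Fin n) (Fin n) (LaurentSeries (LaurentSeries k))) - U)⁻¹) := by
        exact MReg_smul_mul ((Reg_natCast _).mul (Reg_mo _)) hρR
      obtain ⟨H, hH, hadj⟩ := adj_reg (ee hA D l w₀ i)
        (A (D.r i) • (1 : Matrix (Fin n) (Fin n) (LaurentSeries (LaurentSeries k))) - U)
        (Reg_ee hA D l w₀ i) (MReg_sub (MReg_smul (hA.reg _) MReg_one) hUR)
      have h2 : (∏ j, ee hA D l w₀ j)⁻¹ * ee hA D l w₀ i =
          (∏ j ∈ Finset.univ.erase i, ee hA D l w₀ j)⁻¹ := by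
        have h3 : ee hA D l w₀ i ≠ 0 := by
          rw [hei]
          exact mul_ne_zero hm0 hρ0
        rw [← Finset.mul_prod_erase Finset.univ _ (Finset.mem_univ i), mul_inv,
          mul_comm (ee hA D l w₀ i)⁻¹, mul_assoc, inv_mul_cancel₀ h3, mul_one]
      have hx : la hA l w₀ = ee hA D l w₀ i + A (D.r i) := by
        rw [ee]
        ring
      have h6 := e1_fin _ _ _ _ _ _ U S H hx hda hadj h2 hinv
      have h7 : MReg ((dO (A (D.r i)) •
          (1 : Matrix (Fin n) (Fin n) (LaurentSeries (LaurentSeries k))) - S) * (la hA l w₀ •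
            (1 : Matrix (Fin n) (Fin n) (LaurentSeries (LaurentSeries k))) - U)⁻¹) := by
        rw [h6]
        exact MReg_smul hReg' (MReg_mul (MReg_sub (MReg_smul (hA.reg _).outer MReg_one)
          hSR) hH)
      exact h4 ▸ MReg_add h7 h5
    · refine ⟨∏ j ∈ (D.br l).erase i, (wt (φ w₀) - A (D.pos l j)), ?_, ?_⟩
      · exact Reg.prod _ _ fun j _ => (Reg_wt _).sub (hA.reg _)
      · rw [← Finset.mul_prod_erase (D.br l) _ hil, hρ, hc]

end abs

variable {n : ℕ} (D : LD n) (N : ℕ) [NeZero N] (l : List ℂ)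

private theorem algMap_eq (a : ℂ) : algebraMap ℂ LC a = HahnSeries.C a := by
  show HahnSeries.ofPowerSeries ℤ ℂ (algebraMap ℂ (PowerSeries ℂ) a) = HahnSeries.C a
  rw [← HahnSeries.ofPowerSeries_C]
  rfl

/-- the inclusion of the power series in `s = τ^N` -/
private noncomputable def Ai (N : ℕ) [NeZero N] : PowerSeries ℂ →+* GG :=
  (ram N).comp inc

private theorem Ai_spec : AA (k := ℂ) (RingHom.id ℂ) (Ai N) N where
  pos := by exact_mod_cast Nat.pos_of_ne_zero (NeZero.ne N)
  c0 := by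
    intro z j
    exact ((ram_coeff_mul N (inc z : GG) j).trans (inc_coeff_nat z j)).trans (algMap_eq _)
  neg := by
    intro z
    have h2 := (VGE_inc (K := LC) z).ramif N
    rw [mul_zero] at h2
    exact h2
  nd := by
    intro z j hj
    exact ram_coeff_of_not_dvd N _ j hj
  reg := fun z => Reg_inc N z
  X := by
    intro m
    exact (congrArg (ram N) (inc_X_pow (K := LC) m)).trans (ram_mo N _)
  C := by
    intro c
    exact ((congrArg (ram N) (inc_C (K := LC) c)).trans (ram_C N _)).trans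
      (congrArg HahnSeries.C (algMap_eq c))
  dI := by
    intro z
    exact ((dI_ram N ddt (inc z : GG)).trans
      (congrArg (ram N) (dI_inc ddt ddt_algebraMap z))).trans (map_zero _)
  inj := by
    intro a b hab
    exact inc_injective ((ram N : GG →+* GG).injective hab)

private theorem UK_psi (w₀ : ℂ) : (D.UK N (RatFunc ℂ)).map (psi0 w₀) = D.UK N LC := by
  refine Matrix.ext fun i j => ?_
  exact psi0_inc w₀ N (D.U i j)

private theorem SK_psi (w₀ : ℂ) : (D.SK N (RatFunc ℂ)).map (psi0 w₀) = D.SK N LC := by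
  refine Matrix.ext fun i j => ?_
  exact (map_mul (psi0 w₀) _ _).trans (congrArg₂ (fun a b : GG => a * b)
    (map_natCast (psi0 w₀) N) (psi0_inc w₀ N (D.S i j)))

private theorem psi_wt (w₀ : ℂ) :
    psi0 w₀ (HahnSeries.C (RatFunc.X : RatFunc ℂ)) = wt (RingHom.id ℂ w₀) :=
  (tw_C (jat w₀ 1) 1 _).trans (congrArg HahnSeries.C (jat_X w₀ 1))

private theorem psi_lamN (w₀ : ℂ) : psi0 w₀ (lamN N l) = la (Ai_spec N) l w₀ := by
  have h1 : lamN N l = ram N (inc (cen l)) +
      mo ((N : ℤ) * (l.length : ℤ)) * HahnSeries.C (RatFunc.X : RatFunc ℂ) := by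
    rw [lamN, lam, map_add, single_eq, map_mul, ram_C, ram_mo, mul_comm]
  rw [h1, map_add, map_mul]
  exact congrArg₂ (fun a b : GG => a + b) (psi0_inc w₀ N (cen l))
    (congrArg₂ (fun a b : GG => a * b) (psi0_mo w₀ _) (psi_wt w₀))

private theorem psi_fl (w₀ : ℂ) : psi0 w₀ (D.fl N l) =
    ∏ i ∈ D.br l, (wt (RingHom.id ℂ w₀) - Ai N (D.pos l i)) := by
  rw [fl]
  refine (e1_map_prod (L := FF) (L' := GG) (psi0 w₀) _ _).trans
    (Finset.prod_congr rfl fun i _ => ?_)
  exact (map_sub (psi0 w₀) _ _).trans (congrArg₂ (fun a b : GG => a - b)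
    (psi_wt w₀) (psi0_inc w₀ N (D.pos l i)))

private theorem det_psi (w₀ : ℂ) :
    (la (Ai_spec N) l w₀ • (1 : Matrix (Fin n) (Fin n) GG) - D.UK N LC).det =
      ∏ i, ee (Ai_spec N) D l w₀ i := by
  have h1 := e1_map_det (L := FF) (L' := GG) (psi0 w₀) (lamN N l) (D.UK N (RatFunc ℂ)) _ (D.det_lam N l)
  rw [UK_psi, psi_lamN] at h1
  refine h1.trans (Finset.prod_congr rfl fun i _ => ?_)
  exact (map_sub (psi0 w₀) _ _).trans (congrArg₂ (fun a b : GG => a - b)
    (psi_lamN N l w₀) (psi0_inc w₀ N (D.r i)))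

private theorem RN_psi (w₀ : ℂ) : (D.RN N l).map (psi0 w₀) =
    (la (Ai_spec N) l w₀ • (1 : Matrix (Fin n) (Fin n) GG) - D.UK N LC)⁻¹ := by
  have h1 := e1_map_inv (L := FF) (L' := GG) (psi0 w₀) (lamN N l) (D.UK N (RatFunc ℂ)) (D.det_ne N l)
  rw [UK_psi, psi_lamN] at h1
  exact h1

theorem ordinary_point (w₀ : ℂ) (hbr : (D.br (w₀ :: l)).card ≤ 1) :
    ∃ g ρ : GG, VGE 1 g ∧ Reg g ∧ ρ ≠ 0 ∧ Reg ρ ∧ dO ρ + g * dI ddt ρ = 0 ∧
      MReg (ρ • (D.RN N l).map (psi0 w₀)) ∧
      MReg (((psi0 w₀ (dO (lamN N l)) + g * psi0 w₀ (dI rD (lamN N l))) •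
        (1 : Matrix (Fin n) (Fin n) GG) - (D.SK N (RatFunc ℂ)).map (psi0 w₀)) *
        (D.RN N l).map (psi0 w₀)) ∧
      ∃ h : GG, Reg h ∧ psi0 w₀ (D.fl N l) = ρ * h := by
  obtain ⟨g, ρ, h1, h2, h3, h4, h5, h6, h7, h8⟩ := abs_main (Ai_spec N) D l (D.UK N LC)
    (D.SK N LC) (D.BK LC) w₀ hbr (D.charpoly_UK N LC) (D.comm_K N LC) (D.dO_UK N LC)
    (fun i j => Reg_inc N (D.U i j)) (fun i j => (Reg_natCast N).mul (Reg_inc N (D.S i j)))
    (D.det_psi N l w₀)
  refine ⟨g, ρ, h1, h2, h3, h4, h5, ?_, ?_, ?_⟩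
  · rw [RN_psi]
    exact h6
  · rw [RN_psi, SK_psi, dI_lamN, psi0_mo, ← dO_psi0, psi_lamN]
    exact h7
  · rw [psi_fl]
    exact h8

end Pool.Agent.Helper84.CV.LD
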