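import Pool.Agent.Helper84.CV.B1m

/-!
# CV-RatReg: poles of rational functions and their expansions

Notation: `jat w₀ N g` is the expansion of `g ∈ ℂ(w)` at `w = w₀ + t^N`, `jinf N g` the expansion at `w = t^(-N)`.

Everything is checked on numerator and denominator and on coefficients (`evL_single_coeff`).
-/

set_option autoImplicit false

namespace Pool.Agent.Helper84.CV

private theorem npos' (N : ℕ) [NeZero N] : (0 : ℤ) < (N : ℤ) := by
  exact_mod_cast Nat.pos_of_ne_zero (NeZero.ne N)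

private theorem evL_sum (ω : LaurentSeries ℂ) (p : Polynomial ℂ) :
    evL ω p = ∑ i ∈ Finset.range (p.natDegree + 1), HahnSeries.C (p.coeff i) * ω ^ i := by
  rw [evL, Polynomial.coe_eval₂RingHom, Polynomial.eval₂_eq_sum_range]

private theorem evL_VGE {ω : LaurentSeries ℂ} (hω : VGE 0 ω) (p : Polynomial ℂ) :
    VGE 0 (evL ω p) := by
  rw [evL_sum]
  refine VGE.sum _ _ fun i _ => ?_
  exact ((VGE_C _).mul (hω.pow i)).mono (by simp)

private theorem evL_comp (w₀ : ℂ) (m : ℤ) (p : Polynomial ℂ) :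
    evL (HahnSeries.C w₀ + mo m) p = evL (mo m) (p.comp (Polynomial.X + Polynomial.C w₀)) := by
  rw [evL, evL, Polynomial.coe_eval₂RingHom, Polynomial.coe_eval₂RingHom, Polynomial.eval₂_comp]
  simp [add_comm]

theorem jat_poly_VGE (w₀ : ℂ) (N : ℕ) [NeZero N] (p : Polynomial ℂ) :
    VGE 0 (jat w₀ N (algebraMap (Polynomial ℂ) (RatFunc ℂ) p)) ∧
      (jat w₀ N (algebraMap (Polynomial ℂ) (RatFunc ℂ) p)).coeff 0 = p.eval w₀ := by
  rw [jat_poly]
  constructor
  · exact evL_VGE ((VGE_C w₀).add ((VGE_mo (N : ℤ)).mono (npos' N).le)) p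
  · rw [evL_comp]
    have h := evL_single_coeff (N : ℤ) (npos' N).ne' (p.comp (Polynomial.X + Polynomial.C w₀)) 0
    rw [Nat.cast_zero, mul_zero] at h
    rw [h, Polynomial.coeff_zero_eq_eval_zero, Polynomial.eval_comp]
    simp

private theorem num_eq (j : RatFunc ℂ →+* LaurentSeries ℂ) (g : RatFunc ℂ) :
    j (algebraMap (Polynomial ℂ) (RatFunc ℂ) g.num) =
      j g * j (algebraMap (Polynomial ℂ) (RatFunc ℂ) g.denom) := by
  rw [← map_mul]
  congr 1
  have h : algebraMap (Polynomial ℂ) (RatFunc ℂ) g.denom ≠ 0 :=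
    (map_ne_zero_iff _ (IsFractionRing.injective (Polynomial ℂ) (RatFunc ℂ))).2 g.denom_ne_zero
  have h2 := RatFunc.num_div_denom g
  rw [div_eq_iff h] at h2
  exact h2

theorem regAt_of_jat (w₀ : ℂ) (N : ℕ) [NeZero N] (g : RatFunc ℂ) (h : VGE 0 (jat w₀ N g)) :
    RegAt w₀ g := by
  intro h0
  have h1 := jat_poly_VGE w₀ N g.denom
  have h2 := jat_poly_VGE w₀ N g.num
  have h3 := coeff_mul_low h h1.1
  rw [← num_eq, add_zero, h1.2, h2.2, h0, mul_zero] at h3
  obtain ⟨a, b, hab⟩ := RatFunc.isCoprime_num_denom g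
  have h4 := congrArg (Polynomial.eval w₀) hab
  rw [Polynomial.eval_add, Polynomial.eval_mul, Polynomial.eval_mul, h3, h0, Polynomial.eval_one,
    mul_zero, mul_zero, add_zero] at h4
  exact zero_ne_one h4

theorem jat_of_regAt (w₀ : ℂ) (N : ℕ) [NeZero N] (g : RatFunc ℂ) (h : RegAt w₀ g) :
    VGE 0 (jat w₀ N g) := by
  have h1 := jat_poly_VGE w₀ N g.denom
  have h2 := jat_poly_VGE w₀ N g.num
  have h3 : (jat w₀ N (algebraMap (Polynomial ℂ) (RatFunc ℂ) g.denom)).coeff 0 ≠ 0 := by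
    rw [h1.2]
    exact h
  have h4 := VGE_inv h1.1 h3
  have h5 : jat w₀ N (algebraMap (Polynomial ℂ) (RatFunc ℂ) g.denom) ≠ 0 := by
    intro h6
    rw [h6] at h3
    exact h3 rfl
  have h6 : jat w₀ N g = jat w₀ N (algebraMap (Polynomial ℂ) (RatFunc ℂ) g.num) *
      (jat w₀ N (algebraMap (Polynomial ℂ) (RatFunc ℂ) g.denom))⁻¹ := by
    rw [num_eq, mul_assoc, mul_inv_cancel₀ h5, mul_one]
  rw [h6]
  exact (h2.1.mul h4).mono (by simp)

theorem poly_of_regAt (g : RatFunc ℂ) (h : ∀ w₀, RegAt w₀ g) :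
    ∃ p : Polynomial ℂ, g = algebraMap (Polynomial ℂ) (RatFunc ℂ) p := by
  have h1 : g.denom = 1 := by
    have hm := RatFunc.monic_denom g
    by_contra h2
    have h3 : g.denom.degree ≠ 0 := by
      intro h4
      exact h2 ((Polynomial.Monic.degree_le_zero_iff_eq_one hm).1 h4.le)
    obtain ⟨x, hx⟩ := IsAlgClosed.exists_root g.denom h3
    exact h x hx
  refine ⟨g.num, ?_⟩
  have h2 := RatFunc.num_div_denom g
  rw [h1, map_one, div_one] at h2
  exact h2.symm

theorem regAt_poly (w₀ : ℂ) (p : Polynomial ℂ) :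
    RegAt w₀ (algebraMap (Polynomial ℂ) (RatFunc ℂ) p) := by
  exact regAt_of_jat w₀ 1 _ (jat_poly_VGE w₀ 1 p).1

/-- a polynomial has poles only at infinity: its expansion at `w = t^(-N)` has no positive exponents -/
theorem jinf_poly_coeff (N : ℕ) [NeZero N] (p : Polynomial ℂ) (i : ℤ) (hi : 0 < i) :
    (jinf N (algebraMap (Polynomial ℂ) (RatFunc ℂ) p)).coeff i = 0 := by
  rw [jinf_poly, evL_sum, HahnSeries.coeff_sum]
  refine Finset.sum_eq_zero fun k _ => ?_
  rw [coeff_C_mul, mo_pow, mo_coeff, if_neg, mul_zero]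
  have h1 := npos' N
  have h2 : (0 : ℤ) ≤ (k : ℤ) * (N : ℤ) := by positivity
  intro h3
  rw [h3] at hi
  have h4 : (k : ℤ) * -(N : ℤ) = -((k : ℤ) * N) := by ring
  omega

theorem degree_of_jinf (N : ℕ) [NeZero N] (p : Polynomial ℂ) (m : ℕ)
    (h : VGE (-((N * m : ℕ) : ℤ)) (jinf N (algebraMap (Polynomial ℂ) (RatFunc ℂ) p))) :
    p.natDegree ≤ m := by
  by_contra h1
  have h1' : m < p.natDegree := not_le.1 h1
  have hp : p ≠ 0 := by
    rintro rfl
    rw [Polynomial.natDegree_zero] at h1'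
    omega
  have hN := npos' N
  have h2 := evL_single_coeff (-(N : ℤ)) (neg_ne_zero.2 hN.ne') p p.natDegree
  rw [← jinf_poly, h _ ?_] at h2
  · exact hp (Polynomial.leadingCoeff_eq_zero.1 h2.symm)
  · push_cast
    have h3 : (m : ℤ) < (p.natDegree : ℤ) := by exact_mod_cast h1'
    nlinarith

theorem zero_of_inf (N : ℕ) [NeZero N] (g : RatFunc ℂ) (h : ∀ w₀, RegAt w₀ g)
    (hinf : VGE 1 (jinf N g)) : g = 0 := by
  obtain ⟨p, rfl⟩ := poly_of_regAt g h
  have hN := npos' N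
  have h1 : p = 0 := by
    ext i
    have h2 := evL_single_coeff (-(N : ℤ)) (neg_ne_zero.2 hN.ne') p i
    rw [← jinf_poly, hinf _ ?_] at h2
    · rw [← h2, Polynomial.coeff_zero]
    · have h3 : (0 : ℤ) ≤ (N : ℤ) * (i : ℤ) := by positivity
      have h4 : -(N : ℤ) * (i : ℤ) = -((N : ℤ) * i) := by ring
      omega
  rw [h1, map_zero]

end Pool.Agent.Helper84.CV
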