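import Pool.Agent.Helper84.CV.PsiB
import Pool.Agent.Helper84.CV.E0
import Pool.Agent.Helper84.CV.RatReg

/-!
# CV-E2: nodes between a disc and its child

Notation: disc `l` (side a, `psiX w₀ N`: `w = w₀ + u^N`, `τ = u v`, outer variable `v`), child `w₀ :: l` (side b,
`psiY N`: `w = v^(-N)`, `τ = u v`, outer variable `u`); `s = τ^N = u^N v^N`, `m = l.length`.
`rel_lam`: `λ = cen l + s^m (w₀ + u^N)` on side a and `λ = cen l + w₀ s^m + s^(m+1) v^(-N)` on side b: `Rel_inc`, `psiX_mo`,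
`psiY_mo`, `Rel_monomial`, `Rel.mul`, `Rel.add`. `rel_diff`: `λ - r_i` is a monomial times a unit of `ℂ[[u, v]]`:
if `i ∉ br l`: `r_i - cen l = s^j (c + …)` with `j < m`, `c ≠ 0`, and `λ - r_i = -s^j (c + …)`; if `i ∈ br l`, not in
`br (w₀ :: l)`: `λ - r_i = s^m (w₀ - c_i(0) + …)`, `c_i = pos l i`, `c_i(0) ≠ w₀`; if `i ∈ br (w₀ :: l)`:
`λ - r_i = s^m u^N (1 - v^N c'_i(s))`, `c'_i = pos (w₀ :: l) i`. Use `Rel.inv_mono`, `Rel.inv`, `Rel.mul`.
`rel_RN`: `R = det⁻¹ • adj`, `det = ∏ (λ - r_i)` (`det_lam`), the adjugate: `Matrix.adjugate_apply`, `Matrix.det_apply`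
and `Rel.sum`, `Rel.prod`, or work in the subring of `GG × GG` of the related pairs and map the adjugate.
`node_conn_down`: `A1 = (dO λ - S) R B`; on side a `psiX (dO λ) = dO (psiX λ)` (`dO_psiX`), related to `dI dO (psiY λ)`
(`Rel.outer`) `= κ psiY (dI rD λ) + psiY (dO λ)` (`dI_psiY`). `node_conn_up`: the same with `dI_psiX`, `Rel.inner`,
`dO_psiY`. (Unfold `A1`, `A2`, `cn`; the `S` and `B` terms are related by `Rel_inc`.)
`fl_node`: `h = s^c ∏ (w₀ + s w - c_i(s))`, `c = card (br (w₀ :: l))`, product over `i ∈ br l ∖ br (w₀ :: l)`: for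
`i ∈ br (w₀ :: l)`, `w_a - c_i = u^N - s c'_i` is related to `s (w_b - c'_i)`. `node_regAt`: the coefficient of `v^j` of
`psiX z` is `u^j jat (z.coeff j)`, the coefficient of `u^i` of `psiY z'` is `v^i jinf (z'.coeff i)` which has no exponents
`> i` (`jinf_poly_coeff`); so the exponents `(i, j)` of `(u, v)` satisfy `j ≤ i`, and `VGE 0 (jat w₀ N (z.coeff j))`.
`PolC.mul`: coefficients of a product are finite sums (`coeff_mul_Icc`, `exists_VGE`).
-/

set_option autoImplicit false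

open Matrix

namespace Pool.Agent.Helper84.CV

/-- all coefficients are polynomials in `w` -/
def PolC (z : FF) : Prop := ∀ j, ∃ p : Polynomial ℂ, z.coeff j = algebraMap _ _ p

theorem PolC.add {z z' : FF} (h : PolC z) (h' : PolC z') : PolC (z + z') := by
  intro j
  obtain ⟨p, hp⟩ := h j
  obtain ⟨q, hq⟩ := h' j
  exact ⟨p + q, by rw [HahnSeries.coeff_add, hp, hq, map_add]⟩

private theorem sum_pol {α : Type} (s : Finset α) (f : α → RatFunc ℂ)
    (h : ∀ i ∈ s, ∃ p : Polynomial ℂ, f i = algebraMap _ _ p) :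
    ∃ p : Polynomial ℂ, ∑ i ∈ s, f i = algebraMap _ _ p := by
  classical
  induction s using Finset.induction_on with
  | empty => exact ⟨0, by rw [Finset.sum_empty, map_zero]⟩
  | insert a s ha ih =>
    obtain ⟨p, hp⟩ := h a (Finset.mem_insert_self _ _)
    obtain ⟨q, hq⟩ := ih fun i hi => h i (Finset.mem_insert_of_mem hi)
    exact ⟨p + q, by rw [Finset.sum_insert ha, hp, hq, map_add]⟩

theorem PolC.mul {z z' : FF} (h : PolC z) (h' : PolC z') : PolC (z * z') := by
  obtain ⟨a, ha⟩ := exists_VGE z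
  obtain ⟨b, hb⟩ := exists_VGE z'
  intro j
  rw [coeff_mul_Icc ha hb]
  apply sum_pol
  intro i _
  obtain ⟨p, hp⟩ := h i
  obtain ⟨q, hq⟩ := h' (j - i)
  exact ⟨p * q, by rw [hp, hq, map_mul]⟩

theorem PolC_of_regAt {z : FF} (h : ∀ w₀ j, RegAt w₀ (z.coeff j)) : PolC z :=
  fun j => poly_of_regAt _ fun w₀ => h w₀ j

private theorem PolC.neg' {z : FF} (h : PolC z) : PolC (-z) := by
  intro j
  obtain ⟨p, hp⟩ := h j
  exact ⟨-p, by rw [HahnSeries.coeff_neg, hp, map_neg]⟩

private theorem PolC.sub' {z z' : FF} (h : PolC z) (h' : PolC z') : PolC (z - z') := by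
  rw [sub_eq_add_neg]
  exact h.add h'.neg'

private theorem PolC_mo (m : ℤ) : PolC (mo m) := by
  intro j
  rw [mo_coeff]
  split_ifs
  · exact ⟨1, by rw [map_one]⟩
  · exact ⟨0, by rw [map_zero]⟩

private theorem PolC_one : PolC 1 := by
  rw [← mo_zero]
  exact PolC_mo 0

private theorem PolC.prod' {α : Type} (s : Finset α) (f : α → FF) (h : ∀ i ∈ s, PolC (f i)) :
    PolC (∏ i ∈ s, f i) := by
  classical
  induction s using Finset.induction_on with
  | empty =>
    rw [Finset.prod_empty]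
    exact PolC_one
  | insert a s ha ih =>
    rw [Finset.prod_insert ha]
    exact (h a (Finset.mem_insert_self _ _)).mul
      (ih fun i hi => h i (Finset.mem_insert_of_mem hi))

private theorem PolC_C (p : Polynomial ℂ) :
    PolC (HahnSeries.C (algebraMap (Polynomial ℂ) (RatFunc ℂ) p)) := by
  intro j
  rw [HahnSeries.C_apply, HahnSeries.coeff_single]
  split_ifs
  · exact ⟨p, rfl⟩
  · exact ⟨0, by rw [map_zero]⟩

private theorem PolC_X : PolC (HahnSeries.C (RatFunc.X : RatFunc ℂ)) := by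
  have h := PolC_C Polynomial.X
  rwa [RatFunc.algebraMap_X] at h

private theorem algMap_C (a : ℂ) : algebraMap ℂ (RatFunc ℂ) a =
    algebraMap (Polynomial ℂ) (RatFunc ℂ) (Polynomial.C a) :=
  IsScalarTower.algebraMap_apply ℂ (Polynomial ℂ) (RatFunc ℂ) a

private theorem PolC_const (a : ℂ) : PolC (HahnSeries.C (algebraMap ℂ (RatFunc ℂ) a)) := by
  rw [algMap_C]
  exact PolC_C _

private theorem PolC_inc (N : ℕ) [NeZero N] (z : PowerSeries ℂ) : PolC (ram N (inc z)) := by
  intro j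
  by_cases hd : (N : ℤ) ∣ j
  · obtain ⟨t, rfl⟩ := hd
    rw [ram_coeff_mul]
    by_cases ht : t < 0
    · rw [inc_coeff_neg z t ht]
      exact ⟨0, by rw [map_zero]⟩
    · obtain ⟨k, hk⟩ := Int.eq_ofNat_of_zero_le (not_lt.1 ht)
      rw [hk, inc_coeff_nat, algMap_C]
      exact ⟨_, rfl⟩
  · rw [ram_coeff_of_not_dvd N _ j hd]
    exact ⟨0, by rw [map_zero]⟩

theorem node_regAt (w₀ : ℂ) (N : ℕ) [NeZero N] (z z' : FF)
    (h : Rel (psiX w₀ N z) (psiY N z')) (h' : PolC z') (j : ℤ) : RegAt w₀ (z.coeff j) := by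
  apply regAt_of_jat w₀ N
  intro i hi
  have h1 := h (i + j) j
  rw [psiX_coeff, psiY_coeff, coeff_mo_mul, coeff_mo_mul] at h1
  obtain ⟨p, hp⟩ := h' (i + j)
  rw [hp, jinf_poly_coeff N p _ (by omega)] at h1
  rwa [add_sub_cancel_right] at h1

private theorem psiX_C (w₀ : ℂ) (N : ℕ) [NeZero N] (c : RatFunc ℂ) :
    psiX w₀ N (HahnSeries.C c) = HahnSeries.C (jat w₀ N c) := tw_C _ _ _

private theorem psiY_C (N : ℕ) [NeZero N] (c : RatFunc ℂ) :
    psiY N (HahnSeries.C c) = HahnSeries.C (jinf N c) := tw_C _ _ _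

private theorem ram_cX (N : ℕ) [NeZero N] (w₀ : ℂ) (m : ℕ) :
    (ram N (inc (PowerSeries.C w₀ * PowerSeries.X ^ m)) : FF) =
      HahnSeries.C (algebraMap ℂ (RatFunc ℂ) w₀) * mo (N * m) := by
  rw [map_mul, inc_C, inc_X_pow, map_mul, ram_C, ram_mo]

private theorem lamN_eq (N : ℕ) [NeZero N] (l : List ℂ) : LD.lamN N l =
    ram N (inc (cen l)) + HahnSeries.C (RatFunc.X : RatFunc ℂ) * mo (N * l.length) := by
  unfold LD.lamN lam
  rw [map_add, single_eq, map_mul, ram_C, ram_mo]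

private theorem C_single (c : LC) (m : ℤ) :
    (HahnSeries.C c : GG) * HahnSeries.single m (mo m) = HahnSeries.single m (c * mo m) := by
  rw [HahnSeries.C_apply, HahnSeries.single_mul_single, zero_add]

private theorem cen_cons (w₀ : ℂ) (l : List ℂ) :
    cen (w₀ :: l) = cen l + PowerSeries.C w₀ * PowerSeries.X ^ l.length := rfl

private theorem psiX_lam (w₀ : ℂ) (N : ℕ) [NeZero N] (l : List ℂ) : psiX w₀ N (LD.lamN N l) =
    psiX w₀ N (ram N (inc (cen (w₀ :: l)))) +
      HahnSeries.single ((N : ℤ) * l.length) (HahnSeries.single ((N : ℤ) * (l.length + 1)) 1) := by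
  rw [lamN_eq, cen_cons, map_add, map_add inc, map_add (ram N), map_add (psiX w₀ N), ram_cX,
    map_mul, map_mul, psiX_C, psiX_C, psiX_mo, jat_X, jat_const, C_single, C_single, add_mul,
    mo_mul, add_assoc, HahnSeries.single_add]
  congr 3
  unfold mo
  congr 1
  ring_nf

private theorem psiY_lam (w₀ : ℂ) (N : ℕ) [NeZero N] (l : List ℂ) : psiY N (LD.lamN N (w₀ :: l)) =
    psiY N (ram N (inc (cen (w₀ :: l)))) +
      HahnSeries.single ((N : ℤ) * (l.length + 1)) (HahnSeries.single ((N : ℤ) * l.length) 1) := by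
  rw [lamN_eq, map_add, map_mul, psiY_C, psiY_mo, jinf_X, C_single, mo_mul]
  congr 1
  unfold mo
  have e : ((w₀ :: l).length : ℤ) = l.length + 1 := by
    rw [List.length_cons]
    push_cast
    ring
  rw [e]
  congr 2
  ring_nf

/-- the coefficients of a series in `s = (u v)^N` -/
private theorem dcoeff (w₀ : ℂ) (N : ℕ) [NeZero N] (z : PowerSeries ℂ) (q p : ℤ)
    (h : ((psiX w₀ N (ram N (inc z))).coeff q).coeff p ≠ 0) :
    ∃ k : ℕ, q = N * k ∧ p = N * k ∧ PowerSeries.coeff k z ≠ 0 := by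
  rw [psiX_coeff] at h
  by_cases hd : (N : ℤ) ∣ q
  · obtain ⟨t, rfl⟩ := hd
    rw [ram_coeff_mul] at h
    by_cases ht : t < 0
    · rw [inc_coeff_neg z t ht, map_zero, mul_zero, HahnSeries.coeff_zero] at h
      exact absurd rfl h
    · obtain ⟨k, hk⟩ := Int.eq_ofNat_of_zero_le (not_lt.1 ht)
      subst hk
      rw [inc_coeff_nat, jat_const, coeff_mo_mul, HahnSeries.C_apply, HahnSeries.coeff_single] at h
      by_cases hp : p - N * (k : ℤ) = 0
      · rw [if_pos hp] at h
        exact ⟨k, rfl, by linarith, h⟩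
      · rw [if_neg hp] at h
        exact absurd rfl h
  · rw [ram_coeff_of_not_dvd N _ q hd, map_zero, mul_zero, HahnSeries.coeff_zero] at h
    exact absurd rfl h

private theorem dcoeff_diag (w₀ : ℂ) (N : ℕ) [NeZero N] (z : PowerSeries ℂ) (k : ℕ) :
    ((psiX w₀ N (ram N (inc z))).coeff ((N : ℤ) * k)).coeff ((N : ℤ) * k) =
      PowerSeries.coeff k z := by
  rw [psiX_coeff, ram_coeff_mul, inc_coeff_nat, jat_const, coeff_mo_mul, HahnSeries.C_apply,
    sub_self, HahnSeries.coeff_single_same]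

private theorem mono_coeff' (i j i' j' : ℤ) :
    (((HahnSeries.single j (HahnSeries.single i 1) : GG)).coeff j').coeff i' =
      if j' = j ∧ i' = i then 1 else 0 := by
  by_cases h : j' = j
  · subst h
    rw [HahnSeries.coeff_single_same]
    by_cases h' : i' = i
    · subst h'
      rw [HahnSeries.coeff_single_same, if_pos ⟨rfl, rfl⟩]
    · rw [HahnSeries.coeff_single_of_ne h', if_neg fun h2 => h' h2.2]
  · rw [HahnSeries.coeff_single_of_ne h, HahnSeries.coeff_zero, if_neg fun h2 => h h2.1]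

/-- inverse of a monomial times a unit of `ℂ[[u, v]]` -/
private theorem rel_inv_of {a b : GG} (h : Rel a b) (i j : ℤ) (h1 : VGE j a)
    (h2 : ∀ q, VGE i (a.coeff q)) (h3 : (a.coeff j).coeff i ≠ 0) : Rel a⁻¹ b⁻¹ := by
  have hr : Rel (HahnSeries.single j (HahnSeries.single i (1 : ℂ)) : GG)⁻¹
      (HahnSeries.single i (HahnSeries.single j (1 : ℂ)) : GG)⁻¹ :=
    (Rel_monomial i j 1).inv_mono i j 1 one_ne_zero rfl
  have hi : ∀ i j : ℤ, (HahnSeries.single j (HahnSeries.single i (1 : ℂ)) : GG)⁻¹ =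
      HahnSeries.single (-j) (HahnSeries.single (-i) (1 : ℂ)) := by
    intro i j
    refine inv_eq_of_mul_eq_one_right ?_
    rw [HahnSeries.single_mul_single, HahnSeries.single_mul_single, mul_one, add_neg_cancel,
      add_neg_cancel]
    rfl
  have h0 : ∀ i j : ℤ, (HahnSeries.single j (HahnSeries.single i (1 : ℂ)) : GG) ≠ 0 :=
    fun i j => HahnSeries.single_ne_zero (HahnSeries.single_ne_zero one_ne_zero)
  have hc : ∀ q, ((HahnSeries.single j (HahnSeries.single i (1 : ℂ)) : GG)⁻¹ * a).coeff q =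
      mo (-i) * a.coeff (q + j) := by
    intro q
    rw [hi, HahnSeries.coeff_single_mul, sub_neg_eq_add]
    rfl
  have he := hr.mul h
  have h4 := he.inv (fun q hq => by rw [hc, h1 _ (by omega), mul_zero])
    (fun q p hp => by
      rw [hc, coeff_mo_mul]
      exact h2 _ _ (by omega))
    (by
      rw [hc, coeff_mo_mul, zero_add, sub_neg_eq_add, zero_add]
      exact h3)
  have h5 := hr.mul h4.1
  rw [mul_inv, inv_inv, ← mul_assoc, inv_mul_cancel₀ (h0 i j), one_mul, mul_inv, inv_inv,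
    ← mul_assoc, inv_mul_cancel₀ (h0 j i), one_mul] at h5
  exact h5

private theorem MRel.mul' {n : ℕ} {M M' P P' : Matrix (Fin n) (Fin n) GG} (h : MRel M M')
    (h' : MRel P P') : MRel (M * P) (M' * P') := by
  intro i j
  rw [Matrix.mul_apply, Matrix.mul_apply]
  exact Rel.sum _ _ _ fun k _ => (h i k).mul (h' k j)

private theorem MRel.sub' {n : ℕ} {M M' P P' : Matrix (Fin n) (Fin n) GG} (h : MRel M M')
    (h' : MRel P P') : MRel (M - P) (M' - P') := fun i j => (h i j).sub (h' i j)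

private theorem MRel.smul' {n : ℕ} {M M' : Matrix (Fin n) (Fin n) GG} {x y : GG} (hx : Rel x y)
    (h : MRel M M') : MRel (x • M) (y • M') := fun i j => hx.mul (h i j)

private theorem MRel.one' {n : ℕ} : MRel (1 : Matrix (Fin n) (Fin n) GG) 1 := by
  intro i j
  rw [Matrix.one_apply]
  split_ifs
  · exact Rel_one
  · exact Rel_zero

private theorem unit_one {L : Type} [CommRing L] (x : L) : (1 : ℤˣ) • x = x := one_smul _ _

private theorem unit_neg {L : Type} [CommRing L] (x : L) : (-1 : ℤˣ) • x = -x := by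
  rw [Units.neg_smul, one_smul]

private theorem MRel.det' {n : ℕ} {M M' : Matrix (Fin n) (Fin n) GG} (h : MRel M M') :
    Rel M.det M'.det := by
  rw [Matrix.det_apply, Matrix.det_apply]
  refine Rel.sum _ _ _ fun σ _ => ?_
  have h1 : Rel (∏ i, M (σ i) i) (∏ i, M' (σ i) i) := Rel.prod _ _ _ fun i _ => h _ _
  have key : ∀ X Y : GG, Rel X Y → Rel (Equiv.Perm.sign σ • X) (Equiv.Perm.sign σ • Y) := by
    intro X Y hXY
    rcases Int.units_eq_one_or (Equiv.Perm.sign σ) with hs | hs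
    · have e1 : Equiv.Perm.sign σ • X = X := by
        rw [hs]
        exact unit_one X
      have e2 : Equiv.Perm.sign σ • Y = Y := by
        rw [hs]
        exact unit_one Y
      rw [e1, e2]
      exact hXY
    · have e1 : Equiv.Perm.sign σ • X = -X := by
        rw [hs]
        exact unit_neg X
      have e2 : Equiv.Perm.sign σ • Y = -Y := by
        rw [hs]
        exact unit_neg Y
      rw [e1, e2]
      exact hXY.neg
  exact key _ _ h1

private theorem MRel.adj {n : ℕ} {M M' : Matrix (Fin n) (Fin n) GG} (h : MRel M M') :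
    MRel M.adjugate M'.adjugate := by
  intro i j
  rw [Matrix.adjugate_apply, Matrix.adjugate_apply]
  apply MRel.det'
  intro a b
  rw [Matrix.updateRow_apply, Matrix.updateRow_apply]
  split_ifs
  · by_cases hb : b = i
    · subst hb
      rw [Pi.single_eq_same]
      exact Rel_one
    · rw [Pi.single_eq_of_ne hb]
      exact Rel_zero
  · exact h a b

private theorem g_A1' {ι L : Type} [Fintype ι] [DecidableEq ι] [CommRing L]
    (S R B : Matrix ι ι L) (a : L) :
    (a • (1 : Matrix ι ι L) - (1 : L) • S) * R * B = (a • (1 : Matrix ι ι L) - S) * R * B := by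
  rw [one_smul]

private theorem g_A12' {ι L : Type} [Fintype ι] [DecidableEq ι] [CommRing L]
    (S R B : Matrix ι ι L) (a a' κ : L) :
    (a • (1 : Matrix ι ι L) - (1 : L) • S) * R * B +
        κ • ((a' • (1 : Matrix ι ι L) - (0 : L) • S) * R * B) =
      ((κ * a' + a) • (1 : Matrix ι ι L) - S) * R * B := by
  rw [one_smul, zero_smul, sub_zero, Matrix.mul_assoc,
    Matrix.mul_assoc, Matrix.mul_assoc, ← Matrix.smul_mul, ← Matrix.add_mul, smul_smul, add_smul]
  congr 1
  abel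

private theorem g_A1 {n : ℕ} (S R B : Matrix (Fin n) (Fin n) GG) (a c : GG) (hc : c = 1) :
    (a • (1 : Matrix (Fin n) (Fin n) GG) - c • S) * R * B =
      (a • (1 : Matrix (Fin n) (Fin n) GG) - S) * R * B := by
  rw [hc]
  exact g_A1' S R B a

private theorem g_A12 {n : ℕ} (S R B : Matrix (Fin n) (Fin n) GG) (a a' κ c z : GG) (hc : c = 1)
    (hz : z = 0) :
    (a • (1 : Matrix (Fin n) (Fin n) GG) - c • S) * R * B +
        κ • ((a' • (1 : Matrix (Fin n) (Fin n) GG) - z • S) * R * B) =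
      ((κ * a' + a) • (1 : Matrix (Fin n) (Fin n) GG) - S) * R * B := by
  rw [hc, hz]
  exact g_A12' S R B a a' κ

private theorem det_map' {n : ℕ} (φ : FF →+* GG) (M : Matrix (Fin n) (Fin n) FF) :
    (M.map φ).det = φ M.det := by
  rw [Matrix.det_apply', Matrix.det_apply', map_sum]
  refine Finset.sum_congr rfl fun σ _ => ?_
  rw [map_mul, map_intCast, map_prod]
  rfl

private theorem inv_map' {n : ℕ} (φ : FF →+* GG) (G : Matrix (Fin n) (Fin n) FF)
    (hG : IsUnit G.det) : (G⁻¹).map φ = (G.map φ)⁻¹ := by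
  symm
  apply Matrix.inv_eq_right_inv
  rw [← Matrix.map_mul, Matrix.mul_nonsing_inv G hG]
  exact Matrix.map_one φ (map_zero φ) (map_one φ)


namespace LD

variable {n : ℕ} (D : LD n) (N : ℕ) [NeZero N] (l : List ℂ)

theorem rel_lam (w₀ : ℂ) : Rel (psiX w₀ N (lamN N l)) (psiY N (lamN N (w₀ :: l))) := by
  rw [psiX_lam, psiY_lam]
  exact (Rel_inc w₀ N _).add (Rel_monomial _ _ _)

theorem rel_UK (w₀ : ℂ) : MRel ((D.UK N (RatFunc ℂ)).map (psiX w₀ N))
    ((D.UK N (RatFunc ℂ)).map (psiY N)) := by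
  intro i j
  exact Rel_inc w₀ N (D.U i j)

private theorem SK_apply (K : Type) [Field K] [Algebra ℂ K] (i j : Fin n) :
    D.SK N K i j = (N : LaurentSeries K) * ram N (inc (D.S i j)) := rfl

theorem rel_SK (w₀ : ℂ) : MRel ((D.SK N (RatFunc ℂ)).map (psiX w₀ N))
    ((D.SK N (RatFunc ℂ)).map (psiY N)) := by
  intro i j
  rw [Matrix.map_apply, Matrix.map_apply, SK_apply, map_mul, map_mul, map_natCast, map_natCast]
  exact (Rel_natCast N).mul (Rel_inc w₀ N (D.S i j))

theorem rel_BK (w₀ : ℂ) : MRel ((D.BK (RatFunc ℂ)).map (psiX w₀ N))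
    ((D.BK (RatFunc ℂ)).map (psiY N)) := by
  intro i j
  show Rel (psiX w₀ N (HahnSeries.C (algebraMap ℂ (RatFunc ℂ) (D.B i j))))
    (psiY N (HahnSeries.C (algebraMap ℂ (RatFunc ℂ) (D.B i j))))
  rw [psiX_C, psiY_C, jat_const, jinf_const]
  exact Rel_monomial 0 0 (D.B i j)

theorem rel_diff (w₀ : ℂ) (i : Fin n) :
    Rel (psiX w₀ N (lamN N l - ram N (inc (D.r i))))⁻¹
      (psiY N (lamN N (w₀ :: l) - ram N (inc (D.r i))))⁻¹ := by
  have hrel : Rel (psiX w₀ N (lamN N l - ram N (inc (D.r i))))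
      (psiY N (lamN N (w₀ :: l) - ram N (inc (D.r i)))) := by
    rw [map_sub, map_sub]
    exact (rel_lam N l w₀).sub (Rel_inc w₀ N _)
  have hN : (0 : ℤ) < N := by exact_mod_cast Nat.pos_of_ne_zero (NeZero.ne N)
  set z : PowerSeries ℂ := D.r i - cen (w₀ :: l) with hz
  have hform : psiX w₀ N (lamN N l - ram N (inc (D.r i))) =
      HahnSeries.single ((N : ℤ) * l.length) (HahnSeries.single ((N : ℤ) * (l.length + 1)) 1) -
        psiX w₀ N (ram N (inc z)) := by
    rw [hz, map_sub, psiX_lam, map_sub, map_sub, map_sub]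
    ring
  have hcoe : ∀ q p : ℤ, ((psiX w₀ N (lamN N l - ram N (inc (D.r i)))).coeff q).coeff p =
      (if q = (N : ℤ) * l.length ∧ p = (N : ℤ) * (l.length + 1) then 1 else 0) -
        ((psiX w₀ N (ram N (inc z))).coeff q).coeff p := by
    intro q p
    rw [hform, HahnSeries.coeff_sub, HahnSeries.coeff_sub, mono_coeff']
  by_cases hX : ∀ k, k ≤ l.length → PowerSeries.coeff k z = 0
  · -- the branch goes to the child
    refine rel_inv_of hrel ((N : ℤ) * (l.length + 1)) ((N : ℤ) * l.length) ?_ ?_ ?_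
    · intro q hq
      ext p
      rw [hcoe, HahnSeries.coeff_zero, if_neg (by omega), zero_sub, neg_eq_zero]
      by_contra hne
      obtain ⟨k, hk1, hk2, hk3⟩ := dcoeff w₀ N z q p hne
      apply hk3
      apply hX
      rw [hk1] at hq
      have := lt_of_mul_lt_mul_left hq hN.le
      omega
    · intro q p hp
      rw [hcoe, if_neg (by omega), zero_sub, neg_eq_zero]
      by_contra hne
      obtain ⟨k, hk1, hk2, hk3⟩ := dcoeff w₀ N z q p hne
      apply hk3
      apply hX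
      rw [hk2] at hp
      have := lt_of_mul_lt_mul_left hp hN.le
      omega
    · rw [hcoe, if_pos ⟨rfl, rfl⟩]
      have h0 : ((psiX w₀ N (ram N (inc z))).coeff ((N : ℤ) * l.length)).coeff
          ((N : ℤ) * (l.length + 1)) = 0 := by
        by_contra hne
        obtain ⟨k, hk1, hk2, hk3⟩ := dcoeff w₀ N z _ _ hne
        have e1 := mul_left_cancel₀ hN.ne' hk1
        have e2 := mul_left_cancel₀ hN.ne' hk2
        omega
      rw [h0, sub_zero]
      exact one_ne_zero
  · -- the branch separates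
    classical
    push Not at hX
    set k₀ := Nat.find hX with hk₀
    have hs := Nat.find_spec hX
    rw [← hk₀] at hs
    have hmin : ∀ k, k < k₀ → PowerSeries.coeff k z = 0 := by
      intro k hk
      by_contra hne
      exact Nat.find_min hX hk ⟨by omega, hne⟩
    have hk₀' : (k₀ : ℤ) ≤ l.length := by exact_mod_cast hs.1
    have hle : (N : ℤ) * k₀ ≤ (N : ℤ) * l.length := mul_le_mul_of_nonneg_left hk₀' hN.le
    have hlt : (N : ℤ) * k₀ < (N : ℤ) * (l.length + 1) := by
      rw [mul_add, mul_one]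
      omega
    refine rel_inv_of hrel ((N : ℤ) * k₀) ((N : ℤ) * k₀) ?_ ?_ ?_
    · intro q hq
      ext p
      rw [hcoe, HahnSeries.coeff_zero, if_neg (by omega), zero_sub, neg_eq_zero]
      by_contra hne
      obtain ⟨k, hk1, hk2, hk3⟩ := dcoeff w₀ N z q p hne
      apply hk3
      apply hmin
      rw [hk1] at hq
      have := lt_of_mul_lt_mul_left hq hN.le
      omega
    · intro q p hp
      rw [hcoe, if_neg (by omega), zero_sub, neg_eq_zero]
      by_contra hne
      obtain ⟨k, hk1, hk2, hk3⟩ := dcoeff w₀ N z q p hne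
      apply hk3
      apply hmin
      rw [hk2] at hp
      have := lt_of_mul_lt_mul_left hp hN.le
      omega
    · rw [hcoe, if_neg (by omega), dcoeff_diag, zero_sub]
      exact neg_ne_zero.2 hs.2

private theorem map_lamU (φ : FF →+* GG) (l : List ℂ) :
    (lamN N l • (1 : Matrix (Fin n) (Fin n) FF) - D.UK N (RatFunc ℂ)).map φ =
      φ (lamN N l) • (1 : Matrix (Fin n) (Fin n) GG) - (D.UK N (RatFunc ℂ)).map φ := by
  ext1 i j
  rw [Matrix.map_apply, Matrix.sub_apply, Matrix.sub_apply, Matrix.smul_apply, Matrix.smul_apply,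
    Matrix.map_apply, map_sub, smul_eq_mul, smul_eq_mul, map_mul, Matrix.one_apply,
    Matrix.one_apply]
  split_ifs
  · rw [map_one]
  · rw [map_zero]

private theorem inv_adj {n : ℕ} (G : Matrix (Fin n) (Fin n) GG) :
    G⁻¹ = (G.det)⁻¹ • G.adjugate := by
  have h : ∀ x : GG, Ring.inverse x = x⁻¹ := fun x => Ring.inverse_eq_inv x
  rw [Matrix.inv_def, h]

private theorem prod_inv_GG {n : ℕ} (f : Fin n → GG) : ∏ i, (f i)⁻¹ = (∏ i, f i)⁻¹ :=
  Finset.prod_inv_distrib _

private theorem map_RN (φ : FF →+* GG) (l : List ℂ) : (D.RN N l).map φ =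
    (∏ i, (φ (lamN N l - ram N (inc (D.r i))))⁻¹) •
      (φ (lamN N l) • (1 : Matrix (Fin n) (Fin n) GG) - (D.UK N (RatFunc ℂ)).map φ).adjugate := by
  have h1 : (D.RN N l).map φ =
      ((lamN N l • (1 : Matrix (Fin n) (Fin n) FF) - D.UK N (RatFunc ℂ)).map φ)⁻¹ := by
    unfold RN
    exact inv_map' φ _ (det_ne D N l)
  have h2 : ((lamN N l • (1 : Matrix (Fin n) (Fin n) FF) - D.UK N (RatFunc ℂ)).map φ).det =
      ∏ i, φ (lamN N l - ram N (inc (D.r i))) := by
    rw [← map_prod, ← det_lam D N l]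
    exact det_map' φ _
  rw [h1, inv_adj, h2, map_lamU, prod_inv_GG]

theorem rel_RN (w₀ : ℂ) :
    MRel ((D.RN N l).map (psiX w₀ N)) ((D.RN N (w₀ :: l)).map (psiY N)) := by
  rw [map_RN, map_RN]
  refine MRel.smul' ?_ (MRel.adj ?_)
  · exact Rel.prod _ _ _ fun i _ => rel_diff D N l w₀ i
  · exact (MRel.smul' (rel_lam N l w₀) MRel.one').sub' (rel_UK D N w₀)

private theorem map_cn (φ : FF →+* GG) (l : List ℂ) (a c : FF) :
    (cn (D.UK N (RatFunc ℂ)) (D.SK N (RatFunc ℂ)) (D.BK (RatFunc ℂ)) (lamN N l) a c).map φ =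
      (φ a • (1 : Matrix (Fin n) (Fin n) GG) - φ c • (D.SK N (RatFunc ℂ)).map φ) *
        (D.RN N l).map φ * (D.BK (RatFunc ℂ)).map φ := by
  unfold cn
  rw [Matrix.map_mul, Matrix.map_mul]
  congr 2
  ext1 i j
  rw [Matrix.map_apply, Matrix.sub_apply, Matrix.sub_apply, Matrix.smul_apply, Matrix.smul_apply,
    Matrix.smul_apply, Matrix.smul_apply, Matrix.map_apply, map_sub, smul_eq_mul, smul_eq_mul,
    smul_eq_mul, smul_eq_mul, map_mul, map_mul, Matrix.one_apply, Matrix.one_apply]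
  split_ifs
  · rw [map_one]
  · rw [map_zero]

private theorem map_A12 (φ : FF →+* GG) (l : List ℂ) (κ : GG) :
    (D.A1 N l).map φ + κ • (D.A2 N l).map φ =
      ((κ * φ (dI rD (lamN N l)) + φ (dO (lamN N l))) • (1 : Matrix (Fin n) (Fin n) GG) -
        (D.SK N (RatFunc ℂ)).map φ) * (D.RN N l).map φ * (D.BK (RatFunc ℂ)).map φ := by
  unfold A1 A2
  rw [map_cn, map_cn]
  exact g_A12 _ _ _ _ _ _ _ _ (map_one φ) (map_zero φ)

private theorem map_A1 (φ : FF →+* GG) (l : List ℂ) :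
    (D.A1 N l).map φ = (φ (dO (lamN N l)) • (1 : Matrix (Fin n) (Fin n) GG) -
        (D.SK N (RatFunc ℂ)).map φ) * (D.RN N l).map φ * (D.BK (RatFunc ℂ)).map φ := by
  unfold A1
  rw [map_cn]
  exact g_A1 _ _ _ _ _ (map_one φ)

theorem node_conn_down (w₀ : ℂ) : MRel ((D.A1 N l).map (psiX w₀ N))
    ((D.A1 N (w₀ :: l)).map (psiY N) + (HahnSeries.C (-((N : LC) * mo (-(N : ℤ)))) : GG) •
      (D.A2 N (w₀ :: l)).map (psiY N)) := by
  rw [map_A1, map_A12, ← dI_psiY, ← dO_psiX]
  exact (((MRel.smul' (rel_lam N l w₀).outer MRel.one').sub' (rel_SK D N w₀)).mul'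
    (rel_RN D N l w₀)).mul' (rel_BK D N w₀)

theorem node_conn_up (w₀ : ℂ) : MRel ((D.A1 N l).map (psiX w₀ N) +
      (HahnSeries.C ((N : LC) * mo (N : ℤ)) : GG) • (D.A2 N l).map (psiX w₀ N))
    ((D.A1 N (w₀ :: l)).map (psiY N)) := by
  rw [map_A12, map_A1, ← dI_psiX, ← dO_psiY]
  exact (((MRel.smul' (rel_lam N l w₀).inner MRel.one').sub' (rel_SK D N w₀)).mul'
    (rel_RN D N l w₀)).mul' (rel_BK D N w₀)

/-- `w` of the disc, on the side of the child, minus the branch -/
private noncomputable def gi (w₀ : ℂ) (i : Fin n) : FF :=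
  HahnSeries.C (algebraMap ℂ (RatFunc ℂ) w₀) + mo (N : ℤ) * HahnSeries.C (RatFunc.X : RatFunc ℂ) -
    ram N (inc (D.pos l i))

private theorem PolC_gi (w₀ : ℂ) (i : Fin n) : PolC (gi D N l w₀ i) :=
  ((PolC_const w₀).add ((PolC_mo _).mul PolC_X)).sub' (PolC_inc N _)

private theorem rel_gi (w₀ : ℂ) (i : Fin n) :
    Rel (psiX w₀ N (HahnSeries.C (RatFunc.X : RatFunc ℂ) - ram N (inc (D.pos l i))))
      (psiY N (gi D N l w₀ i)) := by
  unfold gi
  rw [map_sub, map_sub, map_add, map_mul]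
  refine Rel.sub ?_ (Rel_inc w₀ N _)
  rw [psiX_C, psiY_C, psiY_C, psiY_mo, jat_X, jinf_const, jinf_X, map_add]
  refine Rel.add (Rel_monomial 0 0 w₀) ?_
  have h1 : (HahnSeries.single (N : ℤ) (mo (N : ℤ)) * HahnSeries.C (mo (-(N : ℤ))) : GG) =
      HahnSeries.single (N : ℤ) (HahnSeries.single 0 (1 : ℂ)) := by
    rw [HahnSeries.C_apply, HahnSeries.single_mul_single, add_zero, mo_mul, add_neg_cancel]
    rfl
  rw [h1]
  exact Rel_monomial (N : ℤ) 0 1

private theorem pos_cons (w₀ : ℂ) (i : Fin n) (h : i ∈ D.br (w₀ :: l)) :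
    D.pos l i = PowerSeries.C w₀ + PowerSeries.X ^ 1 * D.pos (w₀ :: l) i := by
  have h1 := (mem_br D (w₀ :: l) i).1 h
  rw [PowerSeries.X_pow_dvd_iff] at h1
  ext k
  unfold pos
  rcases Nat.eq_zero_or_pos k with rfl | hk
  · have h2 := h1 l.length (by rw [List.length_cons]; omega)
    rw [cen_cons, ← sub_sub, map_sub, sub_eq_zero, PowerSeries.coeff_C_mul,
      PowerSeries.coeff_X_pow, if_pos rfl, mul_one] at h2
    rw [PowerSeries.coeff_mk, zero_add, h2, map_add, PowerSeries.coeff_C, if_pos rfl,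
      PowerSeries.coeff_X_pow_mul', if_neg (by omega), add_zero]
  · rw [PowerSeries.coeff_mk, map_add, PowerSeries.coeff_C, if_neg (by omega), zero_add,
      PowerSeries.coeff_X_pow_mul', if_pos (by omega), PowerSeries.coeff_mk, cen_cons, ← sub_sub,
      map_sub (PowerSeries.coeff _) (D.r i - cen l), PowerSeries.coeff_C_mul,
      PowerSeries.coeff_X_pow, List.length_cons, if_neg (by omega), mul_zero, sub_zero]
    congr 2
    omega

private theorem gi_eq (w₀ : ℂ) (i : Fin n) (h : i ∈ D.br (w₀ :: l)) : gi D N l w₀ i =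
    mo (N : ℤ) * (HahnSeries.C (RatFunc.X : RatFunc ℂ) - ram N (inc (D.pos (w₀ :: l) i))) := by
  unfold gi
  rw [pos_cons D l w₀ i h, map_add, map_mul, map_add, map_mul, inc_C, inc_X_pow, ram_C, ram_mo,
    Nat.cast_one, mul_one]
  ring

theorem fl_node (w₀ : ℂ) : ∃ h : FF, PolC h ∧
    Rel (psiX w₀ N (D.fl N l)) (psiY N (D.fl N (w₀ :: l) * h)) := by
  classical
  refine ⟨(∏ i ∈ D.br (w₀ :: l), mo (N : ℤ)) * ∏ i ∈ D.br l \ D.br (w₀ :: l), gi D N l w₀ i,
    ?_, ?_⟩
  · exact (PolC.prod' _ _ fun _ _ => PolC_mo _).mul (PolC.prod' _ _ fun i _ => PolC_gi D N l w₀ i)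
  · have h1 : D.fl N (w₀ :: l) * ((∏ i ∈ D.br (w₀ :: l), mo (N : ℤ)) *
        ∏ i ∈ D.br l \ D.br (w₀ :: l), gi D N l w₀ i) = ∏ i ∈ D.br l, gi D N l w₀ i := by
      rw [← Finset.prod_sdiff (br_cons_subset D l w₀), ← mul_assoc, mul_comm]
      congr 1
      unfold fl
      rw [← Finset.prod_mul_distrib]
      refine Finset.prod_congr rfl fun i hi => ?_
      rw [gi_eq D N l w₀ i hi, mul_comm]
    rw [h1]
    unfold fl
    rw [map_prod, map_prod]
    exact Rel.prod _ _ _ fun i _ => rel_gi D N l w₀ i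

theorem PolC_fl : PolC (D.fl N l) :=
  PolC.prod' _ _ fun i _ => PolC_X.sub' (PolC_inc N _)

end LD

end Pool.Agent.Helper84.CV
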