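import Mathlib

/-!
# CV-Fitt: the Fitting projection of a matrix
-/

set_option autoImplicit false

open Matrix

namespace Pool.Agent.Helper84.CV

open Polynomial in
theorem fitting {ρ : ℕ} (T : Matrix (Fin ρ) (Fin ρ) ℂ) (hn : ¬ IsNilpotent T) :
    ∃ E : Matrix (Fin ρ) (Fin ρ) ℂ, E * E = E ∧ E * T = T * E ∧ E ≠ 0 ∧
      IsUnit (T * E + (1 - E)) ∧ IsNilpotent (T * (1 - E)) := by
  have hq : T.charpoly ≠ 0 := T.charpoly_monic.ne_zero
  obtain ⟨g, hg, hgd⟩ := Polynomial.exists_eq_pow_rootMultiplicity_mul_and_not_dvd T.charpoly hq 0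
  set a := Polynomial.rootMultiplicity 0 T.charpoly with ha
  rw [Polynomial.C_0, sub_zero] at hg hgd
  have hco : IsCoprime (X : ℂ[X]) g := (Polynomial.irreducible_X.coprime_iff_not_dvd).2 hgd
  have hco' : IsCoprime ((X : ℂ[X]) ^ (a + 1)) g := hco.pow_left
  obtain ⟨u, w, huw⟩ := hco'
  have hzero : aeval T (X ^ a * g) = 0 := by
    rw [← hg]
    exact Matrix.aeval_self_charpoly T
  set E : Matrix (Fin ρ) (Fin ρ) ℂ := aeval T (u * X ^ (a + 1)) with hE
  set S : Matrix (Fin ρ) (Fin ρ) ℂ := aeval T (u * X ^ a) with hS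
  have h1E : 1 - E = aeval T (w * g) := by
    rw [sub_eq_iff_eq_add, hE, ← map_add, add_comm, huw, map_one]
  have hX : aeval T (X : ℂ[X]) = T := aeval_X T
  have hTa : T ^ a * (1 - E) = 0 := by
    have e : T ^ a = aeval T ((X : ℂ[X]) ^ a) := by rw [map_pow, hX]
    rw [h1E, e, ← map_mul]
    have e2 : (X : ℂ[X]) ^ a * (w * g) = w * (X ^ a * g) := by ring
    rw [e2, map_mul, hzero, mul_zero]
  have hEE : E * (1 - E) = 0 := by
    rw [h1E, hE, ← map_mul]
    have e2 : u * (X : ℂ[X]) ^ (a + 1) * (w * g) = u * X * w * (X ^ a * g) := by ring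
    rw [e2, map_mul, hzero, mul_zero]
  have hEid : E * E = E := by
    rw [mul_sub, mul_one, sub_eq_zero] at hEE
    exact hEE.symm
  have hTE : E * T = T * E := by
    have e : E * T = aeval T (u * X ^ (a + 1) * X) := by rw [map_mul, hX]
    have e' : T * E = aeval T (X * (u * X ^ (a + 1))) := by rw [map_mul, hX]
    rw [e, e', mul_comm]
  have hTS : T * S = E := by
    have e' : T * S = aeval T (X * (u * X ^ a)) := by rw [map_mul, hX]
    have e2 : (X : ℂ[X]) * (u * X ^ a) = u * X ^ (a + 1) := by ring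
    rw [e', e2]
  have hST : S * T = T * S := by
    have e : S * T = aeval T (u * X ^ a * X) := by rw [map_mul, hX]
    have e' : T * S = aeval T (X * (u * X ^ a)) := by rw [map_mul, hX]
    rw [e, e', mul_comm]
  have hES : E * S = S * E := by
    have e : E * S = aeval T (u * X ^ (a + 1) * (u * X ^ a)) := by rw [map_mul]
    have e' : S * E = aeval T (u * X ^ a * (u * X ^ (a + 1))) := by rw [map_mul]
    rw [e, e', mul_comm]
  have hcomm : Commute T (1 - E) := by
    show T * (1 - E) = (1 - E) * T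
    rw [mul_sub, sub_mul, hTE, mul_one, one_mul]
  refine ⟨E, hEid, hTE, ?_, ?_, ?_⟩
  · intro h0
    apply hn
    rw [h0, sub_zero, mul_one] at hTa
    exact ⟨a, hTa⟩
  · have hEE' : (1 - E) * E = 0 := by
      rw [sub_mul, one_mul, hEid, sub_self]
    have h1 : (1 - E) * (1 - E) = 1 - E := by
      rw [mul_sub, mul_one, hEE', sub_zero]
    have hmul : (T * E + (1 - E)) * (S * E + (1 - E)) = 1 := by
      have e1 : T * E * (S * E) = E := by
        rw [← hES, mul_assoc, ← mul_assoc E E S, hEid, hES, ← mul_assoc, hTS, hEid]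
      have e2 : T * E * (1 - E) = 0 := by
        rw [mul_assoc, hEE, mul_zero]
      have e3 : (1 - E) * (S * E) = 0 := by
        rw [← hES, ← mul_assoc, hEE', zero_mul]
      rw [add_mul, mul_add, mul_add, e1, e2, e3, h1]
      simp
    exact IsUnit.of_mul_eq_one _ hmul
  · refine ⟨a + 1, ?_⟩
    rw [hcomm.mul_pow, pow_succ' T, pow_succ' (1 - E), mul_assoc, ← mul_assoc (T ^ a), hTa,
      zero_mul, mul_zero]

end Pool.Agent.Helper84.CV
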