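import Pool.Agent.Helper84.CV.B2

/-!
# CV-FixP: fixed points of contractions on matrices of Laurent series

Plan. Iterate: `x_0 = 0`, `x_(m+1) = F x_m`, all in `MVGE c`; `MVGE (c + m) (x_(m+1) - x_m)`. So the coefficient of index
`t` is constant for `m > t - c`; define `x` with these coefficients (support in `Set.Ici c`, which is partially
well-ordered: `Set.IsWF`…, e.g. `HahnSeries.ofSuppBddBelow`, `BddBelow.isWF`, or shift and use `PowerSeries.mk`).
`MVGE (c + m) (x - x_m)`, `F x - x_(m+1)` has `MVGE (c + m + 1)`, so `F x - x` has all valuations: `eq_zero_of_VGE`.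
-/

set_option autoImplicit false

open Matrix

namespace Pool.Agent.Helper84.CV

private noncomputable def fixIt {K : Type} [Field K] {m o : Type}
    (F : Matrix m o (LaurentSeries K) → Matrix m o (LaurentSeries K)) :
    ℕ → Matrix m o (LaurentSeries K)
  | 0 => 0
  | t + 1 => F (fixIt F t)

theorem fixed_point {K : Type} [Field K] {m o : Type} (c : ℤ)
    (F : Matrix m o (LaurentSeries K) → Matrix m o (LaurentSeries K))
    (h1 : ∀ x, MVGE c x → MVGE c (F x))
    (h2 : ∀ (x y : Matrix m o (LaurentSeries K)) (k : ℤ), MVGE c x → MVGE c y →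
      MVGE k (x - y) → MVGE (k + 1) (F x - F y)) :
    ∃ x, MVGE c x ∧ F x = x := by
  have hit : ∀ t, MVGE c (fixIt F t) := by
    intro t
    induction t with
    | zero => exact MVGE_zero c
    | succ t ih => exact h1 _ ih
  have hdiff : ∀ t : ℕ, MVGE (c + t) (fixIt F (t + 1) - fixIt F t) := by
    intro t
    induction t with
    | zero =>
      have h := (hit 1).sub (hit 0)
      rw [Nat.cast_zero, add_zero]
      exact h
    | succ t ih =>
      have h := h2 (fixIt F (t + 1)) (fixIt F t) (c + t) (hit _) (hit _) ih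
      refine h.mono ?_
      push_cast
      omega
  have hge : ∀ (t u : ℕ), MVGE (c + t) (fixIt F (t + u) - fixIt F t) := by
    intro t u
    induction u with
    | zero =>
      rw [add_zero, sub_self]
      exact MVGE_zero _
    | succ u ih =>
      have h := ((hdiff (t + u)).mono (show c + (t : ℤ) ≤ c + ((t + u : ℕ) : ℤ) by
        push_cast
        omega)).add ih
      rw [sub_add_sub_cancel] at h
      exact h
  have hsupp : ∀ a b, BddBelow (Function.support
      fun k : ℤ => (fixIt F (k - c + 1).toNat a b).coeff k) := by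
    intro a b
    refine ⟨c, ?_⟩
    intro k hk
    by_contra hlt
    exact hk (hit _ a b k (not_le.1 hlt))
  obtain ⟨x, hx⟩ : ∃ x : Matrix m o (LaurentSeries K),
      ∀ a b k, (x a b).coeff k = (fixIt F (k - c + 1).toNat a b).coeff k :=
    ⟨Matrix.of fun a b => HahnSeries.ofSuppBddBelow _ (hsupp a b), fun a b k => rfl⟩
  have hxc : MVGE c x := by
    intro a b k hk
    rw [hx]
    exact hit _ a b k hk
  have hxt : ∀ t : ℕ, MVGE (c + t) (x - fixIt F t) := by
    intro t a b k hk
    show (x a b - fixIt F t a b).coeff k = 0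
    rw [HahnSeries.coeff_sub, hx]
    by_cases hkc : k < c
    · rw [hit _ a b k hkc, hit t a b k hkc, sub_self]
    · obtain ⟨u, hu⟩ : ∃ u, t = (k - c + 1).toNat + u := ⟨t - (k - c + 1).toNat, by omega⟩
      have h := hge (k - c + 1).toNat u a b k (by omega)
      rw [← hu] at h
      have h' : (fixIt F t a b - fixIt F (k - c + 1).toNat a b).coeff k = 0 := h
      rw [HahnSeries.coeff_sub] at h'
      rw [sub_eq_zero] at h'
      rw [h', sub_self]
  refine ⟨x, hxc, ?_⟩
  rw [← sub_eq_zero]
  refine Matrix.ext fun a b => ?_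
  refine eq_zero_of_VGE fun k => ?_
  have h3 := h2 x (fixIt F (k - c).toNat) _ hxc (hit _) (hxt (k - c).toNat)
  have h4 := (hxt ((k - c).toNat + 1)).neg
  have h5 := (h3.mono (show k ≤ c + ((k - c).toNat : ℤ) + 1 by omega)).add
    (h4.mono (show k ≤ c + (((k - c).toNat + 1 : ℕ) : ℤ) by
      push_cast
      omega))
  have h6 : F x - F (fixIt F (k - c).toNat) + -(x - fixIt F ((k - c).toNat + 1)) = F x - x := by
    show F x - F (fixIt F (k - c).toNat) + -(x - F (fixIt F (k - c).toNat)) = F x - x
    abel
  rw [h6] at h5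
  exact h5 a b

end Pool.Agent.Helper84.CV
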