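import Pool.Agent.Helper84.CV.B2

/-!
# CV-FlatCn: the connection `(dλ - c S) (λ - U)⁻¹ B` is flat

Plan. `R = (λ - U)⁻¹`, `Q_i = d_i λ - c_i S`, `A_i = Q_i R B` (`cn`). `S` commutes with `U`, hence with `R`, so `Q_i` and `R`
commute. `d_i R = -R (d_i λ - d_i U) R` (`dM_inv`) `= -R (Q_i - c_i [S, B]) R`. The terms with `d_1 d_2 λ` and
`d_1 (c_2 S) = c_1 c_2 S'` (constants `c_i`) cancel in `d_1 A_2 - d_2 A_1`, which is
`-Q_2 R (Q_1 - c_1 [S,B]) R B + Q_1 R (Q_2 - c_2 [S,B]) R B`; here `Q_2 R Q_1 R = Q_1 R Q_2 R`, and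
`c_i [S, B] = -[Q_i, B]`, so it equals `-Q_2 R (Q_1 B - B Q_1) R B + Q_1 R (Q_2 B - B Q_2) R B
= Q_2 R B Q_1 R B - Q_1 R B Q_2 R B = -[A_1, A_2]`.
Write everything with `Matrix` noncommutative algebra (`noncomm_ring` after suitable rewriting).
-/

set_option autoImplicit false

open Matrix

namespace Pool.Agent.Helper84.CV

theorem commute_inv {ι : Type} [Fintype ι] [DecidableEq ι] {L : Type} [Field L]
    (U S : Matrix ι ι L) (lam : L) (hUS : U * S = S * U) :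
    (lam • (1 : Matrix ι ι L) - U)⁻¹ * S = S * (lam • (1 : Matrix ι ι L) - U)⁻¹ := by
  by_cases hM : IsUnit (lam • (1 : Matrix ι ι L) - U).det
  · have h1 : S * (lam • (1 : Matrix ι ι L) - U) = (lam • (1 : Matrix ι ι L) - U) * S := by
      rw [mul_sub, sub_mul, hUS, Matrix.smul_mul, Matrix.mul_smul, one_mul, mul_one]
    have h2 : S = S * (lam • (1 : Matrix ι ι L) - U) * (lam • (1 : Matrix ι ι L) - U)⁻¹ := by
      rw [mul_assoc, Matrix.mul_nonsing_inv _ hM, mul_one]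
    conv_lhs => rw [h2, h1]
    rw [← mul_assoc, ← mul_assoc, Matrix.nonsing_inv_mul _ hM, one_mul]
  · rw [Matrix.nonsing_inv_apply_not_isUnit _ hM, zero_mul, mul_zero]

private theorem flat_aux {A : Type} [Ring A] (Q₁ Q₂ R B W : A)
    (h : Q₁ * R * Q₂ = Q₂ * R * Q₁) :
    (Q₂ * (-(R * (Q₁ + (Q₁ * B - B * Q₁)) * R)) + W * R) * B -
      (Q₁ * (-(R * (Q₂ + (Q₂ * B - B * Q₂)) * R)) + W * R) * B +
      (Q₁ * R * B * (Q₂ * R * B) - Q₂ * R * B * (Q₁ * R * B)) = 0 := by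
  have h1 : (Q₂ * (-(R * (Q₁ + (Q₁ * B - B * Q₁)) * R)) + W * R) * B -
      (Q₁ * (-(R * (Q₂ + (Q₂ * B - B * Q₂)) * R)) + W * R) * B +
      (Q₁ * R * B * (Q₂ * R * B) - Q₂ * R * B * (Q₁ * R * B)) =
      (Q₁ * R * Q₂ - Q₂ * R * Q₁) * (R * B + B * R * B) := by
    noncomm_ring
  rw [h1, h, sub_self, zero_mul]

theorem flat_cn {ι : Type} [Fintype ι] [DecidableEq ι] {L : Type} [Field L] (d₁ d₂ : Der L)
    (hc : ∀ x, d₁ (d₂ x) = d₂ (d₁ x)) (U S S' B : Matrix ι ι L) (lam c₁ c₂ : L)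
    (hUS : U * S = S * U) (hdet : IsUnit (lam • (1 : Matrix ι ι L) - U).det)
    (hU₁ : dM d₁ U = c₁ • (S + (S * B - B * S))) (hU₂ : dM d₂ U = c₂ • (S + (S * B - B * S)))
    (hS₁ : dM d₁ S = c₁ • S') (hS₂ : dM d₂ S = c₂ • S')
    (hB₁ : dM d₁ B = 0) (hB₂ : dM d₂ B = 0)
    (h12 : d₁ c₂ = 0) (h21 : d₂ c₁ = 0) :
    Flat d₁ (cn U S B lam (d₁ lam) c₁) d₂ (cn U S B lam (d₂ lam) c₂) := by
  obtain ⟨R, hR⟩ : ∃ R : Matrix ι ι L, R = (lam • (1 : Matrix ι ι L) - U)⁻¹ := ⟨_, rfl⟩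
  obtain ⟨Q₁, hQ₁⟩ : ∃ Q : Matrix ι ι L, Q = (d₁ lam) • (1 : Matrix ι ι L) - c₁ • S := ⟨_, rfl⟩
  obtain ⟨Q₂, hQ₂⟩ : ∃ Q : Matrix ι ι L, Q = (d₂ lam) • (1 : Matrix ι ι L) - c₂ • S := ⟨_, rfl⟩
  obtain ⟨W, hW⟩ : ∃ W : Matrix ι ι L,
      W = (d₁ (d₂ lam)) • (1 : Matrix ι ι L) - (c₁ * c₂) • S' := ⟨_, rfl⟩
  have eA₁ : cn U S B lam (d₁ lam) c₁ = Q₁ * R * B := by
    rw [hQ₁, hR]
    rfl
  have eA₂ : cn U S B lam (d₂ lam) c₂ = Q₂ * R * B := by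
    rw [hQ₂, hR]
    rfl
  have hRS : R * S = S * R := by
    rw [hR]
    exact commute_inv U S lam hUS
  have c1 : Q₁ * R = R * Q₁ := by
    rw [hQ₁, sub_mul, mul_sub, Matrix.smul_mul, Matrix.smul_mul, Matrix.mul_smul, Matrix.mul_smul,
      one_mul, mul_one, hRS]
  have c2 : Q₂ * R = R * Q₂ := by
    rw [hQ₂, sub_mul, mul_sub, Matrix.smul_mul, Matrix.smul_mul, Matrix.mul_smul, Matrix.mul_smul,
      one_mul, mul_one, hRS]
  have c3 : Q₁ * Q₂ = Q₂ * Q₁ := by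
    rw [hQ₁, hQ₂]
    simp only [sub_mul, mul_sub, Matrix.smul_mul, Matrix.mul_smul, one_mul, mul_one, smul_smul]
    rw [mul_comm (d₂ lam) (d₁ lam), mul_comm (d₂ lam) c₁, mul_comm c₂ (d₁ lam), mul_comm c₂ c₁]
    abel
  have c4 : Q₁ * R * Q₂ = Q₂ * R * Q₁ := by
    rw [c1, c2, mul_assoc, mul_assoc, c3]
  have eW₂ : dM d₁ Q₂ = W := by
    rw [hQ₂, hW, dM_sub, dM_smul, dM_smul, dM_one, hS₁, h12, smul_zero, zero_add, zero_smul,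
      add_zero, smul_smul, mul_comm c₂ c₁]
  have eW₁ : dM d₂ Q₁ = W := by
    rw [hQ₁, hW, dM_sub, dM_smul, dM_smul, dM_one, hS₂, h21, smul_zero, zero_add, zero_smul,
      add_zero, smul_smul, hc lam]
  have eM₁ : dM d₁ (lam • (1 : Matrix ι ι L) - U) = Q₁ + (Q₁ * B - B * Q₁) := by
    rw [dM_sub, dM_smul, dM_one, smul_zero, zero_add, hU₁, hQ₁]
    simp only [sub_mul, mul_sub, Matrix.smul_mul, Matrix.mul_smul, one_mul, mul_one, smul_sub,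
      smul_add]
    abel
  have eM₂ : dM d₂ (lam • (1 : Matrix ι ι L) - U) = Q₂ + (Q₂ * B - B * Q₂) := by
    rw [dM_sub, dM_smul, dM_one, smul_zero, zero_add, hU₂, hQ₂]
    simp only [sub_mul, mul_sub, Matrix.smul_mul, Matrix.mul_smul, one_mul, mul_one, smul_sub,
      smul_add]
    abel
  have eR₁ : dM d₁ R = -(R * (Q₁ + (Q₁ * B - B * Q₁)) * R) := by
    rw [hR, dM_inv d₁ _ hdet, eM₁]
  have eR₂ : dM d₂ R = -(R * (Q₂ + (Q₂ * B - B * Q₂)) * R) := by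
    rw [hR, dM_inv d₂ _ hdet, eM₂]
  unfold Flat
  rw [eA₁, eA₂, dM_mul, dM_mul, dM_mul, dM_mul, hB₁, hB₂, eW₁, eW₂, eR₁, eR₂, mul_zero, mul_zero,
    zero_add, zero_add]
  exact flat_aux Q₁ Q₂ R B W c4

end Pool.Agent.Helper84.CV
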