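import Pool.Agent.Helper84.CV.UpB
import Pool.Agent.Helper84.CV.SolC
import Pool.Agent.Helper84.CV.E0

/-!
# CV-InfSol: the solution on the root disc at infinity

Plan. `l = []`, `φ = psiInf`: `w = λ = 1/t`, `τ = π`. `R = (1/t - U)⁻¹`: on `GG` with `U` constant in `t` (`psiInf_inc`) and
`VGE 0`: `R = t (1 - t U)⁻¹`, `det (1 - t U)` is a regular series with `VGE 0`, whose coefficient of index `0` is
`det (1 - t U(0)) ∈ 1 + t ℂ[t]`, so its inverse is regular (`Reg.inv`) and `R = t • (regular)`: all coefficients of the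
entries of `R` have `VGE 1`. Let `I` be the additive subgroup of the `z` with `∀ i, VGE 1 (z.coeff i)` (stable under
multiplication by `regS`, `dO`). `dO_lamN_nil`: `A1 = -(SK * RN * BK)`, so `(A1).map psiInf` is regular and
`(eta1 j).map psiInf = -(S R X R B) - Y R B` has entries in `I`. `IsS_map` (`κ = 0`, `dO_psiInf`), lattice
`G = 1` (`MVGE 0 (A1 N [])` as in `adm_root`) or `G.map psiInf` for the lattice `G` of `adm_root`. `sol_approx`, `sit_mem` with
this `I`, passage to the limit on coefficients. `psiInf_coeff`.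
-/

set_option autoImplicit false

open Matrix

namespace Pool.Agent.Helper84.CV

section lam

variable {ι : Type} [Fintype ι] [DecidableEq ι] {L : Type} [Field L]

private noncomputable def invL (x : L) (U : Matrix ι ι L) : Matrix ι ι L :=
  (x • (1 : Matrix ι ι L) - U)⁻¹

private theorem gen_lam_eq (T T' : L) (hTT : T' * T = 1) (U V : Matrix ι ι L)
    (hV : V = 1 - T • U) (hu : IsUnit V.det) :
    invL T' U = T • V⁻¹ := by
  unfold invL
  have hmap : T' • (1 : Matrix ι ι L) - U = T' • V := by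
    rw [hV, smul_sub, smul_smul, hTT, one_smul]
  rw [hmap]
  refine Matrix.inv_eq_right_inv ?_
  rw [Matrix.smul_mul, Matrix.mul_smul, smul_smul, hTT, one_smul, Matrix.mul_nonsing_inv V hu]

end lam

section inf

variable {k : Type} [Field k]

/-- series with coefficients in `t k[[t]]` -/
private def tI (k : Type) [Field k] : AddSubgroup (LaurentSeries (LaurentSeries k)) where
  carrier := {z | ∀ i, VGE 1 (z.coeff i)}
  add_mem' := fun {x y} hx hy i => by
    rw [HahnSeries.coeff_add]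
    exact (hx i).add (hy i)
  zero_mem' := fun i => VGE_zero 1
  neg_mem' := fun {x} hx i => by
    rw [HahnSeries.coeff_neg]
    exact (hx i).neg

private theorem tI_le (z : LaurentSeries (LaurentSeries k)) (h : z ∈ tI k) : z ∈ regS k :=
  fun i => (h i).mono (by omega)

private theorem tI_mul (x : LaurentSeries (LaurentSeries k)) (hx : x ∈ regS k)
    (y : LaurentSeries (LaurentSeries k)) (hy : y ∈ tI k) : x * y ∈ tI k := by
  intro j
  obtain ⟨m1, h1⟩ := exists_VGE x
  obtain ⟨m2, h2⟩ := exists_VGE y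
  rw [coeff_mul_Icc h1 h2]
  refine VGE.sum _ _ fun i _ => ?_
  have h3 := (hx i).mul (hy (j - i))
  rwa [zero_add] at h3

private theorem tI_dO (y : LaurentSeries (LaurentSeries k)) (hy : y ∈ tI k) : dO y ∈ tI k := by
  intro j
  rw [dO_coeff]
  have h1 : VGE 0 ((j : LaurentSeries k)) := by
    obtain ⟨n, rfl | rfl⟩ := Int.eq_nat_or_neg j
    · rw [Int.cast_natCast]
      exact VGE_natCast n
    · rw [Int.cast_neg, Int.cast_natCast]
      exact (VGE_natCast n).neg
  have h2 := h1.mul (hy j)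
  rwa [zero_add] at h2

private theorem mem_of_approx (x y : LaurentSeries (LaurentSeries k)) (i : ℤ)
    (h : VGE (i + 1) (x - y)) (hy : y ∈ tI k) : VGE 1 (x.coeff i) := by
  have h1 := h i (by omega)
  rw [HahnSeries.coeff_sub, sub_eq_zero] at h1
  rw [h1]
  exact hy i

/-- the local ring `k[[t]][[π]]` -/
private def oo (k : Type) [Field k] : Subring (LaurentSeries (LaurentSeries k)) where
  carrier := {z | Reg z ∧ VGE 0 z}
  mul_mem' := fun {x y} hx hy => ⟨hx.1.mul hy.1, by
    have h := hx.2.mul hy.2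
    rwa [add_zero] at h⟩
  one_mem' := ⟨Reg_one, VGE_one⟩
  add_mem' := fun {x y} hx hy => ⟨hx.1.add hy.1, hx.2.add hy.2⟩
  zero_mem' := ⟨Reg_zero, VGE_zero 0⟩
  neg_mem' := fun {x} hx => ⟨hx.1.neg, hx.2.neg⟩

/-- reduction modulo the maximal ideal -/
private noncomputable def chi (k : Type) [Field k] : oo k →+* k where
  toFun z := ((z : LaurentSeries (LaurentSeries k)).coeff 0).coeff 0
  map_zero' := by
    show ((0 : LaurentSeries (LaurentSeries k)).coeff 0).coeff 0 = 0
    rw [HahnSeries.coeff_zero, HahnSeries.coeff_zero]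
  map_one' := by
    show ((1 : LaurentSeries (LaurentSeries k)).coeff 0).coeff 0 = 1
    rw [HahnSeries.coeff_one, if_pos rfl, HahnSeries.coeff_one, if_pos rfl]
  map_add' x y := by
    show (((x : LaurentSeries (LaurentSeries k)) + y).coeff 0).coeff 0 = _
    rw [HahnSeries.coeff_add, HahnSeries.coeff_add]
  map_mul' x y := by
    show (((x : LaurentSeries (LaurentSeries k)) * y).coeff 0).coeff 0 = _
    have h1 := coeff_mul_low x.2.2 y.2.2
    rw [add_zero] at h1
    rw [h1]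
    have h2 := coeff_mul_low (x.2.1 0) (y.2.1 0)
    rw [add_zero] at h2
    exact h2

private theorem chi_apply (z : oo k) :
    chi k z = ((z : LaurentSeries (LaurentSeries k)).coeff 0).coeff 0 := rfl

variable {n : ℕ}

/-- the inverse of a matrix over the local ring which reduces to `1` -/
private theorem inv_reg (V : Matrix (Fin n) (Fin n) (LaurentSeries (LaurentSeries k)))
    (hV : ∀ a b, V a b ∈ oo k)
    (h1 : ∀ a b, ((V a b).coeff 0).coeff 0 = (1 : Matrix (Fin n) (Fin n) k) a b) :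
    IsUnit V.det ∧ ∀ a b, V⁻¹ a b ∈ regS k := by
  let V0 : Matrix (Fin n) (Fin n) (oo k) := fun a b => ⟨V a b, hV a b⟩
  have hV0 : (oo k).subtype.mapMatrix V0 = V := rfl
  have hdet : V.det = (V0.det : LaurentSeries (LaurentSeries k)) := by
    have h2 := RingHom.map_det (oo k).subtype V0
    rw [hV0] at h2
    exact h2.symm
  have hchi : chi k V0.det = 1 := by
    rw [RingHom.map_det]
    have h2 : (chi k).mapMatrix V0 = 1 := by
      ext a b
      rw [RingHom.mapMatrix_apply, Matrix.map_apply, chi_apply]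
      exact h1 a b
    rw [h2, Matrix.det_one]
  have hc : (V.det.coeff 0).coeff 0 ≠ 0 := by
    rw [hdet, ← chi_apply, hchi]
    exact one_ne_zero
  have hmem : V.det ∈ oo k := by
    rw [hdet]
    exact V0.det.2
  have hne : V.det ≠ 0 := by
    intro h0
    rw [h0, HahnSeries.coeff_zero, HahnSeries.coeff_zero] at hc
    exact hc rfl
  have hunit : IsUnit V.det := by
    refine ⟨⟨V.det, V.det⁻¹, mul_inv_cancel₀ hne, inv_mul_cancel₀ hne⟩, rfl⟩
  have hinv : Reg V.det⁻¹ := Reg.inv hmem.1 hmem.2 hc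
  have hadj : V.adjugate = (oo k).subtype.mapMatrix V0.adjugate := by
    have h2 := RingHom.map_adjugate (oo k).subtype V0
    rw [hV0] at h2
    exact h2.symm
  refine ⟨hunit, fun a b => ?_⟩
  have h3 : V⁻¹ a b = V.det⁻¹ * V.adjugate a b := by
    rw [Matrix.inv_def, Ring.inverse_eq_inv']
    rfl
  rw [h3]
  refine Subring.mul_mem _ hinv ?_
  rw [hadj]
  exact (V0.adjugate a b).2.1

/-- `(1/t - U)⁻¹` -/
private theorem inv_lam (U : Matrix (Fin n) (Fin n) (LaurentSeries (LaurentSeries k)))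
    (hU : ∀ a b, U a b ∈ oo k) (a b : Fin n) :
    invL (HahnSeries.C (mo (-1)) : LaurentSeries (LaurentSeries k)) U a b ∈ tI k := by
  set T : LaurentSeries (LaurentSeries k) := HahnSeries.C (mo 1) with hT
  set T' : LaurentSeries (LaurentSeries k) := HahnSeries.C (mo (-1)) with hT'
  have hTT : T' * T = 1 := by
    rw [hT, hT', ← map_mul, mo_mul, neg_add_cancel, mo_zero, map_one]
  have hTo : T ∈ oo k := by
    refine ⟨Reg_C _ ((VGE_mo 1).mono (by omega)), ?_⟩
    exact VGE_C _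
  have hT0 : (T.coeff 0).coeff 0 = 0 := by
    rw [hT, HahnSeries.C_apply, HahnSeries.coeff_single_same, mo_coeff, if_neg (by omega)]
  set V : Matrix (Fin n) (Fin n) (LaurentSeries (LaurentSeries k)) := 1 - T • U with hV
  have hVo : ∀ a b, V a b ∈ oo k := by
    intro a b
    rw [hV, Matrix.sub_apply, Matrix.smul_apply, smul_eq_mul, Matrix.one_apply]
    refine Subring.sub_mem _ ?_ (Subring.mul_mem _ hTo (hU a b))
    split_ifs
    · exact Subring.one_mem _
    · exact Subring.zero_mem _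
  have hV1 : ∀ a b, ((V a b).coeff 0).coeff 0 = (1 : Matrix (Fin n) (Fin n) k) a b := by
    intro a b
    have h3 : ((T * U a b).coeff 0).coeff 0 = 0 := by
      have h1 := coeff_mul_low hTo.2 (hU a b).2
      rw [add_zero] at h1
      rw [h1]
      have h2 := coeff_mul_low (hTo.1 0) ((hU a b).1 0)
      rw [add_zero] at h2
      rw [h2, hT0, zero_mul]
    rw [hV, Matrix.sub_apply, Matrix.smul_apply, smul_eq_mul, Matrix.one_apply, Matrix.one_apply,
      HahnSeries.coeff_sub, HahnSeries.coeff_sub, h3, sub_zero]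
    split_ifs
    · rw [HahnSeries.coeff_one, if_pos rfl, HahnSeries.coeff_one, if_pos rfl]
    · rw [HahnSeries.coeff_zero, HahnSeries.coeff_zero]
  obtain ⟨hu, hinv⟩ := inv_reg V hVo hV1
  have hR : invL T' U = T • V⁻¹ := gen_lam_eq T T' hTT U V hV hu
  rw [hR, Matrix.smul_apply, smul_eq_mul, mul_comm]
  refine tI_mul _ (hinv a b) _ ?_
  intro i
  rw [hT, HahnSeries.C_apply]
  by_cases hi : i = 0
  · rw [hi, HahnSeries.coeff_single_same]
    exact VGE_mo 1
  · rw [HahnSeries.coeff_single_of_ne hi]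
    exact VGE_zero 1

end inf

section gen

variable {ι : Type} [Fintype ι] [DecidableEq ι] {L L' : Type} [Field L] [Field L']
  (R : Subring L') (I : AddSubgroup L') (hIR : ∀ x ∈ I, x ∈ R) (hRI : ∀ x ∈ R, ∀ y ∈ I, x * y ∈ I)
  (φ : L →+* L')

private theorem gen_mulR {M M' : Matrix ι ι L'} (h : ∀ a b, M a b ∈ R)
    (h' : ∀ a b, M' a b ∈ R) (a b : ι) : (M * M') a b ∈ R := by
  rw [Matrix.mul_apply]
  exact Subring.sum_mem _ fun i _ => Subring.mul_mem _ (h _ _) (h' _ _)

include hRI in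
private theorem gen_mulI {M M' : Matrix ι ι L'} (h : ∀ a b, M a b ∈ R)
    (h' : ∀ a b, M' a b ∈ I) (a b : ι) : (M * M') a b ∈ I := by
  rw [Matrix.mul_apply]
  exact sum_mem fun i _ => hRI _ (h _ _) _ (h' _ _)

include hRI in
private theorem gen_mulI' {M M' : Matrix ι ι L'} (h : ∀ a b, M a b ∈ I)
    (h' : ∀ a b, M' a b ∈ R) (a b : ι) : (M * M') a b ∈ I := by
  rw [Matrix.mul_apply]
  refine sum_mem fun i _ => ?_
  rw [mul_comm]
  exact hRI _ (h' _ _) _ (h _ _)

private theorem gen_fac (S : Matrix ι ι L) (a c : L) (ha : φ a ∈ R) (hc : φ c ∈ R)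
    (hS : ∀ i j, φ (S i j) ∈ R) (i j : ι) :
    ((a • (1 : Matrix ι ι L) - c • S).map φ) i j ∈ R := by
  rw [Matrix.map_apply, Matrix.sub_apply, Matrix.smul_apply, Matrix.smul_apply, smul_eq_mul,
    smul_eq_mul, map_sub, map_mul, map_mul, Matrix.one_apply]
  refine Subring.sub_mem _ (Subring.mul_mem _ ha ?_) (Subring.mul_mem _ hc (hS i j))
  split_ifs
  · rw [map_one]
    exact Subring.one_mem _
  · rw [map_zero]
    exact Subring.zero_mem _

include hIR in
private theorem gen_cn (U S B : Matrix ι ι L) (lam a c : L) (ha : φ a ∈ R) (hc : φ c ∈ R)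
    (hS : ∀ i j, φ (S i j) ∈ R) (hB : ∀ i j, φ (B i j) ∈ R)
    (hRn : ∀ i j, φ ((lam • (1 : Matrix ι ι L) - U)⁻¹ i j) ∈ I) (i j : ι) :
    (cn U S B lam a c).map φ i j ∈ R := by
  unfold cn
  rw [Matrix.map_mul, Matrix.map_mul]
  exact gen_mulR R (gen_mulR R (gen_fac R φ S a c ha hc hS) fun i j => hIR _ (hRn i j)) hB i j

include hRI in
private theorem gen_eta (a : L) (S Rn X B Y : Matrix ι ι L) (ha : φ a ∈ R)
    (hS : ∀ i j, φ (S i j) ∈ R) (hRn : ∀ i j, φ (Rn i j) ∈ I) (hRn' : ∀ i j, φ (Rn i j) ∈ R)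
    (hX : ∀ i j, φ (X i j) ∈ R)
    (hB : ∀ i j, φ (B i j) ∈ R) (hY : ∀ i j, φ (Y i j) ∈ R) (i j : ι) :
    ((a • (1 : Matrix ι ι L) - S) * Rn * X * Rn * B - Y * Rn * B).map φ i j ∈ I := by
  have h1 : ∀ i j, (a • (1 : Matrix ι ι L) - S).map φ i j ∈ R := by
    intro i j
    have h2 := gen_fac R φ S a 1 ha (by rw [map_one]; exact Subring.one_mem _) hS i j
    rwa [one_smul] at h2
  rw [Matrix.map_sub _ (map_sub φ), Matrix.map_mul, Matrix.map_mul, Matrix.map_mul,
    Matrix.map_mul, Matrix.map_mul, Matrix.map_mul, Matrix.sub_apply]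
  refine AddSubgroup.sub_mem _ ?_ ?_
  · exact gen_mulI' R I hRI (gen_mulI R I hRI (gen_mulR R (gen_mulR R h1 hRn') hX) hRn) hB i j
  · exact gen_mulI' R I hRI (gen_mulI R I hRI hY hRn) hB i j

private theorem gen_inv (U : Matrix ι ι L) (lam : L)
    (h : IsUnit (lam • (1 : Matrix ι ι L) - U).det) :
    ((lam • (1 : Matrix ι ι L) - U)⁻¹).map φ = invL (φ lam) (U.map φ) := by
  unfold invL
  have h1 : (lam • (1 : Matrix ι ι L)).map φ = φ lam • (1 : Matrix ι ι L') := by
    ext i j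
    rw [Matrix.map_apply, Matrix.smul_apply, Matrix.smul_apply, smul_eq_mul, smul_eq_mul, map_mul,
      Matrix.one_apply, Matrix.one_apply]
    split_ifs
    · rw [map_one]
    · rw [map_zero]
  rw [map_inv_matrix φ _ h, Matrix.map_sub _ (map_sub φ), h1]

private theorem gen_IsS {r : ℕ} (d e : Der L) (d' : Der L') (hφ : ∀ x, d' (φ x) = φ (d x))
    (A A' : Matrix ι ι L) (P : L) (Th : Matrix (Fin r) (Fin r) L) (η η' k : Fin r → Matrix ι ι L)
    (h : IsS d A P Th η k) (h' : IsS e A' 1 0 η' k) :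
    IsS d' (A.map φ) (φ P) (Th.map φ) (fun j => (η j).map φ) (fun j => (k j).map φ) := by
  have h1 := IsS_map φ d e d' 0 (fun x => by rw [zero_mul, zero_add, hφ]) A A' P Th η η' k h h'
  simpa only [zero_smul, add_zero] using h1

private theorem gen_one (Th Thi : Matrix ι ι L)
    (h : Th * Thi = 1) : Th.map φ * Thi.map φ = 1 := by
  rw [← Matrix.map_mul, h, Matrix.map_one φ (map_zero φ) (map_one φ)]

private theorem tw_one_mo {K K' : Type} [Field K] [Field K'] (θ : K →+* K') (m : ℤ) :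
    tw θ 1 (mo m) = mo m := by
  rw [tw_mo, _root_.one_zpow, Units.val_one, map_one, one_mul]

private theorem regS_natCast_mul {k : Type} [Field k] (N : ℕ)
    (z : LaurentSeries (LaurentSeries k)) (hz : Reg z) :
    ((N : LaurentSeries (LaurentSeries k)) * z) ∈ regS k := (Reg_natCast N).mul hz

private theorem map_natCast_mul (N : ℕ) (z : L) : φ ((N : L) * z) = (N : L') * φ z := by
  rw [map_mul, map_natCast]

end gen

private theorem gen_one' {A B : Type} [NonAssocSemiring A] [NonAssocSemiring B] {r : ℕ}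
    (f : A →+* B) (Th Thi : Matrix (Fin r) (Fin r) A) (h : Th * Thi = 1) :
    Th.map f * Thi.map f = 1 := by
  rw [← Matrix.map_mul, h, Matrix.map_one f (map_zero f) (map_one f)]

section main

variable {K k : Type} [Field K] [Field k] {n r : ℕ}

private theorem gen_main (φ : LaurentSeries K →+* LaurentSeries (LaurentSeries k))
    (hφd : ∀ x, dO (φ x) = φ (dO x)) (hφV : ∀ a z, VGE a z → VGE a (φ z))
    (d2 : Der (LaurentSeries K)) (A A' : Matrix (Fin n) (Fin n) (LaurentSeries K))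
    (P : LaurentSeries K) (Th Thi : Matrix (Fin r) (Fin r) (LaurentSeries K))
    (η η' ks : Fin r → Matrix (Fin n) (Fin n) (LaurentSeries K)) (h : IsS dO A P Th η ks)
    (h' : IsS d2 A' 1 0 η' ks) (G : Matrix (Fin n) (Fin n) (LaurentSeries K))
    (hG : IsUnit G.det) (hGA : MVGE 0 (ga dO A G)) (hP : VGE 1 P) (hPR : φ P ∈ regS k)
    (hThi : MVGE 0 Thi) (hThiR : ∀ a b, φ (Thi a b) ∈ regS k) (hinv : Th * Thi = 1)
    (hAR : ∀ a b, φ (A a b) ∈ regS k) (hη : ∀ j a b, φ (η j a b) ∈ tI k) (j : Fin r)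
    (a b : Fin n) : φ (ks j a b) ∈ tI k := by
  have hS := gen_IsS φ dO d2 dO hφd A A' P Th η η' ks h h'
  have hGA' : MVGE 0 (ga dO (A.map φ) (G.map φ)) := by
    rw [ga_map φ dO dO hφd A G hG]
    exact fun a b => hφV _ _ (hGA a b)
  intro i
  obtain ⟨m₀, hm₀⟩ := sol_approx dO (fun a z h => h.outer) (A.map φ) (G.map φ)
    (isUnit_det_map φ G hG) hGA' (φ P) (hφV _ _ hP) (Th.map φ) (Thi.map φ)
    (fun a b => hφV _ _ (hThi a b)) (gen_one φ Th Thi hinv)
    (fun j => (η j).map φ) (fun j => (ks j).map φ) hS (i + 1)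
  have hsit := sit_mem (regS k) (tI k) tI_mul dO tI_dO (A.map φ) hAR (φ P) hPR (Thi.map φ)
    hThiR (fun j => (η j).map φ) hη m₀ j a b
  exact mem_of_approx (φ (ks j a b)) _ i (hm₀ m₀ le_rfl j a b) hsit

end main

section root

variable {n : ℕ} (D : LD n) (N : ℕ) [NeZero N]

private theorem psiInf_lam : psiInf (LD.lamN N []) = HahnSeries.C (mo (-1)) := by
  rw [LD.lamN_nil, psiInf, tw_C, jinf_X]
  rfl

private theorem UK_map : (D.UK N (RatFunc ℂ)).map psiInf = D.UK N LC := by
  ext1 a b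
  exact psiInf_inc N _

private theorem UK_mem (a b : Fin n) : D.UK N LC a b ∈ oo ℂ :=
  ⟨Reg_inc N (D.U a b), D.MVGE_UK N LC a b⟩

private theorem SK_mem (a b : Fin n) : psiInf (D.SK N (RatFunc ℂ) a b) ∈ regS ℂ := by
  have e : psiInf (D.SK N (RatFunc ℂ) a b) = (N : GG) * psiInf (ram N (inc (D.S a b))) :=
    map_natCast_mul (L := FF) (L' := GG) psiInf N (ram N (inc (D.S a b)))
  rw [e, psiInf_inc]
  exact regS_natCast_mul N _ (Reg_inc N _)

private theorem BK_mem (a b : Fin n) : psiInf (D.BK (RatFunc ℂ) a b) ∈ regS ℂ := by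
  have e : psiInf (D.BK (RatFunc ℂ) a b) = HahnSeries.C (HahnSeries.C (D.B a b)) := by
    rw [LD.BK, Matrix.map_apply, psiInf, tw_C, jinf_const]
  rw [e]
  exact Reg_C _ (VGE_C _)

private theorem RN_mem (a b : Fin n) : psiInf (D.RN N [] a b) ∈ tI ℂ := by
  have e := gen_inv (L := FF) (L' := GG) psiInf (D.UK N (RatFunc ℂ)) (LD.lamN N [])
    (D.det_ne N [])
  rw [psiInf_lam, UK_map] at e
  have e2 : (D.RN N []).map psiInf = invL (HahnSeries.C (mo (-1)) : GG) (D.UK N LC) := e
  have e3 : psiInf (D.RN N [] a b) = invL (HahnSeries.C (mo (-1)) : GG) (D.UK N LC) a b :=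
    congrFun (congrFun e2 a) b
  rw [e3]
  exact inv_lam (D.UK N LC) (UK_mem D N) a b

private theorem A1_mem (a b : Fin n) : psiInf (D.A1 N [] a b) ∈ regS ℂ := by
  have h0 : psiInf (dO (LD.lamN N [])) ∈ regS ℂ := by
    rw [LD.dO_lamN_nil, map_zero]
    exact Subring.zero_mem _
  have h1 : psiInf (1 : FF) ∈ regS ℂ := by
    rw [map_one]
    exact Subring.one_mem _
  exact gen_cn (L := FF) (L' := GG) (regS ℂ) (tI ℂ) tI_le psiInf (D.UK N (RatFunc ℂ))
    (D.SK N (RatFunc ℂ)) (D.BK (RatFunc ℂ)) (LD.lamN N []) (dO (LD.lamN N [])) 1 h0 h1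
    (SK_mem D N) (BK_mem D) (RN_mem D N) a b

end root

end Pool.Agent.Helper84.CV

namespace Pool.Agent.Helper84.CV.MD

variable {n : ℕ} {D : LD n} {N : ℕ} [NeZero N] {e : Fin n → ℂ} (M : MD D N e)

private theorem up_mem (z : LC) : psiInf (up z) ∈ regS ℂ := Reg_psiInf_up z

private theorem eta_mem (j : Fin M.r) (a b : Fin n) : psiInf (M.eta1 [] j a b) ∈ tI ℂ := by
  have h0 : psiInf (dO (LD.lamN N [])) ∈ regS ℂ := by
    rw [LD.dO_lamN_nil, map_zero]
    exact Subring.zero_mem _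
  exact gen_eta (L := FF) (L' := GG) (regS ℂ) (tI ℂ) tI_mul psiInf (dO (LD.lamN N []))
    (D.SK N (RatFunc ℂ)) (D.RN N []) ((M.X j).map up) (D.BK (RatFunc ℂ)) ((M.Y j).map up) h0
    (SK_mem D N) (RN_mem D N) (fun a b => tI_le _ (RN_mem D N a b)) (fun a b => up_mem _)
    (BK_mem D) (fun a b => up_mem _) a b

private theorem psi_mo (p : ℕ) : psiInf (mo (p : ℤ)) = mo (p : ℤ) := tw_one_mo (jinf 1) _

private theorem psi_mo_mem (p : ℕ) : psiInf (mo (p : ℤ)) ∈ regS ℂ := by
  rw [psi_mo]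
  exact Reg_mo _

private theorem inv_up : M.Th.map up * M.Thi.map up = 1 :=
  gen_one' (A := LC) (B := FF) up M.Th M.Thi M.inv

theorem inf_solution (k : Fin M.r → Matrix (Fin n) (Fin n) FF) (hk : M.IsSol [] k)
    (j : Fin M.r) (a b : Fin n) (i : ℤ) : VGE 1 (jinf 1 ((k j a b).coeff i)) := by
  obtain ⟨G, hG, hG1, -⟩ := D.adm_root N
  have hP : VGE 1 (mo (M.p : ℤ) : FF) := (VGE_mo (M.p : ℤ)).mono (by have := M.hp; omega)
  have hPm : psiInf (mo (M.p : ℤ)) ∈ regS ℂ := psi_mo_mem M.p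
  have hGA : MVGE 0 (ga dO (D.A1 N []) G) := by
    have h2 : (-((0 : ℕ) : ℤ)) = 0 := by simp
    rw [h2] at hG1
    exact hG1
  have hThi : MVGE 0 (M.Thi.map up) := fun a b => (VGE_up 0 _).2 (M.hThi a b)
  have hinv : M.Th.map up * M.Thi.map up = 1 := M.inv_up
  have h1 := gen_main (K := RatFunc ℂ) (k := ℂ) psiInf dO_psiInf (fun a z h => h.twist _ _)
    (dI rD) (D.A1 N []) (D.A2 N []) (mo (M.p : ℤ)) (M.Th.map up) (M.Thi.map up) (M.eta1 [])
    (M.eta2 []) k hk.1 hk.2 G hG hGA hP hPm hThi (fun a b => up_mem _) hinv (A1_mem D N)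
    (eta_mem M) j a b i
  rw [psiInf_coeff] at h1
  exact h1

end Pool.Agent.Helper84.CV.MD
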