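import Pool.Agent.Helper84.CV.UpB

/-!
# CV-PFrac: partial fractions over `ℂ((τ))` in the variable `λ = w`

Plan. Let `x = HahnSeries.C X ∈ FF` (`= λ` on the root disc). The evaluation `LC[T] → FF`, `T ↦ x`, coefficients through `up`,
is injective (`Lin`); in particular `x - up (r i) ≠ 0`. `partial_fractions`: Lagrange interpolation
(`Lagrange.sum_…`, or directly): a polynomial `F` of degree `< n` over `LC` is `∑_i F(r_i) ∏_(l ≠ i) (T - r_l) / (r_i - r_l)`
(both sides have degree `< n` and agree at the `n` points `r_i`). `pf_lemma`: multiply by the square of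
`f(x) = ∏ (x - up (r i))`: with `f_i = f / (T - r_i)` one gets the polynomial identity `∑ c_i f f_i + ∑ T_il f_i f_l = 0`.
Coefficient of `T^(2n-1)`: `∑ c_i = 0`. Evaluation at `r_i`: `T_ii f_i(r_i)² = 0`. If `c = 0`, coefficient of `T^(2n-2)`:
`∑ T_il = 0`.
-/

set_option autoImplicit false

open Matrix

namespace Pool.Agent.Helper84.CV

/-- the variable -/
private noncomputable def pfX : FF := HahnSeries.C (RatFunc.X : RatFunc ℂ)

/-- evaluation at the variable -/
private noncomputable def pfE : Polynomial LC →+* FF := Polynomial.eval₂RingHom up pfX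

private lemma pfE_X : pfE Polynomial.X = pfX := by
  simp [pfE]

private lemma pfE_C (z : LC) : pfE (Polynomial.C z) = up z := by
  simp [pfE]

private lemma pfE_inj (F : Polynomial LC) (h : pfE F = 0) : F = 0 := by
  have h1 : pfE F = ∑ c : Fin (F.natDegree + 1), pfX ^ (c : ℕ) * up (F.coeff c) := by
    show Polynomial.eval₂ up pfX F = _
    rw [Polynomial.eval₂_eq_sum_range, ← Fin.sum_univ_eq_sum_range
      (fun i => up (F.coeff i) * pfX ^ i) (F.natDegree + 1)]
    exact Finset.sum_congr rfl fun c _ => mul_comm _ _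
  rw [h1] at h
  have h2 := Lin (F.natDegree + 1) (fun c => F.coeff c) h
  refine Polynomial.ext fun i => ?_
  rw [Polynomial.coeff_zero]
  by_cases hi : i < F.natDegree + 1
  · exact congrFun h2 ⟨i, hi⟩
  · exact Polynomial.coeff_eq_zero_of_natDegree_lt (p := F) (n := i) (by omega)

private lemma pfE_lin (z : LC) : pfE (Polynomial.X - Polynomial.C z) = pfX - up z := by
  exact (map_sub pfE Polynomial.X (Polynomial.C z)).trans (by rw [pfE_X, pfE_C])

theorem x_sub_up_ne (z : LC) : (HahnSeries.C (RatFunc.X : RatFunc ℂ) : FF) - up z ≠ 0 := by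
  intro h
  have h1 : pfE (Polynomial.X - Polynomial.C z) = 0 := by
    rw [pfE_lin]
    exact h
  exact Polynomial.X_sub_C_ne_zero z (pfE_inj _ h1)

private lemma pfX_ne (z : LC) : pfX - up z ≠ 0 := x_sub_up_ne z

section

variable {n : ℕ} (r : Fin n → LC)

/-- the product without the factor `i` -/
private noncomputable def pfG (i : Fin n) : Polynomial LC :=
  ∏ l ∈ Finset.univ.erase i, (Polynomial.X - Polynomial.C (r l))

private noncomputable def pfF : Polynomial LC := ∏ l : Fin n, (Polynomial.X - Polynomial.C (r l))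

private lemma pfF_E : pfE (pfF r) = ∏ l, (pfX - up (r l)) := by
  rw [pfF, map_prod]
  exact Finset.prod_congr rfl fun l _ => pfE_lin _

private lemma pfF_ne : (∏ l, (pfX - up (r l))) ≠ 0 :=
  Finset.prod_ne_zero_iff.2 fun l _ => pfX_ne _

private lemma pfG_E (i : Fin n) : pfE (pfG r i) = (∏ l, (pfX - up (r l))) * (pfX - up (r i))⁻¹ := by
  have key : (pfX - up (r i)) * (pfX - up (r i))⁻¹ = 1 := by
    have h0 : pfX - up (r i) ≠ 0 := pfX_ne _
    exact mul_inv_cancel₀ (G₀ := FF) (a := pfX - up (r i)) h0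
  rw [pfG, map_prod, ← Finset.mul_prod_erase Finset.univ _ (Finset.mem_univ i)]
  rw [mul_comm (pfX - up (r i)), mul_assoc, key, mul_one]
  exact Finset.prod_congr rfl fun l _ => pfE_lin _

private lemma pfF_monic : (pfF r).Monic :=
  Polynomial.monic_prod_of_monic _ _ fun _ _ => Polynomial.monic_X_sub_C _

private lemma pfG_monic (i : Fin n) : (pfG r i).Monic :=
  Polynomial.monic_prod_of_monic _ _ fun _ _ => Polynomial.monic_X_sub_C _

private lemma pfF_deg : (pfF r).natDegree = n := by
  rw [pfF, Polynomial.natDegree_prod_of_monic _ _ fun _ _ => Polynomial.monic_X_sub_C _]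
  simp

private lemma pfG_deg (i : Fin n) : (pfG r i).natDegree = n - 1 := by
  rw [pfG, Polynomial.natDegree_prod_of_monic _ _ fun _ _ => Polynomial.monic_X_sub_C _]
  simp

private lemma pfF_eval (i : Fin n) : (pfF r).eval (r i) = 0 := by
  rw [pfF, Polynomial.eval_prod]
  exact Finset.prod_eq_zero (Finset.mem_univ i) (by simp)

private lemma pfG_eval_ne {i j : Fin n} (h : j ≠ i) : (pfG r j).eval (r i) = 0 := by
  rw [pfG, Polynomial.eval_prod]
  exact Finset.prod_eq_zero (Finset.mem_erase.2 ⟨h.symm, Finset.mem_univ i⟩) (by simp)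

private lemma pfG_eval_self (hr : Function.Injective r) (i : Fin n) :
    (pfG r i).eval (r i) ≠ 0 := by
  rw [pfG, Polynomial.eval_prod, Finset.prod_ne_zero_iff]
  intro l hl
  have h1 : l ≠ i := (Finset.mem_erase.1 hl).1
  simp only [Polynomial.eval_sub, Polynomial.eval_X, Polynomial.eval_C]
  exact sub_ne_zero.2 fun h => h1 (hr h).symm

private lemma pf_lagrange (hr : Function.Injective r) (F : Polynomial LC) (hF : F.degree < n) :
    F = ∑ i, Polynomial.C (F.eval (r i) * ∏ l ∈ Finset.univ.erase i, (r i - r l)⁻¹) * pfG r i := by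
  have h1 := Lagrange.eq_interpolate (s := (Finset.univ : Finset (Fin n))) (v := r) (f := F)
    (hr.injOn) (by simpa using hF)
  conv_lhs => rw [h1]
  rw [Lagrange.interpolate_apply]
  refine Finset.sum_congr rfl fun i _ => ?_
  rw [Lagrange.basis, map_mul, mul_assoc]
  congr 1
  rw [pfG, map_prod, ← Finset.prod_mul_distrib]
  exact Finset.prod_congr rfl fun l _ => rfl

end

theorem partial_fractions {n : ℕ} (r : Fin n → LC) (hr : Function.Injective r) (z : FF)
    (H : Fin n → LC)
    (h : (∏ i, ((HahnSeries.C (RatFunc.X : RatFunc ℂ) : FF) - up (r i))) * z =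
      ∑ c : Fin n, (HahnSeries.C (RatFunc.X : RatFunc ℂ) : FF) ^ (c : ℕ) * up (H c)) :
    ∃ κ : Fin n → LC,
      z = ∑ i, up (κ i) * ((HahnSeries.C (RatFunc.X : RatFunc ℂ) : FF) - up (r i))⁻¹ := by
  set F : Polynomial LC := ∑ c : Fin n, Polynomial.C (H c) * Polynomial.X ^ (c : ℕ) with hF
  have hdeg : F.degree < n := by
    rw [hF]
    refine (Polynomial.degree_sum_fin_lt _)
  have hE : pfE F = (∏ i, (pfX - up (r i))) * z := by
    refine Eq.trans ?_ h.symm
    rw [hF, map_sum]
    refine Finset.sum_congr rfl fun c _ => ?_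
    rw [map_mul, map_pow, pfE_X, pfE_C, mul_comm]
    rfl
  refine ⟨fun i => F.eval (r i) * ∏ l ∈ Finset.univ.erase i, (r i - r l)⁻¹, ?_⟩
  refine mul_left_cancel₀ (pfF_ne r) ?_
  rw [← hE]
  conv_lhs => rw [pf_lagrange r hr F hdeg]
  rw [map_sum, Finset.mul_sum]
  refine Finset.sum_congr rfl fun i _ => ?_
  rw [map_mul, pfE_C, pfG_E]
  simp only [pfX]
  ring

theorem pf_lemma {n : ℕ} (r : Fin n → LC) (hr : Function.Injective r) (c : Fin n → LC)
    (T : Fin n → Fin n → LC)
    (h : ∑ i, up (c i) * ((HahnSeries.C (RatFunc.X : RatFunc ℂ) : FF) - up (r i))⁻¹ +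
      ∑ i, ∑ l, up (T i l) * (((HahnSeries.C (RatFunc.X : RatFunc ℂ) : FF) - up (r i))⁻¹ *
        ((HahnSeries.C (RatFunc.X : RatFunc ℂ) : FF) - up (r l))⁻¹) = 0) :
    ∑ i, c i = 0 ∧ (∀ i, T i i = 0) ∧ (c = 0 → ∑ i, ∑ l, T i l = 0) := by
  change ∑ i, up (c i) * (pfX - up (r i))⁻¹ +
      ∑ i, ∑ l, up (T i l) * ((pfX - up (r i))⁻¹ * (pfX - up (r l))⁻¹) = 0 at h
  set P : Polynomial LC := ∑ i, Polynomial.C (c i) * (pfF r * pfG r i) +
    ∑ i, ∑ l, Polynomial.C (T i l) * (pfG r i * pfG r l) with hP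
  have hP0 : P = 0 := by
    refine pfE_inj P ?_
    have h1 : pfE P = (∏ l, (pfX - up (r l))) ^ 2 *
        (∑ i, up (c i) * (pfX - up (r i))⁻¹ +
          ∑ i, ∑ l, up (T i l) * ((pfX - up (r i))⁻¹ * (pfX - up (r l))⁻¹)) := by
      rw [hP, map_add, map_sum, map_sum, mul_add, Finset.mul_sum, Finset.mul_sum]
      congr 1
      · refine Finset.sum_congr rfl fun i _ => ?_
        rw [map_mul, map_mul, pfE_C, pfF_E, pfG_E]
        ring
      · refine Finset.sum_congr rfl fun i _ => ?_
        rw [map_sum, Finset.mul_sum]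
        refine Finset.sum_congr rfl fun l _ => ?_
        rw [map_mul, map_mul, pfE_C, pfG_E, pfG_E]
        ring
    rw [h1, h, mul_zero]
  have hcoef : ∀ k, P.coeff k = ∑ i, c i * (pfF r * pfG r i).coeff k +
      ∑ i, ∑ l, T i l * (pfG r i * pfG r l).coeff k := by
    intro k
    rw [hP, Polynomial.coeff_add, Polynomial.finsetSum_coeff, Polynomial.finsetSum_coeff]
    simp only [Polynomial.finsetSum_coeff, Polynomial.coeff_C_mul]
  have hFG : ∀ i, (pfF r * pfG r i).coeff (n + (n - 1)) = 1 := by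
    intro i
    have h1 : (pfF r * pfG r i).natDegree = n + (n - 1) := by
      rw [(pfF_monic r).natDegree_mul (pfG_monic r i), pfF_deg, pfG_deg]
    rw [← h1]
    exact ((pfF_monic r).mul (pfG_monic r i)).coeff_natDegree
  have hGGdeg : ∀ i l, (pfG r i * pfG r l).natDegree = (n - 1) + (n - 1) := by
    intro i l
    rw [(pfG_monic r i).natDegree_mul (pfG_monic r l), pfG_deg, pfG_deg]
  have hGG : ∀ i l, (pfG r i * pfG r l).coeff ((n - 1) + (n - 1)) = 1 := by
    intro i l
    rw [← hGGdeg i l]
    exact ((pfG_monic r i).mul (pfG_monic r l)).coeff_natDegree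
  have hGG' : ∀ i l : Fin n, (pfG r i * pfG r l).coeff (n + (n - 1)) = 0 := by
    intro i l
    refine Polynomial.coeff_eq_zero_of_natDegree_lt ?_
    rw [hGGdeg]
    have := i.pos
    omega
  refine ⟨?_, ?_, ?_⟩
  · have h1 := hcoef (n + (n - 1))
    rw [hP0, Polynomial.coeff_zero] at h1
    simp only [hFG, hGG', mul_one, mul_zero, Finset.sum_const_zero, add_zero] at h1
    exact h1.symm
  · intro i
    have h1 : P.eval (r i) = 0 := by rw [hP0, Polynomial.eval_zero]
    rw [hP, Polynomial.eval_add, Polynomial.eval_finsetSum, Polynomial.eval_finsetSum] at h1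
    have h2 : ∀ j ∈ (Finset.univ : Finset (Fin n)),
        Polynomial.eval (r i) (Polynomial.C (c j) * (pfF r * pfG r j)) = 0 := by
      intro j _
      rw [Polynomial.eval_mul, Polynomial.eval_mul, pfF_eval, zero_mul, mul_zero]
    rw [Finset.sum_eq_zero h2, zero_add, Finset.sum_eq_single i] at h1
    · rw [Polynomial.eval_finsetSum, Finset.sum_eq_single i] at h1
      · rw [Polynomial.eval_mul, Polynomial.eval_mul, Polynomial.eval_C] at h1
        rcases mul_eq_zero.1 h1 with h3 | h3
        · exact h3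
        · exact absurd (mul_self_eq_zero.1 h3) (pfG_eval_self r hr i)
      · intro l _ hl
        rw [Polynomial.eval_mul, Polynomial.eval_mul, pfG_eval_ne r hl, mul_zero, mul_zero]
      · intro h3
        exact absurd (Finset.mem_univ i) h3
    · intro j _ hj
      rw [Polynomial.eval_finsetSum]
      refine Finset.sum_eq_zero fun l _ => ?_
      rw [Polynomial.eval_mul, Polynomial.eval_mul, pfG_eval_ne r hj, zero_mul, mul_zero]
    · intro h3
      exact absurd (Finset.mem_univ i) h3
  · intro hc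
    have h1 := hcoef ((n - 1) + (n - 1))
    rw [hP0, Polynomial.coeff_zero] at h1
    simp only [hc, Pi.zero_apply, zero_mul, Finset.sum_const_zero, zero_add, hGG, mul_one] at h1
    exact h1.symm

end Pool.Agent.Helper84.CV
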