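import Pool.Agent.Helper84.CV.B2
import Pool.Agent.Helper84.CV.RelB
import Pool.Agent.Helper84.CV.CharInt

/-!
# CV-LN: the leading term is regular at a node

Notation: side a: `k((u))((v))`, side b: `k((v))((u))`, `τ = u v` on both sides (`HahnSeries.single 1 (single 1 1)`),
derivation `∂` = `v d/dv` (`dO` on side a, `dI dO` on side b: `Rel.outer`). `T = τ^q (∂ + A)` acts on the pairs
`(z_a, z_b)` of vectors with `Rel` entries. On side a it maps `G_a O_a^n`, `O_a = k((u))[[v]]`, to itself: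
`T (G_a y) = G_a (u^q v^q (∂ y + ga dO A_a G_a y))`, with coefficient of `v^0` equal to `Θ y(0)` for `y ∈ O_a^n`,
`Θ = u^q co (-q) (ga dO A_a G_a)`. On side b it maps `G_b O_b^n`, `O_b = k((v))[[u]]`, to itself (`u^q` and `hb`).

Let `P` = set of the `y(0) ∈ k((u))^n` for `y ∈ O_a^n` such that `z_a = G_a y` has a partner `z_b` (`Rel`) with
`z_b ∈ G_b O_b^n`. `P` is a `k[[u]]`-submodule (multiply by `f(u)`: `Rel` for `C f` and the partner of
`exists_Rel_single f 0`, in `O_b`), stable under `Θ`.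
Bounded: `z_b ∈ G_b O_b^n` has valuation `≥ -c` in `u`, so all exponents of `u` in `z_a` are `≥ -c`; the exponents of `v`
are `≥ -c` by `z_a = G_a y`; `y(0) = ∑_j (coefficient of G_a⁻¹ of index -j) (coefficient of z_a of index j)`, finite sum.
Full: `c` a bound for `G_a, G_a⁻¹, G_b, G_b⁻¹`, `M = c + 1`, `v₀ ∈ k((u))^n` of valuation `≥ K`, `K` large: `z_a` = truncation
of `G_a v₀` at order `M` in `v`: a finite sum of `single j c_j`, where `c_j ∈ k((u))^n` has valuation `≥ c`; its partner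
`z_b` (`exists_Rel_single`) has valuation `≥ c` in `u`, so `G_b⁻¹ z_b ∈ O_b^n`. `y = G_a⁻¹ z_a` has `y(0) = v₀`.
Then `charpoly_int`. Second part: now `T z_b = u^q v^q G_b (∂ x + ga x)` for `z_b = G_b x` with `q ≥ 1`, of the form
`u z'`, `z' ∈ G_b O_b^n`; put `u⁻¹ (T z_a, T z_b)`: it is in the same set (`u` is a unit on side a), so
`Θ P ⊆ u P`: `charpoly_small`.
-/

set_option autoImplicit false

open Matrix

namespace Pool.Agent.Helper84.CV

section gen

variable {n : ℕ} {L : Type} [Field L]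

private theorem g_smul (G : Matrix (Fin n) (Fin n) L) (t : L) (y : Fin n → L) (i : Fin n) :
    (G.mulVec fun l => t * y l) i = t * (G.mulVec y) i := by
  have h3 : (fun l => t * y l) = t • y := rfl
  rw [h3, Matrix.mulVec_smul]
  rfl

private theorem g_T (d : Der L) (A G : Matrix (Fin n) (Fin n) L) (hG : IsUnit G.det) (t : L)
    (y : Fin n → L) (i : Fin n) :
    (G.mulVec fun l => t * (d (y l) + ((ga d A G).mulVec y) l)) i =
      t * (d ((G.mulVec y) i) + (A.mulVec (G.mulVec y)) i) := by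
  have h1 : G.mulVec ((ga d A G).mulVec y) = (dM d G).mulVec y + A.mulVec (G.mulVec y) := by
    rw [Matrix.mulVec_mulVec, ga, ← Matrix.mul_assoc, Matrix.mul_nonsing_inv _ hG, Matrix.one_mul,
      Matrix.add_mulVec, Matrix.mulVec_mulVec]
  have h2 : d ((G.mulVec y) i) = (G.mulVec fun l => d (y l)) i + ((dM d G).mulVec y) i := by
    simp only [Matrix.mulVec, dotProduct, map_sum, d.leib, Finset.sum_add_distrib, dM_apply]
  have h3 : (fun l => d (y l) + ((ga d A G).mulVec y) l) =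
      (fun l => d (y l)) + (ga d A G).mulVec y := rfl
  rw [g_smul, h3, Matrix.mulVec_add, h1, Pi.add_apply, Pi.add_apply, h2]
  ring

private theorem g_inv (G : Matrix (Fin n) (Fin n) L) (hG : IsUnit G.det) (y : Fin n → L) :
    (G⁻¹).mulVec (G.mulVec y) = y := by
  rw [Matrix.mulVec_mulVec, Matrix.nonsing_inv_mul _ hG, Matrix.one_mulVec]

private theorem g_inv' (G : Matrix (Fin n) (Fin n) L) (hG : IsUnit G.det) (y : Fin n → L) :
    G.mulVec ((G⁻¹).mulVec y) = y := by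
  rw [Matrix.mulVec_mulVec, Matrix.mul_nonsing_inv _ hG, Matrix.one_mulVec]

private theorem g_sub (G : Matrix (Fin n) (Fin n) L) (x y : Fin n → L) (i : Fin n) :
    (G.mulVec fun l => x l - y l) i = (G.mulVec x) i - (G.mulVec y) i := by
  have h3 : (fun l => x l - y l) = x - y := rfl
  rw [h3, Matrix.mulVec_sub]
  rfl

end gen

section wrap

variable {n : ℕ} {K : Type} [Field K]

private noncomputable def mv (G : Matrix (Fin n) (Fin n) (LaurentSeries K))
    (y : Fin n → LaurentSeries K) : Fin n → LaurentSeries K := G.mulVec y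

private noncomputable def iv (G : Matrix (Fin n) (Fin n) (LaurentSeries K)) :
    Matrix (Fin n) (Fin n) (LaurentSeries K) := G⁻¹

private theorem mv_eq (G : Matrix (Fin n) (Fin n) (LaurentSeries K))
    (y : Fin n → LaurentSeries K) (i : Fin n) : mv G y i = ∑ l, G i l * y l := rfl

private theorem mv_T (d : Der (LaurentSeries K)) (A G : Matrix (Fin n) (Fin n) (LaurentSeries K))
    (hG : IsUnit G.det) (t : LaurentSeries K) (y : Fin n → LaurentSeries K) (i : Fin n) :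
    (mv G fun l => t * (d (y l) + (mv (ga d A G) y) l)) i =
      t * (d ((mv G y) i) + (mv A (mv G y)) i) := g_T d A G hG t y i

private theorem mv_iv (G : Matrix (Fin n) (Fin n) (LaurentSeries K))
    (hG : IsUnit G.det) (y : Fin n → LaurentSeries K) : mv G (mv (iv G) y) = y := g_inv' G hG y

private theorem iv_mv (G : Matrix (Fin n) (Fin n) (LaurentSeries K))
    (hG : IsUnit G.det) (y : Fin n → LaurentSeries K) : mv (iv G) (mv G y) = y := g_inv G hG y

private theorem mv_sub (G : Matrix (Fin n) (Fin n) (LaurentSeries K))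
    (x y : Fin n → LaurentSeries K) (i : Fin n) : (mv G fun l => x l - y l) i = mv G x i - mv G y i :=
  g_sub G x y i

private theorem mv_smul (G : Matrix (Fin n) (Fin n) (LaurentSeries K)) (t : LaurentSeries K)
    (y : Fin n → LaurentSeries K) (i : Fin n) : (mv G fun l => t * y l) i = t * mv G y i :=
  g_smul G t y i

private theorem mv_VGE {a b : ℤ} {G : Matrix (Fin n) (Fin n) (LaurentSeries K)}
    {y : Fin n → LaurentSeries K} (h : MVGE a G) (h' : ∀ i, VGE b (y i)) (i : Fin n) :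
    VGE (a + b) (mv G y i) := MVGE.mulVec h h' i

private theorem iv_bound (G : Matrix (Fin n) (Fin n) (LaurentSeries K)) :
    ∃ k : ℕ, MVGE (-(k : ℤ)) G ∧ MVGE (-(k : ℤ)) (iv G) := exists_bound G

private theorem mv_coeff {a b : ℤ} {G : Matrix (Fin n) (Fin n) (LaurentSeries K)}
    {y : Fin n → LaurentSeries K} (h : MVGE a G) (h' : ∀ i, VGE b (y i)) (i : Fin n) :
    (mv G y i).coeff (a + b) = ((co a G).mulVec fun l => (y l).coeff b) i := by
  rw [mv_eq, HahnSeries.coeff_sum]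
  exact Finset.sum_congr rfl (fun l _ => coeff_mul_low (h i l) (h' l))

end wrap

section aux

variable {n : ℕ}

private theorem nd_bound (M : Matrix (Fin n) (Fin n) GG) (a b : ℤ) :
    ∃ e : ℤ, ∀ i l, ∀ j ∈ Finset.Icc a b, VGE e ((M i l).coeff j) := by
  choose f hf using fun z : LC => exists_VGE z
  obtain ⟨e, he⟩ := (Set.finite_range (fun p : Fin n × Fin n × (Finset.Icc a b) =>
    f ((M p.1 p.2.1).coeff p.2.2))).bddBelow
  exact ⟨e, fun i l j hj => (hf _).mono (he ⟨(i, l, ⟨j, hj⟩), rfl⟩)⟩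

private theorem nd_VGE_single (m : ℤ) (c : LC) : VGE m (HahnSeries.single m c : GG) := by
  intro j hj
  exact HahnSeries.coeff_single_of_ne (ne_of_lt hj)

/-- the set of the leading terms -/
private def NP (Ga Gb : Matrix (Fin n) (Fin n) GG) (w : Fin n → LC) : Prop :=
  ∃ y x : Fin n → GG, (∀ i, VGE 0 (y i)) ∧ (∀ i, (y i).coeff 0 = w i) ∧ (∀ i, VGE 0 (x i)) ∧
    ∀ i, Rel (mv Ga y i) (mv Gb x i)

private theorem mv_zero (G : Matrix (Fin n) (Fin n) GG) (i : Fin n) : mv G 0 i = 0 := by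
  rw [mv_eq]
  refine Finset.sum_eq_zero (fun l _ => ?_)
  rw [Pi.zero_apply, mul_zero]

private theorem mv_add (G : Matrix (Fin n) (Fin n) GG) (x y : Fin n → GG) (i : Fin n) :
    mv G (x + y) i = mv G x i + mv G y i := by
  rw [mv_eq, mv_eq, mv_eq, ← Finset.sum_add_distrib]
  refine Finset.sum_congr rfl (fun l _ => ?_)
  rw [Pi.add_apply, mul_add]

private theorem NP_zero (Ga Gb : Matrix (Fin n) (Fin n) GG) : NP Ga Gb 0 := by
  refine ⟨0, 0, fun i => VGE_zero 0, fun i => rfl, fun i => VGE_zero 0, fun i => ?_⟩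
  rw [mv_zero, mv_zero]
  exact Rel_zero

private theorem NP_add (Ga Gb : Matrix (Fin n) (Fin n) GG) {w w' : Fin n → LC}
    (h : NP Ga Gb w) (h' : NP Ga Gb w') : NP Ga Gb (w + w') := by
  obtain ⟨y, x, h1, h2, h3, h4⟩ := h
  obtain ⟨y', x', h1', h2', h3', h4'⟩ := h'
  refine ⟨y + y', x + x', fun i => (h1 i).add (h1' i), fun i => ?_, fun i => (h3 i).add (h3' i),
    fun i => ?_⟩
  · rw [Pi.add_apply, Pi.add_apply, HahnSeries.coeff_add, h2, h2']
  · rw [mv_add, mv_add]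
    exact (h4 i).add (h4' i)

private theorem nd_coeff0 (c : LC) (y : GG) (hy : VGE 0 y) :
    ((HahnSeries.single 0 c : GG) * y).coeff 0 = c * y.coeff 0 := by
  have h := coeff_mul_low (nd_VGE_single 0 c) hy
  rw [add_zero] at h
  rw [h, HahnSeries.coeff_single_same]

private theorem VGE_ofPS (f : PowerSeries ℂ) : VGE 0 (HahnSeries.ofPowerSeries ℤ ℂ f : LC) := by
  intro j hj
  have h := PowerSeries.coeff_coe f (i := j)
  rw [if_pos hj] at h
  exact h

private theorem NP_smul (Ga Gb : Matrix (Fin n) (Fin n) GG) {w : Fin n → LC}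
    (h : NP Ga Gb w) (f : PowerSeries ℂ) : NP Ga Gb (f • w) := by
  obtain ⟨y, x, h1, h2, h3, h4⟩ := h
  obtain ⟨b, hb1, hb2⟩ := exists_Rel_single (HahnSeries.ofPowerSeries ℤ ℂ f : LC) 0
  have hb := hb2 0 (VGE_ofPS f)
  refine ⟨fun l => HahnSeries.single 0 (HahnSeries.ofPowerSeries ℤ ℂ f : LC) * y l,
    fun l => b * x l, fun i => ?_, fun i => ?_, fun i => ?_, fun i => ?_⟩
  · have := (nd_VGE_single 0 (HahnSeries.ofPowerSeries ℤ ℂ f : LC)).mul (h1 i)
    rwa [add_zero] at this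
  · rw [nd_coeff0 _ _ (h1 i), h2, Pi.smul_apply, Algebra.smul_def]
    rfl
  · have := hb.mul (h3 i)
    rwa [add_zero] at this
  · rw [mv_smul, mv_smul]
    exact hb1.mul (h4 i)

/-- the lattice of the leading terms -/
private def NPS (Ga Gb : Matrix (Fin n) (Fin n) GG) :
    Submodule (PowerSeries ℂ) (Fin n → LaurentSeries ℂ) where
  carrier := {w | NP Ga Gb w}
  zero_mem' := NP_zero Ga Gb
  add_mem' h h' := NP_add Ga Gb h h'
  smul_mem' f _ h := NP_smul Ga Gb h f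

private theorem NP_T (Aa Ab Ga Gb : Matrix (Fin n) (Fin n) GG) (hrel : MRel Aa Ab)
    (hGa : IsUnit Ga.det) (hGb : IsUnit Gb.det) (q : ℕ) (hq : 0 < q)
    (ha : MVGE (-(q : ℤ)) (ga dO Aa Ga)) (e : ℤ) (he : e ≤ q)
    (hb : MVGE (-(q : ℤ) + e) (ga (dI dO) Ab Gb)) {w : Fin n → LC} (hw : NP Ga Gb w) :
    ∃ y x : Fin n → GG, (∀ i, VGE 0 (y i)) ∧
      (∀ i, (y i).coeff 0 = (mo (q : ℤ) : LC) * ((co (-(q : ℤ)) (ga dO Aa Ga)).mulVec w) i) ∧
      (∀ i, VGE e (x i)) ∧ ∀ i, Rel (mv Ga y i) (mv Gb x i) := by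
  obtain ⟨y, x, h1, h2, h3, h4⟩ := hw
  have hs : ∀ l, VGE (-(q : ℤ)) (dO (y l) + mv (ga dO Aa Ga) y l) := by
    intro l
    refine VGE.add ((h1 l).outer.mono (by omega)) ?_
    have := mv_VGE ha h1 l
    rwa [add_zero] at this
  have hs' : ∀ l, VGE (-(q : ℤ) + e) (dI dO (x l) + mv (ga (dI dO) Ab Gb) x l) := by
    intro l
    refine VGE.add (((h3 l).inner dO).mono (by omega)) ?_
    have := mv_VGE hb h3 l
    rwa [add_zero] at this
  refine ⟨fun l => (HahnSeries.single (q : ℤ) (HahnSeries.single (q : ℤ) (1 : ℂ)) : GG) *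
      (dO (y l) + mv (ga dO Aa Ga) y l),
    fun l => (HahnSeries.single (q : ℤ) (HahnSeries.single (q : ℤ) (1 : ℂ)) : GG) *
      (dI dO (x l) + mv (ga (dI dO) Ab Gb) x l), fun i => ?_, fun i => ?_, fun i => ?_,
      fun i => ?_⟩
  · have := (nd_VGE_single (q : ℤ) (HahnSeries.single (q : ℤ) (1 : ℂ))).mul (hs i)
    rwa [add_neg_cancel] at this
  · have h6 := coeff_mul_low (nd_VGE_single (q : ℤ) (HahnSeries.single (q : ℤ) (1 : ℂ))) (hs i)
    rw [add_neg_cancel, HahnSeries.coeff_single_same] at h6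
    have h7 := mv_coeff ha h1 i
    rw [add_zero] at h7
    rw [h6, HahnSeries.coeff_add, (h1 i).outer _ (by omega), zero_add, h7]
    have h8 : (fun l => (y l).coeff 0) = w := funext h2
    rw [h8]
    rfl
  · have := (nd_VGE_single (q : ℤ) (HahnSeries.single (q : ℤ) (1 : ℂ))).mul (hs' i)
    rwa [add_neg_cancel_left] at this
  · rw [mv_T dO Aa Ga hGa, mv_T (dI dO) Ab Gb hGb]
    refine (Rel_monomial (q : ℤ) (q : ℤ) (1 : ℂ)).mul (Rel.add (h4 i).outer ?_)
    rw [mv_eq, mv_eq]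
    exact Rel.sum _ _ _ (fun l _ => (hrel i l).mul (h4 l))

private theorem NP_bdd (Ga Gb : Matrix (Fin n) (Fin n) GG) (hGa : IsUnit Ga.det) :
    ∃ b : ℤ, ∀ w : Fin n → LC, NP Ga Gb w → ∀ i, VGE b (w i) := by
  obtain ⟨c, hc1, hc2⟩ := iv_bound Ga
  obtain ⟨c', hc3, -⟩ := iv_bound Gb
  obtain ⟨e, he⟩ := nd_bound (iv Ga) (-(c : ℤ)) (0 - (-(c : ℤ)))
  refine ⟨e + -(c' : ℤ), fun w hw i => ?_⟩
  obtain ⟨y, x, h1, h2, h3, h4⟩ := hw
  have hzb : ∀ l, VGE (-(c' : ℤ)) (mv Gb x l) := by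
    intro l
    have := mv_VGE hc3 h3 l
    rwa [add_zero] at this
  have hza : ∀ l, VGE (-(c : ℤ)) (mv Ga y l) := by
    intro l
    have := mv_VGE hc1 h1 l
    rwa [add_zero] at this
  have hza' : ∀ l j, VGE (-(c' : ℤ)) ((mv Ga y l).coeff j) := by
    intro l j m hm
    rw [h4 l m j, hzb l m hm]
    rfl
  have hy : y i = mv (iv Ga) (mv Ga y) i := (congrFun (iv_mv Ga hGa y) i).symm
  rw [← h2 i, hy, mv_eq, HahnSeries.coeff_sum]
  refine VGE.sum _ _ (fun l _ => ?_)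
  rw [coeff_mul_Icc (hc2 i l) (hza l)]
  exact VGE.sum _ _ (fun j hj => (he i l j hj).mul (hza' l _))

private theorem NP_full (Ga Gb : Matrix (Fin n) (Fin n) GG) (hGa : IsUnit Ga.det)
    (hGb : IsUnit Gb.det) :
    ∃ a : ℤ, ∀ w : Fin n → LC, (∀ i, VGE a (w i)) → NP Ga Gb w := by
  obtain ⟨c, hc1, hc2⟩ := iv_bound Ga
  obtain ⟨c', -, hc4⟩ := iv_bound Gb
  obtain ⟨e, he⟩ := nd_bound Ga (-(c : ℤ)) ((c : ℤ) + 1)
  refine ⟨(c' : ℤ) - e, fun w hw => ?_⟩
  -- the constant vector `w`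
  obtain ⟨W, hW⟩ : ∃ W : Fin n → GG, ∀ l, W l = HahnSeries.single 0 (w l) := ⟨_, fun l => rfl⟩
  have hC : ∀ l, VGE 0 (W l) := fun l => by
    rw [hW]
    exact nd_VGE_single 0 (w l)
  have hz0 : ∀ i, VGE (-(c : ℤ)) (mv Ga W i) := by
    intro i
    have := mv_VGE hc1 hC i
    rwa [add_zero] at this
  have hcoef : ∀ i, ∀ j ∈ Finset.Ico (-(c : ℤ)) ((c : ℤ) + 1),
      VGE (c' : ℤ) ((mv Ga W i).coeff j) := by
    intro i j hj
    rw [mv_eq, HahnSeries.coeff_sum]
    refine VGE.sum _ _ (fun l _ => ?_)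
    have h1 : (Ga i l * W l).coeff j = w l * (Ga i l).coeff j := by
      have h3 : Ga i l * W l = HahnSeries.C (w l) * Ga i l := by
        rw [hW]
        exact mul_comm (Ga i l) _
      rw [h3]
      exact coeff_C_mul (w l) (Ga i l) j
    rw [h1, mul_comm]
    rw [Finset.mem_Ico] at hj
    have h2 := (he i l j (Finset.mem_Icc.2 ⟨hj.1, hj.2.le⟩)).mul (hw l)
    rwa [add_sub_cancel] at h2
  choose zb hzb1 hzb2 using fun (i : Fin n) (j : ℤ) => exists_Rel_single ((mv Ga W i).coeff j) j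
  -- truncations
  obtain ⟨za, hza⟩ : ∃ za : Fin n → GG, ∀ i, za i = ∑ j ∈ Finset.Ico (-(c : ℤ)) ((c : ℤ) + 1),
      HahnSeries.single j ((mv Ga W i).coeff j) := ⟨_, fun i => rfl⟩
  obtain ⟨zb', hzb'⟩ : ∃ zb' : Fin n → GG, ∀ i, zb' i =
      ∑ j ∈ Finset.Ico (-(c : ℤ)) ((c : ℤ) + 1), zb i j := ⟨_, fun i => rfl⟩
  have hrel : ∀ i, Rel (za i) (zb' i) := by
    intro i
    rw [hza, hzb']
    exact Rel.sum _ _ _ (fun j _ => hzb1 i j)
  have hzbV : ∀ i, VGE (c' : ℤ) (zb' i) := by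
    intro i
    rw [hzb']
    exact VGE.sum _ _ (fun j hj => hzb2 i j _ (hcoef i j hj))
  have htail : ∀ i, VGE ((c : ℤ) + 1) (mv Ga W i - za i) := by
    intro i
    rw [hza]
    exact exists_trunc (hz0 i) _
  have hyv : ∀ i, mv (iv Ga) za i = W i - mv (iv Ga) (fun i => mv Ga W i - za i) i := by
    intro i
    have h1 := mv_sub (iv Ga) (mv Ga W) za i
    have h2 := congrFun (iv_mv Ga hGa W) i
    rw [h1, h2]
    exact (sub_sub_cancel (W i) _).symm
  have htail' : ∀ i, VGE 1 (mv (iv Ga) (fun i => mv Ga W i - za i) i) := by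
    intro i
    have := mv_VGE hc2 htail i
    rwa [neg_add_cancel_left] at this
  refine ⟨mv (iv Ga) za, mv (iv Gb) zb', fun i => ?_, fun i => ?_, fun i => ?_, fun i => ?_⟩
  · rw [hyv]
    exact (hC i).sub ((htail' i).mono (by norm_num))
  · rw [hyv, HahnSeries.coeff_sub, htail' i 0 (by norm_num), sub_zero, hW,
      HahnSeries.coeff_single_same]
  · have := mv_VGE hc4 hzbV i
    rwa [neg_add_cancel] at this
  · rw [mv_iv Ga hGa, mv_iv Gb hGb]
    exact hrel i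

end aux

theorem node_regular {n : ℕ} (Aa Ab Ga Gb : Matrix (Fin n) (Fin n) GG) (hrel : MRel Aa Ab)
    (hGa : IsUnit Ga.det) (hGb : IsUnit Gb.det) (q : ℕ) (hq : 0 < q)
    (ha : MVGE (-(q : ℤ)) (ga dO Aa Ga)) (hb : MVGE (-(q : ℤ)) (ga (dI dO) Ab Gb)) (i : ℕ) :
    VGE 0 (((mo (q : ℤ) : LC) • co (-(q : ℤ)) (ga dO Aa Ga)).charpoly.coeff i) := by
  obtain ⟨a, ha'⟩ := NP_full Ga Gb hGa hGb
  obtain ⟨b, hb'⟩ := NP_bdd Ga Gb hGa
  refine charpoly_int _ (NPS Ga Gb) a b (fun v hv => ha' v hv) (fun v hv => hb' v hv) ?_ i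
  intro v hv
  obtain ⟨y, x, h1, h2, h3, h4⟩ :=
    NP_T Aa Ab Ga Gb hrel hGa hGb q hq ha 0 (by omega) (by rw [add_zero]; exact hb) hv
  refine ⟨y, x, h1, fun i => ?_, h3, h4⟩
  rw [h2 i, Matrix.smul_mulVec, Pi.smul_apply, smul_eq_mul]

theorem node_small {n : ℕ} (Aa Ab Ga Gb : Matrix (Fin n) (Fin n) GG) (hrel : MRel Aa Ab)
    (hGa : IsUnit Ga.det) (hGb : IsUnit Gb.det) (q : ℕ) (hq : 0 < q)
    (ha : MVGE (-(q : ℤ)) (ga dO Aa Ga)) (hb : MVGE (-(q : ℤ) + 1) (ga (dI dO) Ab Gb))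
    (i : ℕ) (hi : i < n) :
    VGE 1 (((mo (q : ℤ) : LC) • co (-(q : ℤ)) (ga dO Aa Ga)).charpoly.coeff i) := by
  obtain ⟨a, ha'⟩ := NP_full Ga Gb hGa hGb
  obtain ⟨b, hb'⟩ := NP_bdd Ga Gb hGa
  refine charpoly_small _ (NPS Ga Gb) a b (fun v hv => ha' v hv) (fun v hv => hb' v hv) ?_ i hi
  intro v hv
  obtain ⟨y, x, h1, h2, h3, h4⟩ :=
    NP_T Aa Ab Ga Gb hrel hGa hGb q hq ha 1 (by omega) hb hv
  refine ⟨fun i => (mo (-1) : LC) * (y i).coeff 0,
    ⟨fun l => HahnSeries.single 0 (mo (-1) : LC) * y l,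
      fun l => (HahnSeries.single (-1) (HahnSeries.single 0 (1 : ℂ)) : GG) * x l, fun i => ?_,
      fun i => ?_, fun i => ?_, fun i => ?_⟩, ?_⟩
  · have := (nd_VGE_single 0 (mo (-1) : LC)).mul (h1 i)
    rwa [add_zero] at this
  · exact nd_coeff0 _ _ (h1 i)
  · have := (nd_VGE_single (-1) (HahnSeries.single 0 (1 : ℂ))).mul (h3 i)
    rwa [neg_add_cancel] at this
  · rw [mv_smul, mv_smul]
    exact (Rel_monomial (-1) 0 (1 : ℂ)).mul (h4 i)
  · funext i
    rw [Matrix.smul_mulVec, Pi.smul_apply, smul_eq_mul, ← h2 i]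
    show (y i).coeff 0 = (mo 1 : LC) * ((mo (-1) : LC) * (y i).coeff 0)
    rw [← mul_assoc, mo_mul, add_neg_cancel, mo_zero, one_mul]

end Pool.Agent.Helper84.CV
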