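import Pool.Agent.Helper84.CV.B2
import Pool.Agent.Helper84.CV.RelB
import Pool.Agent.Helper84.CV.CharInt

/-!
# CV-LP: the leading term is regular at an ordinary closed point

Notation: `GG = ℂ((t))((π))`, `∂ = dO + g (dI ddt)`, `A = A₁ + g A₂` with entries in the ring `R₀` of the series all of
whose coefficients are in `ℂ[[t]]` (`Reg`), `∂ R₀ ⊆ R₀`. `T = π^q (∂ + A)` maps `R₀^n` to itself, and it maps the lattice
`G O^n`, `O = ℂ((t))[[π]]`, to itself, because `ga ∂ A G = ga dO A₁ G + g ga (dI ddt) A₂ G` (`ga_ad_sm`) has valuation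
`≥ -q`; `T (G y) = G (π^q (∂ y + ga ∂ A G y))`, whose coefficient of index `0`, for `y ∈ O^n`, is `Θ y(0)`,
`Θ = co (-q) (ga dO A₁ G)` (use `q ≥ 1` and `VGE 1 g`).

Let `P` = set of the `y(0) ∈ ℂ((t))^n` for `y ∈ O^n` with `G y ∈ R₀^n`. It is a `ℂ[[t]]`-submodule, stable under `Θ`.
Bounded: `y = G⁻¹ z`, `z = G y ∈ R₀^n` has valuation `≥ -c`, so `y(0) = ∑_(-c ≤ j ≤ c) (coefficient of G⁻¹ of index -j)
(coefficient of z of index j)`, a finite sum of fixed matrices times vectors in `ℂ[[t]]^n` (`exists_bound`).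
Full: let `K` be so large that `t^K` times the coefficients of index `< M` of `G` (finitely many, from `-c` on) are in
`ℂ[[t]]`, `M = c + 1`. For `v ∈ ℂ((t))^n` with valuation `≥ K` take `z` = truncation of `G v` at order `M`
(`exists_trunc`), in `R₀^n`, and `y = G⁻¹ z = v - G⁻¹ (tail)`, `G⁻¹ (tail)` of valuation `≥ M - c = 1`; so `y ∈ O^n`,
`y(0) = v`. Then `charpoly_int`.
-/

set_option autoImplicit false

open Matrix

namespace Pool.Agent.Helper84.CV

section generic

variable {n : ℕ} {L : Type} [Field L]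

private theorem LP_cancel (G H : Matrix (Fin n) (Fin n) L) (h : G * H = 1) (y : Fin n → L) :
    G.mulVec (H.mulVec y) = y := by
  rw [Matrix.mulVec_mulVec, h, Matrix.one_mulVec]

private theorem LP_addV (G : Matrix (Fin n) (Fin n) L) (y z : Fin n → L) (i : Fin n) :
    (G.mulVec (y + z)) i = (G.mulVec y) i + (G.mulVec z) i := by
  rw [Matrix.mulVec_add, Pi.add_apply]

private theorem LP_subV (G : Matrix (Fin n) (Fin n) L) (y z : Fin n → L) :
    G.mulVec (y - z) = G.mulVec y - G.mulVec z := Matrix.mulVec_sub _ _ _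

private theorem LP_zeroV (G : Matrix (Fin n) (Fin n) L) (i : Fin n) :
    (G.mulVec (0 : Fin n → L)) i = 0 := by
  rw [Matrix.mulVec_zero, Pi.zero_apply]

private theorem LP_smulV (G : Matrix (Fin n) (Fin n) L) (c : L) (y : Fin n → L) (i : Fin n) :
    (G.mulVec fun j => c * y j) i = c * (G.mulVec y) i := by
  have h : (fun j => c * y j) = c • y := rfl
  rw [h, Matrix.mulVec_smul, Pi.smul_apply, smul_eq_mul]

private theorem LP_exp (G : Matrix (Fin n) (Fin n) L) (y : Fin n → L) (i : Fin n) :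
    (G.mulVec y) i = ∑ l, G i l * y l := rfl

private theorem LP_tail (G H : Matrix (Fin n) (Fin n) L) (h : H * G = 1) (x z : Fin n → L) :
    H.mulVec z = x - H.mulVec (G.mulVec x - z) := by
  rw [LP_subV, LP_cancel H G h]
  abel

/-- the product rule for a matrix times a vector -/
private theorem LP_leib (d : Der L) (M : Matrix (Fin n) (Fin n) L)
    (y : Fin n → L) (i : Fin n) :
    d ((M.mulVec y) i) = (M.mulVec fun j => d (y j)) i + ((dM d M).mulVec y) i := by
  rw [Matrix.mulVec, Matrix.mulVec, Matrix.mulVec, dotProduct, dotProduct, dotProduct, map_sum,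
    ← Finset.sum_add_distrib]
  exact Finset.sum_congr rfl fun j _ => d.leib _ _

/-- transport of the connection -/
private theorem LP_transport (d : Der L)
    (A G H : Matrix (Fin n) (Fin n) L) (hGH : G * H = 1) (p : L) (y : Fin n → L) (i : Fin n) :
    (G.mulVec fun j => p * (d (y j) + ((ga d A G).mulVec y) j)) i =
      p * (d ((G.mulVec y) i) + ∑ l, A i l * (G.mulVec y) l) := by
  have h1 : (fun j => d (y j) + ((ga d A G).mulVec y) j) =
      (fun j => d (y j)) + (ga d A G).mulVec y := rfl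
  have hG : IsUnit G.det := Matrix.isUnit_det_of_right_inverse hGH
  have h2 : G * ga d A G = dM d G + A * G := by
    unfold ga
    rw [← mul_assoc, Matrix.mul_nonsing_inv G hG, one_mul]
  have h3 : ∑ l, A i l * (G.mulVec y) l = (A.mulVec (G.mulVec y)) i := rfl
  rw [LP_smulV, h1, Matrix.mulVec_add, Matrix.mulVec_mulVec, h2, Matrix.add_mulVec, LP_leib, h3,
    Matrix.mulVec_mulVec]
  simp only [Pi.add_apply]
  ring

end generic

private theorem LP_unif {K α : Type} [Field K] (s : Finset α) (f : α → LaurentSeries K) :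
    ∃ b : ℤ, ∀ x ∈ s, VGE b (f x) := by
  classical
  induction s using Finset.induction_on with
  | empty => exact ⟨0, by simp⟩
  | insert x s hx ih =>
    obtain ⟨b, hb⟩ := ih
    obtain ⟨b', hb'⟩ := exists_VGE (f x)
    refine ⟨min b b', ?_⟩
    intro y hy
    rcases Finset.mem_insert.1 hy with rfl | hy
    · exact hb'.mono (min_le_right _ _)
    · exact (hb y hy).mono (min_le_left _ _)

private theorem LP_ps (p : PowerSeries ℂ) : VGE 0 (algebraMap (PowerSeries ℂ) (LaurentSeries ℂ) p) := by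
  intro j hj
  have h : algebraMap (PowerSeries ℂ) (LaurentSeries ℂ) p = HahnSeries.ofPowerSeries ℤ ℂ p := rfl
  rw [h, PowerSeries.coeff_coe, if_pos hj]

private theorem LP_mulC {K : Type} [Field K] (z : LaurentSeries K) (c : K) (k : ℤ) :
    (z * HahnSeries.C c).coeff k = z.coeff k * c := by
  rw [mul_comm, coeff_C_mul, mul_comm]

/-- the submodule of the leading coefficients -/
private def LP_P {n : ℕ} (G : Matrix (Fin n) (Fin n) GG) :
    Submodule (PowerSeries ℂ) (Fin n → LaurentSeries ℂ) where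
  carrier := {v | ∃ y : Fin n → GG, (∀ i, VGE 0 (y i)) ∧ (∀ i, Reg ((G.mulVec y) i)) ∧
    ∀ i, (y i).coeff 0 = v i}
  zero_mem' := by
    refine ⟨0, fun i => VGE_zero 0, fun i => ?_, fun i => rfl⟩
    rw [LP_zeroV G i]
    exact Reg_zero
  add_mem' := by
    rintro v w ⟨y, h1, h2, h3⟩ ⟨y', h1', h2', h3'⟩
    refine ⟨y + y', fun i => (h1 i).add (h1' i), fun i => ?_, fun i => ?_⟩
    · rw [LP_addV G y y' i]
      exact (h2 i).add (h2' i)
    · rw [Pi.add_apply, Pi.add_apply, HahnSeries.coeff_add, h3 i, h3' i]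
  smul_mem' := by
    rintro p v ⟨y, h1, h2, h3⟩
    have hC := Reg_C _ (LP_ps p)
    refine ⟨fun i => (HahnSeries.C (algebraMap (PowerSeries ℂ) (LaurentSeries ℂ) p) : GG) * y i,
      fun i => ?_, fun i => ?_, fun i => ?_⟩
    · have := (VGE_C (algebraMap (PowerSeries ℂ) (LaurentSeries ℂ) p)).mul (h1 i)
      rwa [add_zero] at this
    · rw [LP_smulV G _ y i]
      exact hC.mul (h2 i)
    · rw [coeff_C_mul, h3 i, Pi.smul_apply, Algebra.smul_def]

private theorem LP_mulVec_coeff {K : Type} [Field K] {n : ℕ}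
    (M : Matrix (Fin n) (Fin n) (LaurentSeries K)) (y : Fin n → LaurentSeries K) (a b : ℤ)
    (hM : MVGE a M) (hy : ∀ i, VGE b (y i)) (i : Fin n) :
    ((M.mulVec y) i).coeff (a + b) = ((co a M).mulVec fun j => (y j).coeff b) i := by
  rw [LP_exp M y i, LP_exp (co a M) _ i, HahnSeries.coeff_sum]
  refine Finset.sum_congr rfl fun j _ => ?_
  rw [coeff_mul_low (hM i j) (hy j)]
  rfl

theorem local_regular {n : ℕ} (A₁ A₂ G : Matrix (Fin n) (Fin n) GG) (hG : IsUnit G.det) (g : GG)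
    (hg1 : VGE 1 g) (hg2 : Reg g) (q : ℕ) (hq : 0 < q) (h1 : MVGE (-(q : ℤ)) (ga dO A₁ G))
    (h2 : MVGE (-(q : ℤ)) (ga (dI ddt) A₂ G)) (hreg : MReg (A₁ + g • A₂)) (i : ℕ) :
    VGE 0 ((co (-(q : ℤ)) (ga dO A₁ G)).charpoly.coeff i) := by
  obtain ⟨c, hc1, hc2⟩ := exists_bound G
  have hGi : G * G⁻¹ = 1 := Matrix.mul_nonsing_inv G hG
  have hGi' : G⁻¹ * G = 1 := Matrix.nonsing_inv_mul G hG
  obtain ⟨b₁, hb₁⟩ := LP_unif (Finset.univ ×ˢ Finset.univ ×ˢ Finset.Ico (-(c : ℤ)) (c + 1))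
    (fun x : Fin n × Fin n × ℤ => (G x.1 x.2.1).coeff x.2.2)
  obtain ⟨b₂, hb₂⟩ := LP_unif (Finset.univ ×ˢ Finset.univ ×ˢ Finset.Icc (-(c : ℤ)) c)
    (fun x : Fin n × Fin n × ℤ => (G⁻¹ x.1 x.2.1).coeff x.2.2)
  refine charpoly_int _ (LP_P G) (-b₁) b₂ ?_ ?_ ?_ i
  · -- full
    intro v hv
    obtain ⟨x, hx⟩ : ∃ x : Fin n → GG, x = fun j => HahnSeries.C (v j) := ⟨_, rfl⟩
    have hx0 : ∀ j, VGE 0 (x j) := fun j => by rw [hx]; exact VGE_C _
    obtain ⟨w, hw⟩ : ∃ w : Fin n → GG, w = G.mulVec x := ⟨_, rfl⟩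
    have hwV : ∀ j, VGE (-(c : ℤ)) (w j) := fun j => by
      have := hc1.mulVec hx0 j
      rw [hw]
      rwa [add_zero] at this
    have hwc : ∀ j, ∀ k ∈ Finset.Ico (-(c : ℤ)) (c + 1), VGE 0 ((w j).coeff k) := by
      intro j k hk
      rw [hw, LP_exp G x j, HahnSeries.coeff_sum]
      refine VGE.sum _ _ fun l _ => ?_
      have h3 : (G j l * x l).coeff k = (G j l).coeff k * v l := by
        rw [hx]
        exact LP_mulC _ _ _
      rw [h3]
      have h4 := (hb₁ (j, l, k) (Finset.mem_product.2 ⟨Finset.mem_univ _,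
        Finset.mem_product.2 ⟨Finset.mem_univ _, hk⟩⟩)).mul (hv l)
      have h5 : b₁ + -b₁ = 0 := by ring
      rw [h5] at h4
      exact h4
    obtain ⟨z, hz⟩ : ∃ z : Fin n → GG, z = fun j =>
      ∑ k ∈ Finset.Ico (-(c : ℤ)) (c + 1), HahnSeries.single k ((w j).coeff k) := ⟨_, rfl⟩
    have hzR : ∀ j, Reg (z j) := by
      intro j
      rw [hz]
      refine Reg.sum _ _ fun k hk => ?_
      rw [single_eq]
      exact (Reg_C _ (hwc j k hk)).mul (Reg_mo k)
    have hwz : ∀ j, VGE ((c : ℤ) + 1) ((w - z) j) := by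
      intro j
      rw [Pi.sub_apply, hz]
      exact exists_trunc (hwV j) _
    have hy : G⁻¹.mulVec z = x - G⁻¹.mulVec (w - z) := by
      rw [hw]
      exact LP_tail G G⁻¹ hGi' x z
    have htail : ∀ j, VGE 1 ((G⁻¹.mulVec (w - z)) j) := by
      intro j
      have h6 := hc2.mulVec hwz j
      have h7 : -(c : ℤ) + ((c : ℤ) + 1) = 1 := by ring
      rwa [h7] at h6
    refine ⟨G⁻¹.mulVec z, fun j => ?_, fun j => ?_, fun j => ?_⟩
    · rw [hy, Pi.sub_apply]
      exact (hx0 j).sub ((htail j).mono (by norm_num))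
    · rw [LP_cancel G G⁻¹ hGi z]
      exact hzR j
    · rw [hy, Pi.sub_apply, HahnSeries.coeff_sub, htail j 0 (by norm_num), sub_zero, hx]
      show (HahnSeries.C (v j) : GG).coeff 0 = v j
      rw [HahnSeries.C_apply, HahnSeries.coeff_single_same]
  · -- bounded
    rintro v ⟨y, hy0, hyR, hyv⟩ j
    obtain ⟨z, hz⟩ : ∃ z : Fin n → GG, z = G.mulVec y := ⟨_, rfl⟩
    have hzV : ∀ j, VGE (-(c : ℤ)) (z j) := fun j => by
      have := hc1.mulVec hy0 j
      rw [hz]
      rwa [add_zero] at this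
    have hzR : ∀ j, Reg (z j) := fun j => by rw [hz]; exact hyR j
    have hyz : y = G⁻¹.mulVec z := by
      rw [hz]
      exact (LP_cancel G⁻¹ G hGi' y).symm
    rw [← hyv j, hyz, LP_exp G⁻¹ z j, HahnSeries.coeff_sum]
    refine VGE.sum _ _ fun l _ => ?_
    rw [coeff_mul_Icc (hc2 j l) (hzV l) 0]
    refine VGE.sum _ _ fun k hk => ?_
    have hk' : k ∈ Finset.Icc (-(c : ℤ)) c := by
      rw [Finset.mem_Icc] at hk ⊢
      omega
    have h4 := (hb₂ (j, l, k) (Finset.mem_product.2 ⟨Finset.mem_univ _,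
      Finset.mem_product.2 ⟨Finset.mem_univ _, hk'⟩⟩)).mul (hzR l (0 - k))
    rw [add_zero] at h4
    exact h4
  · -- stable
    rintro v ⟨y, hy0, hyR, hyv⟩
    obtain ⟨D, hD⟩ : ∃ D : Der GG, D = Der.ad dO (Der.sm g (dI ddt)) := ⟨_, rfl⟩
    obtain ⟨A, hA⟩ : ∃ A : Matrix (Fin n) (Fin n) GG, A = A₁ + g • A₂ := ⟨_, rfl⟩
    have hDz : ∀ z : GG, D z = dO z + g * dI ddt z := fun z => by rw [hD]; rfl
    have hga : ga D A G = ga dO A₁ G + g • ga (dI ddt) A₂ G := by
      rw [hD, hA]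
      exact ga_ad_sm _ _ _ _ _ _
    have h2' : MVGE (1 + -(q : ℤ)) (g • ga (dI ddt) A₂ G) := MVGE.smul hg1 h2
    have hgaV : MVGE (-(q : ℤ)) (ga D A G) := by
      rw [hga]
      exact h1.add (h2'.mono (by omega))
    have hco : co (-(q : ℤ)) (ga D A G) = co (-(q : ℤ)) (ga dO A₁ G) := by
      refine Matrix.ext fun a b => ?_
      show ((ga D A G) a b).coeff (-(q : ℤ)) = ((ga dO A₁ G) a b).coeff (-(q : ℤ))
      rw [hga, Matrix.add_apply, HahnSeries.coeff_add, h2' a b _ (by omega), add_zero]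
    have hDy : ∀ j, VGE 0 (D (y j)) := by
      intro j
      rw [hDz]
      refine (hy0 j).outer.add ?_
      exact (hg1.mul ((hy0 j).inner ddt)).mono (by norm_num)
    have hGy : ∀ j, VGE (-(q : ℤ)) (((ga D A G).mulVec y) j) := by
      intro j
      have := hgaV.mulVec hy0 j
      rwa [add_zero] at this
    have hsum : ∀ j, VGE (-(q : ℤ)) (D (y j) + ((ga D A G).mulVec y) j) := fun j =>
      ((hDy j).mono (by omega)).add (hGy j)
    refine ⟨fun j => mo (q : ℤ) * (D (y j) + ((ga D A G).mulVec y) j), fun j => ?_, fun j => ?_,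
      fun j => ?_⟩
    · have := (VGE_mo_mul (q : ℤ) (-(q : ℤ)) (D (y j) + ((ga D A G).mulVec y) j)).2 (hsum j)
      have h7 : (q : ℤ) + -(q : ℤ) = 0 := by ring
      rwa [h7] at this
    · rw [LP_transport D A G G⁻¹ hGi (mo (q : ℤ)) y j]
      refine (Reg_mo _).mul (Reg.add ?_ ?_)
      · rw [hDz]
        exact (hyR j).outer.add (hg2.mul (hyR j).inner_ddt)
      · refine Reg.sum _ _ fun l _ => ?_
        have h9 : Reg (A j l) := by rw [hA]; exact hreg j l
        exact h9.mul (hyR l)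
    · rw [coeff_mo_mul, HahnSeries.coeff_add]
      have h10 : (0 : ℤ) - q = -(q : ℤ) + 0 := by ring
      rw [h10, hDy j _ (by omega), zero_add, LP_mulVec_coeff _ _ _ _ hgaV hy0 j, hco]
      have h11 : (fun j => (y j).coeff 0) = v := funext hyv
      rw [h11]

end Pool.Agent.Helper84.CV
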