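import Pool.Agent.Helper84.CV.E1
import Pool.Agent.Helper84.CV.E2
import Pool.Agent.Helper84.CV.CExact
import Pool.Agent.Helper84.CV.LP
import Pool.Agent.Helper84.CV.LN

/-!
# CV-Tree: tameness: all discs have stable lattices

Notation: `y = w₀ :: l`. Plan for `adm_step`. By `common_exact` (for `A₁ = A1 1 y`, `A₂ = A2 1 y`, `d = rD`, `w = X`, `rD_X`;
flatness `LD.flat` for `N = 1`; `A1_ram`, `A2_ram`) there are `q'` and a lattice `G` with `MVGE (-q')` for both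
directions over `N`, and `Θ = co (-q') (ga dO (A1 N y) G)` not nilpotent if `q' > 0`. If `q' ≤ q` we are done
(`MVGE.mono`). Otherwise `q' > q ≥ 0`; we show that the coefficients of index `i < n` of `Θ.charpoly` vanish; then
`Θ.charpoly = X^n` (monic of degree `n`) and `Θ^n = 0` (`Matrix.aeval_self_charpoly`), contradiction. By `zero_of_inf` it
suffices that they are regular at all `w₁ ∈ ℂ` and have `VGE 1` at infinity.
(a) `w₁` with `card (br (w₁ :: y)) ≤ 1`: `ordinary_point` gives `g`; `local_regular` with `A₁ = (A1 y).map psi0`,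
`A₂ = (A2 y).map psi0`, `G.map psi0` (`ga_map` with `dO_psi0`, `dI_psi0`; `VGE.twist`); `A₁ + g A₂` is
`((∂λ - S) R).map * B` (unfold `cn`), regular. `co (-q') (ga …) = Θ.map (jat w₁ 1)` (`psi0_coeff`), so
`VGE 0 (jat w₁ 1 (coefficient))` by `Matrix.charpoly_map`, and `regAt_of_jat`.
(b) `w₁` with at least two branches: `hch` with `q'` gives `Adm (w₁ :: y) q'`, a lattice `G'` for the child. `node_regular` with
`Aa = (A1 y).map psiX`, `Ab = (A1 child).map psiY + κY • (A2 child).map psiY`, `node_conn_down`, `Ga = G.map psiX`,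
`Gb = G'.map psiY`: `ga_map` (`dO_psiX`) and `ga_map_comb` (`dI_psiY`), `MVGE` by `VGE.twist`, `VGE_C`.
`mo q' • co (-q') (ga …) = Θ.map (jat w₁ N)` by `psiX_coeff`.
(c) infinity: side a is `y` (`psiY`), side b is `l` (`psiX w₀`): `node_small` with `Aa = (A1 y).map psiY`,
`Ab = (A1 l).map psiX + κX • (A2 l).map psiX`, related by `node_conn_up` (`Rel.symm`), `Gb` the lattice of `l` for `q`:
`MVGE (-q) ⇒ MVGE (-q' + 1)`. `mo q' • co (-q') = Θ.map (jinf N)`.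
`adm_all`: `tree_induction` for `Q y` = (`∀ q, Adm l q → Adm (w₀ :: l) q` if `y = w₀ :: l`, `True` if `y = []`), then
induction on `l` from `adm_root`.
-/

set_option autoImplicit false

open Matrix

namespace Pool.Agent.Helper84.CV.LD

variable {n : ℕ} (D : LD n) (N : ℕ) [NeZero N] (l : List ℂ)

section aux

variable {K K' : Type} [Field K] [Field K']

omit [NeZero N] in
private theorem tr_twist {ι : Type} (φ : K →+* K') (θ : K'ˣ) {a : ℤ}
    {M : Matrix ι ι (LaurentSeries K)} (h : MVGE a M) : MVGE a (M.map (tw φ θ)) :=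
  fun i j => (h i j).twist φ θ

private theorem tr_charpoly {L L' : Type} [Field L] [Field L'] (f : L →+* L')
    (Θ : Matrix (Fin n) (Fin n) L) (Θ' : Matrix (Fin n) (Fin n) L')
    (h : ∀ a b, Θ' a b = f (Θ a b)) (i : ℕ) : Θ'.charpoly.coeff i = f (Θ.charpoly.coeff i) := by
  have h1 : Θ' = Θ.map f := by
    ext a b
    exact h a b
  rw [h1, Matrix.charpoly_map, Polynomial.coeff_map]

private theorem tr_ga (φ : K →+* K') (θ : K'ˣ) (d : Der (LaurentSeries K))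
    (d' : Der (LaurentSeries K')) (h : ∀ x, d' (tw φ θ x) = tw φ θ (d x))
    (A G : Matrix (Fin n) (Fin n) (LaurentSeries K)) (hG : IsUnit G.det) :
    ga d' (A.map (tw φ θ)) (G.map (tw φ θ)) = (ga d A G).map (tw φ θ) :=
  ga_map (tw φ θ) d d' h A G hG

private theorem tr_comb (φ : K →+* K') (θ : K'ˣ) (d e : Der (LaurentSeries K))
    (d' : Der (LaurentSeries K')) (κ : K')
    (h : ∀ x, d' (tw φ θ x) = HahnSeries.C κ * tw φ θ (e x) + tw φ θ (d x))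
    (A A' G : Matrix (Fin n) (Fin n) (LaurentSeries K)) (hG : IsUnit G.det) (a : ℤ)
    (h1 : MVGE a (ga d A G)) (h2 : MVGE a (ga e A' G)) :
    MVGE a (ga d' (A.map (tw φ θ) + (HahnSeries.C κ : LaurentSeries K') • A'.map (tw φ θ))
      (G.map (tw φ θ))) := by
  rw [ga_map_comb (tw φ θ) d e d' _ h A A' G hG]
  refine (tr_twist φ θ h1).add ?_
  have h3 := MVGE.smul (VGE_C κ) (tr_twist φ θ h2)
  rwa [zero_add] at h3

private theorem tr_det (φ : K →+* K') (θ : K'ˣ)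
    (G : Matrix (Fin n) (Fin n) (LaurentSeries K)) (hG : IsUnit G.det) :
    IsUnit (G.map (tw φ θ)).det :=
  isUnit_det_map (tw φ θ) G hG

private theorem tr_nil {L : Type} [Field L] (Θ : Matrix (Fin n) (Fin n) L)
    (h : ∀ i < n, Θ.charpoly.coeff i = 0) : IsNilpotent Θ := by
  have h1 : Θ.charpoly = Polynomial.X ^ n := by
    have hm := Θ.charpoly_monic
    have hd := Θ.charpoly_natDegree_eq_dim
    rw [Fintype.card_fin] at hd
    ext i
    rw [Polynomial.coeff_X_pow]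
    rcases lt_trichotomy i n with h2 | h2 | h2
    · rw [h i h2, if_neg h2.ne]
    · rw [if_pos h2, h2]
      have h3 := hm.coeff_natDegree
      rwa [hd] at h3
    · rw [if_neg h2.ne']
      exact Polynomial.coeff_eq_zero_of_natDegree_lt (by rw [hd]; exact h2)
  refine ⟨n, ?_⟩
  have h2 := Matrix.aeval_self_charpoly Θ
  rw [h1, map_pow, Polynomial.aeval_X] at h2
  exact h2

private theorem tr_cn {L L' : Type} [Field L] [Field L'] (φ : L →+* L')
    (U S B : Matrix (Fin n) (Fin n) L) (lam a a' : L) (g : L') :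
    (cn U S B lam a 1).map φ + g • (cn U S B lam a' 0).map φ =
      (((φ a + g * φ a') • (1 : Matrix (Fin n) (Fin n) L') - S.map φ) *
        ((lam • (1 : Matrix (Fin n) (Fin n) L) - U)⁻¹).map φ) * B.map φ := by
  have hS : ∀ c : L, (c • (1 : Matrix (Fin n) (Fin n) L)).map φ =
      (φ c) • (1 : Matrix (Fin n) (Fin n) L') := by
    intro c
    ext i j
    rw [Matrix.map_apply, Matrix.smul_apply, Matrix.smul_apply, smul_eq_mul, smul_eq_mul, map_mul,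
      Matrix.one_apply, Matrix.one_apply, apply_ite φ, map_one, map_zero]
  unfold cn
  rw [one_smul, zero_smul, sub_zero, Matrix.map_mul, Matrix.map_mul, Matrix.map_mul,
    Matrix.map_mul, Matrix.map_sub φ (map_sub _), hS, hS, ← Matrix.smul_mul, ← Matrix.smul_mul,
    ← Matrix.add_mul, ← Matrix.add_mul, smul_smul, add_smul]
  congr 2
  abel

end aux


private theorem tr_reg (w₁ : ℂ) (y : List ℂ) (g : GG)
    (h : MReg (((psi0 w₁ (dO (lamN N y)) + g * psi0 w₁ (dI rD (lamN N y))) •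
        (1 : Matrix (Fin n) (Fin n) GG) - (D.SK N (RatFunc ℂ)).map (psi0 w₁)) *
        (D.RN N y).map (psi0 w₁))) :
    MReg ((D.A1 N y).map (psi0 w₁) + g • (D.A2 N y).map (psi0 w₁)) := by
  have e3 := tr_cn (psi0 w₁) (D.UK N (RatFunc ℂ)) (D.SK N (RatFunc ℂ)) (D.BK (RatFunc ℂ))
    (lamN N y) (dO (lamN N y)) (dI rD (lamN N y)) g
  have e4 : MReg ((((psi0 w₁ (dO (lamN N y)) + g * psi0 w₁ (dI rD (lamN N y))) •
        (1 : Matrix (Fin n) (Fin n) GG) - (D.SK N (RatFunc ℂ)).map (psi0 w₁)) *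
        (D.RN N y).map (psi0 w₁)) * (D.BK (RatFunc ℂ)).map (psi0 w₁)) := by
    intro i j
    rw [Matrix.mul_apply]
    refine Reg.sum _ _ fun k _ => (h i k).mul ?_
    rw [Matrix.map_apply, BK, Matrix.map_apply, psi0, tw_C, jat_const]
    exact Reg_C _ (VGE_C _)
  exact Eq.mpr (congrArg MReg e3) e4

private theorem tr_caseA (w₁ : ℂ) (y : List ℂ) (hc : (D.br (w₁ :: y)).card ≤ 1) (q : ℕ)
    (hq : 0 < q) (G : Matrix (Fin n) (Fin n) FF) (hG : IsUnit G.det)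
    (m1 : MVGE (-(q : ℤ)) (ga dO (D.A1 N y) G))
    (m2 : MVGE (-(q : ℤ)) (ga (dI rD) (D.A2 N y) G)) (i : ℕ) :
    RegAt w₁ ((co (-(q : ℤ)) (ga dO (D.A1 N y) G)).charpoly.coeff i) := by
  obtain ⟨g, ρ, g1, g2, -, -, -, -, hr, -⟩ := D.ordinary_point N y w₁ hc
  have hr' := tr_reg D N w₁ y g hr
  have e1 : ga dO ((D.A1 N y).map (psi0 w₁)) (G.map (psi0 w₁)) =
      (ga dO (D.A1 N y) G).map (psi0 w₁) := tr_ga (jat w₁ 1) 1 dO dO (dO_psi0 w₁) (D.A1 N y) G hG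
  have e2 : ga (dI ddt) ((D.A2 N y).map (psi0 w₁)) (G.map (psi0 w₁)) =
      (ga (dI rD) (D.A2 N y) G).map (psi0 w₁) :=
    tr_ga (jat w₁ 1) 1 (dI rD) (dI ddt) (dI_psi0 w₁) (D.A2 N y) G hG
  have k1 : MVGE (-(q : ℤ)) ((ga dO (D.A1 N y) G).map (psi0 w₁)) := tr_twist (jat w₁ 1) 1 m1
  have k2 : MVGE (-(q : ℤ)) ((ga (dI rD) (D.A2 N y) G).map (psi0 w₁)) :=
    tr_twist (jat w₁ 1) 1 m2
  have k3 : IsUnit (G.map (psi0 w₁)).det := tr_det (jat w₁ 1) 1 G hG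
  rw [← e1] at k1
  rw [← e2] at k2
  have hl := local_regular ((D.A1 N y).map (psi0 w₁))
    ((D.A2 N y).map (psi0 w₁)) (G.map (psi0 w₁)) k3 g g1 g2 q
    hq k1 k2 hr' i
  rw [e1, tr_charpoly (jat w₁ 1) (co (-(q : ℤ)) (ga dO (D.A1 N y) G))
    (co (-(q : ℤ)) ((ga dO (D.A1 N y) G).map (psi0 w₁))) (fun _ _ => psi0_coeff w₁ _ _)] at hl
  exact regAt_of_jat w₁ 1 _ hl


private theorem tr_caseB (w₁ : ℂ) (y : List ℂ) (q : ℕ)
    (hq : 0 < q) (G : Matrix (Fin n) (Fin n) FF) (hG : IsUnit G.det)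
    (m1 : MVGE (-(q : ℤ)) (ga dO (D.A1 N y) G)) (G' : Matrix (Fin n) (Fin n) FF)
    (hG' : IsUnit G'.det) (n1 : MVGE (-(q : ℤ)) (ga dO (D.A1 N (w₁ :: y)) G'))
    (n2 : MVGE (-(q : ℤ)) (ga (dI rD) (D.A2 N (w₁ :: y)) G')) (i : ℕ) :
    RegAt w₁ ((co (-(q : ℤ)) (ga dO (D.A1 N y) G)).charpoly.coeff i) := by
  have e1 : ga dO ((D.A1 N y).map (psiX w₁ N)) (G.map (psiX w₁ N)) =
      (ga dO (D.A1 N y) G).map (psiX w₁ N) :=
    tr_ga (jat w₁ N) tU dO dO (dO_psiX w₁ N) (D.A1 N y) G hG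
  have k1 : MVGE (-(q : ℤ)) ((ga dO (D.A1 N y) G).map (psiX w₁ N)) :=
    tr_twist (jat w₁ N) tU m1
  have k3 : IsUnit (G.map (psiX w₁ N)).det := tr_det (jat w₁ N) tU G hG
  have k4 : IsUnit (G'.map (psiY N)).det := tr_det (jinf N) tU G' hG'
  rw [← e1] at k1
  have k5 : MVGE (-(q : ℤ)) (ga (dI dO) ((D.A1 N (w₁ :: y)).map (psiY N) +
      (HahnSeries.C (-((N : LC) * mo (-(N : ℤ)))) : GG) • (D.A2 N (w₁ :: y)).map (psiY N))
      (G'.map (psiY N))) :=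
    tr_comb (jinf N) tU dO (dI rD) (dI dO) _ (dI_psiY N) _ _ G' hG' _ n1 n2
  have hl := node_regular ((D.A1 N y).map (psiX w₁ N)) _ (G.map (psiX w₁ N))
    (G'.map (psiY N)) (D.node_conn_down N y w₁) k3 k4 q hq k1 k5 i
  rw [e1, tr_charpoly (jat w₁ N) (co (-(q : ℤ)) (ga dO (D.A1 N y) G)) _ (fun a b => ?_)] at hl
  · exact regAt_of_jat w₁ N _ hl
  · have h1 := psiX_coeff w₁ N (ga dO (D.A1 N y) G a b) (-(q : ℤ))
    have h2 : (mo (q : ℤ) : LC) * (psiX w₁ N (ga dO (D.A1 N y) G a b)).coeff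
        (-(q : ℤ)) = jat w₁ N ((ga dO (D.A1 N y) G a b).coeff (-(q : ℤ))) := by
      rw [h1, ← mul_assoc, mo_mul, add_neg_cancel, mo_zero, one_mul]
    exact h2

private theorem tr_caseC (w₀ : ℂ) (q q' : ℕ) (hqq : q' < q)
    (G : Matrix (Fin n) (Fin n) FF) (hG : IsUnit G.det)
    (m1 : MVGE (-(q : ℤ)) (ga dO (D.A1 N (w₀ :: l)) G)) (G' : Matrix (Fin n) (Fin n) FF)
    (hG' : IsUnit G'.det) (n1 : MVGE (-(q' : ℤ)) (ga dO (D.A1 N l) G'))
    (n2 : MVGE (-(q' : ℤ)) (ga (dI rD) (D.A2 N l) G')) (i : ℕ) (hi : i < n) :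
    VGE 1 (jinf N ((co (-(q : ℤ)) (ga dO (D.A1 N (w₀ :: l)) G)).charpoly.coeff i)) := by
  have e1 : ga dO ((D.A1 N (w₀ :: l)).map (psiY N)) (G.map (psiY N)) =
      (ga dO (D.A1 N (w₀ :: l)) G).map (psiY N) :=
    tr_ga (jinf N) tU dO dO (dO_psiY N) (D.A1 N (w₀ :: l)) G hG
  have k1 : MVGE (-(q : ℤ)) ((ga dO (D.A1 N (w₀ :: l)) G).map (psiY N)) :=
    tr_twist (jinf N) tU m1
  have k3 : IsUnit (G.map (psiY N)).det := tr_det (jinf N) tU G hG
  have k4 : IsUnit (G'.map (psiX w₀ N)).det := tr_det (jat w₀ N) tU G' hG'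
  rw [← e1] at k1
  have k5 : MVGE (-(q' : ℤ)) (ga (dI dO) ((D.A1 N l).map (psiX w₀ N) +
      (HahnSeries.C ((N : LC) * mo (N : ℤ)) : GG) • (D.A2 N l).map (psiX w₀ N))
      (G'.map (psiX w₀ N))) :=
    tr_comb (jat w₀ N) tU dO (dI rD) (dI dO) _ (dI_psiX w₀ N) _ _ G' hG' _ n1 n2
  have k6 : MRel ((D.A1 N (w₀ :: l)).map (psiY N)) ((D.A1 N l).map (psiX w₀ N) +
      (HahnSeries.C ((N : LC) * mo (N : ℤ)) : GG) • (D.A2 N l).map (psiX w₀ N)) :=
    fun a b => (D.node_conn_up N l w₀ a b).symm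
  have hl := node_small ((D.A1 N (w₀ :: l)).map (psiY N)) _ (G.map (psiY N))
    (G'.map (psiX w₀ N)) k6 k3 k4 q (by omega) k1 (k5.mono (by omega)) i hi
  rw [e1, tr_charpoly (jinf N) (co (-(q : ℤ)) (ga dO (D.A1 N (w₀ :: l)) G)) _
    (fun a b => ?_)] at hl
  · exact hl
  · have h1 := psiY_coeff N (ga dO (D.A1 N (w₀ :: l)) G a b) (-(q : ℤ))
    have h2 : (mo (q : ℤ) : LC) * (psiY N (ga dO (D.A1 N (w₀ :: l)) G a b)).coeff
        (-(q : ℤ)) = jinf N ((ga dO (D.A1 N (w₀ :: l)) G a b).coeff (-(q : ℤ))) := by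
      rw [h1, ← mul_assoc, mo_mul, add_neg_cancel, mo_zero, one_mul]
    exact h2

theorem adm_step (hN : n.factorial ∣ N) (w₀ : ℂ)
    (hch : ∀ (w₁ : ℂ) (q : ℕ), 2 ≤ (D.br (w₁ :: w₀ :: l)).card → D.Adm N (w₀ :: l) q →
      D.Adm N (w₁ :: w₀ :: l) q) (q : ℕ) (hq : D.Adm N l q) : D.Adm N (w₀ :: l) q := by
  obtain ⟨q', G, hG, m1, m2, hnn⟩ := common_exact N hN rD (RatFunc.X : RatFunc ℂ)
    (by rw [rD_X]; exact one_ne_zero) (D.A1 1 (w₀ :: l)) (D.A2 1 (w₀ :: l)) (D.flat 1 (w₀ :: l))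
  rw [← D.A1_ram N (w₀ :: l)] at m1 hnn
  rw [← D.A2_ram N (w₀ :: l)] at m2
  rcases le_or_gt q' q with hle | hlt
  · exact ⟨G, hG, m1.mono (by omega), m2.mono (by omega)⟩
  · exfalso
    have hq'0 : 0 < q' := by omega
    refine hnn hq'0 (tr_nil _ fun i hi => ?_)
    obtain ⟨Gl, hGl, l1, l2⟩ := hq
    refine zero_of_inf N _ (fun w₁ => ?_) ?_
    · rcases le_or_gt (D.br (w₁ :: w₀ :: l)).card 1 with hc | hc
      · exact tr_caseA D N w₁ (w₀ :: l) hc q' hq'0 G hG m1 m2 i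
      · obtain ⟨G', hG', n1, n2⟩ := hch w₁ q' hc ⟨G, hG, m1, m2⟩
        exact tr_caseB D N w₁ (w₀ :: l) q' hq'0 G hG m1 G' hG' n1 n2 i
    · exact tr_caseC D N l w₀ q' q hlt G hG m1 Gl hGl l1 l2 i hi

theorem adm_all (hN : n.factorial ∣ N) : D.Adm N l 0 := by
  have hQ : ∀ y : List ℂ, ∀ (w₀ : ℂ) (l : List ℂ), y = w₀ :: l → ∀ q, D.Adm N l q →
      D.Adm N (w₀ :: l) q := by
    intro y
    refine D.tree_induction y (fun y => ∀ (w₀ : ℂ) (l : List ℂ), y = w₀ :: l → ∀ q,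
      D.Adm N l q → D.Adm N (w₀ :: l) q) ?_
    intro y hy w₀ l hyl q hq
    subst hyl
    exact D.adm_step N l hN w₀ (fun w₁ q' hc h => hy w₁ hc w₁ (w₀ :: l) rfl q' h) q hq
  induction l with
  | nil => exact D.adm_root N
  | cons w₀ l ih => exact hQ (w₀ :: l) w₀ l rfl 0 ih

end Pool.Agent.Helper84.CV.LD
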