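import Pool.Agent.Helper84.CV.PolInd
import Pool.Agent.Helper84.CV.PFrac
import Pool.Agent.Helper84.CV.Spec
import Pool.Agent.Helper84.CV.Tree

/-!
# CV-Rigid: irregular variations vanish

Notation: `λ = x = HahnSeries.C X` (`lamN_nil`), `r_i = ram N (inc (D.r i)) ∈ LC` (pairwise distinct: `D.inj`,
`inc_injective`, `ram` is injective as a ring homomorphism of fields), `P_i` the spectral projections of `U = D.UK N ℂ` over
`LC` (`exists_spec`, `LD.charpoly_UK`), `S = D.SK N ℂ`, `B = D.BK ℂ`, `X_j = M.X j`, `Y_j = M.Y j`, everything mapped to `FF` by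
`up` (`LD.UK_up`, …). `RN N [] = (λ - U)⁻¹ = ∑_i (λ - r_i)⁻¹ P_i` (`Spec.map`, `Spec.resolvent`, `x_sub_up_ne`).

Plan. (1) `adm_all`, `ball_solution` for `l = []`: `k`. `root_form` and `partial_fractions` (entrywise):
`k_j = ∑_i (λ - r_i)⁻¹ K_ji`, `K_ji` matrices over `LC`.
(2) Second equation of `IsSol` (`dI rD λ = 1`: `dI_lamN`; `A2 = R B`; `eta2 = R X_j R B`):
`∑_i -K_ji (λ - r_i)⁻² + ∑_(i,l) ([P_i B, K_jl] - P_i X_j P_l B) (λ - r_i)⁻¹ (λ - r_l)⁻¹ = 0`. By `pf_lemma` (entrywise, `c = 0`):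
`-K_ji + [P_i B, K_ji] = P_i X_j P_i B` for all `i`, and, summing over `i, l` with `∑ P_i = 1`, for `K_j = ∑_i K_ji`:
`-K_j + [B, K_j] = X_j B`.
(3) `x_ji = trace (P_i X_j)`, `P_i X_j P_i = x_ji P_i` (`Spec.rank`). `K' = K_ji + x_ji P_i B` satisfies `[T, K'] = K'` with
`T = P_i B`, `T T = μ T`, `μ = trace T` (`Spec.rank`). Multiply by `T`: `T K' T = 0`, `(μ - 1) T K' = 0`, `(μ + 1) K' T = 0`;
`μ ≠ ±1` (hypotheses and `Spec.adj`: `adj(r_i - U) = c_i P_i`, `trace P_i = 1`, `c_i ≠ 0`), so `K' = 0`: `K_ji = -x_ji P_i B`.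
`W_j := ∑_i x_ji P_i` commutes with `U` and `K_j = -W_j B`. With (2) and `B` invertible: `X_j = W_j + W_j B - B W_j`.
(4) First equation (`dO λ = 0`, `A1 = -(S R B)`, `eta1 = -(S R X_j R B) - Y_j R B`): multiplied out it has the shape of
`pf_lemma` with `c_i` = `mo p (dO K_ji + Y_j P_i B) - ∑_l Th_lj K_li`; so (sum over `i`)
`mo p (dO K_j + Y_j B) = ∑_l Th_lj K_l`, i.e. `mo p (dO W_j - Y_j) = ∑_l Th_lj W_l`.
(5) Apply this to `e` (`M.unit`): `w_j = W_j e`: `mo p (dO w_j) = ∑_l Th_lj w_l`; with `Thi`: `w_l = ∑_j mo p Thi_jl (dO w_j)`, so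
`VGE a` for all `w_j` implies `VGE (a + p)`; hence `w = 0` (`exists_VGE`, `eq_zero_of_VGE`). `W_j U^a e = U^a W_j e = 0` for all
`a`, so `W_j * kry = 0`, `W_j = 0`, `X_j = 0`.
(Split into private lemmas for (2), (3), (4), (5).)
-/

set_option autoImplicit false

open Matrix

namespace Pool.Agent.Helper84.CV

section gen

variable {K L : Type} [Field K] [Field L] {n : ℕ}

private theorem rg_mm (s t : Fin n → L) (A D : Fin n → Matrix (Fin n) (Fin n) L) :
    (∑ i, s i • A i) * (∑ l, t l • D l) = ∑ i, ∑ l, (s i * t l) • (A i * D l) := by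
  rw [Finset.sum_mul_sum]
  refine Finset.sum_congr rfl fun i _ => Finset.sum_congr rfl fun l _ => ?_
  rw [Matrix.smul_mul, Matrix.mul_smul, smul_smul]

private theorem rg_smul (φ : K →+* L) (z : K) (A : Matrix (Fin n) (Fin n) K) :
    φ.mapMatrix (z • A) = φ z • φ.mapMatrix A := by
  ext a b
  show φ (z * A a b) = φ z * φ (A a b)
  rw [map_mul]

/-- the first factor, a middle factor and the second factor -/
private theorem rg_mmm (φ : K →+* L) (s t : Fin n → L) (A D : Fin n → Matrix (Fin n) (Fin n) K)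
    (Q : Matrix (Fin n) (Fin n) K) :
    (∑ i, s i • φ.mapMatrix (A i)) * φ.mapMatrix Q * (∑ l, t l • φ.mapMatrix (D l)) =
      ∑ i, ∑ l, (s i * t l) • φ.mapMatrix (A i * Q * D l) := by
  rw [Finset.sum_mul, Finset.sum_congr rfl fun i _ =>
    Matrix.smul_mul (s i) (φ.mapMatrix (A i)) (φ.mapMatrix Q), rg_mm]
  refine Finset.sum_congr rfl fun i _ => Finset.sum_congr rfl fun l _ => ?_
  rw [map_mul, map_mul]

private theorem rg_diag (φ : K →+* L) (s : Fin n → L) (A : Fin n → Matrix (Fin n) (Fin n) K) :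
    ∑ i, (s i * s i) • φ.mapMatrix (A i) =
      ∑ i, ∑ l, (s i * s l) • φ.mapMatrix (if i = l then A i else 0) := by
  refine Finset.sum_congr rfl fun i _ => ?_
  rw [Finset.sum_eq_single i]
  · rw [if_pos rfl]
  · intro l _ hl
    rw [if_neg (Ne.symm hl), map_zero, smul_zero]
  · intro h
    exact absurd (Finset.mem_univ i) h

/-- the property of `pf_lemma` -/
private def RgPF (φ : K →+* L) (s : Fin n → L) : Prop :=
  ∀ (c : Fin n → K) (T : Fin n → Fin n → K),
    ∑ i, φ (c i) * s i + ∑ i, ∑ l, φ (T i l) * (s i * s l) = 0 →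
      ∑ i, c i = 0 ∧ (∀ i, T i i = 0) ∧ (c = 0 → ∑ i, ∑ l, T i l = 0)

variable {φ : K →+* L} {s : Fin n → L}

private theorem rg_pf (hpf : RgPF φ s)
    (c : Fin n → Matrix (Fin n) (Fin n) K) (T : Fin n → Fin n → Matrix (Fin n) (Fin n) K)
    (h : ∑ i, s i • φ.mapMatrix (c i) +
      ∑ i, ∑ l, (s i * s l) • φ.mapMatrix (T i l) = 0) :
    ∑ i, c i = 0 ∧ (∀ i, T i i = 0) ∧ ((∀ i, c i = 0) → ∑ i, ∑ l, T i l = 0) := by
  have key : ∀ a b : Fin n, ∑ i, c i a b = 0 ∧ (∀ i, T i i a b = 0) ∧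
      ((fun i => c i a b) = 0 → ∑ i, ∑ l, T i l a b = 0) := by
    intro a b
    refine hpf (fun i => c i a b) (fun i l => T i l a b) ?_
    have h1 := congrFun (congrFun h a) b
    rw [Matrix.add_apply, Matrix.sum_apply, Matrix.sum_apply, Matrix.zero_apply] at h1
    refine Eq.trans ?_ h1
    congr 1
    · refine Finset.sum_congr rfl fun i _ => ?_
      rw [Matrix.smul_apply, smul_eq_mul, mul_comm]
      rfl
    · refine Finset.sum_congr rfl fun i _ => ?_
      rw [Matrix.sum_apply]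
      refine Finset.sum_congr rfl fun l _ => ?_
      rw [Matrix.smul_apply, smul_eq_mul, mul_comm]
      rfl
  refine ⟨?_, ?_, ?_⟩
  · ext a b
    rw [Matrix.sum_apply, (key a b).1, Matrix.zero_apply]
  · intro i
    ext a b
    rw [(key a b).2.1 i, Matrix.zero_apply]
  · intro hc
    ext a b
    have h1 := (key a b).2.2 (funext fun i => by rw [hc i]; rfl)
    rw [Matrix.sum_apply, Matrix.zero_apply, ← h1]
    exact Finset.sum_congr rfl fun i _ => Matrix.sum_apply _ _ _ _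

/-- the second equation -/
private theorem rg_second (hpf : RgPF φ s) (d : Der L) (hds : ∀ i, d (s i) = -(s i * s i))
    (hdφ : ∀ z, d (φ z) = 0)
    (P Q : Fin n → Matrix (Fin n) (Fin n) K) (X B : Matrix (Fin n) (Fin n) K)
    (hP : ∑ i, P i = 1)
    (R k : Matrix (Fin n) (Fin n) L) (hR : R = ∑ i, s i • φ.mapMatrix (P i))
    (hk : k = ∑ i, s i • φ.mapMatrix (Q i))
    (h : dM d k + (R * φ.mapMatrix B * k - k * (R * φ.mapMatrix B)) -
      R * φ.mapMatrix X * R * φ.mapMatrix B = 0) :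
    (∀ i, -(Q i) + (P i * B * Q i - Q i * P i * B) - P i * X * P i * B = 0) ∧
      -(∑ i, Q i) + (B * (∑ i, Q i) - (∑ i, Q i) * B) - X * B = 0 := by
  have hdM : ∀ A : Matrix (Fin n) (Fin n) K, dM d (φ.mapMatrix A) = 0 := by
    intro A
    refine Matrix.ext fun a b => ?_
    exact hdφ (A a b)
  have h1 : dM d k = ∑ i, (s i * s i) • φ.mapMatrix (-(Q i)) := by
    rw [hk, dM_sum]
    refine Finset.sum_congr rfl fun i _ => ?_
    rw [dM_smul, hdM, smul_zero, zero_add, hds, map_neg, neg_smul, smul_neg]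
  have h2 : R * φ.mapMatrix B * k = ∑ i, ∑ l, (s i * s l) • φ.mapMatrix (P i * B * Q l) := by
    rw [hR, hk]
    exact rg_mmm _ _ _ _ _ _
  have h3 : k * (R * φ.mapMatrix B) = ∑ i, ∑ l, (s i * s l) • φ.mapMatrix (Q l * P i * B) := by
    rw [hR, hk, ← mul_assoc, rg_mm, Finset.sum_mul]
    rw [Finset.sum_congr rfl fun i _ => Finset.sum_mul _ _ _, Finset.sum_comm]
    refine Finset.sum_congr rfl fun i _ => Finset.sum_congr rfl fun l _ => ?_
    rw [Matrix.smul_mul, map_mul, map_mul, mul_comm (s i)]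
  have h4 : R * φ.mapMatrix X * R * φ.mapMatrix B =
      ∑ i, ∑ l, (s i * s l) • φ.mapMatrix (P i * X * P l * B) := by
    rw [hR, rg_mmm, Finset.sum_mul]
    refine Finset.sum_congr rfl fun i _ => ?_
    rw [Finset.sum_mul]
    refine Finset.sum_congr rfl fun l _ => ?_
    rw [Matrix.smul_mul, map_mul φ.mapMatrix _ B]
  rw [h1, h2, h3, h4, rg_diag] at h
  have h5 : ∑ i, s i • φ.mapMatrix (0 : Matrix (Fin n) (Fin n) K) +
      ∑ i, ∑ l, (s i * s l) • φ.mapMatrix ((if i = l then -(Q i) else 0) +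
        (P i * B * Q l - Q l * P i * B) - P i * X * P l * B) = 0 := by
    refine Eq.trans ?_ h
    simp only [map_zero, smul_zero, Finset.sum_const_zero, zero_add, map_sub, map_add, smul_sub,
      smul_add, Finset.sum_sub_distrib, Finset.sum_add_distrib]
  obtain ⟨-, h6, h7⟩ := rg_pf hpf (fun _ => 0) (fun i l => (if i = l then -(Q i) else 0) +
    (P i * B * Q l - Q l * P i * B) - P i * X * P l * B) h5
  refine ⟨?_, ?_⟩
  · intro i
    have h8 := h6 i
    simp only [if_true] at h8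
    exact h8
  · have h8 := h7 (fun _ => rfl)
    have h9 : ∑ i, ∑ l, ((if i = l then -(Q i) else 0) +
        (P i * B * Q l - Q l * P i * B) - P i * X * P l * B) =
        -(∑ i, Q i) + ((∑ i, P i) * B * (∑ l, Q l) - (∑ l, Q l) * (∑ i, P i) * B) -
          (∑ i, P i) * X * (∑ l, P l) * B := by
      have e1 : ∑ i, ∑ l, (if i = l then -(Q i) else 0) = -(∑ i, Q i) := by
        rw [← Finset.sum_neg_distrib]
        refine Finset.sum_congr rfl fun i _ => ?_
        rw [Finset.sum_ite_eq, if_pos (Finset.mem_univ i)]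
      have e2 : ∑ i, ∑ l, P i * B * Q l = (∑ i, P i) * B * (∑ l, Q l) := by
        rw [Finset.sum_mul, Finset.sum_mul_sum]
      have e3 : ∑ i, ∑ l, Q l * P i * B = (∑ l, Q l) * (∑ i, P i) * B := by
        rw [Finset.sum_mul_sum, Finset.sum_mul, Finset.sum_comm]
        exact Finset.sum_congr rfl fun i _ => (Finset.sum_mul _ _ _).symm
      have e4 : ∑ i, ∑ l, P i * X * P l * B = (∑ i, P i) * X * (∑ l, P l) * B := by
        rw [Finset.sum_mul (Finset.univ) (fun i => P i) X, Finset.sum_mul_sum, Finset.sum_mul]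
        exact Finset.sum_congr rfl fun i _ => (Finset.sum_mul _ _ _).symm
      simp only [Finset.sum_sub_distrib, Finset.sum_add_distrib]
      rw [e1, e2, e3, e4]
    rw [h9, hP] at h8
    simpa only [one_mul, mul_one] using h8

/-- the first equation -/
private theorem rg_first (hpf : RgPF φ s) (d : Der L) (dK : Der K) (ρ' : Fin n → K)
    (hds : ∀ i, d (s i) = s i * s i * φ (ρ' i))
    (hdφ : ∀ z, d (φ z) = φ (dK z)) {m : ℕ} (j : Fin m)
    (P : Fin n → Matrix (Fin n) (Fin n) K) (Q : Fin m → Fin n → Matrix (Fin n) (Fin n) K)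
    (X Y S B : Matrix (Fin n) (Fin n) K) (Th : Matrix (Fin m) (Fin m) K) (ρ : K)
    (hP : ∑ i, P i = 1)
    (R : Matrix (Fin n) (Fin n) L) (k : Fin m → Matrix (Fin n) (Fin n) L)
    (hR : R = ∑ i, s i • φ.mapMatrix (P i))
    (hk : ∀ j, k j = ∑ i, s i • φ.mapMatrix (Q j i))
    (h : φ ρ • (dM d (k j) + (-(φ.mapMatrix S * R * φ.mapMatrix B) * k j -
        k j * -(φ.mapMatrix S * R * φ.mapMatrix B)) -
      (-(φ.mapMatrix S * R * φ.mapMatrix X * R * φ.mapMatrix B) -
        φ.mapMatrix Y * R * φ.mapMatrix B)) = ∑ i, φ (Th i j) • k i) :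
    ρ • (dM dK (∑ i, Q j i) + Y * B) = ∑ l, Th l j • (∑ i, Q l i) := by
  have hdM : ∀ A : Matrix (Fin n) (Fin n) K, dM d (φ.mapMatrix A) = φ.mapMatrix (dM dK A) := by
    intro A
    refine Matrix.ext fun a b => ?_
    exact hdφ (A a b)
  have h1 : dM d (k j) = ∑ i, s i • φ.mapMatrix (dM dK (Q j i)) +
      ∑ i, (s i * s i) • φ.mapMatrix (ρ' i • Q j i) := by
    rw [hk, dM_sum, ← Finset.sum_add_distrib]
    refine Finset.sum_congr rfl fun i _ => ?_
    rw [dM_smul, hdM, hds, rg_smul, smul_smul]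
  have hSR : φ.mapMatrix S * R = ∑ i, s i • φ.mapMatrix (S * P i) := by
    rw [hR, Finset.mul_sum]
    refine Finset.sum_congr rfl fun i _ => ?_
    rw [Matrix.mul_smul, ← map_mul]
  have h2 : φ.mapMatrix S * R * φ.mapMatrix B * k j =
      ∑ i, ∑ l, (s i * s l) • φ.mapMatrix (S * P i * B * Q j l) := by
    rw [hSR, hk]
    exact rg_mmm _ _ _ _ _ _
  have h3 : k j * (φ.mapMatrix S * R * φ.mapMatrix B) =
      ∑ i, ∑ l, (s i * s l) • φ.mapMatrix (Q j l * (S * P i * B)) := by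
    have e1 : φ.mapMatrix S * R * φ.mapMatrix B = ∑ i, s i • φ.mapMatrix (S * P i * B) := by
      rw [hSR, Finset.sum_mul]
      refine Finset.sum_congr rfl fun i _ => ?_
      rw [Matrix.smul_mul, ← map_mul]
    rw [e1, hk, rg_mm, Finset.sum_comm]
    refine Finset.sum_congr rfl fun i _ => Finset.sum_congr rfl fun l _ => ?_
    rw [← map_mul, mul_comm (s l)]
  have h4 : φ.mapMatrix S * R * φ.mapMatrix X * R * φ.mapMatrix B =
      ∑ i, ∑ l, (s i * s l) • φ.mapMatrix (S * P i * X * P l * B) := by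
    rw [hSR, hR, rg_mmm, Finset.sum_mul]
    refine Finset.sum_congr rfl fun i _ => ?_
    rw [Finset.sum_mul]
    refine Finset.sum_congr rfl fun l _ => ?_
    rw [Matrix.smul_mul, map_mul φ.mapMatrix _ B]
  have h5 : φ.mapMatrix Y * R * φ.mapMatrix B = ∑ i, s i • φ.mapMatrix (Y * P i * B) := by
    rw [hR, Finset.mul_sum, Finset.sum_mul]
    refine Finset.sum_congr rfl fun i _ => ?_
    rw [Matrix.mul_smul, Matrix.smul_mul, map_mul, map_mul]
  have h6 : ∑ i, φ (Th i j) • k i = ∑ i, s i • φ.mapMatrix (∑ l, Th l j • Q l i) := by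
    have e1 : ∀ i, φ (Th i j) • k i = ∑ i', s i' • φ.mapMatrix (Th i j • Q i i') := by
      intro i
      rw [hk, Finset.smul_sum]
      refine Finset.sum_congr rfl fun i' _ => ?_
      rw [rg_smul, smul_comm]
    rw [Finset.sum_congr rfl fun i _ => e1 i, Finset.sum_comm]
    refine Finset.sum_congr rfl fun i' _ => ?_
    rw [map_sum, Finset.smul_sum]
  have h7 : ∑ i, s i • φ.mapMatrix (ρ • (dM dK (Q j i) + Y * P i * B) - ∑ l, Th l j • Q l i) +
      ∑ i, ∑ l, (s i * s l) • φ.mapMatrix (ρ • ((if i = l then ρ' i • Q j i else 0) -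
        S * P i * B * Q j l + Q j l * (S * P i * B) + S * P i * X * P l * B)) = 0 := by
    have e1 : φ ρ • (dM d (k j) + (-(φ.mapMatrix S * R * φ.mapMatrix B) * k j -
        k j * -(φ.mapMatrix S * R * φ.mapMatrix B)) -
      (-(φ.mapMatrix S * R * φ.mapMatrix X * R * φ.mapMatrix B) -
        φ.mapMatrix Y * R * φ.mapMatrix B)) - ∑ i, φ (Th i j) • k i = 0 :=
      sub_eq_zero.2 h
    rw [neg_mul, mul_neg, h1, h2, h3, h4, h5, h6, rg_diag] at e1
    refine Eq.trans ?_ e1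
    simp only [map_sub, map_add, smul_sub, smul_add, Finset.sum_sub_distrib,
      Finset.sum_add_distrib, rg_smul, Finset.smul_sum, smul_neg, smul_comm (φ ρ)]
    abel
  obtain ⟨h8, -, -⟩ := rg_pf hpf _ _ h7
  rw [Finset.sum_sub_distrib, sub_eq_zero] at h8
  have h9 : ∑ i, ρ • (dM dK (Q j i) + Y * P i * B) = ρ • (dM dK (∑ i, Q j i) + Y * B) := by
    rw [← Finset.smul_sum, Finset.sum_add_distrib, ← dM_sum]
    congr 2
    rw [← Finset.sum_mul, ← Finset.mul_sum, hP, mul_one]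
  rw [← h9, h8, Finset.sum_comm]
  exact Finset.sum_congr rfl fun l _ => (Finset.smul_sum).symm

private theorem rg_neg3 (A B C : Matrix (Fin n) (Fin n) L) : -A * B * C = -(A * B * C) := by
  rw [neg_mul, neg_mul]

private theorem rg_neg5 (A B C D E : Matrix (Fin n) (Fin n) L) :
    -A * B * C * D * E = -(A * B * C * D * E) := by
  rw [neg_mul, neg_mul, neg_mul, neg_mul]

/-- the equation `[T, K] = K` -/
private theorem rg_bracket (T Q : Matrix (Fin n) (Fin n) K) (μ : K) (hT : T * T = μ • T)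
    (h : T * Q - Q * T = Q) (h1 : μ ≠ 1) (h2 : μ ≠ -1) : Q = 0 := by
  have e0 : T * Q * T = 0 := by
    have e1 : T * (T * Q - Q * T) * T = T * Q * T := by rw [h]
    have e2 : T * (T * Q - Q * T) * T = (T * T) * Q * T - T * Q * (T * T) := by noncomm_ring
    rw [e2, hT] at e1
    rw [← e1, Matrix.smul_mul, Matrix.smul_mul, Matrix.mul_smul, sub_self]
  have e1 : T * Q = 0 := by
    have e2 : T * (T * Q - Q * T) = T * Q := by rw [h]
    have e3 : T * (T * Q - Q * T) = (T * T) * Q - T * Q * T := by noncomm_ring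
    rw [e3, e0, sub_zero, hT, Matrix.smul_mul] at e2
    have e4 : (μ - 1) • (T * Q) = 0 := by rw [sub_smul, one_smul, e2, sub_self]
    exact (smul_eq_zero.1 e4).resolve_left (sub_ne_zero.2 h1)
  have e2 : Q * T = 0 := by
    have e3 : (T * Q - Q * T) * T = Q * T := by rw [h]
    have e4 : (T * Q - Q * T) * T = T * Q * T - Q * (T * T) := by noncomm_ring
    rw [e4, e0, zero_sub, hT, Matrix.mul_smul] at e3
    have e5 : (μ + 1) • (Q * T) = 0 := by
      rw [add_smul, one_smul]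
      nth_rewrite 2 [← e3]
      exact add_neg_cancel _
    refine (smul_eq_zero.1 e5).resolve_left ?_
    intro h3
    exact h2 (eq_neg_of_add_eq_zero_left h3)
  rw [← h, e1, e2, sub_zero]

/-- the trace of `P_i B` -/
private theorem rg_mu {U B : Matrix (Fin n) (Fin n) K} {r : Fin n → K}
    {P : Fin n → Matrix (Fin n) (Fin n) K} (hS : Spec U r P)
    (hU : U.charpoly = ∏ i, (Polynomial.X - Polynomial.C (r i))) (hr : Function.Injective r)
    (i : Fin n)
    (h : ((r i • (1 : Matrix (Fin n) (Fin n) K) - U).adjugate * B).trace ≠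
      ((r i • (1 : Matrix (Fin n) (Fin n) K) - U).adjugate).trace)
    (h' : ((r i • (1 : Matrix (Fin n) (Fin n) K) - U).adjugate * B).trace ≠
      -((r i • (1 : Matrix (Fin n) (Fin n) K) - U).adjugate).trace) :
    (P i * B).trace ≠ 1 ∧ (P i * B).trace ≠ -1 := by
  have h2 := hS.adj hU hr i
  refine ⟨fun h1 => h ?_, fun h1 => h' ?_⟩
  · rw [h2, Matrix.smul_mul, Matrix.trace_smul, Matrix.trace_smul, h1, hS.trace]
  · rw [h2, Matrix.smul_mul, Matrix.trace_smul, Matrix.trace_smul, h1, hS.trace, smul_neg]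

/-- the coefficients of the solution -/
private theorem rg_coef {U B : Matrix (Fin n) (Fin n) K} {r : Fin n → K}
    {P : Fin n → Matrix (Fin n) (Fin n) K} (hS : Spec U r P)
    (i : Fin n) (h1 : (P i * B).trace ≠ 1) (h2 : (P i * B).trace ≠ -1)
    (X Q : Matrix (Fin n) (Fin n) K)
    (h : -Q + (P i * B * Q - Q * P i * B) - P i * X * P i * B = 0) :
    Q = -((P i * X).trace • (P i * B)) := by
  have hT : (P i * B) * (P i * B) = (P i * B).trace • (P i * B) := by
    rw [← mul_assoc, hS.rank, Matrix.smul_mul]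
  have h3 : P i * X * P i * B = (P i * X).trace • (P i * B) := by
    rw [hS.rank, Matrix.smul_mul]
  rw [h3] at h
  have h4 : (P i * B) * (Q + (P i * X).trace • (P i * B)) -
      (Q + (P i * X).trace • (P i * B)) * (P i * B) =
      Q + (P i * X).trace • (P i * B) := by
    rw [mul_add, add_mul, Matrix.mul_smul, Matrix.smul_mul, ← mul_assoc Q]
    have h6 : P i * B * Q - Q * P i * B = Q + (P i * X).trace • (P i * B) := by
      have h7 := sub_eq_zero.1 h
      rw [← h7]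
      abel
    rw [← h6]
    abel
  have h5 := rg_bracket _ _ _ hT h4 h1 h2
  exact eq_neg_of_add_eq_zero_left h5

/-- cancel the matrix `B` -/
private theorem rg_cancel {B A C : Matrix (Fin n) (Fin n) K} (hB : IsUnit B.det)
    (h : A * B = C * B) : A = C := by
  calc A = A * (B * B⁻¹) := by rw [Matrix.mul_nonsing_inv _ hB, mul_one]
    _ = C * (B * B⁻¹) := by rw [← mul_assoc, h, mul_assoc]
    _ = C := by rw [Matrix.mul_nonsing_inv _ hB, mul_one]

private theorem rg_W {U B : Matrix (Fin n) (Fin n) K} {r : Fin n → K}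
    {P : Fin n → Matrix (Fin n) (Fin n) K} (hS : Spec U r P) (d : Der K)
    (hdB : dM d B = 0) (hB : IsUnit B.det) (hm1 : ∀ i, (P i * B).trace ≠ 1)
    (hm2 : ∀ i, (P i * B).trace ≠ -1) {m : ℕ} (X Y : Fin m → Matrix (Fin n) (Fin n) K)
    (Q : Fin m → Fin n → Matrix (Fin n) (Fin n) K) (Th : Matrix (Fin m) (Fin m) K) (ρ : K)
    (h1 : ∀ j i, -(Q j i) + (P i * B * Q j i - Q j i * P i * B) - P i * X j * P i * B = 0)
    (h2 : ∀ j, -(∑ i, Q j i) + (B * (∑ i, Q j i) - (∑ i, Q j i) * B) - X j * B = 0)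
    (h3 : ∀ j, ρ • (dM d (∑ i, Q j i) + Y j * B) = ∑ l, Th l j • (∑ i, Q l i)) :
    ∃ W : Fin m → Matrix (Fin n) (Fin n) K, ∀ j, W j * U = U * W j ∧
      X j = W j - B * W j + W j * B ∧ ρ • (dM d (W j) - Y j) = ∑ l, Th l j • W l := by
  obtain ⟨W, hW⟩ : ∃ W : Fin m → Matrix (Fin n) (Fin n) K,
      ∀ j, W j = ∑ i, (P i * X j).trace • P i := ⟨_, fun _ => rfl⟩
  have hsum : ∀ j, ∑ i, Q j i = -(W j * B) := by
    intro j
    rw [hW, Finset.sum_mul, ← Finset.sum_neg_distrib]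
    refine Finset.sum_congr rfl fun i _ => ?_
    rw [rg_coef hS i (hm1 i) (hm2 i) (X j) (Q j i) (h1 j i), Matrix.smul_mul]
  refine ⟨W, fun j => ⟨?_, ?_, ?_⟩⟩
  · rw [hW, Finset.sum_mul, Finset.mul_sum]
    refine Finset.sum_congr rfl fun i _ => ?_
    rw [Matrix.smul_mul, Matrix.mul_smul, hS.left, hS.right]
  · refine rg_cancel hB ?_
    have h4 := h2 j
    rw [hsum] at h4
    have h5 := sub_eq_zero.1 h4
    rw [← h5]
    noncomm_ring
  · have h4 := h3 j
    rw [hsum, dM_neg, dM_mul, hdB, mul_zero, zero_add] at h4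
    have h5 : ∑ l, Th l j • ∑ i, Q l i = -((∑ l, Th l j • W l) * B) := by
      rw [Finset.sum_mul, ← Finset.sum_neg_distrib]
      refine Finset.sum_congr rfl fun l _ => ?_
      rw [hsum, smul_neg, Matrix.smul_mul]
    rw [h5] at h4
    refine rg_cancel hB ?_
    rw [← neg_inj, ← h4, Matrix.smul_mul, ← smul_neg]
    congr 1
    noncomm_ring

private theorem rg_vec' (d : Der K) {m : ℕ} (W Y : Matrix (Fin n) (Fin n) K)
    (Ws : Fin m → Matrix (Fin n) (Fin n) K) (θ : Fin m → K) (ρ : K) (v : Fin n → K)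
    (hv : ∀ i, d (v i) = 0) (hY : Y.mulVec v = 0)
    (h : ρ • (dM d W - Y) = ∑ l, θ l • Ws l) (a : Fin n) :
    ρ * d ((W.mulVec v) a) = ∑ l, θ l * ((Ws l).mulVec v) a := by
  have h1 : d ((W.mulVec v) a) = ((dM d W).mulVec v) a := by
    have h1 : (W.mulVec v) a = ∑ b, W a b * v b := rfl
    have h2 : ((dM d W).mulVec v) a = ∑ b, d (W a b) * v b := rfl
    rw [h1, h2, map_sum]
    refine Finset.sum_congr rfl fun b _ => ?_
    rw [Der.leib, hv, mul_zero, zero_add]
  have h2 := congrArg (fun Z : Matrix (Fin n) (Fin n) K => (Z.mulVec v) a) h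
  simp only [Matrix.smul_mulVec, Matrix.sub_mulVec, hY, sub_zero, Matrix.sum_mulVec,
    Finset.sum_apply, Pi.smul_apply, smul_eq_mul] at h2
  rw [h1, h2]

/-- the Krylov matrix -/
private theorem rg_kry {U W : Matrix (Fin n) (Fin n) K} (v : Fin n → K) (hUW : W * U = U * W)
    (hW : W.mulVec v = 0) (hkry : (kry U v).det ≠ 0) : W = 0 := by
  have hpow : ∀ a : ℕ, W * U ^ a = U ^ a * W := by
    intro a
    induction a with
    | zero => rw [pow_zero, mul_one, one_mul]
    | succ a ih => rw [pow_succ, ← mul_assoc, ih, mul_assoc, hUW, ← mul_assoc]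
  have h1 : W * kry U v = 0 := by
    refine Matrix.ext fun a b => ?_
    have h2 : (W * kry U v) a b = (W.mulVec ((U ^ (b : ℕ)).mulVec v)) a := rfl
    rw [h2, Matrix.mulVec_mulVec, hpow, ← Matrix.mulVec_mulVec, hW, Matrix.mulVec_zero]
    rfl
  have h2 : IsUnit (kry U v).det := isUnit_iff_ne_zero.2 hkry
  calc W = W * (kry U v * (kry U v)⁻¹) := by rw [Matrix.mul_nonsing_inv _ h2, mul_one]
    _ = 0 := by rw [← mul_assoc, h1, zero_mul]

end gen

end Pool.Agent.Helper84.CV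

namespace Pool.Agent.Helper84.CV.MD

variable {n : ℕ} {D : LD n} {N : ℕ} [NeZero N] {e : Fin n → ℂ} (M : MD D N e)

/-- the eigenvalues -/
private noncomputable def rgr (D : LD n) (N : ℕ) [NeZero N] (i : Fin n) : LC :=
  ram N (inc (D.r i))

private noncomputable def rgs (D : LD n) (N : ℕ) [NeZero N] (i : Fin n) : FF :=
  ((HahnSeries.C (RatFunc.X : RatFunc ℂ) : FF) - up (rgr D N i))⁻¹

private theorem rgr_inj (D : LD n) (N : ℕ) [NeZero N] : Function.Injective (rgr D N) := by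
  intro i j h
  unfold rgr at h
  exact D.inj (inc_injective ((ram N : LC →+* LC).injective h))

private theorem rgs_pf (D : LD n) (N : ℕ) [NeZero N] : RgPF up (rgs D N) := by
  intro c T h
  exact pf_lemma (rgr D N) (rgr_inj D N) c T h

private theorem rgs_dI (D : LD n) (N : ℕ) [NeZero N] (i : Fin n) :
    dI rD (rgs D N i) = -(rgs D N i * rgs D N i) := by
  unfold rgs
  rw [Der.map_inv', map_sub, dI_up, dI_C, rD_X, map_one, sub_zero, mul_one, pow_two]

private theorem rgs_dO (D : LD n) (N : ℕ) [NeZero N] (i : Fin n) :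
    dO (rgs D N i) = rgs D N i * rgs D N i * up (dO (rgr D N i)) := by
  unfold rgs
  rw [Der.map_inv', map_sub, dO_C, dO_up, zero_sub, pow_two]
  ring

private theorem rg_lam (N : ℕ) [NeZero N] : LD.lamN N [] = (HahnSeries.C (RatFunc.X : RatFunc ℂ) : FF) :=
  LD.lamN_nil N

/-- the decomposition of the solution on the root disc -/
private theorem rg_dec (hadm : ∀ l, D.Adm N l 0) (k : Fin M.r → Matrix (Fin n) (Fin n) FF)
    (hk : M.IsSol [] k) :
    ∃ Q : Fin M.r → Fin n → Matrix (Fin n) (Fin n) LC,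
      ∀ j, k j = ∑ i, rgs D N i • up.mapMatrix (Q j i) := by
  have h1 : ∀ (j : Fin M.r) (a b : Fin n), ∃ κ : Fin n → LC,
      k j a b = ∑ i, up (κ i) * rgs D N i := by
    intro j a b
    obtain ⟨H, hH⟩ := M.root_form hadm k hk j
    have h2 : (∏ i, (LD.lamN N [] - ram N (inc (D.r i)))) * k j a b =
        ∑ c : Fin n, (LD.lamN N []) ^ (c : ℕ) * up (H c a b) := by
      have h3 := congrFun (congrFun hH a) b
      rw [Matrix.sum_apply] at h3
      exact h3
    refine partial_fractions (rgr D N) (rgr_inj D N) (k j a b) (fun c => H c a b) ?_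
    rw [rg_lam] at h2
    rw [← h2]
    congr 1
    refine Finset.prod_congr rfl fun i _ => ?_
    unfold rgr
    rw [up_inc]
  choose κ hκ using h1
  refine ⟨fun j i => Matrix.of fun a b => κ j a b i, fun j => ?_⟩
  ext1 a b
  rw [hκ j a b, Matrix.sum_apply]
  refine Finset.sum_congr rfl fun i _ => ?_
  rw [mul_comm]
  rfl

/-- the resolvent on the root disc -/
private theorem rg_RN {P : Fin n → Matrix (Fin n) (Fin n) LC} (hS : Spec (D.UK N ℂ) (rgr D N) P) :
    D.RN N [] = ∑ i, rgs D N i • up.mapMatrix (P i) := by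
  have h1 := (hS.map up).resolvent (HahnSeries.C (RatFunc.X : RatFunc ℂ) : FF)
    (fun i => x_sub_up_ne _)
  unfold LD.RN
  rw [rg_lam, ← LD.UK_up]
  exact h1

private theorem rg_A2 : D.A2 N [] = D.RN N [] * up.mapMatrix (D.BK ℂ) := by
  have h1 : dI rD (LD.lamN N []) = 1 := by
    rw [LD.dI_lamN]
    simp [mo_zero]
  unfold LD.A2 cn
  rw [h1]
  have h2 : ((1 : FF) • (1 : Matrix (Fin n) (Fin n) FF) - (0 : FF) • D.SK N (RatFunc ℂ)) = 1 := by
    rw [one_smul]
    refine Matrix.ext fun a b => ?_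
    show (1 : Matrix (Fin n) (Fin n) FF) a b - (0 : FF) * D.SK N (RatFunc ℂ) a b = _
    rw [zero_mul, sub_zero]
  rw [h2, one_mul, ← LD.BK_up]
  rfl

private theorem rg_A1 : D.A1 N [] = -(up.mapMatrix (D.SK N ℂ) * D.RN N [] * up.mapMatrix (D.BK ℂ)) := by
  have h1 : dO (LD.lamN N []) = 0 := LD.dO_lamN_nil N
  unfold LD.A1 cn
  rw [h1]
  have h2 : ((0 : FF) • (1 : Matrix (Fin n) (Fin n) FF) - (1 : FF) • D.SK N (RatFunc ℂ)) =
      -up.mapMatrix (D.SK N ℂ) := by
    refine Matrix.ext fun a b => ?_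
    show (0 : FF) * (1 : Matrix (Fin n) (Fin n) FF) a b - (1 : FF) * D.SK N (RatFunc ℂ) a b =
      -(((D.SK N ℂ).map up) a b)
    rw [LD.SK_up, zero_mul, one_mul, zero_sub]
  rw [h2, ← LD.BK_up]
  exact rg_neg3 _ _ _

private theorem rg_eta2 (j : Fin M.r) : M.eta2 [] j =
    D.RN N [] * up.mapMatrix (M.X j) * D.RN N [] * up.mapMatrix (D.BK ℂ) := by
  have h1 : dI rD (LD.lamN N []) = 1 := by
    rw [LD.dI_lamN]
    simp [mo_zero]
  unfold eta2
  rw [h1, one_smul, ← LD.BK_up]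
  rfl

private theorem rg_eta1 (j : Fin M.r) : M.eta1 [] j =
    -(up.mapMatrix (D.SK N ℂ) * D.RN N [] * up.mapMatrix (M.X j) * D.RN N [] *
      up.mapMatrix (D.BK ℂ)) -
      up.mapMatrix (M.Y j) * D.RN N [] * up.mapMatrix (D.BK ℂ) := by
  have h1 : dO (LD.lamN N []) = 0 := LD.dO_lamN_nil N
  unfold eta1
  rw [h1]
  have h2 : ((0 : FF) • (1 : Matrix (Fin n) (Fin n) FF) - D.SK N (RatFunc ℂ)) =
      -up.mapMatrix (D.SK N ℂ) := by
    refine Matrix.ext fun a b => ?_
    show (0 : FF) * (1 : Matrix (Fin n) (Fin n) FF) a b - D.SK N (RatFunc ℂ) a b =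
      -(((D.SK N ℂ).map up) a b)
    rw [LD.SK_up, zero_mul, zero_sub]
  rw [h2, ← LD.BK_up]
  exact congrArg (fun Z => Z - up.mapMatrix (M.Y j) * D.RN N [] * up.mapMatrix (D.BK ℂ))
    (rg_neg5 _ _ _ _ _)

/-- the two equations for matrices over `ℂ((τ))` -/
private theorem rg_eqs (hN : n.factorial ∣ N) {P : Fin n → Matrix (Fin n) (Fin n) LC}
    (hS : Spec (D.UK N ℂ) (rgr D N) P) :
    ∃ Q : Fin M.r → Fin n → Matrix (Fin n) (Fin n) LC, ∀ j,
      (∀ i, -(Q j i) + (P i * D.BK ℂ * Q j i - Q j i * P i * D.BK ℂ) -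
        P i * M.X j * P i * D.BK ℂ = 0) ∧
      (-(∑ i, Q j i) + (D.BK ℂ * (∑ i, Q j i) - (∑ i, Q j i) * D.BK ℂ) -
        M.X j * D.BK ℂ = 0) ∧
      ((mo (M.p : ℤ) : LC) • (dM dO (∑ i, Q j i) + M.Y j * D.BK ℂ) =
        ∑ l, M.Th l j • (∑ i, Q l i)) := by
  have hadm : ∀ l, D.Adm N l 0 := fun l => D.adm_all N l hN
  obtain ⟨k, hk⟩ := M.ball_solution [] (hadm [])
  obtain ⟨Q, hQ⟩ := rg_dec M hadm k hk
  refine ⟨Q, fun j => ?_⟩
  have h2 := hk.2 j
  have h1 := hk.1 j
  rw [rg_A2, rg_eta2] at h2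
  rw [rg_A1, rg_eta1] at h1
  have h2' : dM (dI rD) (k j) + (D.RN N [] * up.mapMatrix (D.BK ℂ) * k j -
      k j * (D.RN N [] * up.mapMatrix (D.BK ℂ))) -
      D.RN N [] * up.mapMatrix (M.X j) * D.RN N [] * up.mapMatrix (D.BK ℂ) = 0 := by
    have h3 : ∑ i, (0 : Matrix (Fin M.r) (Fin M.r) FF) i j • k i = 0 := by
      refine Finset.sum_eq_zero fun i _ => ?_
      refine Matrix.ext fun a b => ?_
      show (0 : FF) * k i a b = 0
      rw [zero_mul]
    rw [h3, one_smul] at h2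
    exact h2
  obtain ⟨h3, h4⟩ := rg_second (rgs_pf D N) (dI rD) (rgs_dI D N) (fun z => dI_up z) P (Q j)
    (M.X j) (D.BK ℂ) hS.sum (D.RN N []) (k j) (rg_RN hS) (hQ j) h2'
  refine ⟨h3, h4, ?_⟩
  refine rg_first (rgs_pf D N) dO dO (fun i => dO (rgr D N i)) (rgs_dO D N) (fun z => dO_up z) j P
    Q (M.X j) (M.Y j) (D.SK N ℂ) (D.BK ℂ) M.Th (mo (M.p : ℤ)) hS.sum (D.RN N []) k (rg_RN hS) hQ ?_
  rw [up_mo]
  exact h1

/-- the contraction argument -/
private theorem rg_zero {m p : ℕ} (hp : 0 < p) (Th Thi : Matrix (Fin m) (Fin m) LC)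
    (hThi : MVGE 0 Thi) (hinv : Th * Thi = 1) (w : Fin m → Fin n → LC)
    (h : ∀ j a, (mo (p : ℤ) : LC) * dO (w j a) = ∑ l, Th l j * w l a) (j : Fin m) (a : Fin n) :
    w j a = 0 := by
  have hw : ∀ l a, w l a = ∑ j, Thi j l * ((mo (p : ℤ) : LC) * dO (w j a)) := by
    intro l a
    have h1 : ∑ j, Thi j l * ((mo (p : ℤ) : LC) * dO (w j a)) =
        ∑ i, (Th * Thi) i l * w i a := by
      rw [Finset.sum_congr rfl fun j _ => by rw [h j a, Finset.mul_sum], Finset.sum_comm]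
      refine Finset.sum_congr rfl fun i _ => ?_
      rw [Matrix.mul_apply, Finset.sum_mul]
      refine Finset.sum_congr rfl fun j _ => ?_
      ring
    rw [h1, hinv, Finset.sum_eq_single l]
    · rw [Matrix.one_apply_eq, one_mul]
    · intro i _ hi
      rw [Matrix.one_apply_ne hi, zero_mul]
    · intro hl
      exact absurd (Finset.mem_univ l) hl
  obtain ⟨a₀, ha₀⟩ := exists_MVGE (Matrix.of fun (l : Fin m) (a : Fin n) => w l a)
  have key : ∀ c : ℕ, ∀ l a, VGE (a₀ + c * p) (w l a) := by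
    intro c
    induction c with
    | zero =>
      intro l a
      have h1 := ha₀ l a
      rw [Nat.cast_zero, zero_mul, add_zero]
      exact h1
    | succ c ih =>
      intro l a
      rw [hw l a]
      refine VGE.sum _ _ fun j _ => ?_
      have h1 := (hThi j l).mul ((VGE_mo (K := ℂ) (p : ℤ)).mul (ih j a).outer)
      refine h1.mono ?_
      push_cast
      have : ((c : ℤ) + 1) * p = c * p + p := by ring
      omega
  refine eq_zero_of_VGE fun t => ?_
  refine (key (t - a₀).toNat j a).mono ?_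
  have h1 : (t - a₀) ≤ ((t - a₀).toNat : ℤ) := Int.self_le_toNat _
  have h2 : ((t - a₀).toNat : ℤ) * 1 ≤ ((t - a₀).toNat : ℤ) * p :=
    mul_le_mul_of_nonneg_left (by exact_mod_cast hp) (by positivity)
  omega

private theorem rg_detB (hB : IsUnit D.B.det) : IsUnit (D.BK ℂ).det := by
  have h1 : D.BK ℂ = D.B.map (HahnSeries.C : ℂ →+* LC) := rfl
  rw [h1]
  exact isUnit_det_map (HahnSeries.C : ℂ →+* LC) D.B hB

theorem rigid (hN : n.factorial ∣ N)
    (hkry : (kry (D.UK N ℂ) (fun i => (HahnSeries.C (e i) : LC))).det ≠ 0)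
    (hB : IsUnit D.B.det)
    (hμ : ∀ i, (((ram N (inc (D.r i)) : LC) • (1 : Matrix (Fin n) (Fin n) LC) -
        D.UK N ℂ).adjugate * D.BK ℂ).trace ≠
      (((ram N (inc (D.r i)) : LC) • (1 : Matrix (Fin n) (Fin n) LC) - D.UK N ℂ).adjugate).trace)
    (hμ' : ∀ i, (((ram N (inc (D.r i)) : LC) • (1 : Matrix (Fin n) (Fin n) LC) -
        D.UK N ℂ).adjugate * D.BK ℂ).trace ≠
      -(((ram N (inc (D.r i)) : LC) • (1 : Matrix (Fin n) (Fin n) LC) - D.UK N ℂ).adjugate).trace)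
    (j : Fin M.r) : M.X j = 0 := by
  obtain ⟨P, hS⟩ := exists_spec (r := rgr D N) (D.charpoly_UK N ℂ) (rgr_inj D N)
  obtain ⟨Q, hQ⟩ := rg_eqs M hN hS
  have hm : ∀ i, (P i * D.BK ℂ).trace ≠ 1 ∧ (P i * D.BK ℂ).trace ≠ -1 := fun i =>
    rg_mu hS (D.charpoly_UK N ℂ) (rgr_inj D N) i (hμ i) (hμ' i)
  obtain ⟨W, hW⟩ := rg_W hS dO (D.dO_BK ℂ) (rg_detB hB) (fun i => (hm i).1) (fun i => (hm i).2)
    M.X M.Y Q M.Th (mo (M.p : ℤ)) (fun j i => (hQ j).1 i) (fun j => (hQ j).2.1)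
    (fun j => (hQ j).2.2)
  have hw : ∀ j a, ((W j).mulVec fun i => (HahnSeries.C (e i) : LC)) a = 0 := by
    intro j a
    refine rg_zero M.hp M.Th M.Thi M.hThi M.inv
      (fun j a => ((W j).mulVec fun i => (HahnSeries.C (e i) : LC)) a) ?_ j a
    intro j a
    exact rg_vec' dO (W j) (M.Y j) W (fun l => M.Th l j) (mo (M.p : ℤ))
      (fun i => (HahnSeries.C (e i) : LC)) (fun i => dO_C (e i)) (M.unit j) (hW j).2.2 a
  have hW0 : ∀ j, W j = 0 := fun j => rg_kry _ (hW j).1 (funext (hw j)) hkry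
  rw [(hW j).2.1, hW0 j, mul_zero, zero_mul, sub_zero, add_zero]

end Pool.Agent.Helper84.CV.MD
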