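import Pool.Agent.Helper84.CV.VarS
import Pool.Agent.Helper84.CV.Rigid

/-!
# CV-Irr: the linearised system has no part of positive slope

Plan. Let `d` be the value of `dpol` at `U = UK N ℂ` and `C = d⁻¹ • chat U e v`, so `SK = w • C` (`hS`). For each `j` take
`Z_j` from `exists_variation` with `Y = vec U`, `x = b j`, `z = w` (`mat_vec`), and build an `MD D N e` with
`X j = mat (b j)`, `Y j = w • Z_j`, the given `p, Th, Thi`. `ode`: `hb` in matrix form, entry `(i, j')` is the index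
`finProdFinEquiv (i, j')`: `dO (X j) = -mat (Alin … (b j)) + ∑_c mo (-p) Th c j • X c` and the third property of `Z_j`
(`B.map (algebraMap ℂ LC) = BK ℂ`: `HahnSeries.algebraMap_apply`). `comm`: first property times `w`. `unit`: second one.
`rigid` (its hypothesis `hkry` is `hd` through `aeval_dpol`) gives `mat (b j) = 0`, so `b j = vec (mat (b j)) = 0`.
-/

set_option autoImplicit false

open Matrix

namespace Pool.Agent.Helper84.CV

private theorem irr_comm {n : ℕ} {L : Type} [Field L] (X Ch U Z S : Matrix (Fin n) (Fin n) L)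
    (w d : L) (h : X * (d⁻¹ • Ch) + U * Z = Z * U + (d⁻¹ • Ch) * X) (hS : S = (w * d⁻¹) • Ch) :
    X * S + U * (w • Z) = (w • Z) * U + S * X := by
  have h1 := congrArg (fun M => w • M) h
  simp only [smul_add, Matrix.mul_smul, Matrix.smul_mul] at h1
  rw [hS, mul_smul]
  simp only [Matrix.mul_smul, Matrix.smul_mul]
  exact h1

private theorem irr_ode {n : ℕ} {L : Type} [Field L] (Z B : Matrix (Fin n) (Fin n) L) (w : L) :
    w • Z + ((w • Z) * B - B * (w • Z)) = w • (Z + (Z * B - B * Z)) := by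
  rw [smul_add, smul_sub, Matrix.smul_mul, Matrix.mul_smul]

private theorem irr_unit {n : ℕ} {L : Type} [Field L] (Z : Matrix (Fin n) (Fin n) L) (w : L)
    (e : Fin n → L) (h : Z.mulVec e = 0) : (w • Z).mulVec e = 0 := by
  rw [Matrix.smul_mulVec, h, smul_zero]

private theorem irr_sum {n r : ℕ} {L : Type} [Field L] (c : Fin r → L)
    (M : Fin r → Matrix (Fin n) (Fin n) L) (i k : Fin n) :
    (∑ j, c j • M j) i k = ∑ j, c j * M j i k := by
  rw [Matrix.sum_apply]
  rfl

theorem irr_zero {n : ℕ} (D : LD n) (N : ℕ) [NeZero N] (hN : n.factorial ∣ N)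
    (e v : Fin n → ℂ) (w : LC)
    (hd : MvPolynomial.aeval (vec (D.UK N ℂ)) (dpol e) ≠ 0)
    (hS : D.SK N ℂ = (w * (MvPolynomial.aeval (vec (D.UK N ℂ)) (dpol e))⁻¹) •
      chat (D.UK N ℂ) (fun i => algebraMap ℂ LC (e i)) (fun i => algebraMap ℂ LC (v i)))
    (hB : IsUnit D.B.det)
    (hμ : ∀ i, (((ram N (inc (D.r i)) : LC) • (1 : Matrix (Fin n) (Fin n) LC) -
        D.UK N ℂ).adjugate * D.BK ℂ).trace ≠
      (((ram N (inc (D.r i)) : LC) • (1 : Matrix (Fin n) (Fin n) LC) - D.UK N ℂ).adjugate).trace)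
    (hμ' : ∀ i, (((ram N (inc (D.r i)) : LC) • (1 : Matrix (Fin n) (Fin n) LC) -
        D.UK N ℂ).adjugate * D.BK ℂ).trace ≠
      -(((ram N (inc (D.r i)) : LC) • (1 : Matrix (Fin n) (Fin n) LC) - D.UK N ℂ).adjugate).trace)
    (p : ℕ) (hp : 0 < p) {r : ℕ} (b : Fin r → Fin (n * n) → LC)
    (Th Thi : Matrix (Fin r) (Fin r) LC) (hTh : MVGE 0 Th) (hThi : MVGE 0 Thi)
    (inv : Th * Thi = 1)
    (hb : ∀ j i, dO (b j i) + ((Alin D.B e v (vec (D.UK N ℂ)) w).mulVec (b j)) i =
      ∑ c, mo (-(p : ℤ)) * Th c j * b c i) (j : Fin r) : b j = 0 := by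
  have halg : ∀ a : ℂ, algebraMap ℂ LC a = HahnSeries.C a := by
    intro a
    rw [HahnSeries.algebraMap_apply']
    exact HahnSeries.ofPowerSeries_C a
  have hBK : D.B.map (algebraMap ℂ LC) = D.BK ℂ := by
    ext1 i k
    rw [Matrix.map_apply, halg]
    rfl
  have hkry : (kry (D.UK N ℂ) (fun i => (HahnSeries.C (e i) : LC))).det ≠ 0 := by
    have h1 := hd
    rw [aeval_dpol, mat_vec] at h1
    simp_rw [halg] at h1
    exact h1
  have hvar := fun j => exists_variation D.B e v (vec (D.UK N ℂ)) (b j) hd w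
  choose Z hZ1 hZ2 hZ3 using hvar
  simp only [mat_vec] at hZ1
  have ode : ∀ j, dM dO (mat (b j)) = w • Z j + ((w • Z j) * D.BK ℂ - D.BK ℂ * (w • Z j)) +
      ∑ i, (mo (-(p : ℤ)) * Th i j) • mat (b i) := by
    intro j
    ext1 i k
    have h1 := hb j (finProdFinEquiv (i, k))
    have h2 := congrFun (congrFun (hZ3 j) i) k
    rw [hBK] at h2
    have h3 : mat ((Alin D.B e v (vec (D.UK N ℂ)) w).mulVec (b j)) i k =
      ((Alin D.B e v (vec (D.UK N ℂ)) w).mulVec (b j)) (finProdFinEquiv (i, k)) := rfl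
    rw [h3] at h2
    rw [h2] at h1
    have h4 : dM dO (mat (b j)) i k = dO (b j (finProdFinEquiv (i, k))) := rfl
    have h5 := irr_sum (fun i => mo (-(p : ℤ)) * Th i j) (fun i => mat (b i)) i k
    have h6 := irr_ode (Z j) (D.BK ℂ) w
    rw [Matrix.add_apply, h5, h6, h4]
    rw [Matrix.neg_apply] at h1
    have h7 : ∑ c, mo (-(p : ℤ)) * Th c j * mat (b c) i k =
      ∑ c, mo (-(p : ℤ)) * Th c j * b c (finProdFinEquiv (i, k)) := rfl
    rw [h7, ← h1]
    ring
  have comm : ∀ j, mat (b j) * D.SK N ℂ + D.UK N ℂ * (w • Z j) =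
      (w • Z j) * D.UK N ℂ + D.SK N ℂ * mat (b j) :=
    fun j => irr_comm _ _ _ _ _ _ _ (hZ1 j) hS
  have unit : ∀ j, (w • Z j).mulVec (fun i => HahnSeries.C (e i)) = 0 := by
    intro j
    have h1 := hZ2 j
    simp_rw [halg] at h1
    exact irr_unit _ _ _ h1
  let M : MD D N e :=
    { r := r
      p := p
      hp := hp
      X := fun j => mat (b j)
      Y := fun j => w • Z j
      Th := Th
      Thi := Thi
      hTh := hTh
      hThi := hThi
      inv := inv
      ode := ode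
      comm := comm
      unit := unit }
  have hX : mat (b j) = 0 := MD.rigid M hN hkry hB hμ hμ' j
  rw [← vec_mat (b j), hX]
  rfl

end Pool.Agent.Helper84.CV
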