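import Pool.Agent.Helper84.CV.FlatCn

/-!
# CV-LDB: basic facts on line data

Notation: `D : LD n`, `UK, SK, BK` the matrices `U`, `N S`, `B` over `K((τ))`, `s = τ^N`; `inc` the inclusion of `ℂ[[s]]` into
`K((s))`; `lamN N l` the coordinate `λ` of the disc `l` after ramification.

Plan. `comm_K`: apply the ring homomorphism `(ram N).comp inc` to `D.comm` (`Matrix.map_mul`), multiply by `N`.
`dO_UK`: `dO (ram N z) = N ram N (dO z)` (`dO_ram`), and `dO (inc z)` has the coefficient `k coeff_k z` at `k ≥ 0`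
(coefficients of `inc z`: `HahnSeries.ofPowerSeries_apply_coeff`, and `0` at negative indices), so `D.ode` says
`dO (inc U_ij) = inc ((S + [S, B])_ij)` (compare coefficients, `HahnSeries.ext`, or write `s dU/ds` with
`PowerSeries.mk`). `dI_inc` etc.: the coefficients of `inc z` are constants. `charpoly_UK`: `Matrix.charpoly_map`.
`det_ne`: `(λ - U).det = ∏ (λ - r_i)` is the characteristic polynomial at `λ` (`Matrix.eval_charpoly`..., or
`Matrix.charpoly` evaluated through `Polynomial.evalRingHom`), and `λ - r_i ≠ 0`: its coefficient of index `N m`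
(`m = l.length`) is `X + constant ∈ ℂ(w)`, different from `0`. `lam` facts: unfold `lamN`, `lam`, `ram_mo`, `single_eq`,
`rD X = 1` (`rD_apply`, `rDf`, `RatFunc.num_X`, `RatFunc.denom_X`). `A1_ram`, `A2_ram`: `dO_ram`, `dI_ram`, `ram_one`,
`ram_C`, `map_inv_matrix`. `flat`: `flat_cn` with `c₁ = 1`, `c₂ = 0`, `d₁ = dO`, `d₂ = dI rD`, `S' = dM dO (SK)`.
-/

set_option autoImplicit false

open Matrix Polynomial

namespace Pool.Agent.Helper84.CV

theorem rD_const (a : ℂ) : rD (algebraMap ℂ (RatFunc ℂ) a) = 0 := by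
  rw [RatFunc.algebraMap_eq_C, rD_apply, rDf, RatFunc.num_C, RatFunc.denom_C]
  simp

theorem rD_X : rD (RatFunc.X : RatFunc ℂ) = 1 := by
  rw [rD_apply, rDf, RatFunc.num_X, RatFunc.denom_X]
  simp

section inc

variable {K : Type} [Field K] [Algebra ℂ K]

theorem inc_coeff_nat (z : PowerSeries ℂ) (k : ℕ) :
    (inc z : LaurentSeries K).coeff k = algebraMap ℂ K (PowerSeries.coeff k z) := by
  rw [inc, RingHom.comp_apply, HahnSeries.ofPowerSeries_apply_coeff, PowerSeries.coeff_map]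

theorem inc_coeff_neg (z : PowerSeries ℂ) (k : ℤ) (hk : k < 0) :
    (inc z : LaurentSeries K).coeff k = 0 := by
  rw [inc, RingHom.comp_apply, HahnSeries.ofPowerSeries_apply]
  refine HahnSeries.embDomain_of_notMem_range ?_
  rintro ⟨a, ha⟩
  have h1 : ((a : ℕ) : ℤ) = k := ha
  omega

theorem VGE_inc (z : PowerSeries ℂ) : VGE 0 (inc z : LaurentSeries K) := by
  exact fun k hk => inc_coeff_neg z k hk

theorem inc_injective : Function.Injective (inc : PowerSeries ℂ →+* LaurentSeries K) := by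
  intro a b hab
  ext k
  have h1 := congrArg (fun z : LaurentSeries K => z.coeff (k : ℤ)) hab
  simp only [inc_coeff_nat] at h1
  exact (algebraMap ℂ K).injective h1

theorem inc_C (c : ℂ) : (inc (PowerSeries.C c) : LaurentSeries K) =
    HahnSeries.C (algebraMap ℂ K c) := by
  rw [inc, RingHom.comp_apply, PowerSeries.map_C, HahnSeries.ofPowerSeries_C]

theorem inc_X_pow (m : ℕ) : (inc (PowerSeries.X ^ m) : LaurentSeries K) = mo (m : ℤ) := by
  rw [inc, RingHom.comp_apply, map_pow, PowerSeries.map_X, HahnSeries.ofPowerSeries_X_pow]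
  rfl

theorem dI_inc (d : Der K) (hd : ∀ a : ℂ, d (algebraMap ℂ K a) = 0) (z : PowerSeries ℂ) :
    dI d (inc z : LaurentSeries K) = 0 := by
  ext j
  rw [dI_coeff, HahnSeries.coeff_zero]
  rcases lt_or_ge j 0 with hj | hj
  · rw [inc_coeff_neg z j hj, map_zero]
  · obtain ⟨k, rfl⟩ := Int.eq_ofNat_of_zero_le hj
    rw [inc_coeff_nat]
    exact hd _

end inc

section generic

variable {ι : Type} [Fintype ι] [DecidableEq ι] {L L' : Type} [Field L] [Field L']

private theorem ldb_cn_map (φ : L →+* L') (U S B : Matrix ι ι L) (lam a c : L)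
    (h : IsUnit (lam • (1 : Matrix ι ι L) - U).det) :
    (cn U S B lam a c).map φ = cn (U.map φ) (S.map φ) (B.map φ) (φ lam) (φ a) (φ c) := by
  have h1 : ∀ x : L, (x • (1 : Matrix ι ι L)).map φ = φ x • (1 : Matrix ι ι L') := by
    intro x
    ext i j
    rw [Matrix.map_apply, Matrix.smul_apply, Matrix.smul_apply, smul_eq_mul, smul_eq_mul, map_mul,
      Matrix.one_apply, Matrix.one_apply]
    split_ifs
    · rw [map_one]
    · rw [map_zero]
  have h2 : (c • S).map φ = φ c • S.map φ := by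
    ext i j
    rw [Matrix.map_apply, Matrix.smul_apply, Matrix.smul_apply, smul_eq_mul, smul_eq_mul, map_mul,
      Matrix.map_apply]
  rw [cn, cn, Matrix.map_mul, Matrix.map_mul, map_inv_matrix φ _ h, Matrix.map_sub _ (map_sub φ),
    Matrix.map_sub _ (map_sub φ), h1, h1, h2]

private theorem ldb_cn_scale (U S B : Matrix ι ι L) (lam a c x : L) :
    cn U (x • S) B lam (x * a) c = x • cn U S B lam a c := by
  rw [cn, cn, ← Matrix.smul_mul, ← Matrix.smul_mul, smul_sub, smul_smul, smul_smul, smul_smul,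
    mul_comm c x]

private theorem ldb_cn_zero (U S S' B : Matrix ι ι L) (lam a : L) :
    cn U S B lam a 0 = cn U S' B lam a 0 := by
  rw [cn, cn, zero_smul, zero_smul]

private theorem ldb_isUnit_prod {α : Type} (s : Finset α) (f : α → L) (h : ∀ i ∈ s, f i ≠ 0) :
    IsUnit (∏ i ∈ s, f i) :=
  IsUnit.mk0 _ (Finset.prod_ne_zero_iff.2 h)

end generic

namespace LD

variable {n : ℕ} (D : LD n) (N : ℕ) [NeZero N] (l : List ℂ)

section K

variable (K : Type) [Field K] [Algebra ℂ K]

private noncomputable def phi : PowerSeries ℂ →+* LaurentSeries K := (ram N).comp inc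

private theorem phi_apply (z : PowerSeries ℂ) : phi N K z = ram N (inc z) := rfl

private theorem UK_eq : D.UK N K = D.U.map (phi N K) := rfl

private theorem SK_eq : D.SK N K = (N : LaurentSeries K) • D.S.map (phi N K) := by
  ext i j
  rfl

private theorem BK_eq : D.BK K = (D.B.map (PowerSeries.C : ℂ →+* PowerSeries ℂ)).map (phi N K) := by
  ext i j
  rw [BK, Matrix.map_apply, Matrix.map_apply, Matrix.map_apply, phi_apply, inc_C, ram_C]

theorem comm_K : D.UK N K * D.SK N K = D.SK N K * D.UK N K := by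
  rw [UK_eq, SK_eq, Matrix.mul_smul, Matrix.smul_mul, ← Matrix.map_mul, ← Matrix.map_mul, D.comm]

theorem dO_UK : dM dO (D.UK N K) = D.SK N K + (D.SK N K * D.BK K - D.BK K * D.SK N K) := by
  have h0 : D.SK N K + (D.SK N K * D.BK K - D.BK K * D.SK N K) =
      (N : LaurentSeries K) • (D.S + (D.S * D.B.map (PowerSeries.C : ℂ →+* PowerSeries ℂ) -
        D.B.map (PowerSeries.C : ℂ →+* PowerSeries ℂ) * D.S)).map (phi N K) := by
    rw [SK_eq, BK_eq D N K, Matrix.map_add _ (map_add (phi N K)),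
      Matrix.map_sub _ (map_sub (phi N K)), Matrix.map_mul, Matrix.map_mul, Matrix.smul_mul,
      Matrix.mul_smul, ← smul_sub, ← smul_add]
  rw [h0]
  ext i j
  have h2 : dO (inc (D.U i j) : LaurentSeries K) = inc ((D.S + (D.S * D.B.map
      (PowerSeries.C : ℂ →+* PowerSeries ℂ) -
        D.B.map (PowerSeries.C : ℂ →+* PowerSeries ℂ) * D.S)) i j) := by
    ext m
    rw [dO_coeff]
    rcases lt_or_ge m 0 with hm | hm
    · rw [inc_coeff_neg _ m hm, inc_coeff_neg _ m hm, mul_zero]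
    · obtain ⟨k, rfl⟩ := Int.eq_ofNat_of_zero_le hm
      rw [inc_coeff_nat, inc_coeff_nat, ← D.ode i j k, map_mul, map_natCast, Int.cast_natCast]
  rw [dM_apply, UK_eq, Matrix.map_apply, Matrix.smul_apply, Matrix.map_apply, smul_eq_mul, phi_apply,
    phi_apply, dO_ram, h2]

theorem dO_BK : dM dO (D.BK K) = 0 := by
  ext i j
  rw [dM_apply, BK, Matrix.map_apply, dO_C, Matrix.zero_apply]

theorem dI_UK (d : Der K) (hd : ∀ a : ℂ, d (algebraMap ℂ K a) = 0) :
    dM (dI d) (D.UK N K) = 0 := by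
  ext i j
  rw [dM_apply, UK, Matrix.map_apply, dI_ram, dI_inc d hd, map_zero, Matrix.zero_apply]

theorem dI_SK (d : Der K) (hd : ∀ a : ℂ, d (algebraMap ℂ K a) = 0) :
    dM (dI d) (D.SK N K) = 0 := by
  have hN : dI d ((N : ℕ) : LaurentSeries K) = 0 := by
    have h1 : ((N : ℕ) : LaurentSeries K) = HahnSeries.C (algebraMap ℂ K (N : ℂ)) := by
      rw [map_natCast, map_natCast]
    rw [h1, dI_C, hd, map_zero]
  ext i j
  rw [dM_apply, SK, Matrix.map_apply, Der.leib, dI_ram, dI_inc d hd, map_zero, hN, mul_zero,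
    zero_mul, add_zero, Matrix.zero_apply]

theorem dI_BK (d : Der K) (hd : ∀ a : ℂ, d (algebraMap ℂ K a) = 0) :
    dM (dI d) (D.BK K) = 0 := by
  ext i j
  rw [dM_apply, BK, Matrix.map_apply, dI_C, hd, map_zero, Matrix.zero_apply]

theorem charpoly_UK :
    (D.UK N K).charpoly = ∏ i, (Polynomial.X - Polynomial.C (ram N (inc (D.r i)))) := by
  rw [UK_eq, Matrix.charpoly_map, D.roots, Polynomial.map_prod]
  refine Finset.prod_congr rfl fun i _ => ?_
  rw [Polynomial.map_sub, Polynomial.map_X, Polynomial.map_C, phi_apply]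

theorem MVGE_UK : MVGE 0 (D.UK N K) := by
  intro i j
  rw [UK, Matrix.map_apply]
  have h1 := VGE.ramif N (VGE_inc (K := K) (D.U i j))
  rwa [mul_zero] at h1

theorem MVGE_SK : MVGE 0 (D.SK N K) := by
  intro i j
  rw [SK, Matrix.map_apply]
  have h1 := VGE.ramif N (VGE_inc (K := K) (D.S i j))
  rw [mul_zero] at h1
  have h2 := (VGE_natCast (K := K) N).mul h1
  rwa [add_zero] at h2

theorem MVGE_BK : MVGE 0 (D.BK K) := by
  intro i j
  rw [BK, Matrix.map_apply]
  exact VGE_C _

end K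

theorem dI_lamN : dI rD (lamN N l) = mo ((N * l.length : ℕ) : ℤ) := by
  rw [lamN, dI_ram, lam, map_add, dI_inc rD rD_const, zero_add, single_eq, Der.leib, dI_mo, mul_zero,
    zero_add, dI_C, rD_X, map_one, one_mul, ram_mo]
  push_cast
  rfl

theorem lamN_nil : lamN N [] = HahnSeries.C (RatFunc.X : RatFunc ℂ) := by
  rw [lamN, lam, cen, map_zero, zero_add, List.length_nil, Nat.cast_zero]
  exact ram_C N _

theorem dO_lamN_nil : dO (lamN N []) = 0 := by
  rw [lamN_nil, dO_C]

theorem lamN_sub_ne (i : Fin n) : lamN N l - ram N (inc (D.r i)) ≠ 0 := by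
  intro h
  have h1 : ram N (inc (cen l - D.r i) + HahnSeries.single (l.length : ℤ) (RatFunc.X : RatFunc ℂ)) =
      0 := by
    rw [← h, lamN, lam, map_sub, map_add, map_sub, map_add]
    ring
  have h2 := congrArg (fun z : FF => z.coeff ((N : ℤ) * (l.length : ℤ))) h1
  simp only [HahnSeries.coeff_zero] at h2
  rw [ram_coeff_mul, HahnSeries.coeff_add, inc_coeff_nat, HahnSeries.coeff_single_same] at h2
  have h3 := congrArg rD h2
  rw [map_add, rD_const, rD_X, zero_add, map_zero] at h3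
  exact one_ne_zero h3

theorem det_lam : (lamN N l • (1 : Matrix (Fin n) (Fin n) FF) - D.UK N (RatFunc ℂ)).det =
    ∏ i, (lamN N l - ram N (inc (D.r i))) := by
  have h1 := Matrix.eval_charpoly (D.UK N (RatFunc ℂ)) (lamN N l)
  rw [charpoly_UK, Polynomial.eval_prod] at h1
  have h2 : (Matrix.scalar (Fin n) (lamN N l) : Matrix (Fin n) (Fin n) FF) =
      lamN N l • (1 : Matrix (Fin n) (Fin n) FF) := by
    rw [Matrix.scalar_apply, Matrix.smul_one_eq_diagonal]
  rw [← h2, ← h1]
  refine Finset.prod_congr rfl fun i _ => ?_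
  rw [Polynomial.eval_sub, Polynomial.eval_X, Polynomial.eval_C]

theorem det_ne : IsUnit (lamN N l • (1 : Matrix (Fin n) (Fin n) FF) - D.UK N (RatFunc ℂ)).det := by
  rw [det_lam]
  exact ldb_isUnit_prod (L := FF) Finset.univ (fun i => lamN N l - ram N (inc (D.r i)))
    fun i _ => D.lamN_sub_ne N l i

private theorem lamN_ram : lamN N l = ram N (lamN 1 l) := by
  rw [lamN, lamN, ram_one]

private theorem UK_ram (K : Type) [Field K] [Algebra ℂ K] :
    D.UK N K = (D.UK 1 K).map (ram N) := by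
  ext i j
  rw [UK, UK, Matrix.map_apply, Matrix.map_apply, Matrix.map_apply, ram_one]

private theorem SK_ram : D.SK N (RatFunc ℂ) =
    (N : FF) • (D.SK 1 (RatFunc ℂ)).map (ram N) := by
  ext i j
  rw [SK, SK, Matrix.map_apply, Matrix.smul_apply, Matrix.map_apply, Matrix.map_apply, ram_one,
    smul_eq_mul, Nat.cast_one, one_mul]

private theorem BK_ram : (D.BK (RatFunc ℂ)).map (ram N) = D.BK (RatFunc ℂ) := by
  ext i j
  rw [BK, Matrix.map_apply, Matrix.map_apply, ram_C]

theorem A1_ram : D.A1 N l = (N : FF) • (D.A1 1 l).map (ram N) := by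
  have h1 : dO (lamN N l) = (N : FF) * ram N (dO (lamN 1 l)) := by
    rw [lamN_ram, dO_ram]
  have h2 : D.A1 N l = cn ((D.UK 1 (RatFunc ℂ)).map (ram N))
      ((N : FF) • (D.SK 1 (RatFunc ℂ)).map (ram N)) ((D.BK (RatFunc ℂ)).map (ram N))
      (ram N (lamN 1 l)) ((N : FF) * ram N (dO (lamN 1 l))) (ram N 1) := by
    rw [A1, ← UK_ram, ← SK_ram, BK_ram, ← lamN_ram, ← h1, map_one]
  rw [h2, ldb_cn_scale, A1]
  exact congrArg (fun M => (N : FF) • M) (ldb_cn_map (ram N) _ _ _ _ _ _ (D.det_ne 1 l)).symm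

theorem A2_ram : D.A2 N l = (D.A2 1 l).map (ram N) := by
  have h1 : dI rD (lamN N l) = ram N (dI rD (lamN 1 l)) := by
    rw [lamN_ram, dI_ram]
  have h2 : D.A2 N l = cn ((D.UK 1 (RatFunc ℂ)).map (ram N))
      (D.SK N (RatFunc ℂ)) ((D.BK (RatFunc ℂ)).map (ram N))
      (ram N (lamN 1 l)) (ram N (dI rD (lamN 1 l))) 0 := by
    rw [A2, ← UK_ram, BK_ram, ← lamN_ram, ← h1]
  have h3 : ((D.A2 1 l).map (ram N)) = cn ((D.UK 1 (RatFunc ℂ)).map (ram N))
      ((D.SK 1 (RatFunc ℂ)).map (ram N)) ((D.BK (RatFunc ℂ)).map (ram N))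
      (ram N (lamN 1 l)) (ram N (dI rD (lamN 1 l))) (ram N 0) :=
    ldb_cn_map (ram N) _ _ _ _ _ _ (D.det_ne 1 l)
  rw [h2, h3, map_zero]
  exact ldb_cn_zero _ _ _ _ _ _

theorem flat : Flat dO (D.A1 N l) (dI rD) (D.A2 N l) := by
  have h := flat_cn (dO : Der FF) (dI rD) (fun x => dO_dI rD x) (D.UK N (RatFunc ℂ))
    (D.SK N (RatFunc ℂ)) (dM dO (D.SK N (RatFunc ℂ))) (D.BK (RatFunc ℂ)) (lamN N l) 1 0
    (D.comm_K N (RatFunc ℂ)) (D.det_ne N l) (by rw [one_smul, dO_UK])
    (by rw [zero_smul, dI_UK D N (RatFunc ℂ) rD rD_const]) (by rw [one_smul])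
    (by rw [zero_smul, dI_SK D N (RatFunc ℂ) rD rD_const]) (D.dO_BK (RatFunc ℂ))
    (D.dI_BK (RatFunc ℂ) rD rD_const) (map_zero _) (Der.map_one' _)
  exact h

end LD

end Pool.Agent.Helper84.CV
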