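import Pool.Agent.Helper84.CV.Puis
import Pool.Agent.Helper84.CV.Spec
import Pool.Agent.Helper84.CV.LDB

/-!
# CV-Kap: a good constant

Plan. `D.shift κ` has the same `U, r` and `B + κ`; `BK` of it is `BK + C κ • 1`. `det (B + κ)` is the value of a monic
polynomial of degree `n` in `κ` (`Matrix.charpoly` of `-B`), so it vanishes for finitely many `κ`. For each `i` put
`c_i = trace adj(r_i - U) ∈ LC`, nonzero: `exists_spec` (`LD.charpoly_UK`, the `r_i` are pairwise distinct: `D.inj`,
`inc_injective`, injectivity of the ring homomorphism `ram N`), `Spec.adj`, `Spec.trace`. The condition says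
`trace (adj B) + κ c_i ≠ ± c_i`; since `c_i ≠ 0` at most one `κ ∈ ℂ` violates each of them (`HahnSeries.C` is injective).
So all but finitely many `κ` work; `ℂ` is infinite.
-/

set_option autoImplicit false

open Matrix

namespace Pool.Agent.Helper84.CV

theorem exists_kappa {n : ℕ} (D : LD n) (N : ℕ) [NeZero N] :
    ∃ κ : ℂ, IsUnit (D.shift κ).B.det ∧
      (∀ i, (((ram N (inc ((D.shift κ).r i)) : LC) • (1 : Matrix (Fin n) (Fin n) LC) -
          (D.shift κ).UK N ℂ).adjugate * (D.shift κ).BK ℂ).trace ≠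
        (((ram N (inc ((D.shift κ).r i)) : LC) • (1 : Matrix (Fin n) (Fin n) LC) -
          (D.shift κ).UK N ℂ).adjugate).trace) ∧
      (∀ i, (((ram N (inc ((D.shift κ).r i)) : LC) • (1 : Matrix (Fin n) (Fin n) LC) -
          (D.shift κ).UK N ℂ).adjugate * (D.shift κ).BK ℂ).trace ≠
        -(((ram N (inc ((D.shift κ).r i)) : LC) • (1 : Matrix (Fin n) (Fin n) LC) -
          (D.shift κ).UK N ℂ).adjugate).trace) := by
  classical
  have hrinj : Function.Injective (fun i => (ram N (inc (D.r i)) : LC)) := by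
    intro i j h
    have h' : (ram N : LC →+* LC) (inc (D.r i)) = (ram N : LC →+* LC) (inc (D.r j)) := h
    exact D.inj (inc_injective ((ram N : LC →+* LC).injective h'))
  obtain ⟨P, hP⟩ := exists_spec (D.charpoly_UK N ℂ) hrinj
  have hadj := hP.adj (D.charpoly_UK N ℂ) hrinj
  obtain ⟨c, hcdef⟩ : ∃ c : Fin n → LC, ∀ i, c i = ∏ j ∈ Finset.univ.erase i,
      ((ram N (inc (D.r i)) : LC) - ram N (inc (D.r j))) := ⟨_, fun _ => rfl⟩
  have hc : ∀ i, c i ≠ 0 := by
    intro i
    rw [hcdef]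
    refine Finset.prod_ne_zero_iff.2 fun j hj => ?_
    exact sub_ne_zero.2 fun e => (Finset.ne_of_mem_erase hj) (hrinj e).symm
  have hadj2 : ∀ i, ((ram N (inc (D.r i)) : LC) • (1 : Matrix (Fin n) (Fin n) LC) -
      D.UK N ℂ).adjugate = c i • P i := by
    intro i
    rw [hcdef]
    exact hadj i
  have htr : ∀ i, (c i • P i).trace = c i := by
    intro i
    rw [Matrix.trace_smul, hP.trace, smul_eq_mul, mul_one]
  have hBK : ∀ κ : ℂ, (D.shift κ).BK ℂ = D.BK ℂ + (HahnSeries.C κ : LC) • 1 := by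
    intro κ
    ext a b : 1
    have h1 : ((D.shift κ).BK ℂ) a b = HahnSeries.C ((D.B + κ • (1 : Matrix (Fin n) (Fin n) ℂ)) a b) :=
      rfl
    have h2 : (D.BK ℂ) a b = HahnSeries.C (D.B a b) := rfl
    rw [h1, Matrix.add_apply, Matrix.add_apply, h2, map_add]
    congr 1
    rw [Matrix.smul_apply, Matrix.smul_apply, smul_eq_mul, smul_eq_mul, map_mul]
    by_cases hab : a = b
    · subst hab
      rw [Matrix.one_apply_eq, Matrix.one_apply_eq, map_one]
    · rw [Matrix.one_apply_ne hab, Matrix.one_apply_ne hab, map_zero]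
  have htr2 : ∀ (κ : ℂ) i, (c i • P i * (D.shift κ).BK ℂ).trace =
      (c i • P i * D.BK ℂ).trace + HahnSeries.C κ * c i := by
    intro κ i
    rw [hBK, Matrix.mul_add, Matrix.trace_add, Matrix.mul_smul, Matrix.mul_one,
      Matrix.trace_smul _ (c i • P i), htr, smul_eq_mul]
  have hsub : ∀ (i : Fin n) (x y : LC), ({κ : ℂ | x + HahnSeries.C κ * c i = y}).Subsingleton := by
    intro i x y κ₁ h1 κ₂ h2
    have h3 : (HahnSeries.C κ₁ : LC) * c i = HahnSeries.C κ₂ * c i := by
      have h1' : x + HahnSeries.C κ₁ * c i = y := h1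
      have h2' : x + HahnSeries.C κ₂ * c i = y := h2
      rw [← h2'] at h1'
      exact add_left_cancel h1'
    exact HahnSeries.C_injective (mul_right_cancel₀ (hc i) h3)
  have hdet : ({κ : ℂ | (D.B + κ • (1 : Matrix (Fin n) (Fin n) ℂ)).det = 0}).Finite := by
    have h1 : {κ : ℂ | (D.B + κ • (1 : Matrix (Fin n) (Fin n) ℂ)).det = 0} ⊆
        {κ : ℂ | (-D.B).charpoly.IsRoot κ} := by
      intro κ hκ
      have h2 : (D.B + κ • (1 : Matrix (Fin n) (Fin n) ℂ)).det = 0 := hκ
      have h3 : Polynomial.eval κ (-D.B).charpoly = 0 := by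
        rw [Matrix.eval_charpoly, ← h2]
        congr 1
        rw [Matrix.scalar_apply, ← Matrix.smul_one_eq_diagonal, sub_neg_eq_add, add_comm]
      exact h3
    exact (Polynomial.finite_setOfPred_isRoot ((-D.B).charpoly_monic.ne_zero)).subset h1
  have hfin : ({κ : ℂ | (D.B + κ • (1 : Matrix (Fin n) (Fin n) ℂ)).det = 0} ∪
      ((⋃ i, {κ : ℂ | (c i • P i * D.BK ℂ).trace + HahnSeries.C κ * c i = c i}) ∪
      (⋃ i, {κ : ℂ | (c i • P i * D.BK ℂ).trace + HahnSeries.C κ * c i = -c i}))).Finite :=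
    hdet.union ((Set.finite_iUnion fun i => (hsub i _ _).finite).union
      (Set.finite_iUnion fun i => (hsub i _ _).finite))
  obtain ⟨κ, hκ⟩ := hfin.infinite_compl.nonempty
  simp only [Set.mem_compl_iff, Set.mem_union, Set.mem_iUnion, Set.mem_ofPred_eq, not_or,
    not_exists] at hκ
  refine ⟨κ, isUnit_iff_ne_zero.2 hκ.1, ?_, ?_⟩
  · intro i
    have e : ((ram N (inc ((D.shift κ).r i)) : LC) • (1 : Matrix (Fin n) (Fin n) LC) -
        (D.shift κ).UK N ℂ).adjugate = c i • P i := hadj2 i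
    rw [e, htr2, htr]
    exact hκ.2.1 i
  · intro i
    have e : ((ram N (inc ((D.shift κ).r i)) : LC) • (1 : Matrix (Fin n) (Fin n) LC) -
        (D.shift κ).UK N ℂ).adjugate = c i • P i := hadj2 i
    rw [e, htr2, htr]
    exact hκ.2.2 i

end Pool.Agent.Helper84.CV
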