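import Pool.Agent.Helper84.CV.B2

/-!
# CV-Lat: lattices in `K((π))^n`

Plan. `Λ` is a submodule of `L^n`, `L = K((π))`, over the PID `O = K[[π]]` (a discrete valuation ring), with
`π^a O^n ⊆ Λ ⊆ π^b O^n`. `π^b O^n ≅ O^n` is Noetherian, so `Λ` is finitely generated, torsion free, hence free
(`Module.Free`, e.g. `Submodule.basisOfPid` / `Module.basisOfFiniteTypeTorsionFree'`), and its rank is `n`: a basis
of `Λ` over `O` is linearly independent over `L` (clear denominators: `L` is the fraction field of `O`,
`LinearIndependent.iff_fractionRing` or directly) and spans `L^n` (as `π^a e_j ∈ Λ`), so it has `n` elements.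
`G` = matrix of the basis, columns indexed by `Fin n`. Then `v ∈ Λ` iff the coordinates `G⁻¹ v` are in `O`.
(A direct alternative: Hermite normal form by induction on `n`.)
The action of `p ∈ O` on `L` is multiplication by `(p : L)` (`HahnSeries.ofPowerSeries`, `LaurentSeries` algebra).
-/

set_option autoImplicit false

open Matrix

namespace Pool.Agent.Helper84.CV

private theorem VGE_ofPS {K : Type} [Field K] (q : PowerSeries K) :
    VGE 0 (algebraMap (PowerSeries K) (LaurentSeries K) q) := by
  intro j hj
  rw [LaurentSeries.coe_algebraMap, PowerSeries.coeff_coe, if_pos hj]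

private theorem exists_ofPS {K : Type} [Field K] {z : LaurentSeries K} (h : VGE 0 z) :
    ∃ q : PowerSeries K, algebraMap (PowerSeries K) (LaurentSeries K) q = z := by
  refine ⟨PowerSeries.mk fun m => z.coeff m, ?_⟩
  ext j
  rw [LaurentSeries.coe_algebraMap, PowerSeries.coeff_coe]
  split_ifs with hj
  · exact (h j hj).symm
  · rw [PowerSeries.coeff_mk, Int.natAbs_of_nonneg (not_lt.1 hj)]

theorem lattice_basis {K : Type} [Field K] {n : ℕ}
    (Λ : Submodule (PowerSeries K) (Fin n → LaurentSeries K)) (a b : ℤ)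
    (h1 : ∀ v : Fin n → LaurentSeries K, (∀ i, VGE a (v i)) → v ∈ Λ)
    (h2 : ∀ v ∈ Λ, ∀ i, VGE b (v i)) :
    ∃ G : Matrix (Fin n) (Fin n) (LaurentSeries K), IsUnit G.det ∧
      ∀ v, v ∈ Λ ↔ ∀ i, VGE 0 ((G⁻¹.mulVec v) i) := by
  classical
  -- the embedding `p ↦ π^b p`
  let ψ : (Fin n → PowerSeries K) →ₗ[PowerSeries K] (Fin n → LaurentSeries K) :=
    { toFun := fun p i => mo b * algebraMap (PowerSeries K) (LaurentSeries K) (p i)
      map_add' := fun p q => by
        funext i
        simp only [Pi.add_apply, map_add, mul_add]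
      map_smul' := fun c p => by
        funext i
        simp only [Pi.smul_apply, smul_eq_mul, map_mul, RingHom.id_apply, Algebra.smul_def]
        ring }
  have hψ : ∀ p i, ψ p i = mo b * algebraMap (PowerSeries K) (LaurentSeries K) (p i) :=
    fun p i => rfl
  have hψi : Function.Injective ψ := by
    intro p q hpq
    funext i
    have h3 := congrFun hpq i
    rw [hψ, hψ] at h3
    exact IsFractionRing.injective (PowerSeries K) (LaurentSeries K)
      (mul_left_cancel₀ (mo_ne_zero b) h3)
  have hrange : ∀ v : Fin n → LaurentSeries K, (∀ i, VGE b (v i)) → ∃ p, ψ p = v := by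
    intro v hv
    have h3 : ∀ i, ∃ q : PowerSeries K,
        algebraMap (PowerSeries K) (LaurentSeries K) q = mo (-b) * v i := by
      intro i
      refine exists_ofPS ?_
      have h4 := (VGE_mo_mul (-b) b (v i)).2 (hv i)
      rwa [neg_add_cancel] at h4
    choose q hq using h3
    refine ⟨q, funext fun i => ?_⟩
    rw [hψ, hq, ← mul_assoc, mo_mul, add_neg_cancel, mo_zero, one_mul]
  obtain ⟨m, β⟩ := Submodule.basisOfPid (Pi.basisFun (PowerSeries K) (Fin n)) (Λ.comap ψ)
  set g : Fin m → (Fin n → LaurentSeries K) := fun j => ψ (β j : Fin n → PowerSeries K) with hg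
  have hgm : ∀ j, g j ∈ Λ := fun j => (β j).2
  have hexp : ∀ v ∈ Λ, ∃ c : Fin m → PowerSeries K, v = ∑ j, c j • g j := by
    intro v hv
    obtain ⟨p, hp⟩ := hrange v (h2 v hv)
    have hpm : p ∈ Λ.comap ψ := by
      rw [Submodule.mem_comap, hp]; exact hv
    refine ⟨fun j => β.repr ⟨p, hpm⟩ j, ?_⟩
    have h3 := congrArg (fun w : Λ.comap ψ => ψ (w : Fin n → PowerSeries K))
      (β.sum_repr ⟨p, hpm⟩)
    simp only [Submodule.coe_sum, Submodule.coe_smul, map_sum, map_smul] at h3
    rw [← hp]
    exact h3.symm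
  have hli0 : LinearIndependent (PowerSeries K) g := by
    have h3 := β.linearIndependent.map' (ψ.comp (Λ.comap ψ).subtype) (by
      rw [LinearMap.ker_eq_bot]
      exact hψi.comp Subtype.val_injective)
    exact h3
  have hli : LinearIndependent (LaurentSeries K) g :=
    (LinearIndependent.iff_fractionRing (PowerSeries K) (LaurentSeries K)).1 hli0
  have hspan : ⊤ ≤ Submodule.span (LaurentSeries K) (Set.range g) := by
    have hΛ : ∀ v ∈ Λ, v ∈ Submodule.span (LaurentSeries K) (Set.range g) := by
      intro v hv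
      obtain ⟨c, hc⟩ := hexp v hv
      rw [hc]
      refine Submodule.sum_mem _ fun j _ => ?_
      rw [algebra_compatible_smul (LaurentSeries K) (c j) (g j)]
      exact Submodule.smul_mem _ _ (Submodule.subset_span ⟨j, rfl⟩)
    intro v _
    have h3 : ∃ k : ℤ, ∀ i, VGE k (v i) := by
      choose k hk using fun i => exists_VGE (v i)
      refine ⟨-∑ i, |k i|, fun i => (hk i).mono ?_⟩
      have h4 : |k i| ≤ ∑ i, |k i| :=
        Finset.single_le_sum (f := fun i => |k i|) (fun j _ => abs_nonneg _) (Finset.mem_univ i)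
      have h5 := neg_abs_le (k i)
      linarith
    obtain ⟨k, hk⟩ := h3
    have h4 : (mo (a - k) : LaurentSeries K) • v ∈ Submodule.span (LaurentSeries K) (Set.range g) := by
      refine hΛ _ (h1 _ fun i => ?_)
      rw [Pi.smul_apply, smul_eq_mul]
      have h5 := (VGE_mo_mul (a - k) k (v i)).2 (hk i)
      rwa [sub_add_cancel] at h5
    have h6 : v = (mo (a - k) : LaurentSeries K)⁻¹ • ((mo (a - k) : LaurentSeries K) • v) := by
      rw [smul_smul, inv_mul_cancel₀ (mo_ne_zero _), one_smul]
    rw [h6]
    exact Submodule.smul_mem _ _ h4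
  have hmn : m = n := by
    have h3 := Module.finrank_eq_card_basis (Module.Basis.mk hli hspan)
    rw [Module.finrank_fin_fun, Fintype.card_fin] at h3
    exact h3.symm
  subst hmn
  set G : Matrix (Fin m) (Fin m) (LaurentSeries K) := Matrix.of fun i j => g j i with hG
  have hGc : G.col = g := rfl
  have hGu : IsUnit G := Matrix.linearIndependent_cols_iff_isUnit.1 (by rw [hGc]; exact hli)
  have hGd : IsUnit G.det := (Matrix.isUnit_iff_isUnit_det G).1 hGu
  have hmul : ∀ c : Fin m → PowerSeries K, (∑ j, c j • g j) =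
      G.mulVec fun j => algebraMap (PowerSeries K) (LaurentSeries K) (c j) := by
    intro c
    funext i
    rw [Matrix.mulVec, dotProduct, Finset.sum_apply]
    refine Finset.sum_congr rfl fun j _ => ?_
    rw [Pi.smul_apply, Algebra.smul_def, mul_comm]
    rfl
  refine ⟨G, hGd, fun v => ⟨fun hv i => ?_, fun hv => ?_⟩⟩
  · obtain ⟨c, hc⟩ := hexp v hv
    rw [hc, hmul, Matrix.mulVec_mulVec, Matrix.nonsing_inv_mul _ hGd, Matrix.one_mulVec]
    exact VGE_ofPS _
  · choose c hc using fun i => exists_ofPS (hv i)
    have h3 : v = ∑ j, c j • g j := by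
      rw [hmul]
      have h4 : (fun j => algebraMap (PowerSeries K) (LaurentSeries K) (c j)) = G⁻¹.mulVec v :=
        funext hc
      rw [h4, Matrix.mulVec_mulVec, Matrix.mul_nonsing_inv _ hGd, Matrix.one_mulVec]
    rw [h3]
    exact Submodule.sum_mem _ fun j _ => Submodule.smul_mem _ _ (hgm j)

end Pool.Agent.Helper84.CV
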