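import Pool.Agent.Helper84.CV.FixP
import Pool.Agent.Helper84.CV.Fitt

/-!
# CV-Split: the part of nonzero slope of a connection over `ℂ((τ))`

Notation: `O = ℂ[[τ]]`, `Θ₀ = co (-p) Γ`, `G = τ^p Γ` integral with `co 0 G = Θ₀`, constant matrices are mapped to `LC` by
`HahnSeries.C`. `E` from `fitting` for `T = Θ₀`, `N₀ = Θ₀ (1 - E)` nilpotent, `T' = Θ₀ E + (1 - E)` invertible.

Plan. We look for `B = E + Z`, `Z = (1 - E) Z E`, `MVGE 1 Z`, and put `Θ = E G (E + Z)`, `Th = Θ + (1 - E)`. Then `B E = B`,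
`B (1 - E) = 0`, `E B = E`, `B Th = B Θ`. The equation `τ^p (dO B) + G B = B Θ` multiplied by `E` from the left holds by
definition of `Θ` (`E (dO Z) = 0`). Multiplied by `1 - E` it reads (use `E Z = 0`, `Θ₀ E = E Θ₀`)
`N₀ Z - Z Θ₀ E = -W(Z)`, `W(Z) = τ^p dO Z + (1 - E) (G - Θ₀) (E + Z) - Z E (G - Θ₀) (E + Z)`.
The operator `Z ↦ N₀ Z - Z Θ₀ E` on the matrices `Z = (1 - E) Z E` has the inverse
`V ↦ -∑_(k ≥ 0) N₀^k V T'^(-k-1)` (a finite sum; `T'` commutes with `E`, `V T' = V Θ₀ E` for `V = V E`). So the equation is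
the fixed point equation `Z = ∑_(k ≥ 0) N₀^k ((1 - E) W(Z) E) T'^(-k-1)`, a contraction on `MVGE 1` (`p ≥ 1`, `MVGE 1 (G - Θ₀)`,
the term `Z E (G - Θ₀)(E + Z)` is fine for `MVGE 1` arguments): `fixed_point` with `c = 1`; a fixed point automatically
satisfies `Z = (1 - E) Z E`. `Th` is integral, `co 0 Th = T'` is invertible, so `Thi = Th⁻¹` is integral
(`Thi = det⁻¹ adj`, or: `Th = T' (1 - τ …)`). `r = ρ`, `b j` = column `j` of `B`; `co 0 B = E ≠ 0`.
-/

set_option autoImplicit false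

open Matrix

namespace Pool.Agent.Helper84.CV

section alg

variable {A : Type} [Ring A] {e θ s W Z D R : A}

private theorem alg1 {m : ℕ} (he : e * e = e) (hc : e * θ = θ * e)
    (hs : s * (θ * e + (1 - e)) = 1) (hes : e * s = s * e) (hn : (θ * (1 - e)) ^ m = 0)
    (hZ : Z = ∑ k ∈ Finset.range m, (θ * (1 - e)) ^ k * ((1 - e) * W * e) * s ^ (k + 1)) :
    (1 - e) * Z = Z ∧ Z * e = Z ∧ θ * (1 - e) * Z - Z * θ * e = -((1 - e) * W * e) := by
  have hff : (1 - e) * (1 - e) = 1 - e := by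
    rw [sub_mul, one_mul, mul_sub, mul_one, he, sub_self, sub_zero]
  have hef : e * (1 - e) = 0 := by rw [mul_sub, mul_one, he, sub_self]
  have hfθ : (1 - e) * θ = θ * (1 - e) := by rw [sub_mul, mul_sub, one_mul, mul_one, hc]
  set f : A := 1 - e with hf
  have hfN : Commute f (θ * f) := by
    show f * (θ * f) = θ * f * f
    rw [← mul_assoc, hfθ]
  set N : A := θ * f with hN
  set V : A := f * W * e with hV
  have hfV : f * V = V := by
    rw [hV, ← mul_assoc, ← mul_assoc, hff]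
  have hVe : V * e = V := by
    rw [hV, mul_assoc, he]
  have hes' : Commute e s := hes
  have h1 : f * Z = Z := by
    rw [hZ, Finset.mul_sum]
    apply Finset.sum_congr rfl
    intro k _
    rw [← mul_assoc, ← mul_assoc, (hfN.pow_right k).eq, mul_assoc (N ^ k) f V, hfV]
  have h2 : Z * e = Z := by
    rw [hZ, Finset.sum_mul]
    apply Finset.sum_congr rfl
    intro k _
    rw [mul_assoc (N ^ k * V), ← (hes'.pow_right (k + 1)).eq, ← mul_assoc, mul_assoc (N ^ k) V e,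
      hVe]
  have hZf : Z * f = 0 := by
    rw [← h2, mul_assoc, hef, mul_zero]
  have h3 : Z * θ * e = Z * (θ * e + f) := by
    rw [mul_add, hZf, add_zero, mul_assoc]
  have h4 : N * Z = ∑ k ∈ Finset.range m, N ^ (k + 1) * V * s ^ (k + 1) := by
    rw [hZ, Finset.mul_sum]
    apply Finset.sum_congr rfl
    intro k _
    rw [← mul_assoc, ← mul_assoc, pow_succ' N k]
  have h5 : Z * (θ * e + f) = ∑ k ∈ Finset.range m, N ^ k * V * s ^ k := by
    rw [hZ, Finset.sum_mul]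
    apply Finset.sum_congr rfl
    intro k _
    rw [pow_succ s, ← mul_assoc, mul_assoc _ s (θ * e + f), hs, mul_one]
  refine ⟨h1, h2, ?_⟩
  rw [h3, h4, h5, ← Finset.sum_sub_distrib,
    Finset.sum_range_sub (fun k => N ^ k * V * s ^ k) m, hn]
  simp

private theorem alg2 (he : e * e = e) (hc : e * θ = θ * e) (h1 : (1 - e) * Z = Z)
    (h2 : Z * e = Z) (heD : e * D = 0) (hDe : D * e = D)
    (hW : W = D + (1 - e) * R * (e + Z) - Z * R * (e + Z))
    (h3 : θ * (1 - e) * Z - Z * θ * e = -((1 - e) * W * e)) :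
    D + (θ + R) * (e + Z) = (e + Z) * (e * (θ + R) * (e + Z)) := by
  have hff : (1 - e) * (1 - e) = 1 - e := by
    rw [sub_mul, one_mul, mul_sub, mul_one, he, sub_self, sub_zero]
  have hfe : (1 - e) * e = 0 := by rw [sub_mul, one_mul, he, sub_self]
  have hfθ : (1 - e) * θ = θ * (1 - e) := by rw [sub_mul, mul_sub, one_mul, mul_one, hc]
  have heZ : e * Z = 0 := by
    have h := h1
    rw [sub_mul, one_mul] at h
    exact sub_eq_self.1 h
  have hfD : (1 - e) * D = D := by rw [sub_mul, one_mul, heD, sub_zero]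
  have hBe : (e + Z) * e = e + Z := by rw [add_mul, he, h2]
  have hW' : (1 - e) * W * e = W := by
    have h4 : (1 - e) * W = W := by
      rw [hW, mul_sub, mul_add, hfD]
      congr 1
      · congr 1
        rw [← mul_assoc, ← mul_assoc, hff]
      · rw [← mul_assoc, ← mul_assoc, h1]
    have h5 : W * e = W := by
      rw [hW, sub_mul, add_mul, hDe, mul_assoc _ (e + Z) e, hBe, mul_assoc _ (e + Z) e, hBe]
    rw [h4, h5]
  rw [hW'] at h3
  have k1 : (1 - e) * θ * (e + Z) = θ * (1 - e) * Z := by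
    rw [hfθ, mul_add, mul_assoc θ (1 - e) e, hfe, mul_zero, zero_add]
  have k2 : Z * θ * (e + Z) = Z * θ * e := by
    have h4 : Z * θ * Z = 0 := by
      calc Z * θ * Z = Z * e * θ * Z := by rw [h2]
        _ = Z * (e * θ) * Z := by rw [mul_assoc Z e θ]
        _ = Z * θ * (e * Z) := by rw [hc]; noncomm_ring
        _ = 0 := by rw [heZ, mul_zero]
    rw [mul_add, h4, add_zero]
  have k3 : D + (θ + R) * (e + Z) - (e + Z) * ((θ + R) * (e + Z)) =
      (D + (1 - e) * R * (e + Z) - Z * R * (e + Z)) + (1 - e) * θ * (e + Z) -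
        Z * θ * (e + Z) := by noncomm_ring
  have k4 : (e + Z) * (e * (θ + R) * (e + Z)) = (e + Z) * ((θ + R) * (e + Z)) := by
    rw [← mul_assoc, ← mul_assoc, hBe, mul_assoc]
  rw [k4, ← sub_eq_zero, k3, ← hW, k1, k2, add_sub_assoc, h3, add_neg_cancel]

private theorem alg3 (e R x y a b c : A) (h : c = a - b) :
    (a + (1 - e) * R * (e + x) - x * R * (e + x)) - (b + (1 - e) * R * (e + y) - y * R * (e + y)) =
      c + (1 - e) * R * (x - y) - ((x - y) * R * (e + x) + y * R * (x - y)) := by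
  rw [h]
  noncomm_ring

private theorem alg4 (N f a b e t : A) :
    N * (f * a * e) * t - N * (f * b * e) * t = N * (f * (a - b) * e) * t := by
  noncomm_ring

end alg

section mat

variable {ρ : ℕ}

private theorem sm1 (g : LC) (M : Matrix (Fin ρ) (Fin ρ) LC) (i j : Fin ρ) :
    (g • M) i j = g * M i j := rfl

private theorem sm2 (g : LC) (M N : Matrix (Fin ρ) (Fin ρ) LC) : M * (g • N) = g • (M * N) := by
  ext1 i j
  rw [sm1, Matrix.mul_apply, Matrix.mul_apply, Finset.mul_sum]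
  apply Finset.sum_congr rfl
  intro k _
  rw [sm1]
  ring

private theorem sm3 (g : LC) (M N : Matrix (Fin ρ) (Fin ρ) LC) : (g • M) * N = g • (M * N) := by
  ext1 i j
  rw [sm1, Matrix.mul_apply, Matrix.mul_apply, Finset.mul_sum]
  apply Finset.sum_congr rfl
  intro k _
  rw [sm1]
  ring

private theorem sm4 (g : LC) (M N : Matrix (Fin ρ) (Fin ρ) LC) : g • (M + N) = g • M + g • N := by
  ext1 i j
  rw [Matrix.add_apply, sm1, sm1, sm1, Matrix.add_apply, mul_add]

private theorem sm5 (g : LC) (M N : Matrix (Fin ρ) (Fin ρ) LC) : g • (M - N) = g • M - g • N := by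
  ext1 i j
  rw [Matrix.sub_apply, sm1, sm1, sm1, Matrix.sub_apply, mul_sub]

private theorem sm6 (g : LC) : g • (0 : Matrix (Fin ρ) (Fin ρ) LC) = 0 := by
  ext1 i j
  rw [sm1, Matrix.zero_apply, mul_zero]

private theorem sm7 (g h : LC) (M : Matrix (Fin ρ) (Fin ρ) LC) : g • (h • M) = (g * h) • M := by
  ext1 i j
  rw [sm1, sm1, sm1, mul_assoc]

private theorem sm8 (M : Matrix (Fin ρ) (Fin ρ) LC) : (1 : LC) • M = M := by
  ext1 i j
  rw [sm1, one_mul]

private theorem VGE_ps (p : PowerSeries ℂ) : VGE 0 ((HahnSeries.ofPowerSeries ℤ ℂ) p) := by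
  intro j hj
  rw [PowerSeries.coeff_coe, if_pos hj]

private theorem exists_ps {f : LC} (hf : VGE 0 f) :
    ∃ p : PowerSeries ℂ, (HahnSeries.ofPowerSeries ℤ ℂ) p = f := by
  refine ⟨PowerSeries.mk fun k => f.coeff k, ?_⟩
  ext j
  rw [PowerSeries.coeff_coe]
  split_ifs with h
  · exact (hf j h).symm
  · rw [PowerSeries.coeff_mk]
    congr 1
    omega

private theorem int_inv (Th : Matrix (Fin ρ) (Fin ρ) LC) (h0 : MVGE 0 Th)
    (hu : IsUnit (co 0 Th)) : ∃ Thi : Matrix (Fin ρ) (Fin ρ) LC, MVGE 0 Thi ∧ Th * Thi = 1 := by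
  choose P hP using fun i j => exists_ps (h0 i j)
  set Q : Matrix (Fin ρ) (Fin ρ) (PowerSeries ℂ) := Matrix.of P with hQ
  have hQT : Q.map (HahnSeries.ofPowerSeries ℤ ℂ) = Th := by
    ext1 i j
    exact hP i j
  have hco : Q.map (PowerSeries.constantCoeff (R := ℂ)) = co 0 Th := by
    ext i j
    show PowerSeries.constantCoeff (P i j) = (Th i j).coeff 0
    rw [← hP i j, PowerSeries.coeff_coe]
    simp
  have hdet : IsUnit Q.det := by
    rw [PowerSeries.isUnit_iff_constantCoeff]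
    have h1 : PowerSeries.constantCoeff Q.det = (co 0 Th).det := by
      rw [← hco]
      exact RingHom.map_det _ Q
    rw [h1]
    exact (Matrix.isUnit_iff_isUnit_det _).1 hu
  refine ⟨(Q⁻¹).map (HahnSeries.ofPowerSeries ℤ ℂ), fun i j => VGE_ps _, ?_⟩
  rw [← hQT, ← Matrix.map_mul, Matrix.mul_nonsing_inv _ hdet]
  exact Matrix.map_one _ (map_zero _) (map_one _)

private noncomputable def cm : Matrix (Fin ρ) (Fin ρ) ℂ →+* Matrix (Fin ρ) (Fin ρ) LC :=
  (HahnSeries.C : ℂ →+* LC).mapMatrix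

private theorem cm_apply (M : Matrix (Fin ρ) (Fin ρ) ℂ) (i j : Fin ρ) :
    cm M i j = HahnSeries.C (M i j) := rfl

private theorem cm_MVGE (M : Matrix (Fin ρ) (Fin ρ) ℂ) : MVGE 0 (cm M) := fun _ _ => VGE_C _

private theorem cm_co (M : Matrix (Fin ρ) (Fin ρ) ℂ) : co 0 (cm M) = M := by
  ext i j
  show (cm M i j).coeff 0 = M i j
  rw [cm_apply, ← mul_one (HahnSeries.C (M i j) : LC), coeff_C_mul, ← mo_zero, mo_coeff,
    if_pos rfl, mul_one]

private theorem cm_dM (M : Matrix (Fin ρ) (Fin ρ) ℂ) : dM dO (cm M) = 0 := by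
  ext1 i j
  rw [dM_apply, cm_apply, dO_C]
  rfl

private theorem co_add (k : ℤ) (M M' : Matrix (Fin ρ) (Fin ρ) LC) :
    co k (M + M') = co k M + co k M' := by
  ext i j
  exact HahnSeries.coeff_add

private theorem co_zero_of {M : Matrix (Fin ρ) (Fin ρ) LC} (h : MVGE 1 M) : co 0 M = 0 := by
  ext i j
  exact h i j 0 (by norm_num)

private theorem MVGE_sum {α : Type} {a : ℤ} (S : Finset α)
    (M : α → Matrix (Fin ρ) (Fin ρ) LC) (h : ∀ i ∈ S, MVGE a (M i)) :
    MVGE a (∑ i ∈ S, M i) := by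
  intro i j
  rw [Matrix.sum_apply]
  exact VGE.sum _ _ fun k hk => h k hk i j

private theorem MVGE_pow0 {M : Matrix (Fin ρ) (Fin ρ) LC} (h : MVGE 0 M) (k : ℕ) :
    MVGE 0 (M ^ k) := by
  have h1 := h.pow k
  rwa [mul_zero] at h1

/-- the contraction -/
private noncomputable def WW (p : ℕ) (e R Z : Matrix (Fin ρ) (Fin ρ) LC) :
    Matrix (Fin ρ) (Fin ρ) LC :=
  (mo (p : ℤ) : LC) • dM dO Z + (1 - e) * R * (e + Z) - Z * R * (e + Z)

private noncomputable def FFn (p m : ℕ) (e θ s R Z : Matrix (Fin ρ) (Fin ρ) LC) :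
    Matrix (Fin ρ) (Fin ρ) LC :=
  ∑ k ∈ Finset.range m, (θ * (1 - e)) ^ k * ((1 - e) * WW p e R Z * e) * s ^ (k + 1)

private theorem dM_MVGE {a : ℤ} {M : Matrix (Fin ρ) (Fin ρ) LC} (h : MVGE a M) :
    MVGE a (dM dO M) := fun i j => (h i j).outer

private theorem WW_MVGE {p : ℕ} {e R Z : Matrix (Fin ρ) (Fin ρ) LC} (he : MVGE 0 e)
    (hR : MVGE 1 R) (hZ : MVGE 1 Z) : MVGE 1 (WW p e R Z) := by
  have hB : MVGE 0 (e + Z) := he.add (hZ.mono (by norm_num))
  have hf : MVGE 0 (1 - e) := MVGE_one.sub he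
  unfold WW
  refine ((((dM_MVGE hZ).smul (VGE_mo (p : ℤ))).mono (by omega)).add
    (((hf.mul hR).mul hB).mono (by norm_num))).sub (((hZ.mul hR).mul hB).mono (by norm_num))

private theorem WW_sub {p : ℕ} (hp : 0 < p) {e R x y : Matrix (Fin ρ) (Fin ρ) LC} {k : ℤ}
    (he : MVGE 0 e) (hR : MVGE 1 R) (hx : MVGE 1 x) (hy : MVGE 1 y) (hxy : MVGE k (x - y)) :
    MVGE (k + 1) (WW p e R x - WW p e R y) := by
  have h1 : WW p e R x - WW p e R y = (mo (p : ℤ) : LC) • dM dO (x - y) +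
      (1 - e) * R * (x - y) - ((x - y) * R * (e + x) + y * R * (x - y)) := by
    unfold WW
    exact alg3 e R x y _ _ _ (by rw [dM_sub, sm5])
  rw [h1]
  have hB : MVGE 0 (e + x) := he.add (hx.mono (by norm_num))
  have hf : MVGE 0 (1 - e) := MVGE_one.sub he
  refine ((((dM_MVGE hxy).smul (VGE_mo (p : ℤ))).mono (by omega)).add
    (((hf.mul hR).mul hxy).mono (by omega))).sub
    ((((hxy.mul hR).mul hB).mono (by omega)).add (((hy.mul hR).mul hxy).mono (by omega)))

end mat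

theorem splitting {ρ p : ℕ} (hp : 0 < p) (Γ : Matrix (Fin ρ) (Fin ρ) LC)
    (hΓ : MVGE (-(p : ℤ)) Γ) (hn : ¬ IsNilpotent (co (-(p : ℤ)) Γ)) :
    ∃ (r : ℕ) (b : Fin r → Fin ρ → LC) (Th Thi : Matrix (Fin r) (Fin r) LC),
      (∃ j, b j ≠ 0) ∧ MVGE 0 Th ∧ MVGE 0 Thi ∧ Th * Thi = 1 ∧
      ∀ j i, dO (b j i) + (Γ.mulVec (b j)) i = ∑ c, mo (-(p : ℤ)) * Th c j * b c i := by
  set T : Matrix (Fin ρ) (Fin ρ) ℂ := co (-(p : ℤ)) Γ with hT
  obtain ⟨E, hE, hET, hE0, hU, hN⟩ := fitting T hn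
  obtain ⟨m, hm⟩ := hN
  set T' : Matrix (Fin ρ) (Fin ρ) ℂ := T * E + (1 - E) with hT'
  have hdet' : IsUnit T'.det := (Matrix.isUnit_iff_isUnit_det _).1 hU
  have hT1 : T'⁻¹ * T' = 1 := Matrix.nonsing_inv_mul _ hdet'
  have hT2 : T' * T'⁻¹ = 1 := Matrix.mul_nonsing_inv _ hdet'
  have hEc : E * T' = T' * E := by
    rw [hT', mul_add, add_mul, mul_sub, sub_mul, mul_one, one_mul, hE, ← mul_assoc, hET]
  have hEi : E * T'⁻¹ = T'⁻¹ * E := by
    calc E * T'⁻¹ = T'⁻¹ * T' * (E * T'⁻¹) := by rw [hT1, one_mul]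
      _ = T'⁻¹ * (T' * E) * T'⁻¹ := by noncomm_ring
      _ = T'⁻¹ * (E * T') * T'⁻¹ := by rw [hEc]
      _ = T'⁻¹ * E * (T' * T'⁻¹) := by noncomm_ring
      _ = T'⁻¹ * E := by rw [hT2, mul_one]
  set e : Matrix (Fin ρ) (Fin ρ) LC := cm E with he
  set θ : Matrix (Fin ρ) (Fin ρ) LC := cm T with hθ
  set s : Matrix (Fin ρ) (Fin ρ) LC := cm T'⁻¹ with hs
  set G : Matrix (Fin ρ) (Fin ρ) LC := (mo (p : ℤ) : LC) • Γ with hG
  set R : Matrix (Fin ρ) (Fin ρ) LC := G - θ with hR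
  have he0 : MVGE 0 e := cm_MVGE _
  have hθ0 : MVGE 0 θ := cm_MVGE _
  have hs0 : MVGE 0 s := cm_MVGE _
  have hf0 : MVGE 0 (1 - e) := MVGE_one.sub he0
  have hG0 : MVGE 0 G := by
    have h := MVGE.smul (VGE_mo (p : ℤ)) hΓ
    rwa [add_neg_cancel] at h
  have hGco : co 0 G = T := by
    ext i j
    show (mo (p : ℤ) * Γ i j).coeff 0 = (Γ i j).coeff (-(p : ℤ))
    rw [coeff_mo_mul, zero_sub]
  have hR1 : MVGE 1 R := by
    intro i j t ht
    rcases lt_or_eq_of_le (Int.lt_add_one_iff.1 (show t < 0 + 1 by omega)) with h | h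
    · exact (hG0.sub hθ0) i j t h
    · subst h
      show (G i j - θ i j).coeff 0 = 0
      rw [HahnSeries.coeff_sub]
      have h1 : (G i j).coeff 0 = T i j := congrFun (congrFun hGco i) j
      have h2 : (θ i j).coeff 0 = T i j := congrFun (congrFun (cm_co T) i) j
      rw [h1, h2, sub_self]
  have hee : e * e = e := by rw [he, ← map_mul, hE]
  have hc : e * θ = θ * e := by rw [he, hθ, ← map_mul, ← map_mul, hET]
  have ht : θ * e + (1 - e) = cm T' := by
    rw [hT', map_add, map_mul, map_sub, map_one]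
  have hst : s * (θ * e + (1 - e)) = 1 := by
    rw [ht, hs, ← map_mul, hT1, map_one]
  have hes : e * s = s * e := by rw [he, hs, ← map_mul, ← map_mul, hEi]
  have hn' : (θ * (1 - e)) ^ m = 0 := by
    have h1 : θ * (1 - e) = cm (T * (1 - E)) := by rw [map_mul, map_sub, map_one]
    rw [h1, ← map_pow, hm, map_zero]
  have hN0 : MVGE 0 (θ * (1 - e)) := by
    have h := hθ0.mul hf0
    rwa [add_zero] at h
  obtain ⟨Z, hZ1, hZ⟩ := fixed_point (1 : ℤ) (FFn p m e θ s R) (by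
    intro x hx
    apply MVGE_sum
    intro k _
    exact (((MVGE_pow0 hN0 k).mul ((hf0.mul (WW_MVGE he0 hR1 hx)).mul he0)).mul
      (MVGE_pow0 hs0 (k + 1))).mono (by norm_num)) (by
    intro x y k hx hy hxy
    have h1 : FFn p m e θ s R x - FFn p m e θ s R y = ∑ i ∈ Finset.range m,
        (θ * (1 - e)) ^ i * ((1 - e) * (WW p e R x - WW p e R y) * e) * s ^ (i + 1) := by
      unfold FFn
      rw [← Finset.sum_sub_distrib]
      apply Finset.sum_congr rfl
      intro i _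
      exact alg4 _ _ _ _ _ _
    rw [h1]
    apply MVGE_sum
    intro i _
    exact (((MVGE_pow0 hN0 i).mul ((hf0.mul (WW_sub hp he0 hR1 hx hy hxy)).mul he0)).mul
      (MVGE_pow0 hs0 (i + 1))).mono (by omega))
  obtain ⟨hfZ, hZe, hkey⟩ := alg1 hee hc hst hes hn' (W := WW p e R Z) (Z := Z) hZ.symm
  have heZ : e * Z = 0 := by
    have h := hfZ
    rw [sub_mul, one_mul] at h
    exact sub_eq_self.1 h
  have hde : dM dO e = 0 := cm_dM E
  have heD : e * ((mo (p : ℤ) : LC) • dM dO Z) = 0 := by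
    have h := dM_mul dO e Z
    rw [heZ, dM_zero, hde, zero_mul, add_zero] at h
    rw [sm2, ← h, sm6]
  have hDe : ((mo (p : ℤ) : LC) • dM dO Z) * e = (mo (p : ℤ) : LC) • dM dO Z := by
    have h := dM_mul dO Z e
    rw [hZe, hde, mul_zero, zero_add] at h
    rw [sm3, ← h]
  have hmain := alg2 hee hc hfZ hZe heD hDe (R := R) (W := WW p e R Z) rfl hkey
  have hGR : θ + R = G := by rw [hR, add_sub_cancel]
  rw [hGR] at hmain
  set B : Matrix (Fin ρ) (Fin ρ) LC := e + Z with hB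
  have hB0 : MVGE 0 B := he0.add (hZ1.mono (by norm_num))
  have hBco : co 0 B = E := by
    rw [hB, co_add, co_zero_of hZ1, add_zero, he, cm_co]
  have hBf : B * (1 - e) = 0 := by
    rw [hB, mul_sub, mul_one, add_mul, hee, hZe, sub_self]
  set Th : Matrix (Fin ρ) (Fin ρ) LC := e * G * B + (1 - e) with hTh
  have hBTh : B * Th = (mo (p : ℤ) : LC) • dM dO B + G * B := by
    rw [hTh, mul_add, hBf, add_zero, ← hmain, hB, dM_add, hde, zero_add]
  have hTh0 : MVGE 0 Th := by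
    have h := ((he0.mul hG0).mul hB0)
    rw [add_zero, add_zero] at h
    exact h.add hf0
  have hThco : co 0 Th = T' := by
    have h1 : co 0 (e * G * B) = E * T * E := by
      have h2 := co_mul_low (he0.mul hG0) hB0
      have h3 := co_mul_low he0 hG0
      rw [h3, hGco, hBco, he, cm_co] at h2
      exact h2
    have h4 : co 0 (1 - e) = 1 - E := by
      have h5 : (1 - e : Matrix (Fin ρ) (Fin ρ) LC) = cm (1 - E) := by rw [map_sub, map_one]
      rw [h5, cm_co]
    rw [hTh, co_add, h1, h4, hT', hET, mul_assoc, hE]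
  obtain ⟨Thi, hThi0, hThi⟩ := int_inv Th hTh0 (by rw [hThco]; exact hU)
  refine ⟨ρ, fun j i => B i j, Th, Thi, ?_, hTh0, hThi0, hThi, ?_⟩
  · by_contra hcon
    push Not at hcon
    apply hE0
    rw [← hBco]
    ext i j
    show (B i j).coeff 0 = 0
    have h1 : B i j = 0 := congrFun (hcon j) i
    rw [h1]
    rfl
  · intro j i
    have h1 : dM dO B + Γ * B = (mo (-(p : ℤ)) : LC) • (B * Th) := by
      rw [hBTh, sm4, sm7, mo_mul, neg_add_cancel, mo_zero, sm8, hG,
        sm3, sm7, mo_mul, neg_add_cancel, mo_zero, sm8]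
    have h2 := congrFun (congrFun h1 i) j
    rw [Matrix.add_apply, dM_apply, sm1, Matrix.mul_apply,
      Matrix.mul_apply, Finset.mul_sum] at h2
    have h3 : dO (B i j) + (Γ.mulVec fun i => B i j) i = dO (B i j) + ∑ k, Γ i k * B k j := rfl
    rw [h3, h2]
    apply Finset.sum_congr rfl
    intro c _
    ring

end Pool.Agent.Helper84.CV
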