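import Pool.Agent.Helper84.CV.Irr
import Pool.Agent.Helper84.CV.Kap
import Pool.Agent.Helper84.CV.Split
import Pool.Agent.Helper84.CV.Descend
import Pool.Agent.Helper84.CV.Exact
import Pool.Agent.Helper84.CV.CVec

/-!
# CV-LinReg: the linearisation along a formal solution is regular

Plan. `Y l = inc (vec U l) ∈ LC` (variable `z`), `d = aeval Y (dpol e) ≠ 0` (`hkry`, `aeval_dpol`, `inc_injective`),
`A = Alin B e v Y (mo 1)`. `cyclic_vector` for `dO`, `t = mo 1` (`dO_mo`), rank `n * n`. `exists_LD` gives `u` and `D` with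
`s^u = z`; put `N = n! * (n * n)!` and `M = u * N` (`NeZero` instances). `exact_slope` for `M` (`(n * n)! ∣ M`), `d = d' = dO`,
`c = M`: `q, G` with `MVGE (-q) (ga dO (M • A.map (ram M)) G)`, leading term not nilpotent if `q > 0`.
If `q = 0`: `descend`. If `q > 0`: `Γ = ga dO (M • A.map (ram M)) G`, `splitting` gives `b_j`; `b'_j = G b_j` satisfies
`dO b'_j + (M • A.map (ram M)) b'_j = ∑_c τ^(-q) Th_cj b'_c`. By `Alin_map` (`φ = ram M`) and `Alin_smul`,
`M • A.map (ram M) = Alin B e v (ram M ∘ Y) (M * mo M)`, and `ram M (inc (U_ij)) = ram N (inc (expand u U_ij)) = (D.UK N ℂ)_ij`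
(compare coefficients), `D.SK N ℂ = w • C(τ)`, `w = M * mo M`, with `d • C = chat` by `chat_eq` over `ℂ[[X]]` mapped to `LC`
(`chat_map`). `exists_kappa` for `D, N`; `(D.shift κ)` has the same `UK, SK, r`, and `Alin (B + κ) = Alin B` (`Hpol_shift`).
`irr_zero` for `D.shift κ` gives `b'_j = 0`, so `b_j = 0` for all `j`, contradiction.
-/

set_option autoImplicit false

open Matrix

namespace Pool.Agent.Helper84.CV

/-- expansion and ramification -/
private theorem lr_ram_inc (u N : ℕ) (hu : u ≠ 0) [NeZero N] [NeZero (u * N)] (z : PowerSeries ℂ) :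
    (ram (u * N) (inc z) : LC) = ram N (inc (PowerSeries.expand u hu z)) := by
  have hN0 : (N : ℤ) ≠ 0 := Int.natCast_ne_zero.2 (NeZero.ne N)
  have hu0 : (u : ℤ) ≠ 0 := Int.natCast_ne_zero.2 hu
  ext j
  by_cases h1 : (N : ℤ) ∣ j
  · obtain ⟨i, rfl⟩ := h1
    rw [ram_coeff_mul]
    by_cases h2 : (u : ℤ) ∣ i
    · obtain ⟨k, rfl⟩ := h2
      have e1 : (N : ℤ) * (u * k) = ((u * N : ℕ) : ℤ) * k := by
        push_cast
        ring
      rw [e1, ram_coeff_mul]
      rcases lt_or_ge k 0 with hk | hk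
      · rw [inc_coeff_neg _ _ hk, inc_coeff_neg]
        exact mul_neg_of_pos_of_neg (lt_of_le_of_ne (Int.natCast_nonneg u) (Ne.symm hu0)) hk
      · obtain ⟨m, rfl⟩ := Int.eq_ofNat_of_zero_le hk
        have e2 : (u : ℤ) * ((m : ℕ) : ℤ) = ((u * m : ℕ) : ℤ) := by
          push_cast
          ring
        rw [e2, inc_coeff_nat, inc_coeff_nat, PowerSeries.coeff_expand_mul]
    · rw [ram_coeff_of_not_dvd]
      · rcases lt_or_ge i 0 with hk | hk
        · rw [inc_coeff_neg _ _ hk]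
        · obtain ⟨m, rfl⟩ := Int.eq_ofNat_of_zero_le hk
          rw [inc_coeff_nat, PowerSeries.coeff_expand_of_not_dvd, map_zero]
          intro h3
          exact h2 (Int.natCast_dvd_natCast.2 h3)
      · rintro ⟨k, hk⟩
        apply h2
        refine ⟨k, ?_⟩
        have h3 : (N : ℤ) * i = N * (u * k) := by
          rw [hk]
          push_cast
          ring
        exact mul_left_cancel₀ hN0 h3
  · rw [ram_coeff_of_not_dvd N _ j h1, ram_coeff_of_not_dvd]
    rintro ⟨k, hk⟩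
    apply h1
    refine ⟨u * k, ?_⟩
    rw [hk]
    push_cast
    ring

/-- the ring homomorphism `ℂ[[z]] → ℂ((τ))` -/
private noncomputable def lr_phi (M : ℕ) [NeZero M] : PowerSeries ℂ →+* LC := (ram M).comp inc

private theorem lr_phi_apply (M : ℕ) [NeZero M] (z : PowerSeries ℂ) :
    lr_phi M z = ram M (inc z) := rfl

private theorem lr_ram_injective (M : ℕ) [NeZero M] : Function.Injective (ram M : LC →+* LC) :=
  RingHom.injective _

private theorem lr_phi_injective (M : ℕ) [NeZero M] : Function.Injective (lr_phi M) := by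
  intro a b hab
  exact inc_injective (lr_ram_injective M hab)

private theorem lr_phi_C (M : ℕ) [NeZero M] (a : ℂ) :
    lr_phi M (PowerSeries.C a) = algebraMap ℂ LC a := by
  rw [lr_phi_apply, inc_C, ram_C, LaurentSeries.algebraMap_apply]
  rfl

private theorem lr_ram_alg (M : ℕ) [NeZero M] (a : ℂ) :
    (ram M : LC →+* LC) (algebraMap ℂ LC a) = algebraMap ℂ LC a := by
  rw [LaurentSeries.algebraMap_apply, ram_C]

/-- gauge transformation on vectors -/
private theorem lr_gauge {m : ℕ} (A G : Matrix (Fin m) (Fin m) LC) (hG : IsUnit G.det)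
    (x : Fin m → LC) :
    (fun i => dO ((G.mulVec x) i) + (A.mulVec (G.mulVec x)) i) =
      G.mulVec (fun i => dO (x i) + ((ga dO A G).mulVec x) i) := by
  have h1 : (fun i => dO ((G.mulVec x) i)) = (dM dO G).mulVec x + G.mulVec (fun i => dO (x i)) := by
    funext i
    show dO (∑ j, G i j * x j) = (∑ j, dO (G i j) * x j) + ∑ j, G i j * dO (x j)
    rw [map_sum, ← Finset.sum_add_distrib]
    apply Finset.sum_congr rfl
    intro j _
    rw [Der.leib]
    ring
  have h2 : (fun i => dO ((G.mulVec x) i) + (A.mulVec (G.mulVec x)) i) =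
      (fun i => dO ((G.mulVec x) i)) + A.mulVec (G.mulVec x) := rfl
  have h3 : (fun i => dO (x i) + ((ga dO A G).mulVec x) i) =
      (fun i => dO (x i)) + (ga dO A G).mulVec x := rfl
  rw [h2, h3, h1, Matrix.mulVec_add, Matrix.mulVec_mulVec, Matrix.mulVec_mulVec]
  unfold ga
  rw [Matrix.mul_nonsing_inv_cancel_left _ _ hG, Matrix.add_mulVec]
  abel

private theorem lr_Alin_shift {n : ℕ} (B : Matrix (Fin n) (Fin n) ℂ) (e v : Fin n → ℂ) (κ : ℂ)
    (Y : Fin (n * n) → LC) (z : LC) :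
    Alin (B + κ • (1 : Matrix (Fin n) (Fin n) ℂ)) e v Y z = Alin B e v Y z := by
  unfold Alin
  rw [Hpol_shift]

private theorem lr_mulVec_inj {m : ℕ} (G : Matrix (Fin m) (Fin m) LC) (hG : IsUnit G.det)
    (x : Fin m → LC) (h : G.mulVec x = 0) : x = 0 := by
  have h1 : G⁻¹.mulVec (G.mulVec x) = 0 := by
    rw [h, Matrix.mulVec_zero]
  rwa [Matrix.mulVec_mulVec, Matrix.nonsing_inv_mul _ hG, Matrix.one_mulVec] at h1

theorem lin_regular {n : ℕ} (U C : Matrix (Fin n) (Fin n) (PowerSeries ℂ))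
    (B : Matrix (Fin n) (Fin n) ℂ) (e v : Fin n → ℂ)
    (hode : ∀ i j, PowerSeries.derivative ℂ (U i j) = (C + (C * B.map PowerSeries.C -
      B.map PowerSeries.C * C)) i j)
    (hcomm : U * C = C * U)
    (he : C.mulVec (fun i => PowerSeries.C (e i)) = fun i => PowerSeries.C (v i))
    (hkry : (kry U (fun i => PowerSeries.C (e i))).det ≠ 0)
    (hsep : ∃ (d : PowerSeries ℂ) (a b : Polynomial (PowerSeries ℂ)), d ≠ 0 ∧
      a * U.charpoly + b * Polynomial.derivative U.charpoly = Polynomial.C d) :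
    ∃ G : Matrix (Fin (n * n)) (Fin (n * n)) LC, IsUnit G.det ∧
      MVGE 0 (ga dO (Alin B e v (fun l => (inc (vec U l) : LC)) (mo 1)) G) := by
  classical
  obtain ⟨Y, hY⟩ : ∃ Y : Fin (n * n) → LC, Y = fun l => (inc (vec U l) : LC) := ⟨_, rfl⟩
  rw [← hY]
  obtain ⟨A, hA⟩ : ∃ A : Matrix (Fin (n * n)) (Fin (n * n)) LC, A = Alin B e v Y (mo 1) :=
    ⟨_, rfl⟩
  rw [← hA]
  have ht : (dO : Der LC) (mo 1) ≠ 0 := by
    rw [dO_mo, Int.cast_one, one_mul]
    exact mo_ne_zero 1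
  have hchar : CharZero LC :=
    charZero_of_injective_ringHom (HahnSeries.C_injective (Γ := ℤ) (R := ℂ))
  obtain ⟨cv, hcv⟩ := cyclic_vector (dO : Der LC) (mo 1) ht A
  obtain ⟨u, hu, D, hDU, hDS, hDB⟩ := exists_LD U C B hode hcomm hsep
  have hNu : NeZero u := ⟨hu⟩
  obtain ⟨N, hNd⟩ : ∃ N : ℕ, N = n.factorial * (n * n).factorial := ⟨_, rfl⟩
  have hN0 : NeZero N := ⟨by
    rw [hNd]
    exact Nat.mul_ne_zero (Nat.factorial_ne_zero _) (Nat.factorial_ne_zero _)⟩
  have hM0 : NeZero (u * N) := ⟨Nat.mul_ne_zero hu (NeZero.ne N)⟩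
  have hdvd1 : n.factorial ∣ N := by
    rw [hNd]
    exact Dvd.intro _ rfl
  have hdvd2 : (n * n).factorial ∣ u * N := by
    rw [hNd]
    exact Dvd.dvd.mul_left (Dvd.intro_left _ rfl) u
  have hc0 : (((u * N : ℕ) : ℂ)) ≠ 0 := Nat.cast_ne_zero.2 (NeZero.ne (u * N))
  have hCc : (HahnSeries.C ((u * N : ℕ) : ℂ) : LC) = ((u * N : ℕ) : LC) := map_natCast _ _
  have hcomp : ∀ z : LC, (dO : Der LC) (ram (u * N) z) =
      HahnSeries.C ((u * N : ℕ) : ℂ) * ram (u * N) (dO z) := by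
    intro z
    rw [hCc]
    exact dO_ram (u * N) z
  have hmo : ∀ m : ℤ, ∃ e : ℂ, (dO : Der LC) (mo m) = HahnSeries.C e * mo m := by
    intro m
    refine ⟨(m : ℂ), ?_⟩
    rw [dO_mo, map_intCast]
  have hC : (dO : Der LC) (HahnSeries.C ((u * N : ℕ) : ℂ)) = 0 := dO_C _
  obtain ⟨q, G, hG, hq1, hq2⟩ := exact_slope (u * N) hdvd2 (dO : Der LC) dO ((u * N : ℕ) : ℂ) hc0
    hcomp hmo hC A cv hcv
  rcases Nat.eq_zero_or_pos q with h0 | hq
  · rw [h0, Nat.cast_zero, neg_zero, hCc] at hq1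
    exact descend (u * N) A G hG hq1
  exfalso
  obtain ⟨r, b, Th, Thi, ⟨j0, hj0⟩, hTh, hThi, hinv, hb⟩ := splitting hq _ hq1 (hq2 hq)
  -- the matrix after ramification
  obtain ⟨w, hw⟩ : ∃ w : LC, w = HahnSeries.C ((u * N : ℕ) : ℂ) * ram (u * N) (mo 1) := ⟨_, rfl⟩
  have hUK : D.UK N ℂ = U.map (lr_phi (u * N)) := by
    ext i j : 1
    rw [LD.UK, hDU, Matrix.map_apply, Matrix.map_apply, Matrix.map_apply, lr_phi_apply,
      lr_ram_inc u N hu]
  have hvUK : vec (D.UK N ℂ) = fun l => (ram (u * N) : LC →+* LC) (Y l) := by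
    funext l
    rw [hUK, hY]
    rfl
  have hAr : (HahnSeries.C ((u * N : ℕ) : ℂ) : LC) • A.map (ram (u * N)) =
      Alin B e v (vec (D.UK N ℂ)) w := by
    rw [hA, Alin_map B e v (ram (u * N)) (lr_ram_alg (u * N)), hvUK, hw]
    exact Alin_smul B e v _ _ _
  rw [hAr] at hb
  have hSK : D.SK N ℂ = w • C.map (lr_phi (u * N)) := by
    ext i j : 1
    rw [Matrix.smul_apply, LD.SK, hDS, Matrix.map_apply, Matrix.map_apply, Matrix.map_apply,
      lr_phi_apply, lr_ram_inc u N hu, hw, smul_eq_mul, map_mul, map_mul, map_mul, map_mul,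
      inc_X_pow, ram_mo, ram_mo, map_natCast, map_natCast, hCc]
    push_cast
    ring_nf
  have hd0 : MvPolynomial.aeval (vec (D.UK N ℂ)) (dpol e) =
      lr_phi (u * N) (kry U (fun i => PowerSeries.C (e i))).det := by
    rw [aeval_dpol, mat_vec, hUK, RingHom.map_det, RingHom.mapMatrix_apply, kry_map]
    simp only [lr_phi_C]
  have hd : MvPolynomial.aeval (vec (D.UK N ℂ)) (dpol e) ≠ 0 := by
    rw [hd0]
    intro h
    exact hkry (lr_phi_injective (u * N) (by rw [h, map_zero]))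
  have hch : chat (D.UK N ℂ) (fun i => algebraMap ℂ LC (e i)) (fun i => algebraMap ℂ LC (v i)) =
      MvPolynomial.aeval (vec (D.UK N ℂ)) (dpol e) • C.map (lr_phi (u * N)) := by
    have h1 := chat_eq U C (fun i => PowerSeries.C (e i)) (fun i => PowerSeries.C (v i)) hcomm he
      hkry
    have h2 := chat_map (lr_phi (u * N)) U (fun i => PowerSeries.C (e i))
      (fun i => PowerSeries.C (v i))
    rw [← h1] at h2
    simp only [lr_phi_C] at h2
    rw [hUK, ← h2, hUK.symm, hd0]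
    ext i j : 1
    rw [Matrix.map_apply, Matrix.smul_apply, Matrix.smul_apply, Matrix.map_apply, smul_eq_mul,
      smul_eq_mul, map_mul]
  have hS : D.SK N ℂ = (w * (MvPolynomial.aeval (vec (D.UK N ℂ)) (dpol e))⁻¹) •
      chat (D.UK N ℂ) (fun i => algebraMap ℂ LC (e i)) (fun i => algebraMap ℂ LC (v i)) := by
    rw [hSK, hch]
    ext i j : 1
    rw [Matrix.smul_apply, Matrix.smul_apply, Matrix.smul_apply, smul_eq_mul, smul_eq_mul,
      smul_eq_mul]
    field_simp
  obtain ⟨κ, hκB, hκ1, hκ2⟩ := exists_kappa D N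
  have hb' : ∀ (j : Fin r) (i : Fin (n * n)), dO ((G.mulVec (b j)) i) +
      ((Alin (D.shift κ).B e v (vec ((D.shift κ).UK N ℂ)) w).mulVec (G.mulVec (b j))) i =
      ∑ c, mo (-(q : ℤ)) * Th c j * (G.mulVec (b c)) i := by
    intro j i
    have h1 : Alin (D.shift κ).B e v (vec ((D.shift κ).UK N ℂ)) w =
        Alin B e v (vec (D.UK N ℂ)) w := by
      have h2 : (D.shift κ).B = B + κ • (1 : Matrix (Fin n) (Fin n) ℂ) := by
        rw [← hDB]
        rfl
      have h3 : (D.shift κ).UK N ℂ = D.UK N ℂ := rfl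
      rw [h2, h3, lr_Alin_shift]
    rw [h1]
    have h4 := congrFun (lr_gauge (Alin B e v (vec (D.UK N ℂ)) w) G hG (b j)) i
    refine h4.trans ?_
    have h5 : (fun i => dO (b j i) +
        ((ga dO (Alin B e v (vec (D.UK N ℂ)) w) G).mulVec (b j)) i) =
        fun i => ∑ c, mo (-(q : ℤ)) * Th c j * b c i := by
      funext i
      exact hb j i
    rw [h5]
    show ∑ k, G i k * (∑ c, mo (-(q : ℤ)) * Th c j * b c k) =
      ∑ c, mo (-(q : ℤ)) * Th c j * (∑ k, G i k * b c k)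
    simp only [Finset.mul_sum]
    rw [Finset.sum_comm]
    refine Finset.sum_congr rfl fun c _ => Finset.sum_congr rfl fun k _ => ?_
    ring
  apply hj0
  apply lr_mulVec_inj G hG
  exact irr_zero (D.shift κ) N hdvd1 e v w hd hS hκB hκ1 hκ2 q hq (fun j => G.mulVec (b j)) Th Thi
    hTh hThi hinv hb' j0

end Pool.Agent.Helper84.CV
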