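import Pool.Agent.Helper84.CV.UpB
import Pool.Agent.Helper84.CV.SolC
import Pool.Agent.Helper84.CV.E2

/-!
# CV-NodeSol: the solutions on the two sides of a node

Plan. Side a: disc `l`, `φ = psiX w₀ N`; side b: disc `w₀ :: l`, `φ = psiY N`. Direction `v d/dv`: `dO` on side a, `dI dO` on
side b (`Rel.outer`). `IsS_map` gives: `(k j).map psiX` solves the equation for `dO`, `A = (A1 l).map psiX`,
`P = psiX (mo p)`, `Th.map (psiX ∘ up)`, `η = (eta1 l).map psiX` (`κ = 0`, `dO_psiX`); `(k' j).map psiY` the one for `dI dO`,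
`A' = (A1 (w₀ :: l)).map psiY + κ • (A2 (w₀ :: l)).map psiY`, `η' = (eta1 …).map psiY + κ • (eta2 …).map psiY`, `κ` from
`dI_psiY`. `MRel A A'` is `node_conn_down`. `MRel (η j) (η' j)`: the same computation: `eta1 + κ eta2` on side b is
`(dI dO (psiY λ) - S) R X R B - Y R B`, related by `Rel.outer`, `rel_lam`, `rel_RN`, `rel_SK`, `rel_BK`, `Rel_up`. `P` and `Thi`
are related by `Rel_up` (`up_mo`). `psiX (mo p) = single p (mo p)` has `VGE 1`, similarly on side b. Lattices: `G.map psiX`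
and `G'.map psiY` for the lattices `G, G'` of `Adm N l 0`, `Adm N (w₀ :: l) 0` (`ga_map`, `ga_map_comb`, `VGE.twist`).
`sit_rel` and `sol_approx` on both sides, then `Rel_of_approx`.
-/

set_option autoImplicit false

open Matrix

namespace Pool.Agent.Helper84.CV

section aux

private theorem ns_alg' {ι L : Type} [Fintype ι] [DecidableEq ι] [CommRing L]
    (S R X B Y : Matrix ι ι L) (a a' κ : L) :
    ((a • (1 : Matrix ι ι L) - S) * R * X * R * B - Y * R * B) + κ • (a' • (R * X * R * B)) =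
      ((κ * a' + a) • (1 : Matrix ι ι L) - S) * R * X * R * B - Y * R * B := by
  have h1 : ((κ * a' + a) • (1 : Matrix ι ι L) - S) =
      (a • (1 : Matrix ι ι L) - S) + (κ * a') • (1 : Matrix ι ι L) := by
    rw [add_smul]
    abel
  rw [h1, Matrix.add_mul, Matrix.add_mul, Matrix.add_mul, Matrix.add_mul, Matrix.smul_mul,
    Matrix.smul_mul, Matrix.smul_mul, Matrix.smul_mul, Matrix.one_mul, smul_smul]
  abel

private theorem ns_alg {n : ℕ} (S R X B Y : Matrix (Fin n) (Fin n) GG) (a a' κ : GG) :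
    ((a • (1 : Matrix (Fin n) (Fin n) GG) - S) * R * X * R * B - Y * R * B) +
      κ • (a' • (R * X * R * B)) =
      ((κ * a' + a) • (1 : Matrix (Fin n) (Fin n) GG) - S) * R * X * R * B - Y * R * B :=
  ns_alg' S R X B Y a a' κ

private theorem ns_map_mul {n : ℕ} (φ : FF →+* GG) (P Q : Matrix (Fin n) (Fin n) FF) :
    (P * Q).map φ = P.map φ * Q.map φ := by
  rw [Matrix.map_mul]

private theorem ns_map_sub {n : ℕ} (φ : FF →+* GG) (P Q : Matrix (Fin n) (Fin n) FF) :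
    (P - Q).map φ = P.map φ - Q.map φ := by
  refine Matrix.ext fun i j => ?_
  exact map_sub φ (P i j) (Q i j)

private theorem ns_map_smul {n : ℕ} (φ : FF →+* GG) (a : FF) (Q : Matrix (Fin n) (Fin n) FF) :
    (a • Q).map φ = φ a • Q.map φ := by
  refine Matrix.ext fun i j => ?_
  exact map_mul φ a (Q i j)

private theorem ns_map_one {n : ℕ} (φ : FF →+* GG) :
    (1 : Matrix (Fin n) (Fin n) FF).map φ = 1 := by
  refine Matrix.ext fun i j => ?_
  rw [Matrix.map_apply, Matrix.one_apply, Matrix.one_apply]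
  split_ifs
  · exact map_one φ
  · exact map_zero φ

private theorem ns_map {n : ℕ} (φ : FF →+* GG) (S R X B Y : Matrix (Fin n) (Fin n) FF) (a : FF) :
    ((a • (1 : Matrix (Fin n) (Fin n) FF) - S) * R * X * R * B - Y * R * B).map φ =
      (φ a • (1 : Matrix (Fin n) (Fin n) GG) - S.map φ) * R.map φ * X.map φ * R.map φ * B.map φ -
        Y.map φ * R.map φ * B.map φ := by
  rw [ns_map_sub, ns_map_mul, ns_map_mul, ns_map_mul, ns_map_mul, ns_map_mul, ns_map_mul,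
    ns_map_sub, ns_map_smul, ns_map_one]

private theorem ns_map2 {n : ℕ} (φ : FF →+* GG) (R X B : Matrix (Fin n) (Fin n) FF) (a : FF) :
    (a • (R * X * R * B)).map φ = φ a • (R.map φ * X.map φ * R.map φ * B.map φ) := by
  rw [ns_map_smul, ns_map_mul, ns_map_mul, ns_map_mul]

private theorem ns_IsS_map {ι : Type} [Fintype ι] [DecidableEq ι] {L L' : Type} [Field L]
    [Field L'] {r : ℕ} (φ : L →+* L') (d : Der L) (d' : Der L') (hφ : ∀ x, d' (φ x) = φ (d x))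
    (A : Matrix ι ι L) (P : L) (Th : Matrix (Fin r) (Fin r) L) (η k : Fin r → Matrix ι ι L)
    (h : IsS d A P Th η k) :
    IsS d' (A.map φ) (φ P) (Th.map φ) (fun j => (η j).map φ) (fun j => (k j).map φ) := by
  have h0 : IsS (Der.sm (0 : L) d) (0 : Matrix ι ι L) 1 (0 : Matrix (Fin r) (Fin r) L)
      (fun _ => 0) k := by
    intro j
    have e1 : dM (Der.sm (0 : L) d) (k j) = 0 := by
      refine Matrix.ext fun a b => ?_
      rw [dM_apply, Der.sm_apply, zero_mul, Matrix.zero_apply]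
    have e2 : ∑ i, (0 : Matrix (Fin r) (Fin r) L) i j • k i = 0 :=
      Finset.sum_eq_zero fun i _ => by rw [Matrix.zero_apply, zero_smul]
    rw [e1, e2, Matrix.zero_mul, Matrix.mul_zero]
    simp
  have h1 := IsS_map φ d (Der.sm (0 : L) d) d' 0 (fun x => by rw [hφ, zero_mul, zero_add]) A 0 P
    Th η (fun _ => 0) k h h0
  have e3 : A.map φ + (0 : L') • (0 : Matrix ι ι L).map φ = A.map φ := by
    rw [zero_smul, add_zero]
  rw [e3] at h1
  intro j
  have h2 := h1 j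
  have e5 : (η j).map φ + (0 : L') • (0 : Matrix ι ι L).map φ = (η j).map φ := by
    rw [zero_smul, add_zero]
  simp only [e5] at h2
  exact h2

private theorem ns_mul {n : ℕ} {P P' Q Q' : Matrix (Fin n) (Fin n) GG} (h : MRel P P')
    (h' : MRel Q Q') : MRel (P * Q) (P' * Q') := by
  intro i j
  rw [Matrix.mul_apply, Matrix.mul_apply]
  exact Rel.sum _ _ _ fun k _ => (h i k).mul (h' k j)

private theorem ns_sub {n : ℕ} {P P' Q Q' : Matrix (Fin n) (Fin n) GG} (h : MRel P P')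
    (h' : MRel Q Q') : MRel (P - Q) (P' - Q') := fun i j => (h i j).sub (h' i j)

private theorem ns_smul {n : ℕ} {P P' : Matrix (Fin n) (Fin n) GG} {x y : GG} (hx : Rel x y)
    (h : MRel P P') : MRel (x • P) (y • P') := fun i j => hx.mul (h i j)

private theorem ns_one {n : ℕ} : MRel (1 : Matrix (Fin n) (Fin n) GG) 1 := by
  intro i j
  rw [Matrix.one_apply]
  split_ifs
  · exact Rel_one
  · exact Rel_zero

private theorem ns_up {n m : ℕ} (N : ℕ) [NeZero N] (w₀ : ℂ) (Q : Matrix (Fin n) (Fin m) LC) :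
    MRel ((Q.map up).map (psiX w₀ N)) ((Q.map up).map (psiY N)) :=
  fun i j => Rel_up w₀ N (Q i j)

private theorem ns_twist {K K' : Type} [Field K] [Field K'] {ι : Type} (φ : K →+* K') (θ : K'ˣ)
    {a : ℤ} {Q : Matrix ι ι (LaurentSeries K)} (h : MVGE a Q) : MVGE a (Q.map (tw φ θ)) :=
  fun i j => (h i j).twist φ θ

private theorem ns_ga {K K' : Type} [Field K] [Field K'] {n : ℕ} (φ : K →+* K') (θ : K'ˣ)
    (d : Der (LaurentSeries K)) (d' : Der (LaurentSeries K'))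
    (h : ∀ x, d' (tw φ θ x) = tw φ θ (d x))
    (A G : Matrix (Fin n) (Fin n) (LaurentSeries K)) (hG : IsUnit G.det) (a : ℤ)
    (h1 : MVGE a (ga d A G)) :
    MVGE a (ga d' (A.map (tw φ θ)) (G.map (tw φ θ))) := by
  rw [ga_map (tw φ θ) d d' h A G hG]
  exact ns_twist φ θ h1

private theorem ns_comb {K K' : Type} [Field K] [Field K'] {n : ℕ} (φ : K →+* K') (θ : K'ˣ)
    (d e : Der (LaurentSeries K)) (d' : Der (LaurentSeries K')) (κ : K')
    (h : ∀ x, d' (tw φ θ x) = HahnSeries.C κ * tw φ θ (e x) + tw φ θ (d x))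
    (A A' G : Matrix (Fin n) (Fin n) (LaurentSeries K)) (hG : IsUnit G.det) (a : ℤ)
    (h1 : MVGE a (ga d A G)) (h2 : MVGE a (ga e A' G)) :
    MVGE a (ga d' (A.map (tw φ θ) + (HahnSeries.C κ : LaurentSeries K') • A'.map (tw φ θ))
      (G.map (tw φ θ))) := by
  rw [ga_map_comb (tw φ θ) d e d' _ h A A' G hG]
  refine (ns_twist φ θ h1).add ?_
  have h3 := MVGE.smul (VGE_C κ) (ns_twist φ θ h2)
  rwa [zero_add] at h3

private theorem ns_det {K K' : Type} [Field K] [Field K'] {n : ℕ} (φ : K →+* K') (θ : K'ˣ)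
    (G : Matrix (Fin n) (Fin n) (LaurentSeries K)) (hG : IsUnit G.det) :
    IsUnit (G.map (tw φ θ)).det :=
  isUnit_det_map (tw φ θ) G hG

private theorem ns_inv {r : ℕ} (φ : FF →+* GG) (Th Thi : Matrix (Fin r) (Fin r) LC)
    (h : Th * Thi = 1) : (Th.map up).map φ * (Thi.map up).map φ = 1 := by
  have h1 : (Th * Thi).map up = Th.map up * Thi.map up := by
    rw [Matrix.map_mul]
  have h2 : (Th * Thi).map up = 1 := by
    rw [h]
    refine Matrix.ext fun i j => ?_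
    rw [Matrix.map_apply, Matrix.one_apply, Matrix.one_apply]
    split_ifs
    · exact map_one up
    · exact map_zero up
  rw [← ns_map_mul, ← h1, h2, ns_map_one]

private theorem ns_IsS1 {K K' : Type} [Field K] [Field K'] {n r : ℕ}
    (φ : LaurentSeries K →+* LaurentSeries K') (d : Der (LaurentSeries K))
    (d' : Der (LaurentSeries K')) (hφ : ∀ x, d' (φ x) = φ (d x))
    (A : Matrix (Fin n) (Fin n) (LaurentSeries K)) (P : LaurentSeries K)
    (Th : Matrix (Fin r) (Fin r) (LaurentSeries K))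
    (η k : Fin r → Matrix (Fin n) (Fin n) (LaurentSeries K)) (h : IsS d A P Th η k) :
    IsS d' (A.map φ) (φ P) (Th.map φ) (fun j => (η j).map φ) (fun j => (k j).map φ) :=
  ns_IsS_map φ d d' hφ A P Th η k h

private theorem ns_IsS2 {K K' : Type} [Field K] [Field K'] {n r : ℕ}
    (φ : LaurentSeries K →+* LaurentSeries K') (d e : Der (LaurentSeries K))
    (d' : Der (LaurentSeries K')) (κ : LaurentSeries K')
    (hφ : ∀ x, d' (φ x) = κ * φ (e x) + φ (d x))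
    (A A' : Matrix (Fin n) (Fin n) (LaurentSeries K)) (P : LaurentSeries K)
    (Th : Matrix (Fin r) (Fin r) (LaurentSeries K))
    (η η' k : Fin r → Matrix (Fin n) (Fin n) (LaurentSeries K)) (h : IsS d A P Th η k)
    (h' : IsS e A' 1 0 η' k) :
    IsS d' (A.map φ + κ • A'.map φ) (φ P) (Th.map φ)
      (fun j => (η j).map φ + κ • (η' j).map φ) (fun j => (k j).map φ) :=
  IsS_map φ d e d' κ hφ A A' P Th η η' k h h'

end aux

end Pool.Agent.Helper84.CV

namespace Pool.Agent.Helper84.CV.MD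

variable {n : ℕ} {D : LD n} {N : ℕ} [NeZero N] {e : Fin n → ℂ} (M : MD D N e) (l : List ℂ)

private theorem ns_eta1 (φ : FF →+* GG) (j : Fin M.r) : (M.eta1 l j).map φ =
    (φ (dO (LD.lamN N l)) • (1 : Matrix (Fin n) (Fin n) GG) - (D.SK N (RatFunc ℂ)).map φ) *
      (D.RN N l).map φ * ((M.X j).map up).map φ * (D.RN N l).map φ * (D.BK (RatFunc ℂ)).map φ -
      ((M.Y j).map up).map φ * (D.RN N l).map φ * (D.BK (RatFunc ℂ)).map φ := by
  unfold eta1
  exact ns_map φ _ _ _ _ _ _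

private theorem ns_eta2 (φ : FF →+* GG) (j : Fin M.r) : (M.eta2 l j).map φ =
    φ (dI rD (LD.lamN N l)) • ((D.RN N l).map φ * ((M.X j).map up).map φ * (D.RN N l).map φ *
      (D.BK (RatFunc ℂ)).map φ) := by
  unfold eta2
  exact ns_map2 φ _ _ _ _

private theorem ns_eta12 (φ : FF →+* GG) (κ : GG) (j : Fin M.r) :
    (M.eta1 l j).map φ + κ • (M.eta2 l j).map φ =
    ((κ * φ (dI rD (LD.lamN N l)) + φ (dO (LD.lamN N l))) • (1 : Matrix (Fin n) (Fin n) GG) -
      (D.SK N (RatFunc ℂ)).map φ) *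
      (D.RN N l).map φ * ((M.X j).map up).map φ * (D.RN N l).map φ * (D.BK (RatFunc ℂ)).map φ -
      ((M.Y j).map up).map φ * (D.RN N l).map φ * (D.BK (RatFunc ℂ)).map φ := by
  rw [ns_eta1, ns_eta2]
  exact ns_alg _ _ _ _ _ _ _ _

private theorem ns_rel_eta (w₀ : ℂ) (j : Fin M.r) : MRel ((M.eta1 l j).map (psiX w₀ N))
    ((M.eta1 (w₀ :: l) j).map (psiY N) + (HahnSeries.C (-((N : LC) * mo (-(N : ℤ)))) : GG) •
      (M.eta2 (w₀ :: l) j).map (psiY N)) := by
  rw [ns_eta1, ns_eta12, ← dI_psiY, ← dO_psiX]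
  have hR := D.rel_RN N l w₀
  have hB := D.rel_BK N w₀
  exact ns_sub (ns_mul (ns_mul (ns_mul (ns_mul (ns_sub (ns_smul (LD.rel_lam N l w₀).outer ns_one)
    (D.rel_SK N w₀)) hR) (ns_up N w₀ (M.X j))) hR) hB)
    (ns_mul (ns_mul (ns_up N w₀ (M.Y j)) hR) hB)


private theorem ns_ka (w₀ : ℂ) (k : Fin M.r → Matrix (Fin n) (Fin n) FF) (hk : M.IsSol l k) :
    IsS dO ((D.A1 N l).map (psiX w₀ N)) (psiX w₀ N (mo (M.p : ℤ)))
      ((M.Th.map up).map (psiX w₀ N)) (fun j => (M.eta1 l j).map (psiX w₀ N))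
      (fun j => (k j).map (psiX w₀ N)) :=
  ns_IsS1 (psiX w₀ N) dO dO (dO_psiX w₀ N) (D.A1 N l) (mo (M.p : ℤ)) (M.Th.map up) (M.eta1 l) k hk.1


private theorem ns_kb (w₀ : ℂ) (k' : Fin M.r → Matrix (Fin n) (Fin n) FF) (hk' : M.IsSol (w₀ :: l) k') :
  IsS (dI dO) ((D.A1 N (w₀ :: l)).map (psiY N) +
      (HahnSeries.C (-((N : LC) * mo (-(N : ℤ)))) : GG) • (D.A2 N (w₀ :: l)).map (psiY N))
      (psiY N (mo (M.p : ℤ))) ((M.Th.map up).map (psiY N))
      (fun j => (M.eta1 (w₀ :: l) j).map (psiY N) +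
        (HahnSeries.C (-((N : LC) * mo (-(N : ℤ)))) : GG) • (M.eta2 (w₀ :: l) j).map (psiY N))
      (fun j => (k' j).map (psiY N)) :=
  ns_IsS2 (psiY N) dO (dI rD) (dI dO) _ (dI_psiY N) (D.A1 N (w₀ :: l)) (D.A2 N (w₀ :: l)) (mo (M.p : ℤ)) (M.Th.map up) (M.eta1 (w₀ :: l)) (M.eta2 (w₀ :: l)) k' hk'.1 hk'.2


private theorem ns_sideA (w₀ : ℂ) (hadm : D.Adm N l 0)
    (k : Fin M.r → Matrix (Fin n) (Fin n) FF) (hk : M.IsSol l k) (m : ℤ) :
    ∃ m₀ : ℕ, ∀ m', m₀ ≤ m' → ∀ j, MVGE m ((k j).map (psiX w₀ N) -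
      sit dO ((D.A1 N l).map (psiX w₀ N)) (psiX w₀ N (mo (M.p : ℤ)))
        ((M.Thi.map up).map (psiX w₀ N)) (fun j => (M.eta1 l j).map (psiX w₀ N)) m' j) := by
  obtain ⟨G, hG, m1, -⟩ := hadm
  rw [Nat.cast_zero, neg_zero] at m1
  have hp1 : (1 : ℤ) ≤ (M.p : ℤ) := by
    have := M.hp
    omega
  have a1 : MVGE 0 (ga dO ((D.A1 N l).map (psiX w₀ N)) (G.map (psiX w₀ N))) :=
    ns_ga (jat w₀ N) tU dO dO (dO_psiX w₀ N) (D.A1 N l) G hG 0 m1
  have a2 : IsUnit (G.map (psiX w₀ N)).det := ns_det (jat w₀ N) tU G hG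
  have a3 : VGE 1 (psiX w₀ N (mo (M.p : ℤ))) :=
    ((VGE_mo (M.p : ℤ)).twist (jat w₀ N) tU).mono hp1
  have a4 : MVGE 0 ((M.Thi.map up).map (psiX w₀ N)) :=
    ns_twist (jat w₀ N) tU (fun i j => (VGE_up 0 _).2 (M.hThi i j))
  exact sol_approx dO (fun _ _ h => h.outer) _ _ a2 a1 _ a3 _ _ a4
    (ns_inv (psiX w₀ N) M.Th M.Thi M.inv) _ _ (ns_ka M l w₀ k hk) m

private theorem ns_sideB (w₀ : ℂ) (hadm' : D.Adm N (w₀ :: l) 0)
    (k' : Fin M.r → Matrix (Fin n) (Fin n) FF) (hk' : M.IsSol (w₀ :: l) k') (m : ℤ) :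
    ∃ m₀ : ℕ, ∀ m', m₀ ≤ m' → ∀ j, MVGE m ((k' j).map (psiY N) -
      sit (dI dO) ((D.A1 N (w₀ :: l)).map (psiY N) +
      (HahnSeries.C (-((N : LC) * mo (-(N : ℤ)))) : GG) • (D.A2 N (w₀ :: l)).map (psiY N))
      (psiY N (mo (M.p : ℤ)))
        ((M.Thi.map up).map (psiY N)) (fun j => (M.eta1 (w₀ :: l) j).map (psiY N) +
        (HahnSeries.C (-((N : LC) * mo (-(N : ℤ)))) : GG) •
          (M.eta2 (w₀ :: l) j).map (psiY N)) m' j) := by
  obtain ⟨G', hG', n1, n2⟩ := hadm'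
  rw [Nat.cast_zero, neg_zero] at n1 n2
  have hp1 : (1 : ℤ) ≤ (M.p : ℤ) := by
    have := M.hp
    omega
  have b1 : MVGE 0 (ga (dI dO) ((D.A1 N (w₀ :: l)).map (psiY N) +
      (HahnSeries.C (-((N : LC) * mo (-(N : ℤ)))) : GG) • (D.A2 N (w₀ :: l)).map (psiY N))
      (G'.map (psiY N))) :=
    ns_comb (jinf N) tU dO (dI rD) (dI dO) _ (dI_psiY N) _ _ G' hG' _ n1 n2
  have b2 : IsUnit (G'.map (psiY N)).det := ns_det (jinf N) tU G' hG'
  have b3 : VGE 1 (psiY N (mo (M.p : ℤ))) :=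
    ((VGE_mo (M.p : ℤ)).twist (jinf N) tU).mono hp1
  have b4 : MVGE 0 ((M.Thi.map up).map (psiY N)) :=
    ns_twist (jinf N) tU (fun i j => (VGE_up 0 _).2 (M.hThi i j))
  exact sol_approx (dI dO) (fun _ _ h => h.inner dO) _ _ b2 b1 _ b3 _ _ b4
    (ns_inv (psiY N) M.Th M.Thi M.inv) _ _ (ns_kb M l w₀ k' hk') m

theorem node_solution (w₀ : ℂ) (hadm : D.Adm N l 0) (hadm' : D.Adm N (w₀ :: l) 0)
    (k k' : Fin M.r → Matrix (Fin n) (Fin n) FF) (hk : M.IsSol l k)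
    (hk' : M.IsSol (w₀ :: l) k') (j : Fin M.r) :
    MRel ((k j).map (psiX w₀ N)) ((k' j).map (psiY N)) := by
  intro a b
  refine Rel_of_approx fun m => ?_
  obtain ⟨ma, hma⟩ := ns_sideA M l w₀ hadm k hk m
  obtain ⟨mb, hmb⟩ := ns_sideB M l w₀ hadm' k' hk' m
  have hP : Rel (psiX w₀ N (mo (M.p : ℤ))) (psiY N (mo (M.p : ℤ))) := by
    have h1 := Rel_up w₀ N (mo (M.p : ℤ))
    rwa [up_mo] at h1
  have hrel := sit_rel dO (dI dO) (fun _ _ h => h.outer) _ _ (D.node_conn_down N l w₀)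
    _ _ hP _ _ (ns_up N w₀ M.Thi) _ _ (ns_rel_eta M l w₀) (max ma mb) j
  exact ⟨_, _, hrel a b, hma _ (le_max_left _ _) j a b, hmb _ (le_max_right _ _) j a b⟩

end Pool.Agent.Helper84.CV.MD
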