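import Pool.Agent.Helper84.CV.UpB
import Pool.Agent.Helper84.CV.SolC
import Pool.Agent.Helper84.CV.E1

/-!
# CV-OrdSol: the solution at an ordinary closed point

Plan. `ordinary_point` gives `g, ρ, h`. Put `∂ = dO + g (dI ddt)` (`Der.ad dO (Der.sm g (dI ddt))`) on `GG`;
`VGE a z → VGE a (∂ z)` (`VGE 1 g`), `∂ ρ = 0`, `Reg z → Reg (∂ z)`. `A = (A1).map psi0 + g • (A2).map psi0 =
((∂λ - S) R).map * B` is regular (unfold `A1`, `A2`, `cn`; the `B` entries are constants). By `IsS_map` (`φ = psi0`,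
`d = dO`, `e = dI rD`) one gets the equations for `(k j).map psi0` in the directions `dO` (with `κ = 0`) and `dI ddt`, and
`IsS_comb` the one for `∂`, with right side `η = (eta1).map psi0 + g • (eta2).map psi0`; `IsS_smul` with `ρ`:
`k' = ρ • (k j).map psi0` solves it with `η' = ρ • η = ((∂λ - S) R) X (ρ R) B - Y (ρ R) B`, regular (`Reg_psi0_up`).
The lattice is `G.map psi0` (`G` for `Adm N l 0`): `ga ∂ A (G.map psi0) = ga dO … + g • ga (dI ddt) …` (`ga_ad_sm`), and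
`ga_map` with `VGE.twist`. So `sol_approx` applies (`P = mo p`, `Thi.map (psi0 ∘ up)` has `MVGE 0`), the iterates are
regular by `sit_mem` (`R = I = regS`), and `k'` is regular by `Reg_of_approx`. Finally
`psi0 fl • k = h • (ρ • k)`.
-/

set_option autoImplicit false

open Matrix

namespace Pool.Agent.Helper84.CV

section gen

variable {ι : Type} [Fintype ι] [DecidableEq ι] {L L' : Type} [Field L] [Field L']

omit [Fintype ι] in
private theorem ord_smul_one (φ : L →+* L') (x : L) :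
    (x • (1 : Matrix ι ι L)).map φ = φ x • (1 : Matrix ι ι L') := by
  ext i j
  rw [Matrix.map_apply, Matrix.smul_apply, Matrix.smul_apply, smul_eq_mul, smul_eq_mul, map_mul,
    Matrix.one_apply, Matrix.one_apply]
  split_ifs
  · rw [map_one]
  · rw [map_zero]

omit [Fintype ι] [DecidableEq ι] in
private theorem ord_smul (φ : L →+* L') (x : L) (M : Matrix ι ι L) :
    (x • M).map φ = φ x • M.map φ := by
  ext i j
  rw [Matrix.map_apply, Matrix.smul_apply, Matrix.smul_apply, smul_eq_mul, smul_eq_mul, map_mul,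
    Matrix.map_apply]

private theorem ord_A (φ : L →+* L') (U S B : Matrix ι ι L) (lam a b : L) (g : L') :
    (cn U S B lam a 1).map φ + g • (cn U S B lam b 0).map φ =
      (((φ a + g * φ b) • (1 : Matrix ι ι L') - S.map φ) *
        ((lam • (1 : Matrix ι ι L) - U)⁻¹).map φ) * B.map φ := by
  rw [cn, cn, one_smul, zero_smul, sub_zero, Matrix.map_mul, Matrix.map_mul, Matrix.map_mul,
    Matrix.map_mul, Matrix.map_sub _ (map_sub φ), ord_smul_one, ord_smul_one, ← Matrix.smul_mul,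
    ← Matrix.smul_mul, smul_smul, ← Matrix.add_mul, ← Matrix.add_mul, add_smul]
  congr 2
  abel

private theorem ord_eta (φ : L →+* L') (S B R X Y : Matrix ι ι L) (a b : L) (g ρ : L') :
    ρ • (((a • (1 : Matrix ι ι L) - S) * R * X * R * B - Y * R * B).map φ +
      g • (b • (R * X * R * B)).map φ) =
      (((φ a + g * φ b) • (1 : Matrix ι ι L') - S.map φ) * R.map φ) * X.map φ *
        (ρ • R.map φ) * B.map φ - Y.map φ * (ρ • R.map φ) * B.map φ := by
  rw [Matrix.map_sub _ (map_sub φ), ord_smul, Matrix.map_mul, Matrix.map_mul, Matrix.map_mul,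
    Matrix.map_mul, Matrix.map_mul, Matrix.map_mul, Matrix.map_mul, Matrix.map_mul, Matrix.map_mul,
    Matrix.map_sub _ (map_sub φ), ord_smul_one]
  generalize φ a = a'
  generalize φ b = b'
  generalize S.map φ = S'
  generalize R.map φ = R'
  generalize X.map φ = X'
  generalize Y.map φ = Y'
  generalize B.map φ = B'
  simp only [Matrix.mul_smul, Matrix.smul_mul, Matrix.sub_mul, add_smul, Matrix.add_mul,
    Matrix.one_mul, smul_sub, smul_add, smul_smul]
  abel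

end gen

private theorem ord_map_map {L L' L'' : Type} [Field L] [Field L'] [Field L''] {ι : Type}
    [Fintype ι] [DecidableEq ι] (f : L →+* L') (g : L' →+* L'') (A B : Matrix ι ι L)
    (h : A * B = 1) : (A.map f).map g * (B.map f).map g = 1 := by
  rw [← Matrix.map_mul, ← Matrix.map_mul, h, Matrix.map_one f (map_zero f) (map_one f)]
  exact Matrix.map_one _ (map_zero _) (map_one _)

section reg

variable {k : Type} [Field k] {m n o : Type} [Fintype n]

private theorem ordMul {M : Matrix m n (LaurentSeries (LaurentSeries k))}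
    {M' : Matrix n o (LaurentSeries (LaurentSeries k))} (h : MReg M) (h' : MReg M') :
    MReg (M * M') := by
  intro i j
  rw [Matrix.mul_apply]
  exact Reg.sum _ _ fun l _ => (h i l).mul (h' l j)

private theorem ordSub {M M' : Matrix m o (LaurentSeries (LaurentSeries k))} (h : MReg M)
    (h' : MReg M') : MReg (M - M') := by
  intro i j
  rw [Matrix.sub_apply]
  exact (h i j).sub (h' i j)

private theorem ordSmul {M : Matrix m o (LaurentSeries (LaurentSeries k))}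
    {a b : LaurentSeries (LaurentSeries k)} (ha : Reg b) (h : MReg (a • M)) :
    MReg ((a * b) • M) := by
  intro i j
  have h1 : ((a * b) • M) i j = b * (a • M) i j := by
    rw [Matrix.smul_apply, Matrix.smul_apply, smul_eq_mul, smul_eq_mul]
    ring
  rw [h1]
  exact ha.mul (h i j)

/-- the general argument -/
private theorem ord_reg {n r : ℕ} (d : Der (LaurentSeries (LaurentSeries k)))
    (hd : ∀ (a : ℤ) (z : LaurentSeries (LaurentSeries k)), VGE a z → VGE a (d z))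
    (hdR : ∀ z : LaurentSeries (LaurentSeries k), Reg z → Reg (d z))
    (A G : Matrix (Fin n) (Fin n) (LaurentSeries (LaurentSeries k))) (hG : IsUnit G.det)
    (hA : MVGE 0 (ga d A G)) (hAR : MReg A)
    (P : LaurentSeries (LaurentSeries k)) (hP : VGE 1 P) (hPR : Reg P)
    (Th Thi : Matrix (Fin r) (Fin r) (LaurentSeries (LaurentSeries k)))
    (hThi : MVGE 0 Thi) (hThiR : MReg Thi) (hinv : Th * Thi = 1)
    (η k' : Fin r → Matrix (Fin n) (Fin n) (LaurentSeries (LaurentSeries k)))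
    (hη : ∀ j, MReg (η j)) (hk : IsS d A P Th η k') (j : Fin r) : MReg (k' j) := by
  intro a b
  refine Reg_of_approx fun m => ?_
  obtain ⟨m₀, hm₀⟩ := sol_approx d hd A G hG hA P hP Th Thi hThi hinv η k' hk m
  refine ⟨sit d A P Thi η m₀ j a b, ?_, ?_⟩
  · exact sit_mem (regS k) (regS k).toAddSubgroup (fun x hx y hy => (regS k).mul_mem hx hy) d
      (fun y hy => hdR y hy) A (fun a b => hAR a b) P hPR Thi (fun a b => hThiR a b) η
      (fun j a b => hη j a b) m₀ j a b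
  · exact hm₀ m₀ le_rfl j a b

end reg

end Pool.Agent.Helper84.CV

namespace Pool.Agent.Helper84.CV.MD

variable {n : ℕ} {D : LD n} {N : ℕ} [NeZero N] {e : Fin n → ℂ} (M : MD D N e) (l : List ℂ)

private theorem ord_B (w₀ : ℂ) : MReg ((D.BK (RatFunc ℂ)).map (psi0 w₀)) := by
  intro i j
  have h1 : (D.BK (RatFunc ℂ)).map (psi0 w₀) i j =
      HahnSeries.C (HahnSeries.C (D.B i j) : LC) := by
    rw [Matrix.map_apply, LD.BK, Matrix.map_apply]
    exact (tw_C (jat w₀ 1) 1 _).trans (congrArg HahnSeries.C (jat_const w₀ 1 _))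
  rw [h1]
  exact Reg_C _ (VGE_C _)

private theorem ord_up (w₀ : ℂ) {m n : Type} (X : Matrix m n LC) :
    MReg ((X.map up).map (psi0 w₀)) := by
  intro i j
  exact Reg_psi0_up w₀ (X i j)

private theorem ord_VGE (w₀ : ℂ) {a : ℤ} {z : FF} (h : VGE a z) : VGE a (psi0 w₀ z) :=
  h.twist (jat w₀ 1) 1

private theorem ord_hφ (w₀ : ℂ) (g : GG) (x : FF) :
    (Der.ad dO (Der.sm g (dI ddt))) (psi0 w₀ x) =
      g * psi0 w₀ (dI rD x) + psi0 w₀ (dO x) := by
  rw [Der.ad_apply, Der.sm_apply, dO_psi0, dI_psi0, add_comm]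

private theorem ord_hd (g : GG) (hg1 : VGE 1 g) (a : ℤ) (z : GG) (hz : VGE a z) :
    VGE a ((Der.ad dO (Der.sm g (dI ddt))) z) := by
  rw [Der.ad_apply, Der.sm_apply]
  exact hz.outer.add ((hg1.mul (hz.inner ddt)).mono (by omega))

private theorem ord_hdR (g : GG) (hgR : Reg g) (z : GG) (hz : Reg z) :
    Reg ((Der.ad dO (Der.sm g (dI ddt))) z) := by
  rw [Der.ad_apply, Der.sm_apply]
  exact hz.outer.add (hgR.mul hz.inner_ddt)

private theorem ord_sys (w₀ : ℂ) (k : Fin M.r → Matrix (Fin n) (Fin n) FF) (hk : M.IsSol l k)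
    (g ρ : GG) (hρ : dO ρ + g * dI ddt ρ = 0) :
    IsS (Der.ad dO (Der.sm g (dI ddt)))
      ((D.A1 N l).map (psi0 w₀) + g • (D.A2 N l).map (psi0 w₀)) (psi0 w₀ (mo (M.p : ℤ)))
      ((M.Th.map up).map (psi0 w₀))
      (fun j => ρ • ((M.eta1 l j).map (psi0 w₀) + g • (M.eta2 l j).map (psi0 w₀)))
      (fun j => ρ • (k j).map (psi0 w₀)) := by
  have h1 := IsS_map (ι := Fin n) (r := M.r) (L := FF) (L' := GG) (psi0 w₀) (dO : Der FF) (dI rD)
    (Der.ad dO (Der.sm g (dI ddt))) g (ord_hφ w₀ g) (D.A1 N l) (D.A2 N l) (mo (M.p : ℤ))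
    (M.Th.map up) (M.eta1 l) (M.eta2 l) k
  have h2 := h1 hk.1
  have h3 := h2 hk.2
  have h4 := IsS_smul (L := GG) _ _ _ _ _ _ h3 ρ hρ
  exact h4

private theorem ord_lat (w₀ : ℂ) (g : GG) (hg1 : VGE 1 g) (G : Matrix (Fin n) (Fin n) FF)
    (hG : IsUnit G.det) (h1 : MVGE 0 (ga dO (D.A1 N l) G))
    (h2 : MVGE 0 (ga (dI rD) (D.A2 N l) G)) :
    MVGE 0 (ga (Der.ad dO (Der.sm g (dI ddt)))
      ((D.A1 N l).map (psi0 w₀) + g • (D.A2 N l).map (psi0 w₀)) (G.map (psi0 w₀))) := by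
  have hga := ga_map_comb (L := FF) (L' := GG) (psi0 w₀) (dO : Der FF) (dI rD)
    (Der.ad dO (Der.sm g (dI ddt))) g (ord_hφ w₀ g) (D.A1 N l) (D.A2 N l) G hG
  intro a b
  have h3 := congrFun (congrFun hga a) b
  have h4 : VGE 0 (psi0 w₀ (ga dO (D.A1 N l) G a b) +
      g * psi0 w₀ (ga (dI rD) (D.A2 N l) G a b)) :=
    (ord_VGE w₀ (h1 a b)).add ((hg1.mul (ord_VGE w₀ (h2 a b))).mono (by omega))
  exact h3 ▸ h4

private theorem ord_AR (w₀ : ℂ) (g : GG)
    (hQR : MReg (((psi0 w₀ (dO (LD.lamN N l)) + g * psi0 w₀ (dI rD (LD.lamN N l))) •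
        (1 : Matrix (Fin n) (Fin n) GG) - (D.SK N (RatFunc ℂ)).map (psi0 w₀)) *
        (D.RN N l).map (psi0 w₀))) :
    MReg ((D.A1 N l).map (psi0 w₀) + g • (D.A2 N l).map (psi0 w₀)) := by
  have h5 := ord_A (L := FF) (L' := GG) (psi0 w₀) (D.UK N (RatFunc ℂ)) (D.SK N (RatFunc ℂ))
    (D.BK (RatFunc ℂ)) (LD.lamN N l) (dO (LD.lamN N l)) (dI rD (LD.lamN N l)) g
  have h7 := ordMul hQR (ord_B (D := D) w₀)
  intro a b
  have h8 := congrFun (congrFun h5 a) b
  have h9 := h7 a b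
  exact h8 ▸ h9

private theorem ord_eR (w₀ : ℂ) (g ρ : GG)
    (hρRN : MReg (ρ • (D.RN N l).map (psi0 w₀)))
    (hQR : MReg (((psi0 w₀ (dO (LD.lamN N l)) + g * psi0 w₀ (dI rD (LD.lamN N l))) •
        (1 : Matrix (Fin n) (Fin n) GG) - (D.SK N (RatFunc ℂ)).map (psi0 w₀)) *
        (D.RN N l).map (psi0 w₀))) (j : Fin M.r) :
    MReg (ρ • ((M.eta1 l j).map (psi0 w₀) + g • (M.eta2 l j).map (psi0 w₀))) := by
  have h5 := ord_eta (L := FF) (L' := GG) (psi0 w₀) (D.SK N (RatFunc ℂ)) (D.BK (RatFunc ℂ))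
    (D.RN N l) ((M.X j).map up) ((M.Y j).map up) (dO (LD.lamN N l)) (dI rD (LD.lamN N l)) g ρ
  have h7 := ordSub (ordMul (ordMul (ordMul hQR (ord_up w₀ (M.X j))) hρRN) (ord_B (D := D) w₀))
      (ordMul (ordMul (ord_up w₀ (M.Y j)) hρRN) (ord_B (D := D) w₀))
  intro a b
  have h8 := congrFun (congrFun h5 a) b
  have h9 := h7 a b
  exact h8 ▸ h9

private theorem ord_Thi (w₀ : ℂ) : MVGE 0 ((M.Thi.map up).map (psi0 w₀)) := fun a b =>
  ord_VGE w₀ ((VGE_up 0 (M.Thi a b)).2 (M.hThi a b))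

private theorem ord_inv (w₀ : ℂ) :
    (M.Th.map up).map (psi0 w₀) * (M.Thi.map up).map (psi0 w₀) = 1 := by
  have h1 := ord_map_map (L := LC) (L' := FF) (L'' := GG) up (psi0 w₀) M.Th M.Thi M.inv
  exact h1

private theorem ord_main (hadm : D.Adm N l 0) (w₀ : ℂ)
    (k : Fin M.r → Matrix (Fin n) (Fin n) FF) (hk : M.IsSol l k)
    (g ρ : GG) (hg1 : VGE 1 g) (hgR : Reg g) (hρ : dO ρ + g * dI ddt ρ = 0)
    (hρRN : MReg (ρ • (D.RN N l).map (psi0 w₀)))
    (hQR : MReg (((psi0 w₀ (dO (LD.lamN N l)) + g * psi0 w₀ (dI rD (LD.lamN N l))) •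
        (1 : Matrix (Fin n) (Fin n) GG) - (D.SK N (RatFunc ℂ)).map (psi0 w₀)) *
        (D.RN N l).map (psi0 w₀))) (j : Fin M.r) :
    MReg (ρ • (k j).map (psi0 w₀)) := by
  obtain ⟨G, hG, h1, h2⟩ := hadm
  rw [Nat.cast_zero, neg_zero] at h1 h2
  have hP1 : VGE 1 (psi0 w₀ (mo (M.p : ℤ))) := by
    rw [psi0_mo]
    exact (VGE_mo _).mono (by exact_mod_cast M.hp)
  have hPR : Reg (psi0 w₀ (mo (M.p : ℤ))) := by
    rw [psi0_mo]
    exact Reg_mo _
  exact ord_reg (Der.ad dO (Der.sm g (dI ddt))) (ord_hd g hg1) (ord_hdR g hgR)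
    ((D.A1 N l).map (psi0 w₀) + g • (D.A2 N l).map (psi0 w₀)) (G.map (psi0 w₀))
    (isUnit_det_map (L := FF) (L' := GG) (psi0 w₀) G hG) (ord_lat l w₀ g hg1 G hG h1 h2)
    (ord_AR l w₀ g hQR) (psi0 w₀ (mo (M.p : ℤ))) hP1 hPR
    ((M.Th.map up).map (psi0 w₀)) ((M.Thi.map up).map (psi0 w₀)) (M.ord_Thi w₀) (ord_up w₀ _)
    (M.ord_inv w₀) (fun j => ρ • ((M.eta1 l j).map (psi0 w₀) + g • (M.eta2 l j).map (psi0 w₀)))
    (fun j => ρ • (k j).map (psi0 w₀)) (M.ord_eR l w₀ g ρ hρRN hQR)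
    (M.ord_sys l w₀ k hk g ρ hρ) j

theorem ord_solution (hadm : D.Adm N l 0) (w₀ : ℂ) (hbr : (D.br (w₀ :: l)).card ≤ 1)
    (k : Fin M.r → Matrix (Fin n) (Fin n) FF) (hk : M.IsSol l k) (j : Fin M.r) :
    MReg (psi0 w₀ (D.fl N l) • (k j).map (psi0 w₀)) := by
  obtain ⟨g, ρ, hg1, hgR, hρ0, hρR, hρ, hρRN, hQR, h, hh, hfl⟩ := D.ordinary_point N l w₀ hbr
  rw [hfl]
  exact ordSmul hh (M.ord_main l hadm w₀ k hk g ρ hg1 hgR hρ hρRN hQR j)

end Pool.Agent.Helper84.CV.MD
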