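import Pool.Agent.Helper84.CV.Ball
import Pool.Agent.Helper84.CV.OrdSol
import Pool.Agent.Helper84.CV.NodeSol
import Pool.Agent.Helper84.CV.InfSol

/-!
# CV-PolInd: the solutions on the root disc are rational in `λ`

Plan. `pol_all`: `tree_induction` for `Q l` = `∀ k, IsSol l k → ∀ j a b, PolC (fl l * k j a b)`. By `PolC_of_regAt` show that
the coefficients are regular at every `w₀`. If `card (br (w₀ :: l)) ≤ 1`: `ord_solution`, `psi0_coeff`, `regAt_of_jat`. If
`≥ 2`: `ball_solution` gives `k'` on the child, `PolC (fl (w₀ :: l) * k' j a b)`; `fl_node` gives `h`; by `Rel.mul` and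
`node_solution`, `psiX (fl l * k)` is related to `psiY (fl (w₀ :: l) * h * k')`, and `fl (w₀ :: l) * h * k'` is `PolC`
(`PolC.mul`); `node_regAt`.
`root_form`: `fl [] * k` has polynomial coefficients `p_i`, and at infinity (`jinf 1`, `w = 1/t`): `psiInf (fl []) =
∏ (1/t - r_i)` is `t^(-n)` times a regular series, and `k` has coefficients with `VGE 1` (`inf_solution`), so
`VGE (1 - n) (jinf 1 p_i)`: `degree_of_jinf`, `p_i.natDegree ≤ n - 1` (`n ≥ 1` because `a : Fin n`). Put `H c a b` = the
Laurent series with the coefficients `p_i.coeff c` (support inside the support of `fl [] * k j a b`).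
-/

set_option autoImplicit false

open Matrix

namespace Pool.Agent.Helper84.CV.MD

variable {n : ℕ} {D : LD n} {N : ℕ} [NeZero N] {e : Fin n → ℂ} (M : MD D N e)

private theorem polInd_regV_mul {x y : GG} {a b : ℤ} (h : ∀ j, VGE a (x.coeff j))
    (h' : ∀ j, VGE b (y.coeff j)) : ∀ j, VGE (a + b) ((x * y).coeff j) := by
  intro j
  obtain ⟨m1, h1⟩ := exists_VGE x
  obtain ⟨m2, h2⟩ := exists_VGE y
  rw [coeff_mul_Icc h1 h2]
  exact VGE.sum _ _ fun i _ => (h i).mul (h' (j - i))

private theorem polInd_regV_prod {α : Type} (s : Finset α) (f : α → GG)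
    (h : ∀ i ∈ s, ∀ j, VGE (-1) ((f i).coeff j)) :
    ∀ j, VGE (-(s.card : ℤ)) ((∏ i ∈ s, f i).coeff j) := by
  classical
  induction s using Finset.induction_on with
  | empty =>
    rw [Finset.prod_empty, Finset.card_empty]
    intro j
    have h1 := Reg_one (k := ℂ) j
    simpa using h1
  | insert x s hx ih =>
    rw [Finset.prod_insert hx, Finset.card_insert_of_notMem hx]
    intro j
    have h1 := polInd_regV_mul (h x (Finset.mem_insert_self _ _))
      (ih fun i hi => h i (Finset.mem_insert_of_mem hi)) j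
    refine h1.mono ?_
    push_cast
    omega

private theorem polInd_C (c : LC) {a : ℤ} (hc : VGE a c) (j : ℤ) :
    VGE a ((HahnSeries.C c : GG).coeff j) := by
  have h1 := coeff_C_mul c (1 : GG) j
  rw [mul_one] at h1
  rw [h1]
  have h2 := hc.mul (Reg_one (k := ℂ) j)
  rwa [add_zero] at h2

private theorem polInd_fl (D : LD n) (N : ℕ) [NeZero N] :
    D.fl N [] = ∏ i, (LD.lamN N [] - ram N (inc (D.r i))) := by
  unfold LD.fl
  rw [LD.br_nil, LD.lamN_nil]
  refine Finset.prod_congr rfl fun i _ => ?_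
  have h1 : D.pos [] i = D.r i := by
    ext m
    unfold LD.pos
    rw [PowerSeries.coeff_mk]
    simp [cen]
  rw [h1]

theorem pol_all (hadm : ∀ l, D.Adm N l 0) (l : List ℂ)
    (k : Fin M.r → Matrix (Fin n) (Fin n) FF) (hk : M.IsSol l k) (j : Fin M.r) (a b : Fin n) :
    PolC (D.fl N l * k j a b) := by
  have key : ∀ k : Fin M.r → Matrix (Fin n) (Fin n) FF, M.IsSol l k → ∀ j a b,
      PolC (D.fl N l * k j a b) := by
    refine LD.tree_induction D l (fun l => ∀ k : Fin M.r → Matrix (Fin n) (Fin n) FF,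
      M.IsSol l k → ∀ j a b, PolC (D.fl N l * k j a b)) ?_
    intro l ih k hk j a b
    refine PolC_of_regAt fun w₀ i => ?_
    rcases Nat.lt_or_ge 1 (D.br (w₀ :: l)).card with hbr | hbr
    · obtain ⟨k', hk'⟩ := M.ball_solution (w₀ :: l) (hadm _)
      have h1 := ih w₀ hbr k' hk' j a b
      obtain ⟨h, hh, hrel⟩ := D.fl_node N l w₀
      have h2 := M.node_solution l w₀ (hadm l) (hadm (w₀ :: l)) k k' hk hk' j a b
      rw [Matrix.map_apply, Matrix.map_apply] at h2
      have h3 := hrel.mul h2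
      rw [← map_mul, ← map_mul] at h3
      refine node_regAt w₀ N _ _ h3 ?_ i
      have h4 : D.fl N (w₀ :: l) * h * k' j a b = D.fl N (w₀ :: l) * k' j a b * h := by ring
      rw [h4]
      exact h1.mul hh
    · have h1 := M.ord_solution l (hadm l) w₀ hbr k hk j a b i
      rw [Matrix.smul_apply, Matrix.map_apply, smul_eq_mul, ← map_mul, psi0_coeff] at h1
      exact regAt_of_jat w₀ 1 _ h1
  exact key k hk j a b

private theorem polInd_degree (hadm : ∀ l, D.Adm N l 0) (k : Fin M.r → Matrix (Fin n) (Fin n) FF)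
    (hk : M.IsSol [] k) (j : Fin M.r) (a b : Fin n) (i : ℤ) :
    ∃ p : Polynomial ℂ, (D.fl N [] * k j a b).coeff i = algebraMap _ _ p ∧ p.natDegree < n := by
  obtain ⟨p, hp⟩ := M.pol_all hadm [] k hk j a b i
  refine ⟨p, hp, ?_⟩
  have hn : 0 < n := Fin.pos a
  have h1 : ∀ i, VGE (-((Finset.univ : Finset (Fin n)).card : ℤ))
      ((psiInf (D.fl N [])).coeff i) := by
    rw [polInd_fl, map_prod]
    refine polInd_regV_prod _ _ fun i _ => ?_
    intro m
    rw [map_sub, LD.lamN_nil, psiInf_inc, HahnSeries.coeff_sub]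
    refine VGE.sub ?_ ((Reg_inc N (D.r i) m).mono (by norm_num))
    have h2 : psiInf (HahnSeries.C (RatFunc.X : RatFunc ℂ)) = HahnSeries.C (mo (-1) : LC) := by
      rw [psiInf, tw_C, jinf_X]
      norm_num
    rw [h2]
    exact polInd_C _ (VGE_mo (-1)) m
  have h2 : ∀ i, VGE 1 ((psiInf (k j a b)).coeff i) := fun i => by
    rw [psiInf_coeff]
    exact M.inf_solution k hk j a b i
  have h3 := polInd_regV_mul h1 h2 i
  rw [← map_mul, psiInf_coeff, hp, Finset.card_univ, Fintype.card_fin] at h3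
  have h4 := degree_of_jinf 1 p (n - 1) (h3.mono (by push_cast; omega))
  omega

theorem root_form (hadm : ∀ l, D.Adm N l 0) (k : Fin M.r → Matrix (Fin n) (Fin n) FF)
    (hk : M.IsSol [] k) (j : Fin M.r) :
    ∃ H : Fin n → Matrix (Fin n) (Fin n) LC,
      (∏ i, (LD.lamN N [] - ram N (inc (D.r i)))) • k j =
        ∑ c : Fin n, (LD.lamN N []) ^ (c : ℕ) • (H c).map up := by
  choose p hp hd using fun (a b : Fin n) (i : ℤ) => M.polInd_degree hadm k hk j a b i
  have hsupp : ∀ (c : Fin n) (a b : Fin n),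
      (Function.support fun i : ℤ => (p a b i).coeff c).IsPWO := by
    intro c a b
    refine (D.fl N [] * k j a b).isPWO_support.mono ?_
    intro i hi h0
    apply hi
    have h1 : (algebraMap (Polynomial ℂ) (RatFunc ℂ)) (p a b i) = 0 := by
      rw [← hp]
      exact h0
    have h2 : p a b i = 0 :=
      (map_eq_zero_iff _ (IsFractionRing.injective (Polynomial ℂ) (RatFunc ℂ))).1 h1
    show (p a b i).coeff c = 0
    rw [h2, Polynomial.coeff_zero]
  refine ⟨fun c => Matrix.of fun a b => ⟨fun i => (p a b i).coeff c, hsupp c a b⟩, ?_⟩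
  ext a b : 1
  rw [← polInd_fl, Matrix.smul_apply, smul_eq_mul, Matrix.sum_apply]
  refine HahnSeries.ext (funext fun i => ?_)
  rw [hp, HahnSeries.coeff_sum]
  have h1 : ∀ c : Fin n, ((LD.lamN N [] ^ (c : ℕ) • (Matrix.of fun a b =>
      (⟨fun i => (p a b i).coeff c, hsupp c a b⟩ : LC)).map up) a b).coeff i =
      algebraMap (Polynomial ℂ) (RatFunc ℂ)
        (Polynomial.C ((p a b i).coeff c) * Polynomial.X ^ (c : ℕ)) := by
    intro c
    rw [Matrix.smul_apply, Matrix.map_apply, Matrix.of_apply, smul_eq_mul, LD.lamN_nil, ← map_pow,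
      coeff_C_mul, up_coeff, map_mul, map_pow, RatFunc.algebraMap_X, mul_comm]
    rfl
  rw [Finset.sum_congr rfl fun c _ => h1 c, ← map_sum]
  congr 1
  rw [Fin.sum_univ_eq_sum_range (fun c => Polynomial.C ((p a b i).coeff c) * Polynomial.X ^ c) n]
  conv_lhs => rw [Polynomial.as_sum_range' (p a b i) n (hd a b i)]
  exact Finset.sum_congr rfl fun c _ => (Polynomial.C_mul_X_pow_eq_monomial).symm

end Pool.Agent.Helper84.CV.MD
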