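import Pool.Agent.Helper84.CV.LDB
import Pool.Agent.Helper84.CV.RelB

/-!
# CV-PsiB: the expansion maps `psi0`, `psiX`, `psiY`, `psiInf` and the derivations

Plan. All four are `tw φ θ` with `φ = jat w₀ 1`, `jat w₀ N`, `jinf N`, `jinf 1`, and `θ = 1` or `θ = t`. `dO_psi…`:
`dO_tw`. For the inner derivation use `dI_tw` with `d = rD`: hypothesis `d' (φ g) = κ φ (rD g)` from `der_ratFunc`
(`d' (φ C) = 0`; `d' (φ X) = κ`): for `ddt` and `jat w₀ 1`: `κ = 1` (`ddt = t⁻¹ · dO`); for `dO` and `jat w₀ N`: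
`κ = N t^N` (`dO_mo`, `dO_C`); for `dO` and `jinf N`: `κ = -N t^(-N)`. And `θ⁻¹ d' θ` is `0` for `θ = 1` and `1` for
`θ = t`, `d' = dO`. Coefficients: `tw_coeff` and `θ^j = t^j` (`mo j`). `psi…_inc`: the images of the series with
constant coefficients: compare coefficients (`ram_coeff_mul`, `ram_coeff_of_not_dvd`, `inc_coeff_nat`, `inc_coeff_neg`);
`jat` and `jinf` of a constant is `HahnSeries.C` of it (`jat_poly`, `jinf_poly`, `evL`).
-/

set_option autoImplicit false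

open Matrix

namespace Pool.Agent.Helper84.CV

section aux

private theorem psib_alg (a : ℂ) : algebraMap ℂ LC a = HahnSeries.C a := by
  exact LaurentSeries.algebraMap_apply ℂ a

private theorem psib_const (a : ℂ) : algebraMap ℂ (RatFunc ℂ) a =
    algebraMap (Polynomial ℂ) (RatFunc ℂ) (Polynomial.C a) :=
  IsScalarTower.algebraMap_apply ℂ (Polynomial ℂ) (RatFunc ℂ) a

private theorem psib_evL_C (ω : LaurentSeries ℂ) (a : ℂ) :
    evL ω (Polynomial.C a) = HahnSeries.C a := by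
  rw [evL, Polynomial.coe_eval₂RingHom, Polynomial.eval₂_C]

private theorem psib_evL_X (ω : LaurentSeries ℂ) : evL ω Polynomial.X = ω := by
  rw [evL, Polynomial.coe_eval₂RingHom, Polynomial.eval₂_X]

private theorem psib_zpow (j : ℤ) : (mo 1 : LC) ^ j = mo j := by
  obtain ⟨n, rfl | rfl⟩ := j.eq_nat_or_neg
  · rw [zpow_natCast, mo_pow, mul_one]
  · rw [_root_.zpow_neg, zpow_natCast, mo_pow, mul_one, mo_inv]

private theorem psib_tU (j : ℤ) : ((tU ^ j : LCˣ) : LC) = mo j := by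
  rw [Units.val_zpow_eq_zpow_val]
  exact psib_zpow j

private theorem psib_one (j : ℤ) : (((1 : LCˣ) ^ j : LCˣ) : LC) = 1 := by
  rw [_root_.one_zpow, Units.val_one]

private theorem psib_unit : ((tU⁻¹ : LCˣ) : LC) * dO ((tU : LCˣ) : LC) = 1 := by
  have h1 : ((tU : LCˣ) : LC) = mo 1 := rfl
  have h2 : ((tU⁻¹ : LCˣ) : LC) = mo (-1) := rfl
  rw [h1, h2, dO_mo, Int.cast_one, one_mul, mo_mul, neg_add_cancel, mo_zero]

private theorem psib_ddt_C (a : ℂ) : ddt (HahnSeries.C a : LC) = 0 := by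
  rw [ddt, Der.sm_apply, dO_C, mul_zero]

private theorem psib_ddt_mo : ddt (mo 1 : LC) = 1 := by
  rw [ddt, Der.sm_apply, dO_mo, Int.cast_one, one_mul, mo_mul, neg_add_cancel, mo_zero]

private theorem psib_mo_C (i j : ℤ) (c : ℂ) :
    (mo j * HahnSeries.C c : LC).coeff i = if i = j then c else 0 := by
  rw [mul_comm, coeff_C_mul, mo_coeff]
  split_ifs
  · rw [mul_one]
  · rw [mul_zero]

/-- the coefficients of `z(τ^N)` -/
private noncomputable def psib_e (N : ℕ) [NeZero N] (z : PowerSeries ℂ) (j : ℤ) : ℂ :=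
  (ram N (inc z) : LC).coeff j

private theorem psib_ram_inc {K : Type} [Field K] [Algebra ℂ K] (N : ℕ) [NeZero N]
    (z : PowerSeries ℂ) (j : ℤ) :
    (ram N (inc z) : LaurentSeries K).coeff j = algebraMap ℂ K (psib_e N z j) := by
  unfold psib_e
  by_cases h : (N : ℤ) ∣ j
  · obtain ⟨i, rfl⟩ := h
    rw [ram_coeff_mul, ram_coeff_mul]
    rcases lt_or_ge i 0 with hi | hi
    · rw [inc_coeff_neg z i hi, inc_coeff_neg z i hi, map_zero]
    · obtain ⟨m, rfl⟩ := Int.eq_ofNat_of_zero_le hi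
      rw [inc_coeff_nat, inc_coeff_nat]
      rfl
  · rw [ram_coeff_of_not_dvd _ _ _ h, ram_coeff_of_not_dvd _ _ _ h, map_zero]

private theorem psib_up (z : LC) (j : ℤ) :
    (up z).coeff j = algebraMap ℂ (RatFunc ℂ) (z.coeff j) := by
  have h := tw_coeff (algebraMap ℂ (RatFunc ℂ)) 1 z j
  rw [_root_.one_zpow, Units.val_one, mul_one] at h
  exact h

end aux

theorem jat_const (w₀ : ℂ) (N : ℕ) [NeZero N] (a : ℂ) :
    jat w₀ N (algebraMap ℂ (RatFunc ℂ) a) = HahnSeries.C a := by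
  rw [psib_const, jat_poly, psib_evL_C]

theorem jinf_const (N : ℕ) [NeZero N] (a : ℂ) :
    jinf N (algebraMap ℂ (RatFunc ℂ) a) = HahnSeries.C a := by
  rw [psib_const, jinf_poly, psib_evL_C]

theorem jat_X (w₀ : ℂ) (N : ℕ) [NeZero N] :
    jat w₀ N (RatFunc.X : RatFunc ℂ) = HahnSeries.C w₀ + mo (N : ℤ) := by
  rw [← RatFunc.algebraMap_X, jat_poly, psib_evL_X]

theorem jinf_X (N : ℕ) [NeZero N] : jinf N (RatFunc.X : RatFunc ℂ) = mo (-(N : ℤ)) := by
  rw [← RatFunc.algebraMap_X, jinf_poly, psib_evL_X]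

/-- constants of `ℂ((t))` for the derivations `dO`, `ddt` -/
theorem dO_algebraMap (a : ℂ) : dO (algebraMap ℂ LC a) = 0 := by
  rw [psib_alg, dO_C]

theorem ddt_algebraMap (a : ℂ) : ddt (algebraMap ℂ LC a) = 0 := by
  rw [ddt, Der.sm_apply, dO_algebraMap, mul_zero]

theorem psi0_coeff (w₀ : ℂ) (z : FF) (j : ℤ) :
    (psi0 w₀ z).coeff j = jat w₀ 1 (z.coeff j) := by
  rw [psi0, tw_coeff, psib_one, mul_one]

theorem psiX_coeff (w₀ : ℂ) (N : ℕ) [NeZero N] (z : FF) (j : ℤ) :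
    (psiX w₀ N z).coeff j = mo j * jat w₀ N (z.coeff j) := by
  rw [psiX, tw_coeff, psib_tU, mul_comm]

theorem psiY_coeff (N : ℕ) [NeZero N] (z : FF) (j : ℤ) :
    (psiY N z).coeff j = mo j * jinf N (z.coeff j) := by
  rw [psiY, tw_coeff, psib_tU, mul_comm]

theorem psiInf_coeff (z : FF) (j : ℤ) :
    (psiInf z).coeff j = jinf 1 (z.coeff j) := by
  rw [psiInf, tw_coeff, psib_one, mul_one]

theorem dO_psi0 (w₀ : ℂ) (z : FF) : dO (psi0 w₀ z) = psi0 w₀ (dO z) :=
  dO_tw _ _ z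

theorem dI_psi0 (w₀ : ℂ) (z : FF) : dI ddt (psi0 w₀ z) = psi0 w₀ (dI rD z) := by
  have h : ∀ x, ddt (jat w₀ 1 x) = 1 * jat w₀ 1 (rD x) := by
    intro x
    rw [der_ratFunc ddt (jat w₀ 1) (fun a => by
      rw [← psib_const, jat_const, psib_ddt_C]) x, RatFunc.algebraMap_X, jat_X, map_add,
      psib_ddt_C, Nat.cast_one, psib_ddt_mo, zero_add, mul_one, one_mul, rD_apply]
  have h2 := dI_tw (jat w₀ 1) 1 rD ddt 1 h z
  rw [inv_one, Units.val_one, one_mul, Der.map_one', map_one, map_zero, one_mul, zero_mul,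
    add_zero] at h2
  exact h2

theorem dO_psiX (w₀ : ℂ) (N : ℕ) [NeZero N] (z : FF) :
    dO (psiX w₀ N z) = psiX w₀ N (dO z) :=
  dO_tw _ _ z

theorem dI_psiX (w₀ : ℂ) (N : ℕ) [NeZero N] (z : FF) :
    dI dO (psiX w₀ N z) =
      HahnSeries.C ((N : LC) * mo (N : ℤ)) * psiX w₀ N (dI rD z) + psiX w₀ N (dO z) := by
  have h : ∀ x, dO (jat w₀ N x) = ((N : LC) * mo (N : ℤ)) * jat w₀ N (rD x) := by
    intro x
    rw [der_ratFunc dO (jat w₀ N) (fun a => by
      rw [← psib_const, jat_const, dO_C]) x, RatFunc.algebraMap_X, jat_X, map_add,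
      dO_C, dO_mo, zero_add, Int.cast_natCast, rD_apply, mul_comm]
  have h2 := dI_tw (jat w₀ N) tU rD dO _ h z
  rw [psib_unit, map_one, one_mul] at h2
  exact h2

theorem dO_psiY (N : ℕ) [NeZero N] (z : FF) : dO (psiY N z) = psiY N (dO z) :=
  dO_tw _ _ z

theorem dI_psiY (N : ℕ) [NeZero N] (z : FF) :
    dI dO (psiY N z) =
      HahnSeries.C (-((N : LC) * mo (-(N : ℤ)))) * psiY N (dI rD z) + psiY N (dO z) := by
  have h : ∀ x, dO (jinf N x) = (-((N : LC) * mo (-(N : ℤ)))) * jinf N (rD x) := by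
    intro x
    rw [der_ratFunc dO (jinf N) (fun a => by
      rw [← psib_const, jinf_const, dO_C]) x, RatFunc.algebraMap_X, jinf_X, dO_mo,
      Int.cast_neg, Int.cast_natCast, rD_apply]
    ring
  have h2 := dI_tw (jinf N) tU rD dO _ h z
  rw [psib_unit, map_one, one_mul] at h2
  exact h2

theorem dO_psiInf (z : FF) : dO (psiInf z) = psiInf (dO z) :=
  dO_tw _ _ z

theorem psi0_inc (w₀ : ℂ) (N : ℕ) [NeZero N] (z : PowerSeries ℂ) :
    psi0 w₀ (ram N (inc z)) = ram N (inc z) := by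
  refine HahnSeries.ext (funext fun j => ?_)
  rw [psi0_coeff, psib_ram_inc, psib_ram_inc, jat_const, psib_alg]

theorem psiInf_inc (N : ℕ) [NeZero N] (z : PowerSeries ℂ) :
    psiInf (ram N (inc z)) = ram N (inc z) := by
  refine HahnSeries.ext (funext fun j => ?_)
  rw [psiInf_coeff, psib_ram_inc, psib_ram_inc, jinf_const, psib_alg]

/-- series in `s = τ^N` with constant coefficients at a closed point are regular -/
theorem Reg_inc (N : ℕ) [NeZero N] (z : PowerSeries ℂ) : Reg (ram N (inc z) : GG) := by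
  intro j
  rw [psib_ram_inc, psib_alg]
  exact VGE_C (K := ℂ) _

/-- series in `s = τ^N` with constant coefficients on the two sides of a node -/
theorem Rel_inc (w₀ : ℂ) (N : ℕ) [NeZero N] (z : PowerSeries ℂ) :
    Rel (psiX w₀ N (ram N (inc z))) (psiY N (ram N (inc z))) := by
  intro i j
  rw [psiX_coeff, psiY_coeff, psib_ram_inc, psib_ram_inc, jat_const, jinf_const, psib_mo_C,
    psib_mo_C]
  by_cases h : i = j
  · rw [if_pos h, if_pos h.symm, h]
  · rw [if_neg h, if_neg (Ne.symm h)]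

theorem psi0_mo (w₀ : ℂ) (m : ℤ) : psi0 w₀ (mo m) = mo m := by
  rw [psi0, tw_mo, psib_one, map_one, one_mul]

theorem psiX_mo (w₀ : ℂ) (N : ℕ) [NeZero N] (m : ℤ) :
    psiX w₀ N (mo m) = HahnSeries.single m (mo m) := by
  rw [psiX, tw_mo, psib_tU, ← single_eq]

theorem psiY_mo (N : ℕ) [NeZero N] (m : ℤ) : psiY N (mo m) = HahnSeries.single m (mo m) := by
  rw [psiY, tw_mo, psib_tU, ← single_eq]

/-- `ℂ((τ))` at a closed point: the coefficients are constants -/
theorem psi0_up (w₀ : ℂ) (z : LC) (j : ℤ) :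
    (psi0 w₀ (up z)).coeff j = HahnSeries.C (z.coeff j) := by
  rw [psi0_coeff, psib_up, jat_const]

theorem psiInf_up (z : LC) (j : ℤ) : (psiInf (up z)).coeff j = HahnSeries.C (z.coeff j) := by
  rw [psiInf_coeff, psib_up, jinf_const]

theorem Reg_psi0_up (w₀ : ℂ) (z : LC) : Reg (psi0 w₀ (up z)) := by
  intro j
  rw [psi0_up]
  exact VGE_C _

theorem Reg_psiInf_up (z : LC) : Reg (psiInf (up z)) := by
  intro j
  rw [psiInf_up]
  exact VGE_C _

/-- `ℂ((τ))` at a node -/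
theorem Rel_up (w₀ : ℂ) (N : ℕ) [NeZero N] (z : LC) :
    Rel (psiX w₀ N (up z)) (psiY N (up z)) := by
  intro i j
  rw [psiX_coeff, psiY_coeff, psib_up, psib_up, jat_const, jinf_const, psib_mo_C, psib_mo_C]
  by_cases h : i = j
  · rw [if_pos h, if_pos h.symm, h]
  · rw [if_neg h, if_neg (Ne.symm h)]

end Pool.Agent.Helper84.CV
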