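import Pool.Agent.Helper84.CV.Conn
import Pool.Agent.Helper38.DM.NP

/-!
# CV-Puis: line data from a formal line

Plan. `u = n!^n`, `E = PowerSeries.expand u`. `newton_puiseux` for `H = U.charpoly` (monic of degree `n`) gives `r` with
`(U.charpoly).map E = ∏ (X - C (r i))`; `Matrix.charpoly_map`. `r` is injective: apply `E` to the identity `hsep` and
evaluate at `r i = r j`, `i ≠ j`: `X - C (r i)` divides the characteristic polynomial twice, so it divides the derivative,
and `E d = 0`; `E` is injective (coefficients of `expand`), contradiction. `ode`: the coefficient of index `k` of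
`E f` is `0` if `u ∤ k` and `coeff (k/u) f` otherwise (`PowerSeries.coeff_expand`?), so
`k coeff_k (E U_ij) = coeff_k (u X^u E (U_ij'))`. `comm`: `Matrix.map_mul` for `E`.
`LD.shift`: adding a constant to `B` does not change the commutator.
-/

set_option autoImplicit false

open Matrix

namespace Pool.Agent.Helper84.CV

private theorem puis_ode (u : ℕ) (hu : u ≠ 0) (f : PowerSeries ℂ) (k : ℕ) :
    (k : ℂ) * PowerSeries.coeff k (PowerSeries.expand u hu f) =
      PowerSeries.coeff k ((u : PowerSeries ℂ) * PowerSeries.X ^ u *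
        PowerSeries.expand u hu (PowerSeries.derivative ℂ f)) := by
  have hup : 0 < u := Nat.pos_of_ne_zero hu
  have h1 : (u : PowerSeries ℂ) * PowerSeries.X ^ u *
      PowerSeries.expand u hu (PowerSeries.derivative ℂ f) =
      PowerSeries.C (u : ℂ) * (PowerSeries.X ^ u *
        PowerSeries.expand u hu (PowerSeries.derivative ℂ f)) := by
    rw [map_natCast, mul_assoc]
  rw [h1, PowerSeries.coeff_C_mul, PowerSeries.coeff_X_pow_mul', PowerSeries.coeff_expand]
  by_cases hk : u ≤ k
  · rw [if_pos hk, PowerSeries.coeff_expand]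
    by_cases hd : u ∣ k
    · obtain ⟨q, rfl⟩ := hd
      obtain ⟨m, rfl⟩ : ∃ m, q = m + 1 := by
        refine ⟨q - 1, ?_⟩
        rcases Nat.eq_zero_or_pos q with h0 | h0
        · subst h0
          omega
        · omega
      have e1 : u * (m + 1) - u = u * m := by
        rw [Nat.mul_succ, Nat.add_sub_cancel]
      rw [if_pos (Dvd.intro _ rfl), e1, if_pos (Dvd.intro _ rfl), Nat.mul_div_cancel_left _ hup,
        Nat.mul_div_cancel_left _ hup, PowerSeries.coeff_derivative]
      push_cast
      ring
    · have hd' : ¬ u ∣ k - u := by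
        intro h
        apply hd
        have := Nat.dvd_add h (dvd_refl u)
        rwa [Nat.sub_add_cancel hk] at this
      rw [if_neg hd, if_neg hd', mul_zero, mul_zero]
  · rw [if_neg hk, mul_zero]
    rcases Nat.eq_zero_or_pos k with h0 | h0
    · subst h0
      simp
    · have hd : ¬ u ∣ k := fun h => hk (Nat.le_of_dvd h0 h)
      rw [if_neg hd, mul_zero]

private theorem puis_inj (u : ℕ) (hu : u ≠ 0) (f : PowerSeries ℂ)
    (h : PowerSeries.expand u hu f = 0) : f = 0 := by
  ext m
  have h1 := PowerSeries.coeff_expand_mul u hu f m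
  rw [h, map_zero] at h1
  rw [map_zero]
  exact h1.symm

theorem exists_LD {n : ℕ} (U C : Matrix (Fin n) (Fin n) (PowerSeries ℂ))
    (B : Matrix (Fin n) (Fin n) ℂ)
    (hode : ∀ i j, PowerSeries.derivative ℂ (U i j) = (C + (C * B.map PowerSeries.C -
      B.map PowerSeries.C * C)) i j)
    (hcomm : U * C = C * U)
    (hsep : ∃ (d : PowerSeries ℂ) (a b : Polynomial (PowerSeries ℂ)), d ≠ 0 ∧
      a * U.charpoly + b * Polynomial.derivative U.charpoly = Polynomial.C d) :
    ∃ (u : ℕ) (hu : u ≠ 0) (D : LD n), D.U = U.map (PowerSeries.expand u hu) ∧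
      D.S = C.map (fun z => (u : PowerSeries ℂ) * PowerSeries.X ^ u * PowerSeries.expand u hu z) ∧
      D.B = B := by
  obtain ⟨u, hu'⟩ : ∃ u : ℕ, u = n.factorial ^ n := ⟨_, rfl⟩
  have hu : u ≠ 0 := by
    rw [hu']
    exact pow_ne_zero _ (Nat.factorial_ne_zero n)
  have hnd : U.charpoly.natDegree = n := by
    rw [Matrix.charpoly_natDegree_eq_dim, Fintype.card_fin]
  obtain ⟨r, hr⟩ := Pool.Agent.Helper38.DM.newton_puiseux n U.charpoly U.charpoly_monic hnd u
    (by rw [hu']) hu
  obtain ⟨E, hE⟩ : ∃ E : PowerSeries ℂ →+* PowerSeries ℂ,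
    E = (PowerSeries.expand u hu : PowerSeries ℂ →ₐ[ℂ] PowerSeries ℂ).toRingHom := ⟨_, rfl⟩
  have hEa : ∀ z, E z = PowerSeries.expand u hu z := fun z => by rw [hE]; rfl
  have hEC : ∀ z : ℂ, E (PowerSeries.C z) = PowerSeries.C z := fun z => by
    rw [hEa, PowerSeries.expand_C]
  obtain ⟨w, hw⟩ : ∃ w : PowerSeries ℂ, w = (u : PowerSeries ℂ) * PowerSeries.X ^ u := ⟨_, rfl⟩
  rw [← hE] at hr
  have hUE : U.map (PowerSeries.expand u hu) = U.map E := by
    ext i j : 2
    rw [Matrix.map_apply, Matrix.map_apply, hEa]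
  have hCE : C.map (fun z => (u : PowerSeries ℂ) * PowerSeries.X ^ u *
      PowerSeries.expand u hu z) = w • C.map E := by
    ext i j : 2
    rw [Matrix.map_apply, Matrix.smul_apply, Matrix.map_apply, hEa, hw, smul_eq_mul]
  have hBE : (B.map (PowerSeries.C : ℂ →+* PowerSeries ℂ)).map E =
      B.map (PowerSeries.C : ℂ →+* PowerSeries ℂ) := by
    ext i j : 2
    rw [Matrix.map_apply, Matrix.map_apply, hEC]
  have hroots : (U.map E).charpoly = ∏ i, (Polynomial.X - Polynomial.C (r i)) := by
    rw [Matrix.charpoly_map, hr]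
  have hinj : Function.Injective r := by
    intro i j hij
    by_contra hne
    obtain ⟨d, a, b, hd, hab⟩ := hsep
    apply hd
    apply puis_inj u hu
    have h1 := congrArg (fun P => Polynomial.eval (r i) (Polynomial.map E P)) hab
    simp only [Polynomial.map_add, Polynomial.map_mul, Polynomial.map_C, Polynomial.eval_add,
      Polynomial.eval_mul, Polynomial.eval_C, ← Polynomial.derivative_map] at h1
    rw [hr] at h1
    have h2 : (∏ j, (Polynomial.X - Polynomial.C (r j))) = (Polynomial.X - Polynomial.C (r i)) *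
        ((Polynomial.X - Polynomial.C (r i)) * ∏ k ∈ (Finset.univ.erase i).erase j,
          (Polynomial.X - Polynomial.C (r k))) := by
      rw [← Finset.mul_prod_erase Finset.univ _ (Finset.mem_univ i),
        ← Finset.mul_prod_erase (Finset.univ.erase i) _
          (Finset.mem_erase.2 ⟨fun h => hne h.symm, Finset.mem_univ j⟩), ← hij]
    rw [h2] at h1
    simp only [Polynomial.derivative_mul, Polynomial.eval_add, Polynomial.eval_mul,
      Polynomial.eval_sub, Polynomial.eval_X, Polynomial.eval_C, sub_self, zero_mul, mul_zero,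
      add_zero] at h1
    rw [← hEa]
    exact h1.symm
  have hSB : w • C.map E + (w • C.map E * B.map (PowerSeries.C : ℂ →+* PowerSeries ℂ) -
      B.map (PowerSeries.C : ℂ →+* PowerSeries ℂ) * (w • C.map E)) =
      w • (C + (C * B.map (PowerSeries.C : ℂ →+* PowerSeries ℂ) -
        B.map (PowerSeries.C : ℂ →+* PowerSeries ℂ) * C)).map E := by
    have e1 : (C + (C * B.map (PowerSeries.C : ℂ →+* PowerSeries ℂ) -
        B.map (PowerSeries.C : ℂ →+* PowerSeries ℂ) * C)).map E = C.map E +
        (C.map E * B.map (PowerSeries.C : ℂ →+* PowerSeries ℂ) -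
          B.map (PowerSeries.C : ℂ →+* PowerSeries ℂ) * C.map E) := by
      rw [Matrix.map_add _ (map_add E), Matrix.map_sub _ (map_sub E), Matrix.map_mul,
        Matrix.map_mul, hBE]
    rw [e1, smul_add, smul_sub, smul_mul_assoc, mul_smul_comm]
  refine ⟨u, hu, ⟨U.map E, w • C.map E, B, r, ?_, ?_, hroots, hinj⟩, hUE.symm, hCE.symm, rfl⟩
  · rw [mul_smul_comm, smul_mul_assoc, ← Matrix.map_mul, ← Matrix.map_mul, hcomm]
  · intro i j k
    rw [hSB, Matrix.map_apply, Matrix.smul_apply, Matrix.map_apply, ← hode, hEa, hEa, smul_eq_mul,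
      hw]
    exact puis_ode u hu (U i j) k

/-- the same line data with `B + κ` -/
noncomputable def LD.shift {n : ℕ} (D : LD n) (κ : ℂ) : LD n where
  U := D.U
  S := D.S
  B := D.B + κ • (1 : Matrix (Fin n) (Fin n) ℂ)
  r := D.r
  comm := D.comm
  ode := by
    intro i j k
    rw [D.ode i j k]
    congr 1
    have h : (D.B + κ • (1 : Matrix (Fin n) (Fin n) ℂ)).map
        (PowerSeries.C : ℂ →+* PowerSeries ℂ) =
        D.B.map (PowerSeries.C : ℂ →+* PowerSeries ℂ) +
          (PowerSeries.C κ : PowerSeries ℂ) • (1 : Matrix (Fin n) (Fin n) (PowerSeries ℂ)) := by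
      ext a b : 1
      simp only [Matrix.map_apply, Matrix.add_apply, Matrix.smul_apply, map_add, smul_eq_mul,
        map_mul]
      congr 2
      by_cases hab : a = b
      · subst hab
        simp
      · simp [hab]
    rw [h, mul_add, add_mul, mul_smul_comm, smul_mul_assoc, mul_one, one_mul,
      add_sub_add_right_eq_sub]
  roots := D.roots
  inj := D.inj

end Pool.Agent.Helper84.CV
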