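import Pool.Agent.Helper84.CV.Defs

/-!
# CV: rational functions, their derivation and expansions
-/

set_option autoImplicit false

open HahnSeries

namespace Pool.Agent.Helper84.CV

/-- `d/dπ` on Laurent series -/
noncomputable def ddt {K : Type} [Field K] : Der (LaurentSeries K) :=
  Der.sm (mo (-1)) dO

namespace Der

variable {A : Type} [CommRing A]

theorem map_one' (d : Der A) : d 1 = 0 := by
  have h := d.leib 1 1
  rw [mul_one, mul_one, one_mul] at h
  have h2 : d 1 + 0 = d 1 + d 1 := by rw [add_zero]; exact h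
  exact (add_left_cancel h2).symm

theorem map_pow' (d : Der A) (a : A) (k : ℕ) : d (a ^ k) = k * a ^ (k - 1) * d a := by
  induction k with
  | zero => simp [d.map_one']
  | succ k ih =>
    rw [pow_succ, d.leib, ih]
    rcases Nat.eq_zero_or_pos k with rfl | hk
    · simp
    · obtain ⟨j, rfl⟩ : ∃ j, k = j + 1 := ⟨k - 1, by omega⟩
      simp only [Nat.add_sub_cancel]
      push_cast
      ring

theorem map_inv' {F : Type} [Field F] (d : Der F) (a : F) : d a⁻¹ = -(a⁻¹ ^ 2 * d a) := by
  by_cases ha : a = 0
  · subst ha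
    rw [_root_.inv_zero, map_zero]
    ring
  · have h := d.leib a a⁻¹
    rw [mul_inv_cancel₀ ha, d.map_one'] at h
    have h2 : a * d a⁻¹ = -(d a * a⁻¹) := by
      rw [eq_neg_iff_add_eq_zero, ← h]
    have h3 : d a⁻¹ = a⁻¹ * (a * d a⁻¹) := by rw [← mul_assoc, inv_mul_cancel₀ ha, one_mul]
    rw [h3, h2]
    ring

/-- the chain rule for polynomials -/
theorem map_poly (d : Der A) {k : Type} [Field k] (φ : Polynomial k →+* A)
    (hC : ∀ a, d (φ (Polynomial.C a)) = 0) (p : Polynomial k) :
    d (φ p) = φ (Polynomial.derivative p) * d (φ Polynomial.X) := by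
  induction p using Polynomial.induction_on' with
  | add p q hp hq => rw [map_add, map_add, hp, hq, map_add, map_add]; ring
  | monomial m a =>
    rw [← Polynomial.C_mul_X_pow_eq_monomial, map_mul, d.leib, hC, zero_mul, add_zero, map_pow,
      d.map_pow', Polynomial.derivative_C_mul_X_pow, map_mul, map_pow, Polynomial.C_mul, map_mul,
      show Polynomial.C (m : k) = (m : Polynomial k) from map_natCast Polynomial.C m, map_natCast]
    ring

end Der

/-- evaluation of polynomials at a Laurent series -/
noncomputable def evL (ω : LaurentSeries ℂ) : Polynomial ℂ →+* LaurentSeries ℂ :=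
  Polynomial.eval₂RingHom (HahnSeries.C : ℂ →+* LaurentSeries ℂ) ω

theorem evL_single_coeff (m : ℤ) (hm : m ≠ 0) (p : Polynomial ℂ) (i : ℕ) :
    (evL (mo m) p).coeff (m * i) = p.coeff i := by
  rw [mo, evL, Polynomial.coe_eval₂RingHom, Polynomial.eval₂_eq_sum_range, HahnSeries.coeff_sum]
  by_cases hi : i ∈ Finset.range (p.natDegree + 1)
  · rw [Finset.sum_eq_single_of_mem i hi]
    · rw [single_pow, one_pow, HahnSeries.C_apply, single_mul_single, zero_add, mul_one,
        nsmul_eq_mul, mul_comm, coeff_single_same]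
    · intro b _ hb
      rw [single_pow, one_pow, HahnSeries.C_apply, single_mul_single, zero_add, mul_one,
        coeff_single_of_ne]
      intro h
      apply hb
      rw [nsmul_eq_mul, mul_comm] at h
      exact_mod_cast (mul_right_cancel₀ hm h).symm
  · rw [Finset.mem_range, not_lt] at hi
    rw [Polynomial.coeff_eq_zero_of_natDegree_lt hi]
    refine Finset.sum_eq_zero fun b hb => ?_
    rw [single_pow, one_pow, HahnSeries.C_apply, single_mul_single, zero_add, mul_one,
      coeff_single_of_ne]
    intro h
    rw [nsmul_eq_mul, mul_comm] at h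
    have h2 : (i : ℤ) = b := mul_right_cancel₀ hm h
    rw [Finset.mem_range] at hb
    have h3 : i = b := by exact_mod_cast h2
    omega

theorem evL_single_injective (m : ℤ) (hm : m ≠ 0) : Function.Injective (evL (mo m)) := by
  rw [injective_iff_map_eq_zero]
  intro p hp
  ext i
  rw [← evL_single_coeff m hm p i, hp]
  simp

theorem evL_add_injective (w₀ : ℂ) (m : ℤ) (hm : m ≠ 0) :
    Function.Injective (evL (HahnSeries.C w₀ + mo m)) := by
  rw [injective_iff_map_eq_zero]
  intro p hp
  have h1 : evL (mo m) (p.comp (Polynomial.X + Polynomial.C w₀)) = 0 := by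
    rw [← hp, evL, evL, Polynomial.coe_eval₂RingHom, Polynomial.coe_eval₂RingHom,
      Polynomial.eval₂_comp]
    simp [add_comm]
  have h2 := (injective_iff_map_eq_zero _).1 (evL_single_injective m hm) _ h1
  rw [Polynomial.comp_eq_zero_iff] at h2
  rcases h2 with h2 | ⟨_, h2⟩
  · exact h2
  · exfalso
    have h3 := congrArg Polynomial.natDegree h2
    rw [Polynomial.natDegree_X_add_C, Polynomial.natDegree_C] at h3
    omega

/-- expansion of a rational function of `w` at `w = w₀ + t^N` -/
noncomputable def jat (w₀ : ℂ) (N : ℕ) [NeZero N] : RatFunc ℂ →+* LaurentSeries ℂ :=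
  IsFractionRing.lift (A := Polynomial ℂ) (g := evL (HahnSeries.C w₀ + mo (N : ℤ)))
    (evL_add_injective w₀ N (Int.natCast_ne_zero.2 (NeZero.ne N)))

/-- expansion of a rational function of `w` at `w = t^(-N)` -/
noncomputable def jinf (N : ℕ) [NeZero N] : RatFunc ℂ →+* LaurentSeries ℂ :=
  IsFractionRing.lift (A := Polynomial ℂ) (g := evL (mo (-(N : ℤ))))
    (evL_single_injective _ (neg_ne_zero.2 (Int.natCast_ne_zero.2 (NeZero.ne N))))

theorem jat_poly (w₀ : ℂ) (N : ℕ) [NeZero N] (p : Polynomial ℂ) :
    jat w₀ N (algebraMap (Polynomial ℂ) (RatFunc ℂ) p) = evL (HahnSeries.C w₀ + mo (N : ℤ)) p :=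
  IsFractionRing.lift_algebraMap _ _

theorem jinf_poly (N : ℕ) [NeZero N] (p : Polynomial ℂ) :
    jinf N (algebraMap (Polynomial ℂ) (RatFunc ℂ) p) = evL (mo (-(N : ℤ))) p :=
  IsFractionRing.lift_algebraMap _ _

/-- the derivative of a rational function, as a function -/
noncomputable def rDf (g : RatFunc ℂ) : RatFunc ℂ :=
  (algebraMap (Polynomial ℂ) (RatFunc ℂ) (Polynomial.derivative g.num * g.denom -
    g.num * Polynomial.derivative g.denom)) / (algebraMap (Polynomial ℂ) (RatFunc ℂ) g.denom) ^ 2

/-- the chain rule for rational functions -/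
theorem der_ratFunc {F : Type} [Field F] (d : Der F) (j : RatFunc ℂ →+* F)
    (hC : ∀ a : ℂ, d (j (algebraMap (Polynomial ℂ) (RatFunc ℂ) (Polynomial.C a))) = 0)
    (g : RatFunc ℂ) :
    d (j g) = j (rDf g) * d (j (algebraMap (Polynomial ℂ) (RatFunc ℂ) Polynomial.X)) := by
  have hq : (j (algebraMap (Polynomial ℂ) (RatFunc ℂ) g.denom)) ≠ 0 := by
    rw [map_ne_zero]
    exact (map_ne_zero_iff _ (IsFractionRing.injective (Polynomial ℂ) (RatFunc ℂ))).2
      g.denom_ne_zero
  have h1 : g = algebraMap (Polynomial ℂ) (RatFunc ℂ) g.num / algebraMap _ _ g.denom :=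
    (RatFunc.num_div_denom g).symm
  have hp := Der.map_poly d (j.comp (algebraMap (Polynomial ℂ) (RatFunc ℂ))) hC
  have hn := hp g.num
  have hd := hp g.denom
  simp only [RingHom.comp_apply] at hn hd
  conv_lhs => rw [h1, map_div₀, div_eq_mul_inv, Der.leib, Der.map_inv', hn, hd]
  rw [rDf, map_div₀, map_pow, map_sub, map_mul, map_mul, map_sub, map_mul, map_mul]
  field_simp
  ring

/-- the derivation `d/dw` of the field of rational functions -/
noncomputable def rD : Der (RatFunc ℂ) where
  toFun := rDf
  map_zero' := by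
    simp [rDf]
  map_add' a b := by
    have hJ : Function.Injective (jat 0 1) := (jat 0 1).injective
    have hC : ∀ a : ℂ, ddt (jat 0 1 (algebraMap (Polynomial ℂ) (RatFunc ℂ) (Polynomial.C a))) = 0 := by
      intro a
      rw [jat_poly]
      ext j
      simp only [evL, Polynomial.coe_eval₂RingHom, Polynomial.eval₂_C, ddt, Der.sm_apply, mo]
      rw [coeff_single_mul, dO_coeff, HahnSeries.C_apply, one_mul]
      by_cases h : j - -1 = 0
      · rw [h]
        simp
      · rw [coeff_single_of_ne h, mul_zero]
        simp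
    have hX : ddt (jat 0 1 (algebraMap (Polynomial ℂ) (RatFunc ℂ) Polynomial.X)) = 1 := by
      rw [jat_poly]
      ext j
      simp only [evL, Polynomial.coe_eval₂RingHom, Polynomial.eval₂_X, ddt, Der.sm_apply, mo]
      rw [coeff_single_mul, dO_coeff, map_zero, zero_add, one_mul, HahnSeries.coeff_one]
      by_cases h : j = 0
      · subst h
        simp
      · rw [if_neg h, Nat.cast_one, coeff_single_of_ne (by omega), mul_zero]
    apply hJ
    have h := der_ratFunc ddt (jat 0 1) hC
    simp only [hX, mul_one] at h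
    show jat 0 1 (rDf (a + b)) = jat 0 1 (rDf a + rDf b)
    rw [map_add, ← h, ← h, ← h, map_add, map_add]
  leib' a b := by
    have hJ : Function.Injective (jat 0 1) := (jat 0 1).injective
    have hC : ∀ a : ℂ, ddt (jat 0 1 (algebraMap (Polynomial ℂ) (RatFunc ℂ) (Polynomial.C a))) = 0 := by
      intro a
      rw [jat_poly]
      ext j
      simp only [evL, Polynomial.coe_eval₂RingHom, Polynomial.eval₂_C, ddt, Der.sm_apply, mo]
      rw [coeff_single_mul, dO_coeff, HahnSeries.C_apply, one_mul]
      by_cases h : j - -1 = 0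
      · rw [h]
        simp
      · rw [coeff_single_of_ne h, mul_zero]
        simp
    have hX : ddt (jat 0 1 (algebraMap (Polynomial ℂ) (RatFunc ℂ) Polynomial.X)) = 1 := by
      rw [jat_poly]
      ext j
      simp only [evL, Polynomial.coe_eval₂RingHom, Polynomial.eval₂_X, ddt, Der.sm_apply, mo]
      rw [coeff_single_mul, dO_coeff, map_zero, zero_add, one_mul, HahnSeries.coeff_one]
      by_cases h : j = 0
      · subst h
        simp
      · rw [if_neg h, Nat.cast_one, coeff_single_of_ne (by omega), mul_zero]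
    apply hJ
    have h := der_ratFunc ddt (jat 0 1) hC
    simp only [hX, mul_one] at h
    show jat 0 1 (rDf (a * b)) = jat 0 1 (a * rDf b + rDf a * b)
    rw [map_add, map_mul, map_mul, ← h, ← h, ← h, map_mul, Der.leib]

theorem rD_apply (g : RatFunc ℂ) : rD g = rDf g := rfl

end Pool.Agent.Helper84.CV
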