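import Pool.Agent.Helper84.CV.B2

/-!
# CV-Sol: the equation `P (∇ k_j - η_j) = ∑_i Θ_ij k_i`

Notation: `∇ X = d X + [A, X]` on matrices, `IsS` (file `Conn`). With `Θ Θ⁻¹ = 1`, `IsS` gives
`k_j = ∑_i (P Θ⁻¹_ij) (∇ k_i - η_i)`, the fixed point equation; `sit` are its iterates, starting from `0`.

Plan. Conjugate with the lattice: `X = G X~ G⁻¹`, `∇ X = G (d X~ + [Γ, X~]) G⁻¹`, `Γ = ga d A G` with `MVGE 0`. Write
`‖X‖ ≥ a` for `MVGE a (G⁻¹ X G)`. Then `‖∇ X‖ ≥ a` if `‖X‖ ≥ a` (`hd`), and for two families `k, k'` with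
`‖k_i - k'_i‖ ≥ a` for all `i` the images under `Φ(k)_j = ∑_i (P Θ⁻¹_ij) (∇ k_i - η_i)` satisfy `‖…‖ ≥ a + 1`
(`VGE 1 P`, `MVGE 0 Θ⁻¹`). `sol_unique`: the difference `k - k'` of two solutions has `‖…‖ ≥ a` for some `a`
(`exists_MVGE`), hence for all `a + m`, so it vanishes (`eq_zero_of_VGE`). `sol_approx`: same argument for
`k - sit m`, and `‖X‖ ≥ a + 2c` implies `MVGE a X`, `c` a bound for `G, G⁻¹` (`exists_bound`). `sol_exists`:
`‖sit (m+1) - sit m‖ ≥ a + m`; in terms of `X~_m = G⁻¹ (sit m) G` all have `MVGE a'` and the coefficient of index `t` is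
eventually constant: define the limit `X~` coefficientwise (support bounded below), `k = G X~ G⁻¹`, `‖k - sit m‖ ≥ a + m`;
then `‖Φ(k) - k‖ ≥ a + m` for all `m`, so `Φ(k) = k`, and multiplication by `Θ` gives `IsS` (`Θ⁻¹ Θ = 1` too:
`Matrix.mul_eq_one_comm`).
-/

set_option autoImplicit false

open Matrix

namespace Pool.Agent.Helper84.CV

section sit

variable {ι : Type} [Fintype ι] [DecidableEq ι] {L : Type} [Field L] {r : ℕ}

/-- the iterates of `k ↦ P (∇ k - η) Θ⁻¹` -/
noncomputable def sit (d : Der L) (A : Matrix ι ι L) (P : L) (Thi : Matrix (Fin r) (Fin r) L)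
    (η : Fin r → Matrix ι ι L) : ℕ → Fin r → Matrix ι ι L
  | 0 => fun _ => 0
  | m + 1 => fun j => ∑ i, (P * Thi i j) • (dM d (sit d A P Thi η m i) +
      (A * sit d A P Thi η m i - sit d A P Thi η m i * A) - η i)

end sit

section aux

variable {K : Type} [Field K] {n r : ℕ}

/-- `X` has size `≥ a` with respect to the lattice `G` -/
private def NG (G : Matrix (Fin n) (Fin n) (LaurentSeries K)) (a : ℤ)
    (X : Matrix (Fin n) (Fin n) (LaurentSeries K)) : Prop := MVGE a (G⁻¹ * X * G)

/-- `∇ X` -/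
private noncomputable def nab (d : Der (LaurentSeries K))
    (A X : Matrix (Fin n) (Fin n) (LaurentSeries K)) :
    Matrix (Fin n) (Fin n) (LaurentSeries K) := dM d X + (A * X - X * A)

/-- the map `Φ` -/
private noncomputable def Phi (d : Der (LaurentSeries K))
    (A : Matrix (Fin n) (Fin n) (LaurentSeries K)) (P : LaurentSeries K)
    (Thi : Matrix (Fin r) (Fin r) (LaurentSeries K))
    (η k : Fin r → Matrix (Fin n) (Fin n) (LaurentSeries K)) (j : Fin r) :
    Matrix (Fin n) (Fin n) (LaurentSeries K) :=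
  ∑ i, (P * Thi i j) • (nab d A (k i) - η i)

private theorem NG.mono {G : Matrix (Fin n) (Fin n) (LaurentSeries K)} {a b : ℤ}
    {X : Matrix (Fin n) (Fin n) (LaurentSeries K)} (h : NG G b X) (hab : a ≤ b) : NG G a X :=
  MVGE.mono h hab

private theorem NG_zero (G : Matrix (Fin n) (Fin n) (LaurentSeries K)) (a : ℤ) : NG G a 0 := by
  unfold NG
  rw [mul_zero, zero_mul]
  exact MVGE_zero a

private theorem NG.add {G : Matrix (Fin n) (Fin n) (LaurentSeries K)} {a : ℤ}
    {X Y : Matrix (Fin n) (Fin n) (LaurentSeries K)} (h : NG G a X) (h' : NG G a Y) :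
    NG G a (X + Y) := by
  unfold NG at *
  rw [mul_add, add_mul]
  exact MVGE.add h h'

private theorem NG.sub {G : Matrix (Fin n) (Fin n) (LaurentSeries K)} {a : ℤ}
    {X Y : Matrix (Fin n) (Fin n) (LaurentSeries K)} (h : NG G a X) (h' : NG G a Y) :
    NG G a (X - Y) := by
  unfold NG at *
  rw [mul_sub, sub_mul]
  exact MVGE.sub h h'

private theorem NG.smul {G : Matrix (Fin n) (Fin n) (LaurentSeries K)} {a b : ℤ}
    {g : LaurentSeries K} {X : Matrix (Fin n) (Fin n) (LaurentSeries K)} (hg : VGE a g)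
    (h : NG G b X) : NG G (a + b) (g • X) := by
  unfold NG at *
  rw [Matrix.mul_smul, Matrix.smul_mul]
  exact MVGE.smul hg h

private theorem NG.sum {G : Matrix (Fin n) (Fin n) (LaurentSeries K)} {a : ℤ}
    (X : Fin r → Matrix (Fin n) (Fin n) (LaurentSeries K)) (h : ∀ i, NG G a (X i)) :
    NG G a (∑ i, X i) := by
  classical
  have h1 : ∀ s : Finset (Fin r), NG G a (∑ i ∈ s, X i) := by
    intro s
    induction s using Finset.induction_on with
    | empty =>
      rw [Finset.sum_empty]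
      exact NG_zero G a
    | insert i s hi ih =>
      rw [Finset.sum_insert hi]
      exact (h i).add ih
  exact h1 Finset.univ

private theorem NG_nab {d : Der (LaurentSeries K)}
    (hd : ∀ (a : ℤ) (z : LaurentSeries K), VGE a z → VGE a (d z))
    {A G : Matrix (Fin n) (Fin n) (LaurentSeries K)} (hG : IsUnit G.det)
    (hA : MVGE 0 (ga d A G)) {a : ℤ} {X : Matrix (Fin n) (Fin n) (LaurentSeries K)}
    (h : NG G a X) : NG G a (nab d A X) := by
  unfold NG at *
  have h1 : G⁻¹ * nab d A X * G = dM d (G⁻¹ * X * G) +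
      (ga d A G * (G⁻¹ * X * G) - (G⁻¹ * X * G) * ga d A G) := by
    unfold ga nab
    have hGP := Matrix.mul_nonsing_inv G hG
    rw [dM_mul, dM_mul, dM_inv d G hG]
    generalize dM d G = D at *
    generalize dM d X = E at *
    generalize G⁻¹ = Q at hGP ⊢
    have h2 : Q * X * D + (Q * E + -(Q * D * Q) * X) * G +
        (Q * (D + A * G) * (Q * X * G) - Q * X * G * (Q * (D + A * G))) =
        Q * (E + (A * X - X * A)) * G + Q * A * (G * Q - 1) * X * G -
          Q * X * (G * Q - 1) * (D + A * G) := by noncomm_ring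
    rw [h2, hGP]
    simp
  rw [h1]
  have h3 : MVGE a (dM d (G⁻¹ * X * G)) := fun i j => hd a _ (h i j)
  have h4 : MVGE a (ga d A G * (G⁻¹ * X * G)) := by
    have := MVGE.mul hA h
    rwa [zero_add] at this
  have h5 : MVGE a (G⁻¹ * X * G * ga d A G) := by
    have := MVGE.mul h hA
    rwa [add_zero] at this
  exact MVGE.add h3 (MVGE.sub h4 h5)

private theorem nab_sub (d : Der (LaurentSeries K))
    (A X Y : Matrix (Fin n) (Fin n) (LaurentSeries K)) :
    nab d A (X - Y) = nab d A X - nab d A Y := by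
  unfold nab
  rw [dM_sub, mul_sub, sub_mul]
  abel

private theorem NG_Phi {d : Der (LaurentSeries K)}
    (hd : ∀ (a : ℤ) (z : LaurentSeries K), VGE a z → VGE a (d z))
    {A G : Matrix (Fin n) (Fin n) (LaurentSeries K)} (hG : IsUnit G.det)
    (hA : MVGE 0 (ga d A G)) {P : LaurentSeries K} (hP : VGE 1 P)
    {Thi : Matrix (Fin r) (Fin r) (LaurentSeries K)} (hThi : MVGE 0 Thi)
    (η k k' : Fin r → Matrix (Fin n) (Fin n) (LaurentSeries K)) {a : ℤ}
    (h : ∀ i, NG G a (k i - k' i)) (j : Fin r) :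
    NG G (a + 1) (Phi d A P Thi η k j - Phi d A P Thi η k' j) := by
  unfold Phi
  rw [← Finset.sum_sub_distrib]
  apply NG.sum
  intro i
  have h1 : (P * Thi i j) • (nab d A (k i) - η i) - (P * Thi i j) • (nab d A (k' i) - η i) =
      (P * Thi i j) • nab d A (k i - k' i) := by
    rw [← smul_sub, nab_sub]
    congr 1
    abel
  rw [h1]
  have h2 : VGE 1 (P * Thi i j) := by
    have := VGE.mul hP (hThi i j)
    rwa [add_zero] at this
  have h3 := NG.smul h2 (NG_nab hd hG hA (h i))
  rwa [add_comm] at h3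

private theorem Phi_fix {d : Der (LaurentSeries K)}
    {A : Matrix (Fin n) (Fin n) (LaurentSeries K)} {P : LaurentSeries K}
    {Th Thi : Matrix (Fin r) (Fin r) (LaurentSeries K)} (hinv : Th * Thi = 1)
    {η k : Fin r → Matrix (Fin n) (Fin n) (LaurentSeries K)} (hk : IsS d A P Th η k)
    (j : Fin r) : Phi d A P Thi η k j = k j := by
  unfold Phi
  have h1 : ∀ i, (P * Thi i j) • (nab d A (k i) - η i) = ∑ l, (Th l i * Thi i j) • k l := by
    intro i
    have h2 : P • (nab d A (k i) - η i) = ∑ l, Th l i • k l := hk i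
    rw [mul_comm P, mul_smul, h2, Finset.smul_sum]
    refine Finset.sum_congr rfl fun l _ => ?_
    rw [smul_smul, mul_comm]
  rw [Finset.sum_congr rfl (fun i _ => h1 i), Finset.sum_comm]
  have h3 : ∀ l, ∑ i, (Th l i * Thi i j) • k l = (if l = j then (1 : LaurentSeries K) else 0) • k l := by
    intro l
    rw [← Finset.sum_smul, ← Matrix.mul_apply, hinv, Matrix.one_apply]
  rw [Finset.sum_congr rfl (fun l _ => h3 l), Finset.sum_eq_single j]
  · rw [if_pos rfl, one_smul]
  · intro l _ hl
    rw [if_neg hl, zero_smul]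
  · intro h
    exact absurd (Finset.mem_univ j) h

private theorem isS_of_fix {d : Der (LaurentSeries K)}
    {A : Matrix (Fin n) (Fin n) (LaurentSeries K)} {P : LaurentSeries K}
    {Th Thi : Matrix (Fin r) (Fin r) (LaurentSeries K)} (hinv : Th * Thi = 1)
    {η k : Fin r → Matrix (Fin n) (Fin n) (LaurentSeries K)}
    (h : ∀ j, Phi d A P Thi η k j = k j) : IsS d A P Th η k := by
  intro j
  have hinv' : Thi * Th = 1 := mul_eq_one_comm.1 hinv
  show P • (nab d A (k j) - η j) = _
  have h1 : ∀ i, Th i j • k i = ∑ l, (P * (Thi l i * Th i j)) • (nab d A (k l) - η l) := by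
    intro i
    have h2 : k i = ∑ l, (P * Thi l i) • (nab d A (k l) - η l) := (h i).symm
    calc Th i j • k i = Th i j • ∑ l, (P * Thi l i) • (nab d A (k l) - η l) :=
          congrArg (fun z => Th i j • z) h2
      _ = ∑ l, (P * (Thi l i * Th i j)) • (nab d A (k l) - η l) := by
          rw [Finset.smul_sum]
          refine Finset.sum_congr rfl fun l _ => ?_
          rw [smul_smul]
          congr 1
          ring
  rw [Finset.sum_congr rfl (fun i _ => h1 i), Finset.sum_comm]
  have h3 : ∀ l, ∑ i, (P * (Thi l i * Th i j)) • (nab d A (k l) - η l) =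
      (if l = j then P else 0) • (nab d A (k l) - η l) := by
    intro l
    rw [← Finset.sum_smul, ← Finset.mul_sum, ← Matrix.mul_apply, hinv', Matrix.one_apply]
    congr 1
    split_ifs
    · rw [mul_one]
    · rw [mul_zero]
  rw [Finset.sum_congr rfl (fun l _ => h3 l), Finset.sum_eq_single j]
  · rw [if_pos rfl]
  · intro l _ hl
    rw [if_neg hl, zero_smul]
  · intro h'
    exact absurd (Finset.mem_univ j) h'

private theorem NG_all (G : Matrix (Fin n) (Fin n) (LaurentSeries K))
    (X : Fin r → Matrix (Fin n) (Fin n) (LaurentSeries K)) : ∃ a : ℤ, ∀ i, NG G a (X i) := by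
  choose f hf using fun i => exists_MVGE (G⁻¹ * X i * G)
  obtain ⟨b, hb⟩ := (Set.finite_range f).bddBelow
  exact ⟨b, fun i => MVGE.mono (hf i) (hb ⟨i, rfl⟩)⟩

private theorem conj_back {G : Matrix (Fin n) (Fin n) (LaurentSeries K)} (hG : IsUnit G.det)
    (X : Matrix (Fin n) (Fin n) (LaurentSeries K)) : G * (G⁻¹ * X * G) * G⁻¹ = X := by
  have h1 := Matrix.mul_nonsing_inv G hG
  have h2 : G * (G⁻¹ * X * G) * G⁻¹ = (G * G⁻¹) * X * (G * G⁻¹) := by noncomm_ring
  rw [h2, h1, one_mul, mul_one]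

private theorem NG_eq_zero {G : Matrix (Fin n) (Fin n) (LaurentSeries K)} (hG : IsUnit G.det)
    {X : Matrix (Fin n) (Fin n) (LaurentSeries K)} {a : ℤ} (h : ∀ m : ℕ, NG G (a + m) X) :
    X = 0 := by
  have h1 : G⁻¹ * X * G = 0 := by
    refine Matrix.ext fun i j => ?_
    rw [Matrix.zero_apply]
    exact eq_zero_of_VGE fun k => (h (k - a).toNat i j).mono (by omega)
  rw [← conj_back hG X, h1, mul_zero, zero_mul]

end aux

variable {K : Type} [Field K] {n r : ℕ} (d : Der (LaurentSeries K))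
  (hd : ∀ (a : ℤ) (z : LaurentSeries K), VGE a z → VGE a (d z))
  (A G : Matrix (Fin n) (Fin n) (LaurentSeries K)) (hG : IsUnit G.det) (hA : MVGE 0 (ga d A G))
  (P : LaurentSeries K) (hP : VGE 1 P) (Th Thi : Matrix (Fin r) (Fin r) (LaurentSeries K))
  (hThi : MVGE 0 Thi) (hinv : Th * Thi = 1)
  (η : Fin r → Matrix (Fin n) (Fin n) (LaurentSeries K))

include hd hG hA hP hThi hinv

theorem sol_unique (k k' : Fin r → Matrix (Fin n) (Fin n) (LaurentSeries K))
    (hk : IsS d A P Th η k) (hk' : IsS d A P Th η k') : k = k' := by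
  obtain ⟨a, ha⟩ := NG_all G (fun i => k i - k' i)
  have h1 : ∀ m : ℕ, ∀ i, NG G (a + m) (k i - k' i) := by
    intro m
    induction m with
    | zero =>
      intro i
      rw [Nat.cast_zero, add_zero]
      exact ha i
    | succ m ih =>
      intro i
      have h2 := NG_Phi hd hG hA hP hThi η k k' ih i
      rw [Phi_fix hinv hk, Phi_fix hinv hk'] at h2
      exact h2.mono (by push_cast; omega)
  funext i
  exact sub_eq_zero.1 (NG_eq_zero hG fun m => h1 m i)

theorem sol_approx (k : Fin r → Matrix (Fin n) (Fin n) (LaurentSeries K))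
    (hk : IsS d A P Th η k) (M : ℤ) :
    ∃ m₀ : ℕ, ∀ m, m₀ ≤ m → ∀ j, MVGE M (k j - sit d A P Thi η m j) := by
  obtain ⟨a, ha⟩ := NG_all G (fun i => k i - sit d A P Thi η 0 i)
  have h1 : ∀ m : ℕ, ∀ i, NG G (a + m) (k i - sit d A P Thi η m i) := by
    intro m
    induction m with
    | zero =>
      intro i
      rw [Nat.cast_zero, add_zero]
      exact ha i
    | succ m ih =>
      intro i
      have h2 := NG_Phi hd hG hA hP hThi η k (sit d A P Thi η m) ih i
      rw [Phi_fix hinv hk] at h2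
      exact h2.mono (by push_cast; omega)
  obtain ⟨c, hc, hc'⟩ := exists_bound G
  refine ⟨(M + 2 * c - a).toNat, fun m hm j => ?_⟩
  have h3 := MVGE.mul (MVGE.mul hc (h1 m j)) hc'
  rw [conj_back hG] at h3
  exact MVGE.mono h3 (by omega)

theorem sol_exists : ∃ k : Fin r → Matrix (Fin n) (Fin n) (LaurentSeries K),
    IsS d A P Th η k := by
  obtain ⟨a, ha⟩ := NG_all G (fun i => sit d A P Thi η 1 i - sit d A P Thi η 0 i)
  have h1 : ∀ m : ℕ, ∀ i, NG G (a + m) (sit d A P Thi η (m + 1) i - sit d A P Thi η m i) := by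
    intro m
    induction m with
    | zero =>
      intro i
      rw [Nat.cast_zero, add_zero]
      exact ha i
    | succ m ih =>
      intro i
      have h2 := NG_Phi hd hG hA hP hThi η (sit d A P Thi η (m + 1)) (sit d A P Thi η m) ih i
      exact h2.mono (by push_cast; omega)
  -- all iterates have size `≥ a`
  have h0 : ∀ m : ℕ, ∀ i, NG G a (sit d A P Thi η m i) := by
    intro m
    induction m with
    | zero => exact fun i => NG_zero G a
    | succ m ih =>
      intro i
      have h2 := ((h1 m i).mono (show a ≤ a + m by omega)).add (ih i)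
      rwa [sub_add_cancel] at h2
  -- the coefficients are eventually constant
  have h3 : ∀ (i : Fin r) (p q : Fin n) (t : ℤ) (m m' : ℕ), t < a + m → m ≤ m' →
      ((G⁻¹ * sit d A P Thi η m' i * G) p q).coeff t =
        ((G⁻¹ * sit d A P Thi η m i * G) p q).coeff t := by
    intro i p q t m m' ht hm
    induction m', hm using Nat.le_induction with
    | base => rfl
    | succ m' hm ih =>
      rw [← ih]
      have h4 := h1 m' i p q t (by omega)
      rw [mul_sub, sub_mul, Matrix.sub_apply, HahnSeries.coeff_sub] at h4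
      exact sub_eq_zero.1 h4
  let X : Fin r → Matrix (Fin n) (Fin n) (LaurentSeries K) := fun i => Matrix.of fun p q =>
    HahnSeries.ofSuppBddBelow
      (fun t => ((G⁻¹ * sit d A P Thi η (t - a + 1).toNat i * G) p q).coeff t)
      ⟨a, by
        intro t ht
        by_contra hlt
        exact ht (h0 _ i p q t (not_le.1 hlt))⟩
  have hX : ∀ (i : Fin r) (p q : Fin n) (t : ℤ), (X i p q).coeff t =
      ((G⁻¹ * sit d A P Thi η (t - a + 1).toNat i * G) p q).coeff t := fun _ _ _ _ => rfl
  let k : Fin r → Matrix (Fin n) (Fin n) (LaurentSeries K) := fun i => G * X i * G⁻¹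
  have hk : ∀ i, G⁻¹ * k i * G = X i := by
    intro i
    have h5 := Matrix.nonsing_inv_mul G hG
    have h6 : G⁻¹ * (G * X i * G⁻¹) * G = (G⁻¹ * G) * X i * (G⁻¹ * G) := by noncomm_ring
    show G⁻¹ * (G * X i * G⁻¹) * G = X i
    rw [h6, h5, one_mul, mul_one]
  have h7 : ∀ m : ℕ, ∀ i, NG G (a + m) (k i - sit d A P Thi η m i) := by
    intro m i p q t ht
    rw [mul_sub, sub_mul, hk, Matrix.sub_apply, HahnSeries.coeff_sub, hX, sub_eq_zero]
    symm
    apply h3
    · omega
    · omega
  refine ⟨k, isS_of_fix hinv fun j => ?_⟩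
  refine sub_eq_zero.1 (NG_eq_zero hG (a := a + 1) fun m => ?_)
  have h8 := NG_Phi hd hG hA hP hThi η k (sit d A P Thi η m) (h7 m) j
  have h9 := h7 (m + 1) j
  have h10 : NG G (a + 1 + m) (Phi d A P Thi η k j - sit d A P Thi η (m + 1) j -
      (k j - sit d A P Thi η (m + 1) j)) :=
    NG.sub (NG.mono h8 (by omega)) (NG.mono h9 (by push_cast; omega))
  rwa [sub_sub_sub_cancel_right] at h10

end Pool.Agent.Helper84.CV
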