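import Pool.Agent.Helper84.CV.LinReg

/-!
# CV-ToMal: the regular basis over the power series ring

Plan. `G` from `lin_regular`; multiply by a power of `z` so that the entries are integral: `G₁ = mo c • G`, `c ≥ 0`
(`exists_MVGE`), `ga dO A (mo c • G) = ga dO A G + c` still integral. An element of `LC` with `VGE 0` is the image under
`inc` of a power series (`PowerSeries.mk` of its coefficients, `inc_coeff_nat`). So `G₁ = P.map inc`,
`ga dO A G₁ = M.map inc`. Then `dM dO G₁ + A G₁ = G₁ M`; `dO (inc f) = inc (X * derivative f)` (coefficients).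
Multiply by `d = aeval Y (dpol e)` and use `A_(i,l) = -(X (d H_(i,l) - d_l H_i)) / d²`, and
`d * derivative Y_i = H_i` (`hY`, second statement: `chat_eq` and `hode`), so `d A_(i,l) = -(X H_(i,l) - d_l X Y_i')`.
Everything is the image of an identity in `ℂ[[X]]` under the injective `inc` (`MvPolynomial.aeval` commutes with `inc`).
-/

set_option autoImplicit false

open Matrix

namespace Pool.Agent.Helper84.CV

section aux

variable {n : ℕ}

private theorem Ug_map {A : Type} [CommRing A] (φ : MvPolynomial (Fin (n * n)) ℂ →+* A)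
    (U : Matrix (Fin n) (Fin n) A) (hX : ∀ l, φ (MvPolynomial.X l) = vec U l) :
    (Ug n).map φ = U := by
  rw [← mat_vec U]
  ext i j
  rw [Matrix.map_apply, Ug, mat, mat, Matrix.of_apply, Matrix.of_apply, hX]

private theorem ev_dpol {A : Type} [CommRing A] (φ : MvPolynomial (Fin (n * n)) ℂ →+* A)
    (U : Matrix (Fin n) (Fin n) A) (hX : ∀ l, φ (MvPolynomial.X l) = vec U l)
    (e : Fin n → ℂ) :
    φ (dpol e) = (kry U (fun i => φ (MvPolynomial.C (e i)))).det := by
  have h1 := kry_map φ (Ug n) (fun i => MvPolynomial.C (e i))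
  rw [Ug_map φ U hX] at h1
  rw [dpol, RingHom.map_det, ← h1]
  rfl

private theorem ev_Hpol {A : Type} [CommRing A] (φ : MvPolynomial (Fin (n * n)) ℂ →+* A)
    (U : Matrix (Fin n) (Fin n) A) (hX : ∀ l, φ (MvPolynomial.X l) = vec U l)
    (B : Matrix (Fin n) (Fin n) ℂ) (e v : Fin n → ℂ) (l : Fin (n * n)) :
    φ (Hpol B e v l) = vec (chat U (fun i => φ (MvPolynomial.C (e i)))
        (fun i => φ (MvPolynomial.C (v i))) +
      (chat U (fun i => φ (MvPolynomial.C (e i))) (fun i => φ (MvPolynomial.C (v i))) *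
        B.map (fun c => φ (MvPolynomial.C c)) - B.map (fun c => φ (MvPolynomial.C c)) *
      chat U (fun i => φ (MvPolynomial.C (e i))) (fun i => φ (MvPolynomial.C (v i))))) l := by
  have h1 := chat_map φ (Ug n) (fun i => MvPolynomial.C (e i)) (fun i => MvPolynomial.C (v i))
  rw [Ug_map φ U hX] at h1
  have h2 : (B.map (MvPolynomial.C : ℂ →+* MvPolynomial (Fin (n * n)) ℂ)).map φ =
      B.map (fun c => φ (MvPolynomial.C c)) := rfl
  have h3 : (Cpol e v + (Cpol e v * B.map MvPolynomial.C -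
      B.map MvPolynomial.C * Cpol e v)).map φ =
      chat U (fun i => φ (MvPolynomial.C (e i))) (fun i => φ (MvPolynomial.C (v i))) +
      (chat U (fun i => φ (MvPolynomial.C (e i))) (fun i => φ (MvPolynomial.C (v i))) *
        B.map (fun c => φ (MvPolynomial.C c)) - B.map (fun c => φ (MvPolynomial.C c)) *
      chat U (fun i => φ (MvPolynomial.C (e i))) (fun i => φ (MvPolynomial.C (v i)))) := by
    rw [Matrix.map_add φ (map_add φ), Matrix.map_sub φ (map_sub φ), Matrix.map_mul,
      Matrix.map_mul, h2, Cpol, h1]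
  rw [← h3]
  rfl

private theorem aeval_ι {L : Type} [Field L] [Algebra ℂ L] (ι : PowerSeries ℂ →+* L)
    (hι : ∀ c, ι (PowerSeries.C c) = algebraMap ℂ L c) {m : ℕ} (Y : Fin m → PowerSeries ℂ)
    (f : MvPolynomial (Fin m) ℂ) :
    MvPolynomial.aeval (fun l => ι (Y l)) f = ι (MvPolynomial.aeval Y f) := by
  induction f using MvPolynomial.induction_on with
  | C c =>
    rw [MvPolynomial.aeval_C, MvPolynomial.aeval_C, ← hι]
    rfl
  | add f g hf hg => rw [map_add, map_add, map_add, hf, hg]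
  | mul_X f l hf => rw [map_mul, map_mul, map_mul, hf, MvPolynomial.aeval_X,
      MvPolynomial.aeval_X]

private theorem Alin_mul {L : Type} [Field L] [Algebra ℂ L] (B : Matrix (Fin n) (Fin n) ℂ)
    (e v : Fin n → ℂ) (Y : Fin (n * n) → L) (z y : L) (i l : Fin (n * n))
    (hd : MvPolynomial.aeval Y (dpol e) ≠ 0)
    (hH : MvPolynomial.aeval Y (Hpol B e v i) = MvPolynomial.aeval Y (dpol e) * y) :
    MvPolynomial.aeval Y (dpol e) * Alin B e v Y z i l =
      -(z * MvPolynomial.aeval Y (MvPolynomial.pderiv l (Hpol B e v i)) -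
        MvPolynomial.aeval Y (MvPolynomial.pderiv l (dpol e)) * (z * y)) := by
  rw [Alin, Matrix.of_apply, hH]
  field_simp

private theorem core_eq {L : Type} [Field L] (δ : Der L) (ι : PowerSeries ℂ →+* L)
    (hinj : Function.Injective ι)
    (hδ : ∀ f, δ (ι f) = ι (PowerSeries.X * PowerSeries.derivative ℂ f)) {m : ℕ}
    (A : Matrix (Fin m) (Fin m) L) (P M : Matrix (Fin m) (Fin m) (PowerSeries ℂ))
    (hPM : dM δ (P.map ι) + A * P.map ι = P.map ι * M.map ι) (d : PowerSeries ℂ)
    (a : Fin m → Fin m → PowerSeries ℂ) (hA : ∀ i l, ι d * A i l = -ι (a i l))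
    (i j : Fin m) :
    d * (PowerSeries.X * PowerSeries.derivative ℂ (P i j)) - ∑ l, a i l * P l j =
      d * ∑ l, P i l * M l j := by
  apply hinj
  have h1 := congrFun (congrFun hPM i) j
  rw [Matrix.add_apply, dM_apply, Matrix.map_apply, Matrix.mul_apply, Matrix.mul_apply, hδ] at h1
  simp only [Matrix.map_apply] at h1
  have h2 : ι (∑ l, P i l * M l j) = ∑ l, ι (P i l) * ι (M l j) :=
    (map_sum ι _ _).trans (Finset.sum_congr rfl fun l _ => map_mul ι _ _)
  have h3 : ι (∑ l, a i l * P l j) = -(ι d * ∑ l, A i l * ι (P l j)) := by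
    rw [Finset.mul_sum, ← Finset.sum_neg_distrib]
    refine (map_sum ι _ _).trans (Finset.sum_congr rfl fun l _ => ?_)
    rw [map_mul, ← mul_assoc, hA, neg_mul, neg_neg]
  rw [map_sub, map_mul ι d, map_mul ι d, h2, h3, ← h1]
  ring

private theorem scale_G {L : Type} [Field L] {m : ℕ} (δ : Der L) (x c : L)
    (hx : δ x = c * x) (A G Γ : Matrix (Fin m) (Fin m) L)
    (h0 : dM δ G + A * G = G * Γ) :
    dM δ (x • G) + A * (x • G) = (x • G) * (Γ + c • (1 : Matrix (Fin m) (Fin m) L)) := by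
  rw [dM_smul, hx, Matrix.mul_smul, Matrix.mul_add, Matrix.smul_mul, ← h0, Matrix.mul_smul,
    Matrix.mul_one, smul_add, mul_smul]
  abel

private theorem integral_G {K : Type} [Field K] {m : ℕ}
    (A G : Matrix (Fin m) (Fin m) (LaurentSeries K)) (hG : IsUnit G.det)
    (hΓ : MVGE 0 (ga dO A G)) :
    ∃ G₁ Γ₁ : Matrix (Fin m) (Fin m) (LaurentSeries K), MVGE 0 G₁ ∧ MVGE 0 Γ₁ ∧
      G₁.det ≠ 0 ∧ dM dO G₁ + A * G₁ = G₁ * Γ₁ := by
  obtain ⟨k, hk⟩ := exists_MVGE G
  have h0 : dM dO G + A * G = G * ga dO A G := by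
    rw [ga, ← Matrix.mul_assoc, Matrix.mul_nonsing_inv G hG, Matrix.one_mul]
  refine ⟨(mo (-k) : LaurentSeries K) • G, ga dO A G +
    ((-k : ℤ) : LaurentSeries K) • (1 : Matrix (Fin m) (Fin m) (LaurentSeries K)), ?_, ?_,
    ?_, ?_⟩
  · have h1 := MVGE.smul (VGE_mo (K := K) (-k)) hk
    rwa [neg_add_cancel] at h1
  · refine hΓ.add ?_
    have h1 : VGE 0 (((-k : ℤ)) : LaurentSeries K) := by
      rw [← map_intCast (HahnSeries.C : K →+* LaurentSeries K)]
      exact VGE_C _
    have h2 := MVGE.smul h1 (MVGE_one (K := K) (n := Fin m))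
    rwa [add_zero] at h2
  · rw [Matrix.det_smul]
    exact mul_ne_zero (pow_ne_zero _ (mo_ne_zero _)) hG.ne_zero
  · exact scale_G dO _ _ (dO_mo (-k)) A G _ h0

private theorem exists_inc (z : LC) (hz : VGE 0 z) : ∃ f : PowerSeries ℂ, inc f = z := by
  refine ⟨PowerSeries.mk fun k => z.coeff k, ?_⟩
  refine HahnSeries.ext (funext fun j => ?_)
  rcases lt_or_ge j 0 with hj | hj
  · rw [inc_coeff_neg _ j hj, hz j hj]
  · obtain ⟨k, rfl⟩ := Int.eq_ofNat_of_zero_le hj
    have h1 := inc_coeff_nat (K := ℂ) (PowerSeries.mk fun k : ℕ => z.coeff (k : ℤ)) k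
    rw [PowerSeries.coeff_mk] at h1
    exact h1

private theorem dO_inc (f : PowerSeries ℂ) :
    dO (inc f : LC) = inc (PowerSeries.X * PowerSeries.derivative ℂ f) := by
  refine HahnSeries.ext (funext fun j => ?_)
  rw [dO_coeff]
  rcases lt_or_ge j 0 with hj | hj
  · rw [inc_coeff_neg _ j hj, inc_coeff_neg _ j hj, mul_zero]
  · obtain ⟨k, rfl⟩ := Int.eq_ofNat_of_zero_le hj
    have h1 := inc_coeff_nat (K := ℂ) f k
    have h2 := inc_coeff_nat (K := ℂ) (PowerSeries.X * PowerSeries.derivative ℂ f) k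
    have h3 : PowerSeries.coeff k (PowerSeries.X * PowerSeries.derivative ℂ f) =
        (k : ℂ) * PowerSeries.coeff k f := by
      rcases k with _ | k
      · rw [PowerSeries.coeff_zero_X_mul, Nat.cast_zero, zero_mul]
      · rw [PowerSeries.coeff_succ_X_mul, PowerSeries.coeff_derivative]
        push_cast
        ring
    refine (congrArg (fun x : ℂ => (((k : ℕ) : ℤ) : ℂ) * x) h1).trans (Eq.trans ?_ h2.symm)
    rw [h3, Int.cast_natCast]
    rfl

end aux

variable {n : ℕ} (U C : Matrix (Fin n) (Fin n) (PowerSeries ℂ))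
    (B : Matrix (Fin n) (Fin n) ℂ) (e v : Fin n → ℂ)
    (hode : ∀ i j, PowerSeries.derivative ℂ (U i j) = (C + (C * B.map PowerSeries.C -
      B.map PowerSeries.C * C)) i j)
    (hcomm : U * C = C * U)
    (he : C.mulVec (fun i => PowerSeries.C (e i)) = fun i => PowerSeries.C (v i))
    (hkry : (kry U (fun i => PowerSeries.C (e i))).det ≠ 0)

include hode hcomm he hkry

theorem dpol_ne : MvPolynomial.aeval (vec U) (dpol e) ≠ 0 := by
  have h1 := ev_dpol ((MvPolynomial.aeval (vec U) :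
    MvPolynomial (Fin (n * n)) ℂ →ₐ[ℂ] PowerSeries ℂ) :
      MvPolynomial (Fin (n * n)) ℂ →+* PowerSeries ℂ) U
    (fun l => MvPolynomial.aeval_X _ l) e
  have h2 : (fun i => (((MvPolynomial.aeval (vec U) :
    MvPolynomial (Fin (n * n)) ℂ →ₐ[ℂ] PowerSeries ℂ) :
      MvPolynomial (Fin (n * n)) ℂ →+* PowerSeries ℂ)) (MvPolynomial.C (e i))) =
      fun i => (PowerSeries.C (e i) : PowerSeries ℂ) :=
    funext fun i => MvPolynomial.aeval_C _ (e i)
  rw [h2] at h1
  intro h3
  exact hkry (h1.symm.trans h3)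

theorem pol_ode (i : Fin (n * n)) : MvPolynomial.aeval (vec U) (dpol e) *
    PowerSeries.derivative ℂ (vec U i) = MvPolynomial.aeval (vec U) (Hpol B e v i) := by
  have h1 := ev_dpol ((MvPolynomial.aeval (vec U) :
    MvPolynomial (Fin (n * n)) ℂ →ₐ[ℂ] PowerSeries ℂ) :
      MvPolynomial (Fin (n * n)) ℂ →+* PowerSeries ℂ) U
    (fun l => MvPolynomial.aeval_X _ l) e
  have h2 : ∀ w : Fin n → ℂ, (fun i => (((MvPolynomial.aeval (vec U) :
    MvPolynomial (Fin (n * n)) ℂ →ₐ[ℂ] PowerSeries ℂ) :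
      MvPolynomial (Fin (n * n)) ℂ →+* PowerSeries ℂ)) (MvPolynomial.C (w i))) =
      fun i => (PowerSeries.C (w i) : PowerSeries ℂ) :=
    fun w => funext fun i => MvPolynomial.aeval_C _ (w i)
  have h3 := ev_Hpol ((MvPolynomial.aeval (vec U) :
    MvPolynomial (Fin (n * n)) ℂ →ₐ[ℂ] PowerSeries ℂ) :
      MvPolynomial (Fin (n * n)) ℂ →+* PowerSeries ℂ) U
    (fun l => MvPolynomial.aeval_X _ l) B e v i
  have h4 : (fun c => (((MvPolynomial.aeval (vec U) :
    MvPolynomial (Fin (n * n)) ℂ →ₐ[ℂ] PowerSeries ℂ) :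
      MvPolynomial (Fin (n * n)) ℂ →+* PowerSeries ℂ)) (MvPolynomial.C c)) =
      fun c : ℂ => (PowerSeries.C c : PowerSeries ℂ) :=
    funext fun c => MvPolynomial.aeval_C _ c
  rw [h2] at h1
  rw [h2, h2, h4] at h3
  have h5 := chat_eq U C (fun i => PowerSeries.C (e i)) (fun i => PowerSeries.C (v i)) hcomm he
    hkry
  refine Eq.trans ?_ h3.symm
  rw [← h5]
  refine (congrArg (fun x : PowerSeries ℂ => x * PowerSeries.derivative ℂ (vec U i)) h1).trans ?_
  show _ * PowerSeries.derivative ℂ (U _ _) = _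
  rw [hode]
  show _ = (_ + (_ - _) : Matrix (Fin n) (Fin n) (PowerSeries ℂ)) _ _
  rw [Matrix.smul_mul, Matrix.mul_smul, ← smul_sub, ← smul_add, Matrix.smul_apply, smul_eq_mul]

theorem to_mal (hsep : ∃ (d : PowerSeries ℂ) (a b : Polynomial (PowerSeries ℂ)), d ≠ 0 ∧
      a * U.charpoly + b * Polynomial.derivative U.charpoly = Polynomial.C d) :
    ∃ P M : Matrix (Fin (n * n)) (Fin (n * n)) (PowerSeries ℂ), P.det ≠ 0 ∧
      ∀ i j, MvPolynomial.aeval (vec U) (dpol e) *
          (PowerSeries.X * PowerSeries.derivative ℂ (P i j)) -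
        ∑ l, (PowerSeries.X * MvPolynomial.aeval (vec U) (MvPolynomial.pderiv l (Hpol B e v i)) -
          MvPolynomial.aeval (vec U) (MvPolynomial.pderiv l (dpol e)) *
            (PowerSeries.X * PowerSeries.derivative ℂ (vec U i))) * P l j =
        MvPolynomial.aeval (vec U) (dpol e) * ∑ l, P i l * M l j := by
  obtain ⟨G, hG, hΓ⟩ := lin_regular U C B e v hode hcomm he hkry hsep
  obtain ⟨G₁, Γ₁, hG₁, hΓ₁, hdet, heq⟩ := integral_G _ G hG hΓ
  choose P hP using fun i j => exists_inc (G₁ i j) (hG₁ i j)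
  choose M hM using fun i j => exists_inc (Γ₁ i j) (hΓ₁ i j)
  have hP' : (Matrix.of P).map (inc : PowerSeries ℂ →+* LC) = G₁ := Matrix.ext hP
  have hM' : (Matrix.of M).map (inc : PowerSeries ℂ →+* LC) = Γ₁ := Matrix.ext hM
  have hι : ∀ c, (inc (PowerSeries.C c) : LC) = algebraMap ℂ LC c := by
    intro c
    refine (inc_C c).trans ?_
    show HahnSeries.C c = HahnSeries.ofPowerSeries ℤ ℂ (algebraMap ℂ (PowerSeries ℂ) c)
    exact (HahnSeries.ofPowerSeries_C c).symm
  refine ⟨Matrix.of P, Matrix.of M, ?_, ?_⟩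
  · intro h0
    apply hdet
    rw [← hP']
    have h1 := RingHom.map_det (inc : PowerSeries ℂ →+* LC) (Matrix.of P)
    rw [h0, map_zero] at h1
    exact h1.symm
  · rw [← hP', ← hM'] at heq
    refine core_eq dO inc inc_injective dO_inc _ _ _ heq _ _ ?_
    intro i l
    have e1 := fun f => aeval_ι (L := LC) inc hι (vec U) f
    have hd : MvPolynomial.aeval (fun l => (inc (vec U l) : LC)) (dpol e) ≠ 0 := by
      rw [e1]
      intro h0
      exact dpol_ne U C B e v hode hcomm he hkry (inc_injective (h0.trans (map_zero _).symm))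
    have hH : MvPolynomial.aeval (fun l => (inc (vec U l) : LC)) (Hpol B e v i) =
        MvPolynomial.aeval (fun l => (inc (vec U l) : LC)) (dpol e) *
          inc (PowerSeries.derivative ℂ (vec U i)) := by
      rw [e1, e1, ← pol_ode U C B e v hode hcomm he hkry i]
      exact map_mul _ _ _
    have h2 := Alin_mul B e v (fun l => (inc (vec U l) : LC)) (mo 1) _ i l hd hH
    rw [e1, e1, e1] at h2
    refine h2.trans ?_
    have h3 : (mo 1 : LC) = inc PowerSeries.X := by
      have h4 := inc_X_pow (K := ℂ) 1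
      rw [pow_one] at h4
      exact h4.symm
    rw [h3, map_sub, map_mul, map_mul, map_mul]

end Pool.Agent.Helper84.CV
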