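import Pool.Agent.Helper84.CV.PsiB

/-!
# CV-UpB: the inclusion `up : ℂ((τ)) → ℂ(w)((τ))` and the variations of the connection form

Plan: coefficients (`tw_coeff`, `ram_coeff_mul`, `ram_coeff_of_not_dvd`, `inc_coeff_nat`, `inc_coeff_neg`), `dO_tw`,
`dI_coeff`, `rD_const`. `map_inv_up` etc. are consequences. `Lin`: `λ = C X` is transcendental over `ℂ((τ))`: the
coefficient of index `i` of `∑_c λ^c up (H c)` is the polynomial `∑_c (H c).coeff i X^c` in `ℂ(w)`.
-/

set_option autoImplicit false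

open Matrix

namespace Pool.Agent.Helper84.CV

private theorem upb_id (c : ℂ) : algebraMap ℂ ℂ c = c := rfl

private theorem upb_coeff_sum {K α : Type} [Field K] (s : Finset α) (f : α → LaurentSeries K)
    (j : ℤ) : (∑ i ∈ s, f i).coeff j = ∑ i ∈ s, (f i).coeff j := by
  classical
  induction s using Finset.induction_on with
  | empty => rw [Finset.sum_empty, Finset.sum_empty, HahnSeries.coeff_zero]
  | insert a s ha ih =>
    rw [Finset.sum_insert ha, Finset.sum_insert ha, HahnSeries.coeff_add, ih]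

private theorem upb_C_coeff {K : Type} [Field K] (c : K) (j : ℤ) :
    (HahnSeries.C c : LaurentSeries K).coeff j = if j = 0 then c else 0 := by
  have h := coeff_C_mul c (mo 0) j
  rw [mo_zero, mul_one, HahnSeries.coeff_one] at h
  rw [h]
  split_ifs
  · rw [mul_one]
  · rw [mul_zero]

theorem up_coeff (z : LC) (j : ℤ) : (up z).coeff j = algebraMap ℂ (RatFunc ℂ) (z.coeff j) := by
  have h := tw_coeff (algebraMap ℂ (RatFunc ℂ)) 1 z j
  rw [_root_.one_zpow, Units.val_one, mul_one] at h
  exact h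

theorem up_injective : Function.Injective up := by
  intro a b hab
  refine HahnSeries.ext (funext fun j => ?_)
  have h := congrArg (fun z : FF => z.coeff j) hab
  simp only [up_coeff] at h
  exact (algebraMap ℂ (RatFunc ℂ)).injective h

theorem up_inc (N : ℕ) [NeZero N] (z : PowerSeries ℂ) : up (ram N (inc z)) = ram N (inc z) := by
  refine HahnSeries.ext (funext fun j => ?_)
  rw [up_coeff]
  by_cases h : (N : ℤ) ∣ j
  · obtain ⟨i, rfl⟩ := h
    rw [ram_coeff_mul, ram_coeff_mul]
    rcases lt_or_ge i 0 with hi | hi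
    · rw [inc_coeff_neg z i hi, inc_coeff_neg z i hi, map_zero]
    · obtain ⟨m, rfl⟩ := Int.eq_ofNat_of_zero_le hi
      rw [inc_coeff_nat, inc_coeff_nat]
      rfl
  · rw [ram_coeff_of_not_dvd _ _ _ h, ram_coeff_of_not_dvd _ _ _ h, map_zero]

theorem up_mo (m : ℤ) : up (mo m) = mo m := by
  refine HahnSeries.ext (funext fun j => ?_)
  rw [up_coeff, mo_coeff, mo_coeff]
  split_ifs
  · rw [map_one]
  · rw [map_zero]

theorem up_C (c : ℂ) : up (HahnSeries.C c) = HahnSeries.C (algebraMap ℂ (RatFunc ℂ) c) := by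
  refine HahnSeries.ext (funext fun j => ?_)
  rw [up_coeff, upb_C_coeff, upb_C_coeff]
  split_ifs
  · rfl
  · rw [map_zero]

theorem VGE_up (a : ℤ) (z : LC) : VGE a (up z) ↔ VGE a z := by
  constructor
  · intro h j hj
    have h1 := h j hj
    rw [up_coeff] at h1
    exact (map_eq_zero _).1 h1
  · intro h j hj
    rw [up_coeff, h j hj, map_zero]

theorem dO_up (z : LC) : dO (up z) = up (dO z) :=
  dO_tw _ _ z

theorem dI_up (z : LC) : dI rD (up z) = 0 := by
  refine HahnSeries.ext (funext fun j => ?_)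
  rw [dI_coeff, up_coeff, rD_const]
  rfl

theorem Lin (m : ℕ) (H : Fin m → LC)
    (h : ∑ c : Fin m, (HahnSeries.C (RatFunc.X : RatFunc ℂ) : FF) ^ (c : ℕ) * up (H c) = 0) : H = 0 := by
  funext c0
  refine HahnSeries.ext (funext fun j => ?_)
  have h1 := congrArg (fun z : FF => z.coeff j) h
  simp only [upb_coeff_sum, HahnSeries.coeff_zero] at h1
  have h2 : ∀ c : Fin m, ((HahnSeries.C (RatFunc.X : RatFunc ℂ) : FF) ^ (c : ℕ) *
      up (H c)).coeff j = algebraMap (Polynomial ℂ) (RatFunc ℂ)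
        (Polynomial.X ^ (c : ℕ) * Polynomial.C ((H c).coeff j)) := by
    intro c
    rw [← map_pow, coeff_C_mul, up_coeff, map_mul, map_pow, RatFunc.algebraMap_X]
    congr 1
  rw [Finset.sum_congr rfl fun c _ => h2 c, ← map_sum] at h1
  have h3 : ∑ c : Fin m, (Polynomial.X ^ (c : ℕ) * Polynomial.C ((H c).coeff j) :
      Polynomial ℂ) = 0 := by
    apply RatFunc.algebraMap_injective ℂ
    rw [h1, map_zero]
  have h4 := congrArg (fun q : Polynomial ℂ => q.coeff (c0 : ℕ)) h3
  simp only [Polynomial.finsetSum_coeff, Polynomial.coeff_mul_C, Polynomial.coeff_X_pow,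
    Polynomial.coeff_zero] at h4
  rw [Finset.sum_eq_single c0] at h4
  · rw [if_pos rfl, one_mul] at h4
    rw [h4]
    rfl
  · intro c _ hc
    rw [if_neg (fun h5 => hc (Fin.ext h5.symm)), zero_mul]
  · intro hc
    exact absurd (Finset.mem_univ _) hc

namespace LD

variable {n : ℕ} (D : LD n) (N : ℕ) [NeZero N]

theorem UK_up : (D.UK N ℂ).map up = D.UK N (RatFunc ℂ) := by
  ext i j
  rw [Matrix.map_apply, UK, UK, Matrix.map_apply, Matrix.map_apply, up_inc]

theorem SK_up : (D.SK N ℂ).map up = D.SK N (RatFunc ℂ) := by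
  ext i j
  rw [Matrix.map_apply, SK, SK, Matrix.map_apply, Matrix.map_apply, map_mul, map_natCast, up_inc]

theorem BK_up : (D.BK ℂ).map up = D.BK (RatFunc ℂ) := by
  ext i j
  rw [Matrix.map_apply, BK, BK, Matrix.map_apply, Matrix.map_apply, up_C]
  rfl

end LD

namespace MD

variable {n : ℕ} {D : LD n} {N : ℕ} [NeZero N] {e : Fin n → ℂ} (M : MD D N e) (l : List ℂ)

/-- the variation of the connection form, direction `τ d/dτ` -/
noncomputable def eta1 (j : Fin M.r) : Matrix (Fin n) (Fin n) FF :=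
  (dO (LD.lamN N l) • (1 : Matrix (Fin n) (Fin n) FF) - D.SK N (RatFunc ℂ)) * D.RN N l *
    (M.X j).map up * D.RN N l * D.BK (RatFunc ℂ) - (M.Y j).map up * D.RN N l * D.BK (RatFunc ℂ)

/-- the variation of the connection form, direction `d/dw` -/
noncomputable def eta2 (j : Fin M.r) : Matrix (Fin n) (Fin n) FF :=
  dI rD (LD.lamN N l) • (D.RN N l * (M.X j).map up * D.RN N l * D.BK (RatFunc ℂ))

/-- the `k_j` are the solutions on the disc `l` -/
def IsSol (k : Fin M.r → Matrix (Fin n) (Fin n) FF) : Prop :=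
  IsS dO (D.A1 N l) (mo (M.p : ℤ)) (M.Th.map up) (M.eta1 l) k ∧
    IsS (dI rD) (D.A2 N l) 1 0 (M.eta2 l) k

end MD

end Pool.Agent.Helper84.CV
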