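import Pool.Agent.Helper84.CV.CycA

/-!
# CV-VarS: the polynomial system and its variation

Unknowns: the entries of an `n × n` matrix, indexed by `Fin (n * n)` through `finProdFinEquiv`. The system is
`d(Y) Y' = H(Y)`, `d = det kry(U, e)`, `H = Chat + [Chat, B]`, `Chat = chat U e v`.

Plan. `Alin B e v Y z = -z (d H_(i,l) - d_l H_i) / d²` is `-z` times the matrix of the derivative of `H / d`.
Let `D f = ∑_l (∂_l f)(Y) x_l` be the directional derivative. The map `f ↦ f(Y) + ε D f` from `MvPolynomial` to the dual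
numbers `L[ε]` (`DualNumber L`) is a ring homomorphism (`MvPolynomial.aeval` at `Y + ε x`; compare the second components
by `MvPolynomial.induction_on`, both are derivations over `aeval Y`); call it `φ`. Apply `φ` to the identities `chat_comm`
and `chat_unit` for the generic matrix (`Ug n`): with `φ (Ug) = U + ε X`, `φ (Cpol) = Chat + ε C'`, `φ (dpol) = d + ε d'`:
`X Chat + U C' = C' U + Chat X` and `C' e = d' v`. Put `Z = d⁻¹ C' - d⁻² d' Chat`. Then `X C + U Z = Z U + C X` for
`C = d⁻¹ Chat` (as `U Chat = Chat U`), `Z e = d⁻¹ d' v - d⁻² d' d v = 0`, and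
`d (D H_l) - d' H_l = d² (Z + [Z, B])_l` by linearity of `H` in `Chat`.
`Alin_map`: naturality for homomorphisms of `ℂ`-algebras which are fields. `Hpol_shift`: `[Chat, κ] = 0`.
-/

set_option autoImplicit false

open Matrix

namespace Pool.Agent.Helper84.CV

/-- the square matrix with the entries `y` -/
def mat {A : Type} {n : ℕ} (y : Fin (n * n) → A) : Matrix (Fin n) (Fin n) A :=
  Matrix.of fun i j => y (finProdFinEquiv (i, j))

/-- the entries of a square matrix -/
def vec {A : Type} {n : ℕ} (M : Matrix (Fin n) (Fin n) A) (l : Fin (n * n)) : A :=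
  M (finProdFinEquiv.symm l).1 (finProdFinEquiv.symm l).2

theorem mat_vec {A : Type} {n : ℕ} (M : Matrix (Fin n) (Fin n) A) : mat (vec M) = M := by
  ext i j
  simp [mat, vec]

theorem vec_mat {A : Type} {n : ℕ} (y : Fin (n * n) → A) : vec (mat y) = y := by
  ext l
  simp only [mat, vec, Matrix.of_apply]
  rw [Prod.mk.eta, Equiv.apply_symm_apply]

section system

variable {n : ℕ} (B : Matrix (Fin n) (Fin n) ℂ) (e v : Fin n → ℂ)

/-- the generic matrix -/
noncomputable def Ug (n : ℕ) : Matrix (Fin n) (Fin n) (MvPolynomial (Fin (n * n)) ℂ) :=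
  mat MvPolynomial.X

/-- `det kry(U, e)` -/
noncomputable def dpol : MvPolynomial (Fin (n * n)) ℂ :=
  (kry (Ug n) (fun i => MvPolynomial.C (e i))).det

/-- `chat U e v` -/
noncomputable def Cpol : Matrix (Fin n) (Fin n) (MvPolynomial (Fin (n * n)) ℂ) :=
  chat (Ug n) (fun i => MvPolynomial.C (e i)) (fun i => MvPolynomial.C (v i))

/-- the right side of the system -/
noncomputable def Hpol : Fin (n * n) → MvPolynomial (Fin (n * n)) ℂ :=
  vec (Cpol e v + (Cpol e v * B.map MvPolynomial.C - B.map MvPolynomial.C * Cpol e v))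

theorem Hpol_shift (κ : ℂ) : Hpol (B + κ • (1 : Matrix (Fin n) (Fin n) ℂ)) e v = Hpol B e v := by
  have h1 : (B + κ • (1 : Matrix (Fin n) (Fin n) ℂ)).map
      (MvPolynomial.C : ℂ → MvPolynomial (Fin (n * n)) ℂ) =
      B.map MvPolynomial.C + (MvPolynomial.C κ : MvPolynomial (Fin (n * n)) ℂ) •
        (1 : Matrix (Fin n) (Fin n) (MvPolynomial (Fin (n * n)) ℂ)) := by
    ext1 i j
    simp only [Matrix.map_apply, Matrix.add_apply, Matrix.smul_apply, smul_eq_mul, map_add,
      map_mul]
    congr 2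
    by_cases h : i = j
    · subst h
      rw [Matrix.one_apply_eq, Matrix.one_apply_eq, map_one]
    · rw [Matrix.one_apply_ne h, Matrix.one_apply_ne h, map_zero]
  unfold Hpol
  rw [h1]
  congr 2
  rw [mul_add, add_mul, mul_smul_comm, smul_mul_assoc, mul_one, one_mul, add_sub_add_right_eq_sub]

variable {L L' : Type} [Field L] [Field L'] [Algebra ℂ L] [Algebra ℂ L']

/-- evaluation at `Y` as a ring homomorphism -/
private noncomputable def ev (Y : Fin (n * n) → L) : MvPolynomial (Fin (n * n)) ℂ →+* L :=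
  (MvPolynomial.aeval Y : MvPolynomial (Fin (n * n)) ℂ →ₐ[ℂ] L).toRingHom

private theorem Ug_map (Y : Fin (n * n) → L) :
    (Ug n).map (ev Y) = mat Y := by
  ext i j
  simp only [Ug, mat, Matrix.map_apply, Matrix.of_apply]
  exact MvPolynomial.aeval_X Y _

private theorem C_map (Y : Fin (n * n) → L) (a : ℂ) :
    (ev Y) (MvPolynomial.C a) =
      algebraMap ℂ L a := MvPolynomial.aeval_C Y a

private theorem B_map (B : Matrix (Fin n) (Fin n) ℂ) (Y : Fin (n * n) → L) :
    (B.map (MvPolynomial.C : ℂ → MvPolynomial (Fin (n * n)) ℂ)).map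
      (ev Y) = B.map (algebraMap ℂ L) := by
  ext i j
  exact C_map Y _

private theorem Cpol_map (Y : Fin (n * n) → L) :
    (Cpol e v).map (ev Y) =
      chat (mat Y) (fun i => algebraMap ℂ L (e i)) (fun i => algebraMap ℂ L (v i)) := by
  unfold Cpol
  rw [chat_map, Ug_map]
  simp only [C_map]

theorem aeval_dpol (Y : Fin (n * n) → L) : MvPolynomial.aeval Y (dpol e) =
    (kry (mat Y) (fun i => algebraMap ℂ L (e i))).det := by
  have h1 := RingHom.map_det (ev Y)
    (kry (Ug n) (fun i => MvPolynomial.C (e i)))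
  have h2 : (ev Y).mapMatrix
      (kry (Ug n) (fun i => MvPolynomial.C (e i))) =
      kry (mat Y) (fun i => algebraMap ℂ L (e i)) := by
    rw [RingHom.mapMatrix_apply, kry_map, Ug_map]
    simp only [C_map]
  rw [h2] at h1
  exact h1

theorem aeval_Hpol (Y : Fin (n * n) → L) (l : Fin (n * n)) :
    MvPolynomial.aeval Y (Hpol B e v l) =
    vec (chat (mat Y) (fun i => algebraMap ℂ L (e i)) (fun i => algebraMap ℂ L (v i)) +
      (chat (mat Y) (fun i => algebraMap ℂ L (e i)) (fun i => algebraMap ℂ L (v i)) *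
        B.map (algebraMap ℂ L) - B.map (algebraMap ℂ L) *
        chat (mat Y) (fun i => algebraMap ℂ L (e i)) (fun i => algebraMap ℂ L (v i)))) l := by
  rw [← Cpol_map, ← B_map B Y, ← Matrix.map_mul, ← Matrix.map_mul,
    ← Matrix.map_sub _ (map_sub _), ← Matrix.map_add _ (map_add _)]
  rfl

/-- minus `z` times the derivative of `H / d` at `Y` -/
noncomputable def Alin (Y : Fin (n * n) → L) (z : L) : Matrix (Fin (n * n)) (Fin (n * n)) L :=
  Matrix.of fun i l => -(z * (MvPolynomial.aeval Y (dpol e) *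
      MvPolynomial.aeval Y (MvPolynomial.pderiv l (Hpol B e v i)) -
      MvPolynomial.aeval Y (MvPolynomial.pderiv l (dpol e)) *
      MvPolynomial.aeval Y (Hpol B e v i)) / MvPolynomial.aeval Y (dpol e) ^ 2)

theorem Alin_map (φ : L →+* L') (hφ : ∀ a : ℂ, φ (algebraMap ℂ L a) = algebraMap ℂ L' a)
    (Y : Fin (n * n) → L) (z : L) :
    (Alin B e v Y z).map φ = Alin B e v (fun l => φ (Y l)) (φ z) := by
  have h1 : ∀ p : MvPolynomial (Fin (n * n)) ℂ, φ (MvPolynomial.aeval Y p) =
      MvPolynomial.aeval (fun l => φ (Y l)) p := by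
    intro p
    exact MvPolynomial.comp_aeval_apply (f := Y) { φ with commutes' := hφ } p
  ext i l
  simp only [Alin, Matrix.map_apply, Matrix.of_apply]
  rw [map_neg, map_div₀, map_mul, map_sub, map_mul, map_mul, map_pow, h1, h1, h1, h1]

theorem Alin_smul (Y : Fin (n * n) → L) (z c : L) :
    c • Alin B e v Y z = Alin B e v Y (c * z) := by
  ext i l
  simp only [Alin, Matrix.smul_apply, Matrix.of_apply, smul_eq_mul]
  ring

/-- the directional derivative at `Y` in the direction `x` -/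
private noncomputable def dd (Y x : Fin (n * n) → L) : MvPolynomial (Fin (n * n)) ℂ →+ L where
  toFun f := ∑ l, MvPolynomial.aeval Y (MvPolynomial.pderiv l f) * x l
  map_zero' := by simp
  map_add' f g := by simp [add_mul, Finset.sum_add_distrib]

private theorem dd_apply (Y x : Fin (n * n) → L) (f : MvPolynomial (Fin (n * n)) ℂ) :
    dd Y x f = ∑ l, MvPolynomial.aeval Y (MvPolynomial.pderiv l f) * x l := rfl

private theorem dd_mul (Y x : Fin (n * n) → L) (f g : MvPolynomial (Fin (n * n)) ℂ) :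
    dd Y x (f * g) = MvPolynomial.aeval Y f * dd Y x g + dd Y x f * MvPolynomial.aeval Y g := by
  rw [dd_apply, dd_apply, dd_apply, Finset.mul_sum, Finset.sum_mul, ← Finset.sum_add_distrib]
  refine Finset.sum_congr rfl fun l _ => ?_
  rw [Derivation.leibniz, smul_eq_mul, smul_eq_mul, map_add, map_mul, map_mul]
  ring

private theorem dd_C (Y x : Fin (n * n) → L) (a : ℂ) : dd Y x (MvPolynomial.C a) = 0 := by
  rw [dd_apply]
  refine Finset.sum_eq_zero fun l _ => ?_
  rw [MvPolynomial.pderiv_C, map_zero, zero_mul]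

private theorem dd_X (Y x : Fin (n * n) → L) (m : Fin (n * n)) :
    dd Y x (MvPolynomial.X m) = x m := by
  classical
  rw [dd_apply, Finset.sum_eq_single m]
  · rw [MvPolynomial.pderiv_X_self, map_one, one_mul]
  · intro l _ hl
    rw [MvPolynomial.pderiv_X_of_ne (Ne.symm hl), map_zero, zero_mul]
  · intro h
    exact absurd (Finset.mem_univ m) h

private theorem dd_matmul (Y x : Fin (n * n) → L)
    (M N : Matrix (Fin n) (Fin n) (MvPolynomial (Fin (n * n)) ℂ)) :
    (M * N).map (dd Y x) = M.map (ev Y) *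
      N.map (dd Y x) + M.map (dd Y x) *
        N.map (ev Y) := by
  ext i j
  rw [Matrix.map_apply, Matrix.mul_apply, map_sum, Matrix.add_apply, Matrix.mul_apply,
    Matrix.mul_apply, ← Finset.sum_add_distrib]
  refine Finset.sum_congr rfl fun k _ => ?_
  rw [dd_mul]
  rfl

private theorem dd_Cmat (B : Matrix (Fin n) (Fin n) ℂ) (Y x : Fin (n * n) → L) :
    (B.map (MvPolynomial.C : ℂ → MvPolynomial (Fin (n * n)) ℂ)).map (dd Y x) = 0 := by
  ext i j
  exact dd_C Y x _

private theorem dd_Ug (Y x : Fin (n * n) → L) : (Ug n).map (dd Y x) = mat x := by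
  ext i j
  exact dd_X Y x _

theorem exists_variation (Y x : Fin (n * n) → L) (hd : MvPolynomial.aeval Y (dpol e) ≠ 0)
    (z : L) :
    ∃ Z : Matrix (Fin n) (Fin n) L,
      (mat x * ((MvPolynomial.aeval Y (dpol e))⁻¹ • chat (mat Y) (fun i => algebraMap ℂ L (e i))
          (fun i => algebraMap ℂ L (v i))) + mat Y * Z =
        Z * mat Y + ((MvPolynomial.aeval Y (dpol e))⁻¹ • chat (mat Y)
          (fun i => algebraMap ℂ L (e i)) (fun i => algebraMap ℂ L (v i))) * mat x) ∧
      Z.mulVec (fun i => algebraMap ℂ L (e i)) = 0 ∧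
      mat ((Alin B e v Y z).mulVec x) =
        -(z • (Z + (Z * B.map (algebraMap ℂ L) - B.map (algebraMap ℂ L) * Z))) := by
  obtain ⟨d, hdd⟩ : ∃ d : L, d = MvPolynomial.aeval Y (dpol e) := ⟨_, rfl⟩
  obtain ⟨d', hd'⟩ : ∃ d' : L, d' = dd Y x (dpol e) := ⟨_, rfl⟩
  obtain ⟨Ch, hCh⟩ : ∃ Ch : Matrix (Fin n) (Fin n) L, Ch = chat (mat Y)
    (fun i => algebraMap ℂ L (e i)) (fun i => algebraMap ℂ L (v i)) := ⟨_, rfl⟩
  obtain ⟨C', hC'⟩ : ∃ C' : Matrix (Fin n) (Fin n) L, C' = (Cpol e v).map (dd Y x) := ⟨_, rfl⟩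
  obtain ⟨BL, hBL⟩ : ∃ BL : Matrix (Fin n) (Fin n) L, BL = B.map (algebraMap ℂ L) := ⟨_, rfl⟩
  have hCm : (Cpol e v).map (ev Y) = Ch := by
    rw [Cpol_map, hCh]
  -- the commutation relations
  have c0 : mat Y * Ch = Ch * mat Y := by
    rw [hCh]
    exact chat_comm _ _ _
  have c1 : mat Y * C' + mat x * Ch = Ch * mat x + C' * mat Y := by
    have h1 : Ug n * Cpol e v = Cpol e v * Ug n := chat_comm _ _ _
    have h2 : (Ug n * Cpol e v).map (dd Y x) = (Cpol e v * Ug n).map (dd Y x) := by rw [h1]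
    rw [dd_matmul, dd_matmul, Ug_map, dd_Ug, hCm, ← hC'] at h2
    exact h2
  -- the unit
  have u0 : Ch.mulVec (fun i => algebraMap ℂ L (e i)) = d • (fun i => algebraMap ℂ L (v i)) := by
    rw [hCh, hdd, aeval_dpol]
    exact chat_unit _ _ _
  have u1 : C'.mulVec (fun i => algebraMap ℂ L (e i)) = d' • (fun i => algebraMap ℂ L (v i)) := by
    have h1 : (Cpol e v).mulVec (fun i => MvPolynomial.C (e i)) =
        dpol e • (fun i => MvPolynomial.C (v i)) := chat_unit _ _ _
    funext i
    have h2 := congrArg (dd Y x) (congrFun h1 i)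
    rw [Matrix.mulVec, dotProduct, map_sum, Pi.smul_apply, smul_eq_mul, dd_mul, dd_C, mul_zero,
      zero_add, ← hd', MvPolynomial.aeval_C] at h2
    rw [Matrix.mulVec, dotProduct, Pi.smul_apply, smul_eq_mul, ← h2]
    refine Finset.sum_congr rfl fun j _ => ?_
    rw [dd_mul, dd_C, mul_zero, zero_add, MvPolynomial.aeval_C, hC']
    rfl
  -- the derivative of `H`
  have hH : ∀ i, dd Y x (Hpol B e v i) = vec (C' + (C' * BL - BL * C')) i := by
    intro i
    have h1 : (Cpol e v + (Cpol e v * B.map MvPolynomial.C - B.map MvPolynomial.C *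
        Cpol e v)).map (dd Y x) = C' + (C' * BL - BL * C') := by
      rw [Matrix.map_add _ (map_add _), Matrix.map_sub _ (map_sub _), dd_matmul, dd_matmul,
        dd_Cmat, B_map, mul_zero, zero_mul, zero_add, add_zero, ← hC', ← hBL]
    rw [← h1]
    rfl
  have hHY : ∀ i, MvPolynomial.aeval Y (Hpol B e v i) = vec (Ch + (Ch * BL - BL * Ch)) i := by
    intro i
    rw [aeval_Hpol, hCh, hBL]
  rw [← hdd] at hd
  rw [← hdd, ← hCh, ← hBL]
  refine ⟨d⁻¹ • C' - (d⁻¹ ^ 2 * d') • Ch, ?_, ?_, ?_⟩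
  · rw [mul_smul_comm, mul_sub, sub_mul, mul_smul_comm, mul_smul_comm, smul_mul_assoc,
      smul_mul_assoc, smul_mul_assoc, c0]
    have h1 : d⁻¹ • (mat Y * C' + mat x * Ch) = d⁻¹ • (Ch * mat x + C' * mat Y) := by rw [c1]
    rw [smul_add, smul_add] at h1
    have h2 : d⁻¹ • (mat x * Ch) + (d⁻¹ • (mat Y * C') - (d⁻¹ ^ 2 * d') • (Ch * mat Y)) =
        (d⁻¹ • (mat Y * C') + d⁻¹ • (mat x * Ch)) - (d⁻¹ ^ 2 * d') • (Ch * mat Y) := by abel
    rw [h2, h1]
    abel
  · rw [Matrix.sub_mulVec, Matrix.smul_mulVec, Matrix.smul_mulVec, u0, u1, smul_smul, smul_smul]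
    have h1 : d⁻¹ ^ 2 * d' * d = d⁻¹ * d' := by
      field_simp
    rw [h1, sub_self]
  · have h1 : (Alin B e v Y z).mulVec x = fun i =>
        -(z * (d * dd Y x (Hpol B e v i) - d' * MvPolynomial.aeval Y (Hpol B e v i)) / d ^ 2) := by
      funext i
      rw [Matrix.mulVec, dotProduct, hd', dd_apply, dd_apply, Finset.mul_sum, Finset.sum_mul,
        ← Finset.sum_sub_distrib, Finset.mul_sum, Finset.sum_div, ← Finset.sum_neg_distrib]
      refine Finset.sum_congr rfl fun l _ => ?_
      simp only [Alin, Matrix.of_apply]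
      rw [← hdd]
      ring
    rw [h1]
    ext i j
    simp only [mat, Matrix.of_apply, hH, hHY, vec, Equiv.symm_apply_apply]
    simp only [Matrix.neg_apply, Matrix.smul_apply, Matrix.add_apply, Matrix.sub_apply, sub_mul,
      mul_sub, smul_mul_assoc, mul_smul_comm, smul_eq_mul]
    field_simp
    ring

end system

end Pool.Agent.Helper84.CV
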